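import Pool.Agent.Lib.MP_1bd11d_co.SG.Defs

set_option autoImplicit false

open Finset
open scoped Classical

namespace Pool.Agent.Lib.MP_1bd11d_co.SG

private theorem a1_sum_ep {p : ℕ} [NeZero p] (b : ZMod p) :
    ∑ ξ : ZMod p, ep (ξ * b) = if b = 0 then (p : ℂ) else 0 := by
  have h := AddChar.sum_mulShift (R := ZMod p) (R' := ℂ) (ψ := ZMod.stdAddChar) b
    (ZMod.isPrimitive_stdAddChar p)
  rw [show (∑ ξ : ZMod p, ep (ξ * b)) = ∑ x : ZMod p, (ZMod.stdAddChar (x * b) : ℂ) from rfl, h]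
  split_ifs with hb
  · rw [ZMod.card]
  · simp

private theorem a1_conj_ep {p : ℕ} [NeZero p] (b : ZMod p) :
    (starRingEnd ℂ) (ep b) = ep (-b) := by
  rw [ep, ep, AddChar.map_neg_eq_conj]

private theorem a1_ep_mul {p : ℕ} [NeZero p] (a b : ZMod p) : ep a * ep b = ep (a + b) := by
  rw [ep, ep, ep, AddChar.map_add_eq_mul]

/-- Parseval: expand both transforms, exchange the sums and use
`∑ ξ, ep (ξ * (y - x)) = if x = y then p else 0` (e.g. `AddChar.sum_mulShift` or
`ZMod.isPrimitive_stdAddChar`). -/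
theorem parseval {p : ℕ} [NeZero p] (g h : ZMod p → ℂ) :
    ∑ ξ, ft g ξ * (starRingEnd ℂ) (ft h ξ) = p * ∑ x, g x * (starRingEnd ℂ) (h x) := by
  have h1 : ∀ ξ, ft g ξ * (starRingEnd ℂ) (ft h ξ) =
      ∑ x, ∑ y, g x * (starRingEnd ℂ) (h y) * ep (ξ * (y - x)) := by
    intro ξ
    rw [ft, ft, map_sum, Finset.sum_mul_sum]
    refine Finset.sum_congr rfl fun x _ => Finset.sum_congr rfl fun y _ => ?_
    rw [map_mul, a1_conj_ep, show ξ * (y - x) = -(ξ * x) + -(-(ξ * y)) by ring, ← a1_ep_mul]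
    ring
  rw [Finset.sum_congr rfl fun ξ _ => h1 ξ, Finset.sum_comm, Finset.mul_sum]
  refine Finset.sum_congr rfl fun x _ => ?_
  rw [Finset.sum_comm]
  have h2 : ∀ y, ∑ ξ, g x * (starRingEnd ℂ) (h y) * ep (ξ * (y - x)) =
      if y = x then g x * (starRingEnd ℂ) (h y) * p else 0 := by
    intro y
    rw [← Finset.mul_sum, a1_sum_ep]
    by_cases hy : y = x
    · rw [if_pos (sub_eq_zero.2 hy), if_pos hy]
    · rw [if_neg (fun h => hy (sub_eq_zero.1 h)), if_neg hy, mul_zero]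
  rw [Finset.sum_congr rfl fun y _ => h2 y, Finset.sum_ite_eq' Finset.univ x,
    if_pos (Finset.mem_univ _)]
  ring

theorem parseval_norm {p : ℕ} [NeZero p] (g : ZMod p → ℂ) :
    ∑ ξ, ‖ft g ξ‖ ^ 2 = p * ∑ x, ‖g x‖ ^ 2 := by
  have h := parseval g g
  have h1 : ∀ z : ℂ, z * (starRingEnd ℂ) z = ((‖z‖ ^ 2 : ℝ) : ℂ) := fun z => by
    rw [Complex.mul_conj, Complex.normSq_eq_norm_sq]
  simp only [h1] at h
  exact_mod_cast h

/-- `KH H` is the Fourier transform of the indicator function of `{0, 1, ..., H - 1}`. -/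
theorem KH_sum_sq {p : ℕ} [NeZero p] (H : ℕ) (hH : H ≤ p) :
    ∑ η : ZMod p, ‖KH H η‖ ^ 2 = p * H := by
  have hp : 0 < p := Nat.pos_of_ne_zero (NeZero.ne p)
  have himg : (range H).image (fun i : ℕ => (i : ZMod p)) =
      Finset.univ.filter (fun x : ZMod p => x.val < H) := by
    ext x
    simp only [Finset.mem_image, Finset.mem_range, Finset.mem_filter, Finset.mem_univ, true_and]
    constructor
    · rintro ⟨i, hi, rfl⟩
      rw [ZMod.val_natCast, Nat.mod_eq_of_lt (lt_of_lt_of_le hi hH)]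
      exact hi
    · intro hx
      exact ⟨x.val, hx, by simp⟩
  have hinj : Set.InjOn (fun i : ℕ => (i : ZMod p)) (range H : Set ℕ) := by
    intro i hi j hj hij
    simp only [Finset.coe_range, Set.mem_Iio] at hi hj
    have := congrArg ZMod.val hij
    simpa [ZMod.val_natCast, Nat.mod_eq_of_lt (lt_of_lt_of_le hi hH),
      Nat.mod_eq_of_lt (lt_of_lt_of_le hj hH)] using this
  have hKH : ∀ η : ZMod p, KH H η = ft (fun x : ZMod p => if x.val < H then (1 : ℂ) else 0) η := by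
    intro η
    rw [KH, ft]
    simp only [ite_mul, one_mul, zero_mul]
    rw [← Finset.sum_filter, ← himg, Finset.sum_image hinj]
  simp only [hKH]
  rw [parseval_norm]
  congr 1
  have h1 : ∀ x : ZMod p, ‖(if x.val < H then (1 : ℂ) else 0)‖ ^ 2 =
      if x.val < H then (1 : ℝ) else 0 := by
    intro x; split_ifs <;> simp
  simp only [h1]
  rw [← Finset.sum_filter, ← himg, Finset.sum_const, Finset.card_image_of_injOn hinj,
    Finset.card_range]
  simp

/-- The balanced function: total mass zero and `∑ x, ‖bal S x‖ ^ 2 = |S| (1 - |S| / p)`. -/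
theorem bal_sum {p : ℕ} [NeZero p] (S : Finset (ZMod p)) : ft (bal S) 0 = 0 := by
  have hp : (p : ℂ) ≠ 0 := by exact_mod_cast NeZero.ne p
  rw [ft]
  have h1 : ∀ x : ZMod p, bal S x * ep (-(0 * x)) =
      (if x ∈ S then (1 : ℂ) else 0) - (((S.card : ℝ) / (p : ℝ) : ℝ) : ℂ) := by
    intro x
    rw [zero_mul, neg_zero, ep, AddChar.map_zero_eq_one, mul_one]
    rfl
  rw [Finset.sum_congr rfl fun x _ => h1 x, Finset.sum_sub_distrib, Finset.sum_const,
    Finset.card_univ, ZMod.card, Finset.sum_ite_mem, Finset.univ_inter, Finset.sum_const]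
  push_cast
  rw [nsmul_eq_mul, nsmul_eq_mul]
  field_simp
  ring

theorem bal_sq {p : ℕ} [NeZero p] (S : Finset (ZMod p)) :
    ∑ x, ‖bal S x‖ ^ 2 = (S.card : ℝ) * (1 - (S.card : ℝ) / p) := by
  have hp : (p : ℝ) ≠ 0 := by exact_mod_cast NeZero.ne p
  set c : ℝ := (S.card : ℝ) / (p : ℝ) with hc
  have h1 : ∀ x : ZMod p, ‖bal S x‖ ^ 2 = (if x ∈ S then (1 - 2 * c) else 0) + c ^ 2 := by
    intro x
    have : bal S x = (((if x ∈ S then (1 : ℝ) else 0) - c : ℝ) : ℂ) := by
      rw [bal]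
      push_cast
      split_ifs <;> simp [hc]
    rw [this, Complex.norm_real, Real.norm_eq_abs, sq_abs]
    split_ifs <;> ring
  rw [Finset.sum_congr rfl fun x _ => h1 x, Finset.sum_add_distrib, Finset.sum_const,
    Finset.card_univ, ZMod.card, Finset.sum_ite_mem, Finset.univ_inter, Finset.sum_const,
    nsmul_eq_mul, nsmul_eq_mul, hc]
  field_simp
  ring

end Pool.Agent.Lib.MP_1bd11d_co.SG
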