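import Pool.Agent.Lib.MP_1bd11d_co.SG.Defs

set_option autoImplicit false

open Finset
open scoped Classical

namespace Pool.Agent.Lib.MP_1bd11d_co.SG

/-- The Fourier transform of the average of `g` over the progression `x, x + m, ...,
x + (H-1) m`. -/
theorem ft_avg {p : ℕ} [NeZero p] (g : ZMod p → ℂ) (H : ℕ) (m ξ : ZMod p) :
    ft (fun x => (1 / (H : ℂ)) * ∑ i ∈ range H, g (x + (i : ZMod p) * m)) ξ =
      ft g ξ * ((1 / (H : ℂ)) * (starRingEnd ℂ) (KH H (ξ * m))) := by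
  have hconj : ∀ x : ZMod p, (starRingEnd ℂ) (ep x) = ep (-x) := by
    intro x
    unfold ep
    exact (AddChar.map_neg_eq_conj _ _).symm
  have hadd : ∀ x y : ZMod p, ep (x + y) = ep x * ep y := by
    intro x y
    unfold ep
    exact AddChar.map_add_eq_mul _ _ _
  have h1 : ∀ i : ℕ, ∑ x : ZMod p, g (x + (i : ZMod p) * m) * ep (-(ξ * x)) =
      ft g ξ * ep (ξ * m * (i : ZMod p)) := by
    intro i
    unfold ft
    rw [Finset.sum_mul]
    refine Fintype.sum_equiv (Equiv.addRight ((i : ZMod p) * m)) _ _ ?_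
    intro x
    simp only [Equiv.coe_addRight]
    rw [mul_assoc, ← hadd]
    congr 2
    ring
  have h2 : (starRingEnd ℂ) (KH H (ξ * m)) = ∑ i ∈ range H, ep (ξ * m * (i : ZMod p)) := by
    unfold KH
    rw [map_sum]
    refine Finset.sum_congr rfl fun i _ => ?_
    rw [hconj, neg_neg]
  rw [h2]
  have h3 : ft (fun x => (1 / (H : ℂ)) * ∑ i ∈ range H, g (x + (i : ZMod p) * m)) ξ =
      (1 / (H : ℂ)) * ∑ i ∈ range H, ∑ x : ZMod p, g (x + (i : ZMod p) * m) * ep (-(ξ * x)) := by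
    unfold ft
    rw [Finset.sum_comm, Finset.mul_sum]
    refine Finset.sum_congr rfl fun x _ => ?_
    rw [mul_assoc, Finset.sum_mul]
  rw [h3, Finset.sum_congr rfl (fun i _ => h1 i), ← Finset.mul_sum]
  ring

theorem KH_norm_le {p : ℕ} [NeZero p] (H : ℕ) (η : ZMod p) : ‖KH H η‖ ≤ H := by
  unfold KH
  refine (norm_sum_le _ _).trans ?_
  have h : ∀ i ∈ range H, ‖ep (-(η * (i : ZMod p)))‖ = 1 := by
    intro i _
    unfold ep
    exact AddChar.norm_apply _ _
  rw [Finset.sum_congr rfl h]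
  simp

/-- Geometric sum: with `z = ep (-η) ≠ 1` we have `‖KH H η‖ ≤ 2 / ‖1 - z‖`, and
`‖1 - z‖ = 2 |sin (π n / p)| ≥ 4 |n| / p` for `n = η.valMinAbs`, `|n| ≤ p / 2`. -/
theorem KH_norm_le' {p : ℕ} [NeZero p] (H : ℕ) (η : ZMod p) (hη : η ≠ 0) :
    ‖KH H η‖ ≤ p / (2 * |(η.valMinAbs : ℝ)|) := by
  have hp : (0 : ℝ) < p := by
    have := NeZero.pos p
    exact_mod_cast this
  have hn0 : (η.valMinAbs : ℝ) ≠ 0 := by
    have : η.valMinAbs ≠ 0 := by
      rw [Ne, ZMod.valMinAbs_eq_zero]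
      exact hη
    exact_mod_cast this
  have hnpos : 0 < |(η.valMinAbs : ℝ)| := abs_pos.mpr hn0
  set z : ℂ := ep (-η) with hz
  have hzn : ‖z‖ = 1 := by
    rw [hz]; unfold ep
    exact AddChar.norm_apply _ _
  have hgeom : KH H η = ∑ i ∈ range H, z ^ i := by
    unfold KH
    refine Finset.sum_congr rfl fun i _ => ?_
    rw [hz]
    unfold ep
    rw [← AddChar.map_nsmul_eq_pow]
    congr 1
    rw [nsmul_eq_mul]
    ring
  -- lower bound for `‖z - 1‖`
  have hzexp : z = Complex.exp (Complex.I * ((-(2 * Real.pi * (η.valMinAbs : ℝ) / p) : ℝ) : ℂ)) := by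
    have h0 : (-η : ZMod p) = ((-η.valMinAbs : ℤ) : ZMod p) := by
      rw [Int.cast_neg, ZMod.coe_valMinAbs]
    rw [hz]
    unfold ep
    rw [h0, ZMod.stdAddChar_coe]
    congr 1
    push_cast
    ring
  have hle : |(η.valMinAbs : ℝ)| ≤ p / 2 := by
    have h := ZMod.natAbs_valMinAbs_le η
    have h' : (((η.valMinAbs).natAbs : ℕ) : ℝ) ≤ ((p / 2 : ℕ) : ℝ) := by exact_mod_cast h
    have h'' : ((p / 2 : ℕ) : ℝ) ≤ (p : ℝ) / 2 := Nat.cast_div_le
    have h3 : (((η.valMinAbs).natAbs : ℕ) : ℝ) = |(η.valMinAbs : ℝ)| := by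
      rw [Nat.cast_natAbs]
      push_cast
      rfl
    rw [h3] at h'
    exact h'.trans h''
  have hlow : 4 * |(η.valMinAbs : ℝ)| / p ≤ ‖z - 1‖ := by
    rw [hzexp, Complex.norm_exp_I_mul_ofReal_sub_one]
    rw [Real.norm_eq_abs, abs_mul, abs_of_pos (by norm_num : (0:ℝ) < 2)]
    set t : ℝ := -(2 * Real.pi * (η.valMinAbs : ℝ) / p) / 2 with ht
    have habs : |t| = Real.pi * |(η.valMinAbs : ℝ)| / p := by
      have : t = -(Real.pi * (η.valMinAbs : ℝ) / p) := by rw [ht]; ring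
      rw [this, abs_neg, abs_div, abs_mul, abs_of_pos Real.pi_pos, abs_of_pos hp]
    have htle : |t| ≤ Real.pi / 2 := by
      rw [habs, div_le_iff₀ hp]
      have := mul_le_mul_of_nonneg_left hle Real.pi_pos.le
      linarith
    have hs := Real.mul_abs_le_abs_sin htle
    have h4 : 2 / Real.pi * |t| = 2 * |(η.valMinAbs : ℝ)| / p := by
      rw [habs]
      field_simp
    rw [h4] at hs
    have h5 : 4 * |(η.valMinAbs : ℝ)| / p = 2 * (2 * |(η.valMinAbs : ℝ)| / p) := by ring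
    rw [h5]
    linarith
  have hlowpos : 0 < 4 * |(η.valMinAbs : ℝ)| / p := by positivity
  have hz1 : z ≠ 1 := by
    intro h
    rw [h, sub_self, norm_zero] at hlow
    linarith
  rw [hgeom, geom_sum_eq hz1, norm_div]
  have hnum : ‖z ^ H - 1‖ ≤ 2 := by
    refine (norm_sub_le _ _).trans ?_
    rw [norm_pow, hzn, one_pow, norm_one]
    norm_num
  calc ‖z ^ H - 1‖ / ‖z - 1‖ ≤ 2 / (4 * |(η.valMinAbs : ℝ)| / p) := by
        exact div_le_div₀ (by norm_num) hnum hlowpos hlow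
    _ = p / (2 * |(η.valMinAbs : ℝ)|) := by
        field_simp
        ring

end Pool.Agent.Lib.MP_1bd11d_co.SG
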