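import Pool.Agent.Lib.MP_1bd11d_co.SG.Defs

set_option autoImplicit false

open Finset
open scoped Classical

namespace Pool.Agent.Lib.MP_1bd11d_co.SG

private theorem per_mul (b : ℕ) (w : ℕ → ℝ) (hper : ∀ j, w (j + b) = w j) (m x : ℕ) :
    w (b * m + x) = w x := by
  induction m with
  | zero => simp
  | succ m ih =>
    rw [show b * (m + 1) + x = (b * m + x) + b by ring, hper, ih]

private theorem sum_per (b : ℕ) (w : ℕ → ℝ) (hper : ∀ j, w (j + b) = w j) (ζ : ℂ) (m : ℕ) :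
    ∑ r ∈ range (b * m), ((w r : ℝ) : ℂ) * ζ ^ r =
      (∑ r ∈ range b, ((w r : ℝ) : ℂ) * ζ ^ r) * ∑ q ∈ range m, (ζ ^ b) ^ q := by
  induction m with
  | zero => simp
  | succ m ih =>
    rw [show b * (m + 1) = b * m + b by ring, Finset.sum_range_add, ih, Finset.sum_range_succ,
      mul_add, Finset.sum_mul _ _ ((ζ ^ b) ^ m)]
    congr 1
    refine Finset.sum_congr rfl fun x _ => ?_
    rw [per_mul b w hper m x, pow_add, pow_mul]
    ring

/-- Let `z = ep (-t)` (so that `ep (-(t * r)) = z ^ r`).  If `t` is represented by the integer `τ`,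
then `D τ = n + p k` for an integer `k`.  Put `θ = n / (p D)` and `ζ = z * exp (2 π i θ)
= exp (2 π i (n - D τ) / (p D)) = exp (- 2 π i k / D)`.  Then `ζ ^ D = 1` and
`‖z ^ r - ζ ^ r‖ = ‖1 - exp (2 π i r θ)‖ ≤ 2 π r |θ|`; the sum of these errors over `r < D` is at most
`π D |n| / p`.  The main term `∑ r ∈ range D, w r * ζ ^ r` vanishes: writing `r = r₀ + b q` with
`r₀ < b`, `q < D / b` it equals `(∑ r₀ < b, w r₀ ζ ^ r₀) * ∑ q < D / b, (ζ ^ b) ^ q`, and the
last geometric sum is zero since `(ζ ^ b) ^ (D / b) = 1` and `ζ ^ b ≠ 1`: indeed `ζ ^ b = 1` means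
`D ∣ b k`, i.e. `(D / b) ∣ k`, and then `(D / b) ∣ D τ - p k = n`, contradiction. -/
theorem root_sum {p : ℕ} [NeZero p] (D b : ℕ) (hD : 0 < D) (hb : b ∣ D) (w : ℕ → ℝ)
    (hw0 : ∀ j, 0 ≤ w j) (hw1 : ∀ j, w j ≤ 1) (hper : ∀ j, w (j + b) = w j)
    (t : ZMod p) (n : ℤ) (hn : (D : ZMod p) * t = (n : ZMod p))
    (hnd : ¬ ((D / b : ℕ) : ℤ) ∣ n) :
    ‖∑ r ∈ range D, ((w r : ℝ) : ℂ) * ep (-(t * (r : ZMod p)))‖ ≤
      Real.pi * D * |(n : ℝ)| / p := by
  obtain ⟨m, hm⟩ := hb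
  have hb0 : 0 < b := by
    rcases Nat.eq_zero_or_pos b with h | h
    · subst h; simp at hm; omega
    · exact h
  have hm0 : 0 < m := by
    rcases Nat.eq_zero_or_pos m with h | h
    · subst h; simp at hm; omega
    · exact h
  have hdiv : D / b = m := by rw [hm]; exact Nat.mul_div_cancel_left m hb0
  rw [hdiv] at hnd
  have hp0 : 0 < p := Nat.pos_of_ne_zero (NeZero.ne p)
  have hpR : (0 : ℝ) < p := by exact_mod_cast hp0
  have hpC : (p : ℂ) ≠ 0 := by exact_mod_cast hp0.ne'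
  have hDR : (0 : ℝ) < D := by exact_mod_cast hD
  have hDC : (D : ℂ) ≠ 0 := by exact_mod_cast hD.ne'
  -- the representative
  obtain ⟨τ, hτ⟩ : ∃ τ : ℤ, (τ : ZMod p) = t := ⟨(t.val : ℤ), by simp⟩
  have hdvd : (p : ℤ) ∣ (D : ℤ) * τ - n := by
    rw [← ZMod.intCast_zmod_eq_zero_iff_dvd ((D : ℤ) * τ - n) p]
    push_cast
    rw [hτ, hn, sub_self]
  obtain ⟨k, hk⟩ := hdvd
  set z : ℂ := ep (-t) with hz
  have hzr : ∀ r : ℕ, ep (-(t * (r : ZMod p))) = z ^ r := by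
    intro r
    rw [hz]
    unfold ep
    rw [← AddChar.map_nsmul_eq_pow]
    congr 1
    rw [nsmul_eq_mul]; ring
  have hzexp : z = Complex.exp (2 * Real.pi * Complex.I * (-(τ : ℂ)) / p) := by
    rw [hz]
    unfold ep
    rw [← hτ, ← Int.cast_neg, ZMod.stdAddChar_coe]
    push_cast
    ring_nf
  set θ : ℝ := (n : ℝ) / (p * D) with hθ
  set ζ : ℂ := Complex.exp (2 * Real.pi * Complex.I * (-(k : ℂ)) / D) with hζ
  have hzζ : z * Complex.exp (((2 * Real.pi * θ : ℝ) : ℂ) * Complex.I) = ζ := by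
    rw [hzexp, hζ, ← Complex.exp_add]
    congr 1
    rw [hθ]
    push_cast
    have hk' : (D : ℂ) * τ - n = p * k := by exact_mod_cast congrArg (fun a : ℤ => (a : ℂ)) hk
    field_simp
    linear_combination (-1 : ℂ) * hk'
  have hznorm : ‖z‖ = 1 := by
    rw [hz]; unfold ep; exact AddChar.norm_apply _ _
  have hζD : ζ ^ D = 1 := by
    rw [hζ, ← Complex.exp_nat_mul, Complex.exp_eq_one_iff]
    refine ⟨-k, ?_⟩
    push_cast
    field_simp
  have hζb : ζ ^ b ≠ 1 := by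
    intro h
    rw [hζ, ← Complex.exp_nat_mul, Complex.exp_eq_one_iff] at h
    obtain ⟨k', hk'⟩ := h
    apply hnd
    have hbC : (b : ℂ) ≠ 0 := by exact_mod_cast hb0.ne'
    have hmC : (m : ℂ) ≠ 0 := by exact_mod_cast hm0.ne'
    have hpi : (2 * Real.pi * Complex.I : ℂ) ≠ 0 := Complex.two_pi_I_ne_zero
    have h1 : (2 * Real.pi * Complex.I : ℂ) * (-(k : ℂ)) = (2 * Real.pi * Complex.I : ℂ) * (k' * m) := by
      have hDm : (D : ℂ) = b * m := by exact_mod_cast hm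
      rw [hDm] at hk'
      field_simp at hk'
      linear_combination (2 * Real.pi * Complex.I : ℂ) * hk'
    have h2 : -(k : ℂ) = k' * m := mul_left_cancel₀ hpi h1
    have h3 : -k = k' * (m : ℤ) := by exact_mod_cast h2
    have h4 : (m : ℤ) ∣ k := by
      rw [← Int.dvd_neg, h3]; exact Dvd.intro_left k' rfl
    have h5 : n = (D : ℤ) * τ - p * k := by linarith
    rw [h5, hm]
    push_cast
    exact dvd_sub (Dvd.dvd.mul_right (Dvd.intro_left _ rfl) _) (Dvd.dvd.mul_left h4 _)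
  have hmain : ∑ r ∈ range D, ((w r : ℝ) : ℂ) * ζ ^ r = 0 := by
    rw [hm, sum_per b w hper ζ m]
    have : ∑ q ∈ range m, (ζ ^ b) ^ q = 0 := by
      rw [geom_sum_eq hζb, ← pow_mul, ← hm, hζD]
      simp
    rw [this, mul_zero]
  have herr : ∀ r : ℕ, ‖z ^ r - ζ ^ r‖ ≤ 2 * Real.pi * |θ| * r := by
    intro r
    have h1 : ζ ^ r = z ^ r * Complex.exp (((2 * Real.pi * θ * r : ℝ) : ℂ) * Complex.I) := by
      rw [← hzζ, mul_pow, ← Complex.exp_nat_mul]
      congr 2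
      push_cast; ring
    rw [h1, show z ^ r - z ^ r * Complex.exp (((2 * Real.pi * θ * r : ℝ) : ℂ) * Complex.I) =
      z ^ r * (1 - Complex.exp (((2 * Real.pi * θ * r : ℝ) : ℂ) * Complex.I)) by ring, norm_mul,
      norm_pow, hznorm, one_pow, one_mul, norm_sub_rev]
    have h2 := Real.norm_exp_I_mul_ofReal_sub_one_le (x := 2 * Real.pi * θ * r)
    rw [mul_comm Complex.I] at h2
    refine h2.trans (le_of_eq ?_)
    rw [Real.norm_eq_abs, abs_mul, abs_mul, abs_mul, abs_of_pos (by norm_num : (0:ℝ) < 2),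
      abs_of_pos Real.pi_pos, abs_of_nonneg (Nat.cast_nonneg r : (0:ℝ) ≤ (r : ℝ))]
  have hsum : ∑ r ∈ range D, ((w r : ℝ) : ℂ) * ep (-(t * (r : ZMod p))) =
      ∑ r ∈ range D, ((w r : ℝ) : ℂ) * (z ^ r - ζ ^ r) := by
    rw [← sub_zero (∑ r ∈ range D, ((w r : ℝ) : ℂ) * ep (-(t * (r : ZMod p)))), ← hmain,
      ← Finset.sum_sub_distrib]
    refine Finset.sum_congr rfl fun r _ => ?_
    rw [hzr]; ring
  rw [hsum]
  calc ‖∑ r ∈ range D, ((w r : ℝ) : ℂ) * (z ^ r - ζ ^ r)‖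
      ≤ ∑ r ∈ range D, ‖((w r : ℝ) : ℂ) * (z ^ r - ζ ^ r)‖ := norm_sum_le _ _
    _ ≤ ∑ r ∈ range D, 2 * Real.pi * |θ| * r := by
        refine Finset.sum_le_sum fun r _ => ?_
        rw [norm_mul, Complex.norm_real, Real.norm_eq_abs, abs_of_nonneg (hw0 r)]
        calc w r * ‖z ^ r - ζ ^ r‖ ≤ 1 * ‖z ^ r - ζ ^ r‖ :=
              mul_le_mul_of_nonneg_right (hw1 r) (norm_nonneg _)
          _ ≤ 2 * Real.pi * |θ| * r := by rw [one_mul]; exact herr r
    _ = 2 * Real.pi * |θ| * (D * (D - 1) / 2) := by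
        rw [← Finset.mul_sum]
        congr 1
        have := Finset.sum_range_id_mul_two D
        have h2 : ((∑ i ∈ range D, i : ℕ) : ℝ) * 2 = D * (D - 1) := by
          have h3 : (((∑ i ∈ range D, i) * 2 : ℕ) : ℝ) = ((D * (D - 1) : ℕ) : ℝ) := by rw [this]
          push_cast [Nat.cast_sub (show 1 ≤ D by omega)] at h3
          push_cast
          linarith
        push_cast at h2
        linarith
    _ ≤ 2 * Real.pi * |θ| * (D * D / 2) := by
        have hnn : 0 ≤ 2 * Real.pi * |θ| := by positivity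
        refine mul_le_mul_of_nonneg_left ?_ hnn
        nlinarith
    _ = Real.pi * D * |(n : ℝ)| / p := by
        rw [hθ, abs_div, abs_of_pos (mul_pos hpR hDR)]
        field_simp

end Pool.Agent.Lib.MP_1bd11d_co.SG
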