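import Pool.Agent.Lib.MP_1bd11d_co.SG.Defs

section

set_option autoImplicit false

open Finset
open scoped Classical

namespace Pool.Agent.Lib.MP_1bd11d_co.SG

theorem one_le_factor {l : ℕ} (hl : l.Prime) : (1 : ℝ) ≤ (1 - 1 / (l : ℝ))⁻¹ := by
  have h2 : (2 : ℝ) ≤ (l : ℝ) := by exact_mod_cast hl.two_le
  have hpos : (0 : ℝ) < 1 / (l : ℝ) := by positivity
  have hlt : 1 / (l : ℝ) ≤ 1 / 2 := one_div_le_one_div_of_le (by norm_num) h2
  have h0 : (0 : ℝ) < 1 - 1 / (l : ℝ) := by linarith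
  rw [one_le_inv₀ h0]
  linarith

theorem one_le_SS (N : ℕ) : 1 ≤ SS N := by
  unfold SS
  refine Finset.prod_induction _ (fun x : ℝ => 1 ≤ x) (fun a b ha hb => ?_) le_rfl ?_
  · exact one_le_mul_of_one_le_of_one_le ha hb
  · intro l hl
    exact one_le_factor (Finset.mem_filter.mp hl).2

theorem SS_pos (N : ℕ) : 0 < SS N := lt_of_lt_of_le one_pos (one_le_SS N)

theorem SS_mono {M N : ℕ} (h : M ≤ N) : SS M ≤ SS N := by
  unfold SS
  have hsub : (Icc 1 M).filter Nat.Prime ⊆ (Icc 1 N).filter Nat.Prime := by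
    intro l hl
    rw [Finset.mem_filter, Finset.mem_Icc] at hl ⊢
    exact ⟨⟨hl.1.1, hl.1.2.trans h⟩, hl.2⟩
  rw [← Finset.prod_sdiff hsub]
  have h1 : (1 : ℝ) ≤ ∏ l ∈ (Icc 1 N).filter Nat.Prime \ (Icc 1 M).filter Nat.Prime,
      (1 - 1 / (l : ℝ))⁻¹ := by
    refine Finset.prod_induction _ (fun x : ℝ => 1 ≤ x) (fun a b ha hb => ?_) le_rfl ?_
    · exact one_le_mul_of_one_le_of_one_le ha hb
    · intro l hl
      exact one_le_factor (Finset.mem_filter.mp (Finset.mem_sdiff.mp hl).1).2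
  have h0 : (0 : ℝ) ≤ ∏ l ∈ (Icc 1 M).filter Nat.Prime, (1 - 1 / (l : ℝ))⁻¹ := (SS_pos M).le
  calc ∏ l ∈ (Icc 1 M).filter Nat.Prime, (1 - 1 / (l : ℝ))⁻¹
      = 1 * ∏ l ∈ (Icc 1 M).filter Nat.Prime, (1 - 1 / (l : ℝ))⁻¹ := (one_mul _).symm
    _ ≤ _ := mul_le_mul_of_nonneg_right h1 h0

/-- The completely multiplicative function `1 / n`. -/
noncomputable def invHom : ℕ →* ℝ where
  toFun n := 1 / (n : ℝ)
  map_one' := by simp
  map_mul' m n := by
    push_cast
    rw [one_div_mul_one_div]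

theorem invHom_apply (n : ℕ) : invHom n = 1 / (n : ℝ) := rfl

/-- `∑_{n ≤ N, all prime factors of n in P} 1 / n ≤ ∏_{l ∈ P} (1 - 1/l)⁻¹` for a finite set `P` of
primes. -/
theorem sum_primes_in_le (P : Finset ℕ) (hP : ∀ l ∈ P, l.Prime) (N : ℕ) :
    ∑ n ∈ (Icc 1 N).filter (fun n => ∀ l : ℕ, l.Prime → l ∣ n → l ∈ P), 1 / (n : ℝ) ≤
      ∏ l ∈ P, (1 - 1 / (l : ℝ))⁻¹ := by
  have hlt : ∀ {p : ℕ}, p.Prime → ‖invHom p‖ < 1 := by
    intro p hp
    rw [invHom_apply, Real.norm_eq_abs, abs_of_nonneg (by positivity)]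
    have h2 : (2 : ℝ) ≤ (p : ℝ) := by exact_mod_cast hp.two_le
    have := one_div_le_one_div_of_le (by norm_num) h2
    linarith
  have key := (EulerProduct.summable_and_hasSum_factoredNumbers_prod_filter_prime_geometric
    (f := invHom) hlt P).2
  have hfil : P.filter Nat.Prime = P := Finset.filter_true_of_mem hP
  have hprod : (∏ p ∈ P with p.Prime, (1 - invHom p)⁻¹) = ∏ l ∈ P, (1 - 1 / (l : ℝ))⁻¹ := by
    have : ∀ (i1 : DecidablePred Nat.Prime), (@Finset.filter _ Nat.Prime i1 P) = P := by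
      intro i1
      exact Finset.filter_true_of_mem hP
    rw [this]
    rfl
  rw [hprod] at key
  set F := (Icc 1 N).filter (fun n => ∀ l : ℕ, l.Prime → l ∣ n → l ∈ P) with hF
  have hmem : ∀ n ∈ F, n ∈ Nat.factoredNumbers P := by
    intro n hn
    rw [hF, Finset.mem_filter, Finset.mem_Icc] at hn
    refine ⟨by omega, fun p hp => ?_⟩
    rw [Nat.mem_primeFactorsList (by omega)] at hp
    exact hn.2 p hp.1 hp.2
  have h1 := sum_le_hasSum (F.subtype (fun n => n ∈ Nat.factoredNumbers P))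
    (fun i _ => by
      show (0 : ℝ) ≤ invHom (i : ℕ)
      rw [invHom_apply]
      positivity) key
  have h2 : ∑ n ∈ F.subtype (fun n => n ∈ Nat.factoredNumbers P), invHom (n : ℕ) =
      ∑ n ∈ F, 1 / (n : ℝ) :=
    Finset.sum_subtype_of_mem (p := fun n => n ∈ Nat.factoredNumbers P)
      (fun n : ℕ => 1 / (n : ℝ)) hmem
  rw [h2] at h1
  exact h1

/-- `log (N + 1) ≤ ∑_{n ≤ N} 1/n ≤ SS N`. -/
theorem log_le_SS (N : ℕ) : Real.log (N + 1) ≤ SS N := by
  have h1 : Real.log (N + 1) ≤ ∑ n ∈ Icc 1 N, 1 / (n : ℝ) := by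
    have h := log_add_one_le_harmonic N
    have h3 : ((harmonic N : ℚ) : ℝ) = ∑ n ∈ Icc 1 N, 1 / (n : ℝ) := by
      rw [harmonic_eq_sum_Icc]
      push_cast
      simp [one_div]
    rw [h3] at h
    exact_mod_cast h
  have h2 := sum_primes_in_le ((Icc 1 N).filter Nat.Prime)
    (fun l hl => (Finset.mem_filter.mp hl).2) N
  have h3 : (Icc 1 N).filter (fun n => ∀ l : ℕ, l.Prime → l ∣ n → l ∈ (Icc 1 N).filter Nat.Prime) =
      Icc 1 N := by
    refine Finset.filter_true_of_mem ?_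
    intro n hn l hl hln
    rw [Finset.mem_Icc] at hn
    rw [Finset.mem_filter, Finset.mem_Icc]
    exact ⟨⟨hl.one_le, (Nat.le_of_dvd (by omega) hln).trans hn.2⟩, hl⟩
  rw [h3] at h2
  exact h1.trans h2

end Pool.Agent.Lib.MP_1bd11d_co.SG
end

section

set_option autoImplicit false

open Finset
open scoped Classical

namespace Pool.Agent.Lib.MP_1bd11d_co.SG

private theorem sum_blocks {M : Type*} [AddCommMonoid M] (f : ℕ → M) (D H : ℕ) :
    ∑ j ∈ range (D * H), f j = ∑ i ∈ range H, ∑ r ∈ range D, f (r + i * D) := by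
  induction H with
  | zero => simp
  | succ H ih =>
    rw [Nat.mul_succ, Finset.sum_range_add, ih, Finset.sum_range_succ]
    congr 1
    refine Finset.sum_congr rfl fun r _ => ?_
    rw [Nat.mul_comm, Nat.add_comm]

private theorem per_mul (w : ℕ → ℝ) (D : ℕ) (hper : ∀ j, w (j + D) = w j) (r i : ℕ) :
    w (r + i * D) = w r := by
  induction i with
  | zero => simp
  | succ i ih =>
    have : r + (i + 1) * D = (r + i * D) + D := by ring
    rw [this, hper, ih]

private theorem ep_add {p : ℕ} [NeZero p] (a b : ZMod p) : ep (a + b) = ep a * ep b := by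
  simp only [ep]
  exact AddChar.map_add_eq_mul _ a b

/-- Expand; write `j = r + i * D` with `r < D`, `i < H`, and use `D * st D = m`. -/
theorem ft_G1 {p : ℕ} [NeZero p] (𝒟 : Finset ℕ) (H : ℕ) (base st : ℕ → ZMod p) (w : ℕ → ℕ → ℝ)
    (m : ZMod p) (hst : ∀ D ∈ 𝒟, (D : ZMod p) * st D = m)
    (hper : ∀ D ∈ 𝒟, ∀ j, w D (j + D) = w D j) (ξ : ZMod p) :
    ft (G1 𝒟 H base st w) ξ =
      KH H (ξ * m) * ∑ D ∈ 𝒟, ep (-(ξ * base D)) *
        ∑ r ∈ range D, ((w D r : ℝ) : ℂ) * ep (-(ξ * st D * (r : ZMod p))) := by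
  have e1 : ft (G1 𝒟 H base st w) ξ =
      ∑ D ∈ 𝒟, ∑ j ∈ range (D * H),
        ((w D j : ℝ) : ℂ) * ep (-(ξ * (base D + (j : ZMod p) * st D))) := by
    simp only [ft, G1, Finset.sum_mul]
    rw [Finset.sum_comm]
    refine Finset.sum_congr rfl fun D _ => ?_
    rw [Finset.sum_comm]
    refine Finset.sum_congr rfl fun j _ => ?_
    rw [Finset.sum_eq_single (base D + (j : ZMod p) * st D)]
    · simp
    · intro x _ hx
      rw [if_neg (Ne.symm hx), zero_mul]
    · intro h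
      exact absurd (Finset.mem_univ _) h
  rw [e1, Finset.mul_sum]
  refine Finset.sum_congr rfl fun D hD => ?_
  rw [sum_blocks, KH, Finset.sum_mul]
  refine Finset.sum_congr rfl fun i _ => ?_
  rw [Finset.mul_sum, Finset.mul_sum]
  refine Finset.sum_congr rfl fun r _ => ?_
  rw [per_mul (w D) D (hper D hD)]
  have e2 : -(ξ * (base D + ((r + i * D : ℕ) : ZMod p) * st D)) =
      -(ξ * m * (i : ZMod p)) + (-(ξ * base D) + -(ξ * st D * (r : ZMod p))) := by
    rw [← hst D hD]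
    push_cast
    ring
  rw [e2, ep_add, ep_add]
  ring

/-- The inner product with `G1` is the sum over the progressions. -/
theorem inner_G1 {p : ℕ} [NeZero p] (𝒟 : Finset ℕ) (H : ℕ) (base st : ℕ → ZMod p)
    (w : ℕ → ℕ → ℝ) (f : ZMod p → ℂ) :
    ∑ x, f x * (starRingEnd ℂ) (G1 𝒟 H base st w x) =
      ∑ D ∈ 𝒟, ∑ j ∈ range (D * H), f (base D + (j : ZMod p) * st D) * ((w D j : ℝ) : ℂ) := by
  simp only [G1, map_sum, Finset.mul_sum]
  rw [Finset.sum_comm]
  refine Finset.sum_congr rfl fun D _ => ?_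
  rw [Finset.sum_comm]
  refine Finset.sum_congr rfl fun j _ => ?_
  rw [Finset.sum_eq_single (base D + (j : ZMod p) * st D)]
  · simp
  · intro x _ hx
    rw [if_neg (Ne.symm hx), map_zero, mul_zero]
  · intro h
    exact absurd (Finset.mem_univ _) h

/-- The square norm of `G1` for 0-1-valued weights is the number of coincidences. -/
theorem G1_norm_sq {p : ℕ} [NeZero p] (𝒟 : Finset ℕ) (H : ℕ) (base st : ℕ → ZMod p)
    (W : ℕ → ℕ → Prop) :
    ∑ x, ‖G1 𝒟 H base st (fun D j => if W D j then 1 else 0) x‖ ^ 2 =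
      ∑ D ∈ 𝒟, ∑ D' ∈ 𝒟, (((range (D * H) ×ˢ range (D' * H)).filter (fun q =>
        W D q.1 ∧ W D' q.2 ∧
          base D + (q.1 : ZMod p) * st D = base D' + (q.2 : ZMod p) * st D')).card : ℝ) := by
  set w : ℕ → ℕ → ℝ := fun D j => if W D j then 1 else 0 with hw
  have key : ((∑ x, ‖G1 𝒟 H base st w x‖ ^ 2 : ℝ) : ℂ) =
      ((∑ D ∈ 𝒟, ∑ D' ∈ 𝒟, (((range (D * H) ×ˢ range (D' * H)).filter (fun q =>
        W D q.1 ∧ W D' q.2 ∧
          base D + (q.1 : ZMod p) * st D = base D' + (q.2 : ZMod p) * st D')).card : ℝ) : ℝ) :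
            ℂ) := by
    have e1 : ((∑ x, ‖G1 𝒟 H base st w x‖ ^ 2 : ℝ) : ℂ) =
        ∑ x, G1 𝒟 H base st w x * (starRingEnd ℂ) (G1 𝒟 H base st w x) := by
      push_cast
      refine Finset.sum_congr rfl fun x _ => ?_
      rw [Complex.mul_conj']
    rw [e1, inner_G1]
    push_cast
    refine Finset.sum_congr rfl fun D _ => ?_
    have e2 : ∀ j ∈ range (D * H), G1 𝒟 H base st w (base D + (j : ZMod p) * st D) *
        ((w D j : ℝ) : ℂ) = ∑ D' ∈ 𝒟, ∑ j' ∈ range (D' * H),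
          (if W D j ∧ W D' j' ∧ base D + (j : ZMod p) * st D = base D' + (j' : ZMod p) * st D'
            then (1 : ℂ) else 0) := by
      intro j _
      simp only [G1, Finset.sum_mul]
      refine Finset.sum_congr rfl fun D' _ => ?_
      refine Finset.sum_congr rfl fun j' _ => ?_
      simp only [hw]
      by_cases h1 : W D j <;> by_cases h2 : W D' j' <;>
        by_cases h3 : base D' + (j' : ZMod p) * st D' = base D + (j : ZMod p) * st D <;>
        simp [h1, h2, h3, eq_comm]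
      intro h4
      exact absurd h4.symm h3
    rw [Finset.sum_congr rfl e2, Finset.sum_comm]
    refine Finset.sum_congr rfl fun D' _ => ?_
    rw [← Finset.sum_product', Finset.card_filter]
    push_cast
    rfl
  exact_mod_cast key

/-- Periodicity modulo `b ∣ D` implies periodicity modulo `D`. -/
theorem per_of_dvd (w : ℕ → ℝ) (b D : ℕ) (hb : b ∣ D) (hper : ∀ j, w (j + b) = w j) (j : ℕ) :
    w (j + D) = w j := by
  obtain ⟨c, rfl⟩ := hb
  rw [Nat.mul_comm]
  exact per_mul w b hper j c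

/-- The sum of a `D`-periodic weight over `range (D * H)`. -/
theorem sum_per (w : ℕ → ℝ) (D H : ℕ) (hper : ∀ j, w (j + D) = w j) :
    ∑ j ∈ range (D * H), w j = H * ∑ r ∈ range D, w r := by
  rw [sum_blocks]
  rw [Finset.sum_congr rfl fun i _ => Finset.sum_congr rfl fun r _ => per_mul w D hper r i]
  rw [Finset.sum_const, Finset.card_range, nsmul_eq_mul]

end Pool.Agent.Lib.MP_1bd11d_co.SG
end
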