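import Pool.Agent.Lib.MP_1bd11d_co.SG.A1
import Pool.Agent.Lib.MP_1bd11d_co.SG.A1b

set_option autoImplicit false

open Finset
open scoped Classical

namespace Pool.Agent.Lib.MP_1bd11d_co.SG

/-- Every `n` is the absolute value of the least absolute residue of at most two classes, so the
number of nonzero classes with `n ≤ X`, `P n` is at most twice the number of such `n`. -/
theorem card_M_le {p : ℕ} [NeZero p] (P : ℕ → Prop) (X : ℕ) :
    ((univ : Finset (ZMod p)).filter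
      (fun η => (η ≠ 0 ∧ P η.valMinAbs.natAbs) ∧ η.valMinAbs.natAbs ≤ X)).card ≤
      2 * ((Icc 1 X).filter P).card := by
  set s : Finset (ZMod p) := (univ : Finset (ZMod p)).filter
      (fun η => (η ≠ 0 ∧ P η.valMinAbs.natAbs) ∧ η.valMinAbs.natAbs ≤ X) with hs
  have h1 : s.card ≤ 2 * (s.image (fun η : ZMod p => η.valMinAbs.natAbs)).card := by
    apply Finset.card_le_mul_card_image
    intro n _
    have hsub : (s.filter (fun η : ZMod p => η.valMinAbs.natAbs = n)) ⊆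
        ({((n : ℤ) : ZMod p), ((-(n : ℤ) : ℤ) : ZMod p)} : Finset (ZMod p)) := by
      intro η hη
      rw [Finset.mem_filter] at hη
      have h2 := Int.natAbs_eq η.valMinAbs
      rw [hη.2] at h2
      rw [Finset.mem_insert, Finset.mem_singleton]
      rcases h2 with h2 | h2
      · left
        rw [← h2, ZMod.coe_valMinAbs]
      · right
        rw [← h2, ZMod.coe_valMinAbs]
    exact (Finset.card_le_card hsub).trans Finset.card_le_two
  refine h1.trans (Nat.mul_le_mul_left 2 (Finset.card_le_card ?_))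
  intro n hn
  rw [Finset.mem_image] at hn
  obtain ⟨η, hη, rfl⟩ := hn
  rw [hs, Finset.mem_filter] at hη
  rw [Finset.mem_filter, Finset.mem_Icc]
  refine ⟨⟨?_, hη.2.2⟩, hη.2.1.2⟩
  rw [Nat.one_le_iff_ne_zero]
  intro h0
  apply hη.2.1.1
  rw [Int.natAbs_eq_zero, ZMod.valMinAbs_eq_zero] at h0
  exact h0

/-- Let `X₁ = ⌈p / (2 H)⌉`, a natural number with `p ≤ 2 * H * X₁` and `X₁ ≤ p / (2 H) + 1 ≤ p / H`
(because `2 H ≤ p`).  By `KH_norm_le`, `KH_norm_le'` the term of `η` is at most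
`min 1 ((X₁ / n) ^ 2)` with `n = |η.valMinAbs| ∈ [1, p / 2]`, and every `n` occurs for at most two
`η`.  So the sum is at most
`2 * (#{n ≤ X₁, P n} + ∑_{k ≥ 0} 4 ^ (-k) * #{n ≤ 2 ^ (k+1) X₁, P n})
 ≤ 2 * (B X₁ + ∑_k 4 ^ (-k) 2 ^ (k+1) B X₁) = 10 B X₁ ≤ 10 B p / H`. -/
theorem sum_M {p : ℕ} [NeZero p] (H : ℕ) (hH : 0 < H) (hHp : 2 * H ≤ p) (P : ℕ → Prop)
    (B : ℝ) (hB0 : 0 ≤ B)
    (hB : ∀ X : ℕ, p ≤ 2 * H * X → ((((Icc 1 X).filter P).card : ℕ) : ℝ) ≤ B * X) :
    ∑ η ∈ (univ : Finset (ZMod p)).filter (fun η => η ≠ 0 ∧ P η.valMinAbs.natAbs),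
      ‖KH H η‖ ^ 2 / (H : ℝ) ^ 2 ≤ 10 * B * p / H := by
  have hp0 : 0 < p := Nat.pos_of_ne_zero (NeZero.ne p)
  have hHR : (0 : ℝ) < H := by exact_mod_cast hH
  have hpR : (0 : ℝ) < p := by exact_mod_cast hp0
  have hHpR : 2 * (H : ℝ) ≤ p := by exact_mod_cast hHp
  -- the scale
  set X₁ : ℕ := ⌈(p : ℝ) / (2 * H)⌉₊ with hX₁
  have hXge : (p : ℝ) / (2 * H) ≤ X₁ := Nat.le_ceil _
  have hX1 : (p : ℝ) ≤ 2 * H * X₁ := by
    rw [div_le_iff₀ (by positivity)] at hXge
    linarith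
  have hX1N : p ≤ 2 * H * X₁ := by exact_mod_cast hX1
  have hXpos : (0 : ℝ) < X₁ := lt_of_lt_of_le (by positivity) hXge
  have hXposN : 0 < X₁ := by exact_mod_cast hXpos
  have hXle : (X₁ : ℝ) ≤ p / H := by
    have h1 : (X₁ : ℝ) < (p : ℝ) / (2 * H) + 1 := Nat.ceil_lt_add_one (by positivity)
    have h2 : (1 : ℝ) ≤ (p : ℝ) / (2 * H) := by
      rw [le_div_iff₀ (by positivity)]
      linarith
    have h3 : (p : ℝ) / H = (p : ℝ) / (2 * H) + (p : ℝ) / (2 * H) := by
      field_simp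
      norm_num
    linarith
  -- the majorant
  set s : Finset (ZMod p) :=
    (univ : Finset (ZMod p)).filter (fun η => η ≠ 0 ∧ P η.valMinAbs.natAbs) with hs
  have hcount : ∀ X : ℕ, p ≤ 2 * H * X →
      ∑ η ∈ s, (if η.valMinAbs.natAbs ≤ X then (1 : ℝ) else 0) ≤ 2 * (B * X) := by
    intro X hX
    rw [Finset.sum_boole, hs, Finset.filter_filter]
    have h1 : ((((univ : Finset (ZMod p)).filter
      (fun η => (η ≠ 0 ∧ P η.valMinAbs.natAbs) ∧ η.valMinAbs.natAbs ≤ X)).card : ℕ) : ℝ) ≤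
      ((2 * ((Icc 1 X).filter P).card : ℕ) : ℝ) := by exact_mod_cast card_M_le P X
    refine h1.trans ?_
    push_cast
    have := hB X hX
    linarith
  have hpt : ∀ η ∈ s, ‖KH H η‖ ^ 2 / (H : ℝ) ^ 2 ≤
      (if η.valMinAbs.natAbs ≤ X₁ then (1 : ℝ) else 0) +
        ∑ k ∈ range p, (1 / 4 : ℝ) ^ k *
          (if η.valMinAbs.natAbs ≤ 2 ^ (k + 1) * X₁ then (1 : ℝ) else 0) := by
    intro η hη
    rw [hs, Finset.mem_filter] at hη
    have hη0 : η ≠ 0 := hη.2.1
    set n : ℕ := η.valMinAbs.natAbs with hn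
    have hn0 : 0 < n := by
      rw [Nat.pos_iff_ne_zero]
      intro h0
      apply hη0
      rw [hn, Int.natAbs_eq_zero, ZMod.valMinAbs_eq_zero] at h0
      exact h0
    have hnR : (0 : ℝ) < n := by exact_mod_cast hn0
    have hnabs : |(η.valMinAbs : ℝ)| = n := by
      rw [hn, Nat.cast_natAbs, Int.cast_abs]
    have hsum0 : 0 ≤ ∑ k ∈ range p, (1 / 4 : ℝ) ^ k *
          (if n ≤ 2 ^ (k + 1) * X₁ then (1 : ℝ) else 0) := by
      apply Finset.sum_nonneg
      intro k _
      apply mul_nonneg (by positivity)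
      split_ifs <;> norm_num
    by_cases hle : n ≤ X₁
    · rw [if_pos hle]
      have h1 : ‖KH H η‖ ^ 2 / (H : ℝ) ^ 2 ≤ 1 := by
        rw [div_le_one (by positivity)]
        exact pow_le_pow_left₀ (norm_nonneg _) (KH_norm_le H η) 2
      linarith
    · rw [if_neg hle, zero_add]
      -- choose the dyadic block
      have hex : ∃ k, n ≤ 2 ^ (k + 1) * X₁ := by
        refine ⟨n, ?_⟩
        calc n ≤ 2 ^ (n + 1) := (Nat.lt_two_pow_self).le.trans (Nat.pow_le_pow_right (by norm_num) (Nat.le_succ n))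
          _ = 2 ^ (n + 1) * 1 := (mul_one _).symm
          _ ≤ 2 ^ (n + 1) * X₁ := Nat.mul_le_mul_left _ hXposN
      set k := Nat.find hex with hk
      have hk1 : n ≤ 2 ^ (k + 1) * X₁ := Nat.find_spec hex
      have hk2 : 2 ^ k * X₁ < n := by
        rcases Nat.eq_zero_or_pos k with h0 | hpos
        · rw [h0, pow_zero, one_mul]
          exact not_le.mp hle
        · have := Nat.find_min hex (m := k - 1) (by omega)
          rw [not_le, Nat.sub_add_cancel hpos] at this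
          exact this
      have hnp : n ≤ p := by
        have := ZMod.natAbs_valMinAbs_le η
        rw [← hn] at this
        omega
      have hkp : k < p := by
        have h1 : 2 ^ k < p := by
          calc 2 ^ k = 2 ^ k * 1 := (mul_one _).symm
            _ ≤ 2 ^ k * X₁ := Nat.mul_le_mul_left _ hXposN
            _ < n := hk2
            _ ≤ p := hnp
        exact (Nat.lt_two_pow_self).trans h1
      have hsingle : (1 / 4 : ℝ) ^ k ≤ ∑ k ∈ range p, (1 / 4 : ℝ) ^ k *
          (if n ≤ 2 ^ (k + 1) * X₁ then (1 : ℝ) else 0) := by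
        have h1 := Finset.single_le_sum (s := range p)
          (f := fun k => (1 / 4 : ℝ) ^ k * (if n ≤ 2 ^ (k + 1) * X₁ then (1 : ℝ) else 0))
          (fun k _ => mul_nonneg (by positivity) (by split_ifs <;> norm_num))
          (Finset.mem_range.mpr hkp)
        rw [if_pos hk1, mul_one] at h1
        exact h1
      refine le_trans ?_ hsingle
      -- the bound for the kernel
      have h2 := KH_norm_le' H η hη0
      rw [hnabs] at h2
      have hk2R : (2 : ℝ) ^ k * X₁ < n := by exact_mod_cast hk2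
      have h3 : ‖KH H η‖ / H ≤ (1 / 2 : ℝ) ^ k := by
        rw [div_le_iff₀ hHR]
        refine h2.trans ?_
        rw [div_le_iff₀ (by positivity)]
        have h4 : (1 / 2 : ℝ) ^ k * (2 : ℝ) ^ k = 1 := by
          rw [← mul_pow]
          norm_num
        have h5 : (0 : ℝ) < (1 / 2 : ℝ) ^ k := by positivity
        calc (p : ℝ) ≤ 2 * H * X₁ := hX1
          _ = (1 / 2 : ℝ) ^ k * (2 : ℝ) ^ k * (2 * H * X₁) := by rw [h4, one_mul]
          _ = (1 / 2 : ℝ) ^ k * (2 * H) * ((2 : ℝ) ^ k * X₁) := by ring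
          _ ≤ (1 / 2 : ℝ) ^ k * (2 * H) * n := by
              apply mul_le_mul_of_nonneg_left hk2R.le (by positivity)
          _ = (1 / 2 : ℝ) ^ k * H * (2 * n) := by ring
      calc ‖KH H η‖ ^ 2 / (H : ℝ) ^ 2 = (‖KH H η‖ / H) ^ 2 := by rw [div_pow]
        _ ≤ ((1 / 2 : ℝ) ^ k) ^ 2 := by
            apply pow_le_pow_left₀ (by positivity) h3
        _ = (1 / 4 : ℝ) ^ k := by
            rw [← pow_mul, mul_comm, pow_mul]
            norm_num
  -- summation
  have hgeom : ∑ k ∈ range p, (1 / 2 : ℝ) ^ k ≤ 2 := by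
    rw [geom_sum_eq (by norm_num)]
    have : (0 : ℝ) < (1 / 2 : ℝ) ^ p := by positivity
    rw [div_le_iff_of_neg (by norm_num)]
    linarith
  calc ∑ η ∈ s, ‖KH H η‖ ^ 2 / (H : ℝ) ^ 2
      ≤ ∑ η ∈ s, ((if η.valMinAbs.natAbs ≤ X₁ then (1 : ℝ) else 0) +
        ∑ k ∈ range p, (1 / 4 : ℝ) ^ k *
          (if η.valMinAbs.natAbs ≤ 2 ^ (k + 1) * X₁ then (1 : ℝ) else 0)) :=
        Finset.sum_le_sum hpt
    _ = ∑ η ∈ s, (if η.valMinAbs.natAbs ≤ X₁ then (1 : ℝ) else 0) +
        ∑ k ∈ range p, (1 / 4 : ℝ) ^ k *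
          ∑ η ∈ s, (if η.valMinAbs.natAbs ≤ 2 ^ (k + 1) * X₁ then (1 : ℝ) else 0) := by
        rw [Finset.sum_add_distrib]
        congr 1
        rw [Finset.sum_comm]
        apply Finset.sum_congr rfl
        intro k _
        rw [Finset.mul_sum]
    _ ≤ 2 * (B * X₁) + ∑ k ∈ range p, (1 / 4 : ℝ) ^ k *
          (2 * (B * ((2 ^ (k + 1) * X₁ : ℕ) : ℝ))) := by
        apply add_le_add (hcount X₁ hX1N)
        apply Finset.sum_le_sum
        intro k _
        apply mul_le_mul_of_nonneg_left _ (by positivity)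
        apply hcount
        calc p ≤ 2 * H * X₁ := hX1N
          _ = 2 * H * (1 * X₁) := by rw [one_mul]
          _ ≤ 2 * H * (2 ^ (k + 1) * X₁) :=
            Nat.mul_le_mul_left _ (Nat.mul_le_mul_right _ Nat.one_le_two_pow)
    _ = 2 * (B * X₁) + 4 * (B * X₁) * ∑ k ∈ range p, (1 / 2 : ℝ) ^ k := by
        rw [Finset.mul_sum]
        congr 1
        apply Finset.sum_congr rfl
        intro k _
        have h6 : (1 / 4 : ℝ) ^ k * 2 ^ k = (1 / 2 : ℝ) ^ k := by
          rw [← mul_pow]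
          norm_num
        rw [← h6]
        push_cast
        ring
    _ ≤ 2 * (B * X₁) + 4 * (B * X₁) * 2 := by
        have : 0 ≤ 4 * (B * (X₁ : ℝ)) := by positivity
        have := mul_le_mul_of_nonneg_left hgeom this
        linarith
    _ = 10 * B * X₁ := by ring
    _ ≤ 10 * B * (p / H) := by
        apply mul_le_mul_of_nonneg_left hXle (by positivity)
    _ = 10 * B * p / H := by ring

end Pool.Agent.Lib.MP_1bd11d_co.SG
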