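import Pool.Agent.Lib.MP_1bd11d_co.SG.A1
import Pool.Agent.Lib.MP_1bd11d_co.SG.A1b
import Pool.Agent.Lib.MP_1bd11d_co.SG.A2
import Pool.Agent.Lib.MP_1bd11d_co.SG.A3

set_option autoImplicit false

open Finset
open scoped Classical

namespace Pool.Agent.Lib.MP_1bd11d_co.SG

/-- The restricted Fourier mass of the balanced function (`n = ξ * m` divisible by some
`D / bb D`). -/
noncomputable def Tm {p : ℕ} [NeZero p] (S : Finset (ZMod p)) (𝒟 : Finset ℕ) (bb : ℕ → ℕ) (H : ℕ)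
    (m : ZMod p) : ℝ :=
  ∑ ξ ∈ (univ : Finset (ZMod p)).filter
      (fun ξ => ξ ≠ 0 ∧ ∃ D ∈ 𝒟, (D / bb D) ∣ (ξ * m).valMinAbs.natAbs),
    ‖ft (bal S) ξ‖ ^ 2 * (‖KH H (ξ * m)‖ ^ 2 / (H : ℝ) ^ 2)

private theorem a5_nat {j i D H : ℕ} (hj : j < D * H) (hi : i < H) :
    j + i * D < 2 * H * D := by
  have h1 : (i + 1) * D ≤ H * D := Nat.mul_le_mul_right D hi
  have h2 : D * H = H * D := Nat.mul_comm D H
  have h3 : 2 * H * D = H * D + H * D := by ring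
  have h4 : (i + 1) * D = i * D + D := by ring
  omega

private theorem a5_sum_KH {p : ℕ} [Fact p.Prime] (H : ℕ) (hHp : H ≤ p) (m : ZMod p)
    (hm : m ≠ 0) : ∑ ξ : ZMod p, ‖KH H (ξ * m)‖ ^ 2 = p * H := by
  rw [← KH_sum_sq H hHp]
  exact Equiv.sum_comp (Equiv.mulRight₀ m hm) (fun η : ZMod p => ‖KH H η‖ ^ 2)

private theorem a5_inner {p : ℕ} [Fact p.Prime] (S : Finset (ZMod p)) (H : ℕ) (hH : 0 < H)
    (𝒟 : Finset ℕ) (m : ZMod p) (base st : ℕ → ZMod p)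
    (hst : ∀ D ∈ 𝒟, (D : ZMod p) * st D = m) (w : ℕ → ℕ → ℝ)
    (hper : ∀ D ∈ 𝒟, ∀ j, w D (j + D) = w D j)
    (hS : ∀ D ∈ 𝒟, ∀ j < 2 * H * D, base D + (j : ZMod p) * st D ∈ S) :
    ∑ x, (1 / (H : ℂ)) * (∑ i ∈ range H, bal S (x + (i : ZMod p) * m)) *
        (starRingEnd ℂ) (G1 𝒟 H base st w x) =
      (((1 - (S.card : ℝ) / p) * H * ∑ D ∈ 𝒟, ∑ r ∈ range D, w D r : ℝ) : ℂ) := by
  have hH0 : (H : ℂ) ≠ 0 := by exact_mod_cast hH.ne'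
  have h0 := inner_G1 𝒟 H base st w
    (fun x => (1 / (H : ℂ)) * (∑ i ∈ range H, bal S (x + (i : ZMod p) * m)))
  rw [h0]
  have h1 : ∀ D ∈ 𝒟, ∑ j ∈ range (D * H), (1 / (H : ℂ)) *
      (∑ i ∈ range H, bal S (base D + (j : ZMod p) * st D + (i : ZMod p) * m)) *
        ((w D j : ℝ) : ℂ) =
      (((1 - (S.card : ℝ) / p) * (H * ∑ r ∈ range D, w D r) : ℝ) : ℂ) := by
    intro D hD
    rw [← sum_per (w D) D H (hper D hD), mul_sum, Complex.ofReal_sum]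
    refine sum_congr rfl (fun j hj => ?_)
    have h2 : ∀ i ∈ range H, bal S (base D + (j : ZMod p) * st D + (i : ZMod p) * m) =
        ((1 - (S.card : ℝ) / p : ℝ) : ℂ) := by
      intro i hi
      have hmem : base D + (j : ZMod p) * st D + (i : ZMod p) * m ∈ S := by
        have h3 := hS D hD (j + i * D) (a5_nat (mem_range.1 hj) (mem_range.1 hi))
        have e : base D + (j : ZMod p) * st D + (i : ZMod p) * m =
            base D + ((j + i * D : ℕ) : ZMod p) * st D := by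
          rw [← hst D hD]
          push_cast
          ring
        rw [e]
        exact h3
      simp only [bal, if_pos hmem]
      push_cast
      ring
    rw [sum_congr rfl h2, sum_const, card_range, nsmul_eq_mul]
    push_cast
    field_simp
  rw [sum_congr rfl h1, ← Complex.ofReal_sum]
  congr 1
  rw [← mul_sum, ← mul_sum]
  ring

private theorem a5_ftG {p : ℕ} [Fact p.Prime] (H : ℕ)
    (𝒟 : Finset ℕ) (bb : ℕ → ℕ) (hD0 : ∀ D ∈ 𝒟, 0 < D) (hbb : ∀ D ∈ 𝒟, bb D ∣ D)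
    (m : ZMod p) (base st : ℕ → ZMod p)
    (hst : ∀ D ∈ 𝒟, (D : ZMod p) * st D = m)
    (w : ℕ → ℕ → ℝ) (hw0 : ∀ D j, 0 ≤ w D j) (hw1 : ∀ D j, w D j ≤ 1)
    (hper : ∀ D ∈ 𝒟, ∀ j, w D (j + bb D) = w D j) (ξ : ZMod p)
    (hξ : ¬ ∃ D ∈ 𝒟, (D / bb D) ∣ (ξ * m).valMinAbs.natAbs) :
    ‖ft (G1 𝒟 H base st w) ξ‖ ≤
      ‖KH H (ξ * m)‖ * (Real.pi * (∑ D ∈ 𝒟, (D : ℝ)) * |((ξ * m).valMinAbs : ℝ)| / p) := by
  have hperD : ∀ D ∈ 𝒟, ∀ j, w D (j + D) = w D j := fun D hD j =>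
    per_of_dvd (w D) (bb D) D (hbb D hD) (hper D hD) j
  rw [ft_G1 𝒟 H base st w m hst hperD ξ, norm_mul]
  refine mul_le_mul_of_nonneg_left ?_ (norm_nonneg _)
  refine (norm_sum_le _ _).trans ?_
  have h : Real.pi * (∑ D ∈ 𝒟, (D : ℝ)) * |((ξ * m).valMinAbs : ℝ)| / p =
      ∑ D ∈ 𝒟, Real.pi * D * |((ξ * m).valMinAbs : ℝ)| / p := by
    rw [mul_sum, sum_mul, sum_div]
  rw [h]
  refine sum_le_sum (fun D hD => ?_)
  rw [norm_mul]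
  have hep : ‖ep (-(ξ * base D))‖ = 1 := by
    unfold ep
    exact AddChar.norm_apply _ _
  rw [hep, one_mul]
  refine root_sum D (bb D) (hD0 D hD) (hbb D hD) (w D) (hw0 D) (hw1 D) (hper D hD) (ξ * st D)
    (ξ * m).valMinAbs ?_ ?_
  · rw [ZMod.coe_valMinAbs, ← hst D hD]
    ring
  · intro hdvd
    exact hξ ⟨D, hD, Int.natCast_dvd.1 hdvd⟩

private theorem a5_cs {ι : Type*} (s : Finset ι) (a b : ι → ℝ) :
    ∑ i ∈ s, a i * b i ≤ √(∑ i ∈ s, a i ^ 2) * √(∑ i ∈ s, b i ^ 2) :=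
  Real.sum_mul_le_sqrt_mul_sqrt s a b

/-- For one `m`.  Let `f = bal S`, `F x = (1 / H) ∑_{i < H} f (x + i m)`, `G = G1 𝒟 H base st w`,
`W₀ = ∑_{D ∈ 𝒟} D`, `β = |S| / p`.
1. `F = 1 - β` at all points `base D + j * st D`, `j < D H` (because `x + i m = base D +
(j + i D) * st D` and `j + i D < 2 H D`), hence by `inner_G1`, `sum_per`:
`∑ x, F x * conj (G x) = (1 - β) * H * ∑_D ∑_{r < D} w D r`.
2. By `parseval` and `ft_avg` the left side is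
`(1 / p) ∑_ξ ft f ξ * conj (KH H (ξ m)) / H * conj (ft G ξ)`; the term `ξ = 0` vanishes (`bal_sum`).
3. The terms with `∃ D ∈ 𝒟, (D / bb D) ∣ (ξ m).valMinAbs.natAbs`: Cauchy-Schwarz gives
`≤ (1 / p) √(Tm ..) * √(∑ ‖ft G ξ‖²) = (1 / p) √(Tm ..) * √(p ∑ ‖G x‖²)`.
4. The other `ξ ≠ 0`: by `ft_G1` and `root_sum` (with `t = ξ * st D`, `n = (ξ m).valMinAbs`)
`‖ft G ξ‖ ≤ ‖KH H (ξ m)‖ * π W₀ |n| / p`, and `‖KH H (ξ m)‖ ≤ p / (2 |n|)`, so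
`‖KH H (ξ m)‖ / H * ‖ft G ξ‖ ≤ (π / 2) W₀ ‖KH H (ξ m)‖ / H`.  Cauchy-Schwarz with `parseval_norm`,
`bal_sq` (`∑ ‖f x‖² ≤ p / 4`) and `KH_sum_sq`:
these terms contribute at most `(1 / p) (π / 2) W₀ √(p² / 4) √(p H) / H = (π / 4) W₀ √(p / H)`. -/
theorem per_m {p : ℕ} [Fact p.Prime] (S : Finset (ZMod p)) (H : ℕ) (hH : 0 < H) (hHp : H ≤ p)
    (𝒟 : Finset ℕ) (bb : ℕ → ℕ) (hD0 : ∀ D ∈ 𝒟, 0 < D) (hbb : ∀ D ∈ 𝒟, bb D ∣ D)
    (m : ZMod p) (hm : m ≠ 0) (base st : ℕ → ZMod p)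
    (hst : ∀ D ∈ 𝒟, (D : ZMod p) * st D = m)
    (w : ℕ → ℕ → ℝ) (hw0 : ∀ D j, 0 ≤ w D j) (hw1 : ∀ D j, w D j ≤ 1)
    (hper : ∀ D ∈ 𝒟, ∀ j, w D (j + bb D) = w D j)
    (hS : ∀ D ∈ 𝒟, ∀ j < 2 * H * D, base D + (j : ZMod p) * st D ∈ S) :
    (1 - (S.card : ℝ) / p) * H * ∑ D ∈ 𝒟, ∑ r ∈ range D, w D r ≤
      (1 / (p : ℝ)) * √(Tm S 𝒟 bb H m) * √(p * ∑ x, ‖G1 𝒟 H base st w x‖ ^ 2) +
        (∑ D ∈ 𝒟, (D : ℝ)) * √((p : ℝ) / H) := by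
  have hp0 : (0 : ℝ) < p := by exact_mod_cast (Fact.out : p.Prime).pos
  have hH0 : (0 : ℝ) < H := by exact_mod_cast hH
  have hW0 : 0 ≤ ∑ D ∈ 𝒟, (D : ℝ) := sum_nonneg (fun D _ => Nat.cast_nonneg D)
  have hperD : ∀ D ∈ 𝒟, ∀ j, w D (j + D) = w D j := fun D hD j =>
    per_of_dvd (w D) (bb D) D (hbb D hD) (hper D hD) j
  have h1 := a5_inner S H hH 𝒟 m base st hst w hperD hS
  have h2 := parseval (fun x => (1 / (H : ℂ)) * (∑ i ∈ range H, bal S (x + (i : ZMod p) * m)))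
    (G1 𝒟 H base st w)
  rw [h1] at h2
  -- the bound by the sum of the norms
  have h3 : (1 - (S.card : ℝ) / p) * H * ∑ D ∈ 𝒟, ∑ r ∈ range D, w D r ≤
      (1 / (p : ℝ)) * ∑ ξ, ‖ft (bal S) ξ‖ * (‖KH H (ξ * m)‖ / H) *
        ‖ft (G1 𝒟 H base st w) ξ‖ := by
    have h4 : (p : ℝ) * ((1 - (S.card : ℝ) / p) * H * ∑ D ∈ 𝒟, ∑ r ∈ range D, w D r) ≤
        ∑ ξ, ‖ft (bal S) ξ‖ * (‖KH H (ξ * m)‖ / H) * ‖ft (G1 𝒟 H base st w) ξ‖ := by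
      calc (p : ℝ) * ((1 - (S.card : ℝ) / p) * H * ∑ D ∈ 𝒟, ∑ r ∈ range D, w D r)
          ≤ ‖(p : ℂ) * (((1 - (S.card : ℝ) / p) * H * ∑ D ∈ 𝒟, ∑ r ∈ range D, w D r : ℝ) : ℂ)‖ := by
            rw [norm_mul, Complex.norm_natCast, Complex.norm_real]
            exact mul_le_mul_of_nonneg_left (le_abs_self _) hp0.le
        _ ≤ _ := by
            rw [← h2]
            refine (norm_sum_le _ _).trans (le_of_eq ?_)
            refine sum_congr rfl (fun ξ _ => ?_)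
            rw [ft_avg, norm_mul, norm_mul, norm_mul, norm_div, norm_one, Complex.norm_natCast,
              RCLike.norm_conj, RCLike.norm_conj]
            ring
    rw [one_div, ← div_eq_inv_mul, le_div_iff₀ hp0]
    linarith
  refine h3.trans ?_
  -- splitting
  set A := (univ : Finset (ZMod p)).filter
      (fun ξ => ξ ≠ 0 ∧ ∃ D ∈ 𝒟, (D / bb D) ∣ (ξ * m).valMinAbs.natAbs) with hA
  have hsplit : ∑ ξ, ‖ft (bal S) ξ‖ * (‖KH H (ξ * m)‖ / H) * ‖ft (G1 𝒟 H base st w) ξ‖ =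
      ∑ ξ ∈ A, ‖ft (bal S) ξ‖ * (‖KH H (ξ * m)‖ / H) * ‖ft (G1 𝒟 H base st w) ξ‖ +
      ∑ ξ ∈ Aᶜ, ‖ft (bal S) ξ‖ * (‖KH H (ξ * m)‖ / H) * ‖ft (G1 𝒟 H base st w) ξ‖ :=
    (sum_add_sum_compl A _).symm
  have hfirst : ∑ ξ ∈ A, ‖ft (bal S) ξ‖ * (‖KH H (ξ * m)‖ / H) * ‖ft (G1 𝒟 H base st w) ξ‖ ≤
      √(Tm S 𝒟 bb H m) * √(p * ∑ x, ‖G1 𝒟 H base st w x‖ ^ 2) := by
    refine (a5_cs A _ _).trans ?_
    refine mul_le_mul ?_ ?_ (Real.sqrt_nonneg _) (Real.sqrt_nonneg _)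
    · refine Real.sqrt_le_sqrt (le_of_eq ?_)
      unfold Tm
      refine sum_congr rfl (fun ξ _ => ?_)
      ring
    · refine Real.sqrt_le_sqrt ?_
      rw [← parseval_norm]
      exact sum_le_sum_of_subset_of_nonneg (subset_univ _) (fun _ _ _ => sq_nonneg _)
  have hterm : ∀ ξ ∈ Aᶜ, ‖ft (bal S) ξ‖ * (‖KH H (ξ * m)‖ / H) * ‖ft (G1 𝒟 H base st w) ξ‖ ≤
      (Real.pi / 2 * (∑ D ∈ 𝒟, (D : ℝ)) / H) * (‖ft (bal S) ξ‖ * ‖KH H (ξ * m)‖) := by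
    intro ξ hξ
    by_cases hξ0 : ξ = 0
    · rw [hξ0, bal_sum]
      simp
    · have hξn : ¬ ∃ D ∈ 𝒟, (D / bb D) ∣ (ξ * m).valMinAbs.natAbs := by
        intro h
        rw [mem_compl, hA, mem_filter] at hξ
        exact hξ ⟨mem_univ _, hξ0, h⟩
      have hη : ξ * m ≠ 0 := mul_ne_zero hξ0 hm
      have hG := a5_ftG H 𝒟 bb hD0 hbb m base st hst w hw0 hw1 hper ξ hξn
      have hK := KH_norm_le' H (ξ * m) hη
      have hn : 0 < |((ξ * m).valMinAbs : ℝ)| := by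
        rw [abs_pos]
        intro h
        have h' : (ξ * m).valMinAbs = 0 := by exact_mod_cast h
        exact hη ((ZMod.valMinAbs_eq_zero _).1 h')
      set n := |((ξ * m).valMinAbs : ℝ)| with hndef
      set W := ∑ D ∈ 𝒟, (D : ℝ) with hW
      have h5 : ‖ft (G1 𝒟 H base st w) ξ‖ ≤ Real.pi / 2 * W := by
        refine hG.trans ?_
        have h6 : 0 ≤ Real.pi * W * n / p := by positivity
        refine (mul_le_mul_of_nonneg_right hK h6).trans (le_of_eq ?_)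
        field_simp
      have h7 : 0 ≤ ‖ft (bal S) ξ‖ * (‖KH H (ξ * m)‖ / H) := by positivity
      refine (mul_le_mul_of_nonneg_left h5 h7).trans (le_of_eq ?_)
      ring
  have hcard : ∑ x, ‖bal S x‖ ^ 2 ≤ (p : ℝ) / 4 := by
    rw [bal_sq]
    have h8 : (S.card : ℝ) * (1 - (S.card : ℝ) / p) =
        ((S.card : ℝ) * p - (S.card : ℝ) ^ 2) / p := by
      field_simp
    rw [h8, div_le_div_iff₀ hp0 (by norm_num)]
    nlinarith [sq_nonneg ((p : ℝ) - 2 * (S.card : ℝ))]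
  have hsecond : ∑ ξ ∈ Aᶜ, ‖ft (bal S) ξ‖ * (‖KH H (ξ * m)‖ / H) *
      ‖ft (G1 𝒟 H base st w) ξ‖ ≤ p * ((∑ D ∈ 𝒟, (D : ℝ)) * √((p : ℝ) / H)) := by
    refine (sum_le_sum hterm).trans ?_
    rw [← mul_sum]
    have h9 : ∑ ξ ∈ Aᶜ, ‖ft (bal S) ξ‖ * ‖KH H (ξ * m)‖ ≤ (p : ℝ) / 2 * √(p * H) := by
      refine (a5_cs _ _ _).trans ?_
      have h10 : √(∑ ξ ∈ Aᶜ, ‖ft (bal S) ξ‖ ^ 2) ≤ (p : ℝ) / 2 := by
        refine Real.sqrt_le_iff.2 ⟨by positivity, ?_⟩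
        have h11 : ∑ ξ ∈ Aᶜ, ‖ft (bal S) ξ‖ ^ 2 ≤ p * ∑ x, ‖bal S x‖ ^ 2 := by
          rw [← parseval_norm]
          exact sum_le_sum_of_subset_of_nonneg (subset_univ _) (fun _ _ _ => sq_nonneg _)
        have h12 : (p : ℝ) * ∑ x, ‖bal S x‖ ^ 2 ≤ p * (p / 4) :=
          mul_le_mul_of_nonneg_left hcard hp0.le
        nlinarith
      have h13 : √(∑ ξ ∈ Aᶜ, ‖KH H (ξ * m)‖ ^ 2) ≤ √(p * H) := by
        refine Real.sqrt_le_sqrt ?_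
        rw [← a5_sum_KH H hHp m hm]
        exact sum_le_sum_of_subset_of_nonneg (subset_univ _) (fun _ _ _ => sq_nonneg _)
      exact mul_le_mul h10 h13 (Real.sqrt_nonneg _) (by positivity)
    have h14 : 0 ≤ Real.pi / 2 * (∑ D ∈ 𝒟, (D : ℝ)) / H := by positivity
    refine (mul_le_mul_of_nonneg_left h9 h14).trans ?_
    have h15 : √(p * H) = H * √((p : ℝ) / H) := by
      have : (p : ℝ) * H = H ^ 2 * (p / H) := by field_simp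
      rw [this, Real.sqrt_mul (sq_nonneg _), Real.sqrt_sq hH0.le]
    rw [h15]
    have h16 : Real.pi / 2 * (∑ D ∈ 𝒟, (D : ℝ)) / H * (p / 2 * (H * √((p : ℝ) / H))) =
        (Real.pi / 4) * (p * ((∑ D ∈ 𝒟, (D : ℝ)) * √((p : ℝ) / H))) := by
      field_simp
      ring
    rw [h16]
    have h17 : 0 ≤ (p : ℝ) * ((∑ D ∈ 𝒟, (D : ℝ)) * √((p : ℝ) / H)) := by positivity
    have h18 : Real.pi / 4 ≤ 1 := by
      have := Real.pi_le_four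
      linarith
    exact mul_le_of_le_one_left h17 h18
  rw [hsplit]
  have h20 : (1 / (p : ℝ)) * (√(Tm S 𝒟 bb H m) * √(p * ∑ x, ‖G1 𝒟 H base st w x‖ ^ 2) +
      p * ((∑ D ∈ 𝒟, (D : ℝ)) * √((p : ℝ) / H))) =
      (1 / (p : ℝ)) * √(Tm S 𝒟 bb H m) * √(p * ∑ x, ‖G1 𝒟 H base st w x‖ ^ 2) +
        (∑ D ∈ 𝒟, (D : ℝ)) * √((p : ℝ) / H) := by
    field_simp
  rw [← h20]
  exact mul_le_mul_of_nonneg_left (add_le_add hfirst hsecond) (by positivity)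

end Pool.Agent.Lib.MP_1bd11d_co.SG
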