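import Pool.Agent.Lib.MP_1bd11d_co.SG.A4
import Pool.Agent.Lib.MP_1bd11d_co.SG.A5

set_option autoImplicit false

open Finset
open scoped Classical

namespace Pool.Agent.Lib.MP_1bd11d_co.SG

/-- `∑_{m ≠ 0} Tm = (∑_{ξ ≠ 0} ‖ft f ξ‖²) * ∑_{η ≠ 0, P η} ‖KH H η‖² / H²`
(substitute `η = ξ m`), and `∑ ‖ft f ξ‖² = p |S| (1 - |S| / p) ≤ p² (1 - |S| / p)`; `sum_M`. -/
theorem sum_Tm {p : ℕ} [Fact p.Prime] (S : Finset (ZMod p)) (H : ℕ) (hH : 0 < H)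
    (hHp : 2 * H ≤ p) (𝒟 : Finset ℕ) (bb : ℕ → ℕ) (B : ℝ) (hB0 : 0 ≤ B)
    (hB : ∀ X : ℕ, p ≤ 2 * H * X →
      ((((Icc 1 X).filter (fun n => ∃ D ∈ 𝒟, (D / bb D) ∣ n)).card : ℕ) : ℝ) ≤ B * X) :
    ∑ m ∈ (univ : Finset (ZMod p)).filter (fun m => m ≠ 0), Tm S 𝒟 bb H m ≤
      (p : ℝ) ^ 2 * (1 - (S.card : ℝ) / p) * (10 * B * p / H) := by
  have hp0 : (0 : ℝ) < p := by exact_mod_cast (Fact.out : p.Prime).pos
  have hH0 : (0 : ℝ) < H := by exact_mod_cast hH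
  set P : ℕ → Prop := fun n => ∃ D ∈ 𝒟, (D / bb D) ∣ n with hP
  set K : ZMod p → ℝ := fun η => ‖KH H η‖ ^ 2 / (H : ℝ) ^ 2 with hK
  have hB' : ∀ X : ℕ, p ≤ 2 * H * X → ((((Icc 1 X).filter P).card : ℕ) : ℝ) ≤ B * X := by
    intro X hX
    have h := hB X hX
    convert h using 3
  obtain ⟨M, hMdef⟩ : ∃ M : ℝ, M = ∑ η ∈ (univ : Finset (ZMod p)).filter
      (fun η => η ≠ 0 ∧ P η.valMinAbs.natAbs), ‖KH H η‖ ^ 2 / (H : ℝ) ^ 2 := ⟨_, rfl⟩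
  have hM : M ≤ 10 * B * p / H := by
    rw [hMdef]
    have h := sum_M (p := p) H hH hHp P B hB0 (fun X hX => by
      have h' := hB' X hX
      convert h')
    convert h using 3
  have hM0 : 0 ≤ M := by
    rw [hMdef]
    exact sum_nonneg (fun η _ => by positivity)
  -- rewriting of the double sum
  have h1 : ∑ m ∈ (univ : Finset (ZMod p)).filter (fun m => m ≠ 0), Tm S 𝒟 bb H m =
      ∑ ξ ∈ (univ : Finset (ZMod p)).filter (fun ξ => ξ ≠ 0), ‖ft (bal S) ξ‖ ^ 2 * M := by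
    have h2 : ∀ m ∈ (univ : Finset (ZMod p)).filter (fun m => m ≠ 0), Tm S 𝒟 bb H m =
        ∑ ξ ∈ (univ : Finset (ZMod p)).filter (fun ξ => ξ ≠ 0),
          (if P (ξ * m).valMinAbs.natAbs then ‖ft (bal S) ξ‖ ^ 2 * K (ξ * m) else 0) := by
      intro m _
      unfold Tm
      rw [← sum_filter, filter_filter]
    rw [sum_congr rfl h2, sum_comm]
    refine sum_congr rfl (fun ξ hξ => ?_)
    have hξ0 : ξ ≠ 0 := (mem_filter.1 hξ).2
    have h3 : ∀ m : ZMod p,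
        (if P (ξ * m).valMinAbs.natAbs then ‖ft (bal S) ξ‖ ^ 2 * K (ξ * m) else 0) =
        ‖ft (bal S) ξ‖ ^ 2 * (if P (ξ * m).valMinAbs.natAbs then K (ξ * m) else 0) := by
      intro m
      split_ifs <;> simp
    rw [sum_congr rfl (fun m _ => h3 m), ← mul_sum]
    congr 1
    have h4 : ∑ m ∈ (univ : Finset (ZMod p)).filter (fun m => m ≠ 0),
        (if P (ξ * m).valMinAbs.natAbs then K (ξ * m) else 0) =
        ∑ m : ZMod p, (if (ξ * m ≠ 0 ∧ P (ξ * m).valMinAbs.natAbs) then K (ξ * m) else 0) := by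
      rw [sum_filter]
      refine sum_congr rfl (fun m _ => ?_)
      by_cases hm : m = 0
      · simp [hm]
      · have : ξ * m ≠ 0 := mul_ne_zero hξ0 hm
        simp [hm, this]
    rw [h4, hMdef, sum_filter]
    exact Equiv.sum_comp (Equiv.mulLeft₀ ξ hξ0)
      (fun η : ZMod p => if (η ≠ 0 ∧ P η.valMinAbs.natAbs) then K η else 0)
  rw [h1, ← sum_mul]
  have h5 : ∑ ξ ∈ (univ : Finset (ZMod p)).filter (fun ξ => ξ ≠ 0), ‖ft (bal S) ξ‖ ^ 2 ≤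
      (p : ℝ) ^ 2 * (1 - (S.card : ℝ) / p) := by
    have hcard : (S.card : ℝ) ≤ p := by
      have h := Finset.card_le_univ S
      rw [ZMod.card] at h
      exact_mod_cast h
    have hnn : 0 ≤ 1 - (S.card : ℝ) / p := by
      rw [sub_nonneg, div_le_one hp0]
      exact hcard
    calc ∑ ξ ∈ (univ : Finset (ZMod p)).filter (fun ξ => ξ ≠ 0), ‖ft (bal S) ξ‖ ^ 2
        ≤ ∑ ξ, ‖ft (bal S) ξ‖ ^ 2 :=
          sum_le_sum_of_subset_of_nonneg (subset_univ _) (fun _ _ _ => sq_nonneg _)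
      _ = p * ((S.card : ℝ) * (1 - (S.card : ℝ) / p)) := by rw [parseval_norm, bal_sq]
      _ ≤ p * (p * (1 - (S.card : ℝ) / p)) :=
          mul_le_mul_of_nonneg_left (mul_le_mul_of_nonneg_right hcard hnn) hp0.le
      _ = (p : ℝ) ^ 2 * (1 - (S.card : ℝ) / p) := by ring
  have hnn2 : 0 ≤ ∑ ξ ∈ (univ : Finset (ZMod p)).filter (fun ξ => ξ ≠ 0), ‖ft (bal S) ξ‖ ^ 2 :=
    sum_nonneg (fun _ _ => sq_nonneg _)
  exact mul_le_mul h5 hM hM0 (hnn2.trans h5)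

end Pool.Agent.Lib.MP_1bd11d_co.SG
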