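import Pool.Agent.Lib.MP_1bd11d_co.SG.A6

set_option autoImplicit false

open Finset
open scoped Classical

namespace Pool.Agent.Lib.MP_1bd11d_co.SG

/-- The harmonic analysis part.  Sum `per_m` over all `m ≠ 0` (there are `p - 1` of them), use
`∑_m √(Tm) ≤ √(p - 1) * √(∑_m Tm)`, `sum_Tm`, and divide by `p - 1`
(`p² / (p - 1) ≤ 2 p`). -/
theorem partI {p : ℕ} [Fact p.Prime] (S : Finset (ZMod p)) (H : ℕ) (hH : 0 < H)
    (hHp : 2 * H ≤ p) (𝒟 : Finset ℕ) (bb : ℕ → ℕ) (hD0 : ∀ D ∈ 𝒟, 0 < D)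
    (hDp : ∀ D ∈ 𝒟, D < p) (hbb : ∀ D ∈ 𝒟, bb D ∣ D)
    (base : ZMod p → ℕ → ZMod p)
    (w : ZMod p → ℕ → ℕ → ℝ) (hw0 : ∀ m D j, 0 ≤ w m D j) (hw1 : ∀ m D j, w m D j ≤ 1)
    (hper : ∀ m, m ≠ 0 → ∀ D ∈ 𝒟, ∀ j, w m D (j + bb D) = w m D j)
    (hS : ∀ m, m ≠ 0 → ∀ D ∈ 𝒟, ∀ j < 2 * H * D,
      base m D + (j : ZMod p) * (m / (D : ZMod p)) ∈ S)
    (B E W : ℝ) (hB0 : 0 ≤ B) (hE0 : 0 ≤ E)
    (hE : ∀ m, m ≠ 0 →
      ∑ x, ‖G1 𝒟 H (base m) (fun D => m / (D : ZMod p)) (w m) x‖ ^ 2 ≤ H * E)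
    (hW : ∀ m, m ≠ 0 → W ≤ ∑ D ∈ 𝒟, ∑ r ∈ range D, w m D r)
    (hB : ∀ X : ℕ, p ≤ 2 * H * X →
      ((((Icc 1 X).filter (fun n => ∃ D ∈ 𝒟, (D / bb D) ∣ n)).card : ℕ) : ℝ) ≤ B * X) :
    (1 - (S.card : ℝ) / p) * H * W ≤
      √(20 * p * B * E * (1 - (S.card : ℝ) / p)) + (∑ D ∈ 𝒟, (D : ℝ)) * √((p : ℝ) / H) := by
  have hp2 : 2 ≤ p := (Fact.out : p.Prime).two_le
  have hpR : (2 : ℝ) ≤ p := by exact_mod_cast hp2
  have hHR : (0 : ℝ) < H := by exact_mod_cast hH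
  have hHp' : H ≤ p := by omega
  have hScard : (S.card : ℝ) ≤ p := by
    have h := Finset.card_le_univ S
    rw [ZMod.card] at h
    exact_mod_cast h
  set β : ℝ := (S.card : ℝ) / p with hβ
  have hβ1 : 0 ≤ 1 - β := by
    have : β ≤ 1 := by
      rw [hβ, div_le_one (by linarith)]
      exact hScard
    linarith
  set W0 : ℝ := ∑ D ∈ 𝒟, (D : ℝ) with hW0
  set R : ℝ := W0 * √((p : ℝ) / H) with hR
  -- one `m`
  have hone : ∀ m : ZMod p, m ≠ 0 → (1 - β) * H * W ≤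
      (1 / (p : ℝ)) * √(p * (H * E)) * √(Tm S 𝒟 bb H m) + R := by
    intro m hm
    have hst : ∀ D ∈ 𝒟, (D : ZMod p) * (m / (D : ZMod p)) = m := by
      intro D hD
      have hD' : (D : ZMod p) ≠ 0 := by
        intro h0
        rw [ZMod.natCast_eq_zero_iff] at h0
        exact absurd (Nat.le_of_dvd (hD0 D hD) h0) (not_le.mpr (hDp D hD))
      field_simp
    have h1 := per_m S H hH hHp' 𝒟 bb hD0 hbb m hm (base m) (fun D => m / (D : ZMod p)) hst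
      (w m) (hw0 m) (hw1 m) (hper m hm) (hS m hm)
    have h2 : (1 - β) * H * W ≤ (1 - β) * H * ∑ D ∈ 𝒟, ∑ r ∈ range D, w m D r :=
      mul_le_mul_of_nonneg_left (hW m hm) (mul_nonneg hβ1 hHR.le)
    have h3 : √(p * ∑ x, ‖G1 𝒟 H (base m) (fun D => m / (D : ZMod p)) (w m) x‖ ^ 2) ≤
        √(p * (H * E)) :=
      Real.sqrt_le_sqrt (mul_le_mul_of_nonneg_left (hE m hm) (by linarith))
    have h4 : (1 / (p : ℝ)) * √(Tm S 𝒟 bb H m) *
        √(p * ∑ x, ‖G1 𝒟 H (base m) (fun D => m / (D : ZMod p)) (w m) x‖ ^ 2) ≤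
        (1 / (p : ℝ)) * √(Tm S 𝒟 bb H m) * √(p * (H * E)) :=
      mul_le_mul_of_nonneg_left h3 (by positivity)
    calc (1 - β) * H * W ≤ _ := h2
      _ ≤ _ := h1
      _ ≤ (1 / (p : ℝ)) * √(Tm S 𝒟 bb H m) * √(p * (H * E)) + R := by
          rw [hR]; linarith
      _ = _ := by ring
  -- sum over `m ≠ 0`
  set M : Finset (ZMod p) := (univ : Finset (ZMod p)).filter (fun m => m ≠ 0) with hM
  have hMcard : (M.card : ℝ) = p - 1 := by
    have h : M = univ.erase (0 : ZMod p) := by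
      ext x; simp [hM]
    rw [h, Finset.card_erase_of_mem (Finset.mem_univ _), Finset.card_univ, ZMod.card]
    rw [Nat.cast_sub (by omega)]
    simp
  have hp1 : (0 : ℝ) < p - 1 := by linarith
  have hTm0 : ∀ m, 0 ≤ Tm S 𝒟 bb H m := by
    intro m
    unfold Tm
    exact Finset.sum_nonneg fun ξ _ => by positivity
  have hsum := sum_Tm S H hH hHp 𝒟 bb B hB0 hB
  rw [← hM] at hsum
  rw [← hβ] at hsum
  have hcs : ∑ m ∈ M, √(Tm S 𝒟 bb H m) ≤ √(((p : ℝ) - 1) * ∑ m ∈ M, Tm S 𝒟 bb H m) := by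
    apply Real.le_sqrt_of_sq_le
    have h := sq_sum_le_card_mul_sum_sq (s := M) (f := fun m => √(Tm S 𝒟 bb H m))
    rw [hMcard] at h
    refine h.trans (le_of_eq ?_)
    congr 1
    exact Finset.sum_congr rfl fun m _ => Real.sq_sqrt (hTm0 m)
  have hcs2 : ∑ m ∈ M, √(Tm S 𝒟 bb H m) ≤
      √(((p : ℝ) - 1) * ((p : ℝ) ^ 2 * (1 - β) * (10 * B * p / H))) :=
    hcs.trans (Real.sqrt_le_sqrt (mul_le_mul_of_nonneg_left hsum hp1.le))
  have htot : ((p : ℝ) - 1) * ((1 - β) * H * W) ≤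
      (1 / (p : ℝ)) * √(p * (H * E)) * ∑ m ∈ M, √(Tm S 𝒟 bb H m) + ((p : ℝ) - 1) * R := by
    have h := Finset.sum_le_sum (s := M) (f := fun _ => (1 - β) * H * W)
      (g := fun m => (1 / (p : ℝ)) * √(p * (H * E)) * √(Tm S 𝒟 bb H m) + R)
      (fun m hm => hone m (by simpa [hM] using hm))
    rw [Finset.sum_const, nsmul_eq_mul, hMcard, Finset.sum_add_distrib, Finset.sum_const,
      nsmul_eq_mul, hMcard, ← Finset.mul_sum] at h
    exact h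
  have hkey : (1 / (p : ℝ)) * √(p * (H * E)) *
      √(((p : ℝ) - 1) * ((p : ℝ) ^ 2 * (1 - β) * (10 * B * p / H))) ≤
      ((p : ℝ) - 1) * √(20 * p * B * E * (1 - β)) := by
    have hp0 : (0 : ℝ) < p := by linarith
    have hA : 0 ≤ B * E * (1 - β) := mul_nonneg (mul_nonneg hB0 hE0) hβ1
    have e1 : (1 / (p : ℝ)) * √(p * (H * E)) *
      √(((p : ℝ) - 1) * ((p : ℝ) ^ 2 * (1 - β) * (10 * B * p / H))) =
      √((p - 1) * (10 * (p : ℝ) ^ 2 * (B * E * (1 - β)))) := by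
      have e2 : (1 / (p : ℝ)) = √((1 / (p : ℝ)) ^ 2) := by
        rw [Real.sqrt_sq (by positivity)]
      rw [e2, ← Real.sqrt_mul (by positivity), ← Real.sqrt_mul (by positivity)]
      congr 1
      field_simp
    have e3 : ((p : ℝ) - 1) * √(20 * p * B * E * (1 - β)) =
        √(((p : ℝ) - 1) ^ 2 * (20 * p * B * E * (1 - β))) := by
      rw [Real.sqrt_mul (sq_nonneg ((p : ℝ) - 1)), Real.sqrt_sq hp1.le]
    rw [e1, e3]
    apply Real.sqrt_le_sqrt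
    have : ((p : ℝ) - 1) ^ 2 * (20 * p * B * E * (1 - β)) -
        (p - 1) * (10 * (p : ℝ) ^ 2 * (B * E * (1 - β))) =
        (p - 1) * (B * E * (1 - β)) * (10 * p * (p - 2)) := by ring
    have h5 : 0 ≤ (p - 1) * (B * E * (1 - β)) * (10 * p * (p - 2)) := by
      apply mul_nonneg (mul_nonneg hp1.le hA)
      apply mul_nonneg (by linarith) (by linarith)
    linarith
  have hfin : ((p : ℝ) - 1) * ((1 - β) * H * W) ≤
      ((p : ℝ) - 1) * (√(20 * p * B * E * (1 - β)) + R) := by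
    calc ((p : ℝ) - 1) * ((1 - β) * H * W) ≤ _ := htot
      _ ≤ (1 / (p : ℝ)) * √(p * (H * E)) *
          √(((p : ℝ) - 1) * ((p : ℝ) ^ 2 * (1 - β) * (10 * B * p / H))) + ((p : ℝ) - 1) * R := by
          have := mul_le_mul_of_nonneg_left hcs2
            (show 0 ≤ (1 / (p : ℝ)) * √(p * (H * E)) by positivity)
          linarith
      _ ≤ ((p : ℝ) - 1) * √(20 * p * B * E * (1 - β)) + ((p : ℝ) - 1) * R := by
          linarith
      _ = _ := by ring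
  exact le_of_mul_le_mul_left hfin hp1

end Pool.Agent.Lib.MP_1bd11d_co.SG
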