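import Pool.Agent.Lib.MP_1bd11d_co.SG.A3
import Pool.Agent.Lib.H62.MertensPrime

section

set_option autoImplicit false

open Finset
open scoped Classical

namespace Pool.Agent.Lib.MP_1bd11d_co.SG

private def hh (g : ℕ → ℝ) (n : ℕ) : ℝ := ∏ l ∈ n.primeFactors, g l

private theorem geo_aux (c x : ℝ) (hx : 1 < x) (V : ℕ) :
    ∑ i ∈ range V, c / x ^ (i + 1) = c / (x - 1) * (1 - 1 / x ^ V) := by
  have hq1 : x - 1 ≠ 0 := by linarith
  have hq0 : x ≠ 0 := by linarith
  induction V with
  | zero => simp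
  | succ V ihV =>
    rw [Finset.sum_range_succ, ihV]
    field_simp
    ring

/-- Generalisation over a finite set `P` of primes. -/
private theorem aux (g : ℕ → ℝ) (hg0 : ∀ l, 0 ≤ g l) (U : ℕ) (P : Finset ℕ) :
    (∀ l ∈ P, l.Prime) →
    ∑ u ∈ (Icc 1 U).filter (fun n => ∀ l : ℕ, l.Prime → l ∣ n → l ∈ P), hh g u / (u : ℝ) ≤
      ∏ l ∈ P, (1 + g l / ((l : ℝ) - 1)) := by
  induction P using Finset.induction_on with
  | empty =>
    intro _
    simp only [Finset.prod_empty]
    have hsub : (Icc 1 U).filter (fun n => ∀ l : ℕ, l.Prime → l ∣ n → l ∈ (∅ : Finset ℕ)) ⊆ {1} := by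
      intro n hn
      rw [Finset.mem_filter, Finset.mem_Icc] at hn
      rw [Finset.mem_singleton]
      by_contra h1
      obtain ⟨l, hl, hd⟩ := Nat.exists_prime_and_dvd h1
      exact absurd (hn.2 l hl hd) (Finset.notMem_empty l)
    calc _ ≤ ∑ u ∈ ({1} : Finset ℕ), hh g u / (u : ℝ) := by
            refine Finset.sum_le_sum_of_subset_of_nonneg hsub fun i _ _ => ?_
            exact div_nonneg (Finset.prod_nonneg fun l _ => hg0 l) (Nat.cast_nonneg _)
      _ = 1 := by simp [hh]
  | insert q P hq ih =>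
    intro hP
    have hqp : q.Prime := hP q (Finset.mem_insert_self q P)
    have hP' : ∀ l ∈ P, l.Prime := fun l hl => hP l (Finset.mem_insert_of_mem hl)
    specialize ih hP'
    rw [Finset.prod_insert hq]
    set SP := (Icc 1 U).filter (fun n => ∀ l : ℕ, l.Prime → l ∣ n → l ∈ P) with hSP
    set SQ := (Icc 1 U).filter (fun n => ∀ l : ℕ, l.Prime → l ∣ n → l ∈ insert q P) with hSQ
    -- injection n ↦ (v_q n, n / q ^ v_q n)
    have hq2 : 2 ≤ q := hqp.two_le
    have hqR : (1 : ℝ) < q := by exact_mod_cast hqp.one_lt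
    have key : ∑ u ∈ SQ, hh g u / (u : ℝ) ≤
        ∑ c ∈ (range (U + 1)) ×ˢ SP, (if c.1 = 0 then 1 else g q) / (q : ℝ) ^ c.1 * (hh g c.2 / (c.2 : ℝ)) := by
      set φ : ℕ → ℕ × ℕ := fun n => (n.factorization q, n / q ^ n.factorization q) with hφ
      have hval : ∀ u ∈ SQ, hh g u / (u : ℝ) =
          (if (φ u).1 = 0 then 1 else g q) / (q : ℝ) ^ (φ u).1 * (hh g (φ u).2 / ((φ u).2 : ℝ)) := by
        intro u hu
        rw [hSQ, Finset.mem_filter, Finset.mem_Icc] at hu
        have hu0 : u ≠ 0 := by omega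
        have hmul : q ^ u.factorization q * (u / q ^ u.factorization q) = u :=
          Nat.ordProj_mul_ordCompl_eq_self u q
        have hcast : (u : ℝ) = (q : ℝ) ^ u.factorization q * ((u / q ^ u.factorization q : ℕ) : ℝ) := by
          exact_mod_cast hmul.symm
        have hh1 : hh g u = (if u.factorization q = 0 then 1 else g q) * hh g (u / q ^ u.factorization q) := by
          unfold hh
          have hpf : (u / q ^ u.factorization q).primeFactors = u.primeFactors.erase q := by
            rw [← Nat.support_factorization, ← Nat.support_factorization, Nat.factorization_ordCompl,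
              Finsupp.support_erase]
          rw [hpf]
          by_cases h0 : u.factorization q = 0
          · rw [if_pos h0, one_mul]
            have : q ∉ u.primeFactors := by
              intro hmem
              have := (Nat.Prime.factorization_pos_of_dvd hqp hu0 (Nat.dvd_of_mem_primeFactors hmem))
              omega
            rw [Finset.erase_eq_of_notMem this]
          · rw [if_neg h0]
            have : q ∈ u.primeFactors := by
              rw [← Nat.support_factorization]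
              exact Finsupp.mem_support_iff.mpr h0
            rw [Finset.mul_prod_erase _ _ this]
        simp only [hφ]
        rw [hh1]
        calc (if u.factorization q = 0 then 1 else g q) * hh g (u / q ^ u.factorization q) / (u : ℝ)
            = (if u.factorization q = 0 then 1 else g q) * hh g (u / q ^ u.factorization q) /
              ((q : ℝ) ^ u.factorization q * ((u / q ^ u.factorization q : ℕ) : ℝ)) := by
              exact congrArg _ hcast
          _ = _ := mul_div_mul_comm _ _ _ _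
      have hinj : Set.InjOn φ SQ := by
        intro u hu v hv huv
        simp only [hφ, Prod.mk.injEq] at huv
        have hu1 : q ^ u.factorization q * (u / q ^ u.factorization q) = u :=
          Nat.ordProj_mul_ordCompl_eq_self u q
        have hv1 : q ^ v.factorization q * (v / q ^ v.factorization q) = v :=
          Nat.ordProj_mul_ordCompl_eq_self v q
        rw [← hu1, ← hv1, huv.2, huv.1]
      rw [Finset.sum_congr rfl hval]
      rw [← Finset.sum_image (f := fun c : ℕ × ℕ => (if c.1 = 0 then 1 else g q) / (q : ℝ) ^ c.1 * (hh g c.2 / (c.2 : ℝ))) hinj]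
      refine Finset.sum_le_sum_of_subset_of_nonneg ?_ ?_
      · intro c hc
        rw [Finset.mem_image] at hc
        obtain ⟨u, hu, rfl⟩ := hc
        rw [hSQ, Finset.mem_filter, Finset.mem_Icc] at hu
        have hu0 : u ≠ 0 := by omega
        rw [Finset.mem_product, Finset.mem_range, hSP, Finset.mem_filter, Finset.mem_Icc]
        simp only [hφ]
        refine ⟨?_, ⟨?_, ?_⟩, ?_⟩
        · have := Nat.factorization_lt q hu0
          omega
        · exact Nat.ordCompl_pos q hu0
        · exact (Nat.div_le_self _ _).trans hu.1.2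
        · intro l hl hd
          have hdu : l ∣ u := hd.trans (Nat.ordCompl_dvd u q)
          have := hu.2 l hl hdu
          rw [Finset.mem_insert] at this
          rcases this with h | h
          · exfalso
            subst h
            exact Nat.not_dvd_ordCompl hl hu0 hd
          · exact h
      · intro c _ _
        refine mul_nonneg (div_nonneg ?_ (by positivity)) (div_nonneg (Finset.prod_nonneg fun l _ => hg0 l) (Nat.cast_nonneg _))
        split_ifs
        · norm_num
        · exact hg0 q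
    refine key.trans ?_
    rw [Finset.sum_product]
    have hfac : ∑ x ∈ range (U + 1), ∑ y ∈ SP,
        (if (x, y).1 = 0 then 1 else g q) / (q : ℝ) ^ (x, y).1 * (hh g (x, y).2 / ((x, y).2 : ℝ)) =
        (∑ i ∈ range (U + 1), (if i = 0 then (1 : ℝ) else g q) / (q : ℝ) ^ i) *
          ∑ u ∈ SP, hh g u / (u : ℝ) := by
      rw [Finset.sum_mul]
      refine Finset.sum_congr rfl fun x _ => ?_
      rw [Finset.mul_sum]
    rw [hfac]
    have hsumnn : 0 ≤ ∑ u ∈ SP, hh g u / (u : ℝ) :=
      Finset.sum_nonneg fun u _ => div_nonneg (Finset.prod_nonneg fun l _ => hg0 l) (Nat.cast_nonneg _)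
    have hgeom : ∑ i ∈ range (U + 1), (if i = 0 then (1 : ℝ) else g q) / (q : ℝ) ^ i ≤
        1 + g q / ((q : ℝ) - 1) := by
      rw [Finset.sum_range_succ']
      simp only [Nat.add_eq_zero_iff, one_ne_zero, and_false, if_false, if_true, pow_zero, div_one]
      rw [add_comm]
      have h1 : ∑ i ∈ range U, g q / (q : ℝ) ^ (i + 1) ≤ g q / ((q : ℝ) - 1) := by
        have h2 : ∑ i ∈ range U, g q / (q : ℝ) ^ (i + 1) =
            g q / ((q : ℝ) - 1) * (1 - 1 / (q : ℝ) ^ U) := geo_aux (g q) q hqR U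
        rw [h2]
        have h3 : 0 ≤ g q / ((q : ℝ) - 1) := div_nonneg (hg0 q) (by linarith)
        have h4 : 1 - 1 / (q : ℝ) ^ U ≤ 1 := by
          have : 0 ≤ 1 / (q : ℝ) ^ U := by positivity
          linarith
        calc _ ≤ g q / ((q : ℝ) - 1) * 1 := mul_le_mul_of_nonneg_left h4 h3
          _ = _ := mul_one _
      linarith
    calc _ ≤ (1 + g q / ((q : ℝ) - 1)) * ∑ u ∈ SP, hh g u / (u : ℝ) :=
          mul_le_mul_of_nonneg_right hgeom hsumnn
      _ ≤ _ := by
          refine mul_le_mul_of_nonneg_left ih ?_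
          have : 0 ≤ g q / ((q : ℝ) - 1) := div_nonneg (hg0 q) (by linarith)
          linarith

/-- The weights `h n = ∏_{l ∣ n} g l`, `0 ≤ g ≤ 1`: the logarithmic mean is bounded by the Euler
product (`1 + g l / (l - 1) = ∑_{k ≥ 0} h (l ^ k) / l ^ k`). -/
theorem sum_h_div_le (g : ℕ → ℝ) (hg0 : ∀ l, 0 ≤ g l) (hg1 : ∀ l, g l ≤ 1) (U : ℕ) :
    ∑ u ∈ Icc 1 U, (∏ l ∈ u.primeFactors, g l) / (u : ℝ) ≤
      ∏ l ∈ (Icc 1 U).filter Nat.Prime, (1 + g l / ((l : ℝ) - 1)) := by
  have h := aux g hg0 U ((Icc 1 U).filter Nat.Prime)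
    (fun l hl => (Finset.mem_filter.mp hl).2)
  refine le_trans (le_of_eq ?_) h
  refine Finset.sum_congr ?_ fun _ _ => rfl
  ext n
  rw [Finset.mem_filter, Finset.mem_Icc]
  constructor
  · intro hn
    refine ⟨hn, fun l hl hd => ?_⟩
    rw [Finset.mem_filter, Finset.mem_Icc]
    exact ⟨⟨hl.one_lt.le, (Nat.le_of_dvd (by omega) hd).trans hn.2⟩, hl⟩
  · exact fun hn => hn.1

end Pool.Agent.Lib.MP_1bd11d_co.SG
end

section

set_option autoImplicit false

open Finset
open scoped Classical

namespace Pool.Agent.Lib.MP_1bd11d_co.SG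

private theorem h_nonneg (g : ℕ → ℝ) (hg0 : ∀ l, 0 ≤ g l) (u : ℕ) :
    0 ≤ ∏ l ∈ u.primeFactors, g l := Finset.prod_nonneg fun l _ => hg0 l

private theorem h_mul_le (g : ℕ → ℝ) (hg0 : ∀ l, 0 ≤ g l) (hg1 : ∀ l, g l ≤ 1) (d v : ℕ)
    (hd : d ≠ 0) (hv : v ≠ 0) :
    ∏ l ∈ (d * v).primeFactors, g l ≤ ∏ l ∈ v.primeFactors, g l := by
  have hsub : v.primeFactors ⊆ (d * v).primeFactors := by
    rw [Nat.primeFactors_mul hd hv]
    exact Finset.subset_union_right
  rw [← Finset.prod_sdiff hsub]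
  have h1 : ∏ l ∈ (d * v).primeFactors \ v.primeFactors, g l ≤ 1 :=
    Finset.prod_le_one (fun l _ => hg0 l) fun l _ => hg1 l
  calc _ ≤ 1 * ∏ l ∈ v.primeFactors, g l := mul_le_mul_of_nonneg_right h1 (h_nonneg g hg0 v)
    _ = _ := one_mul _

private theorem psi_bound (n : ℕ) :
    ∑ d ∈ Icc 1 n, ArithmeticFunction.vonMangoldt d ≤ (Real.log 4 + 4) * (n : ℝ) := by
  have h := Chebyshev.psi_le_const_mul_self (x := (n : ℝ)) (Nat.cast_nonneg n)
  unfold Chebyshev.psi at h
  rw [Nat.floor_natCast] at h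
  refine le_trans (le_of_eq ?_) h
  rfl

private theorem log_part (g : ℕ → ℝ) (hg0 : ∀ l, 0 ≤ g l) (hg1 : ∀ l, g l ≤ 1) (U : ℕ) :
    ∑ u ∈ Icc 1 U, (∏ l ∈ u.primeFactors, g l) * Real.log u ≤
      (Real.log 4 + 4) * U * ∑ u ∈ Icc 1 U, (∏ l ∈ u.primeFactors, g l) / (u : ℝ) := by
  set h : ℕ → ℝ := fun u => ∏ l ∈ u.primeFactors, g l with hh
  have hnn : ∀ u, 0 ≤ h u := fun u => h_nonneg g hg0 u
  calc ∑ u ∈ Icc 1 U, h u * Real.log u
      = ∑ u ∈ Icc 1 U, ∑ d ∈ u.divisors, h u * ArithmeticFunction.vonMangoldt d := by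
        refine Finset.sum_congr rfl fun u _ => ?_
        rw [← ArithmeticFunction.vonMangoldt_sum, Finset.mul_sum]
    _ ≤ ∑ u ∈ Icc 1 U, ∑ d ∈ u.divisors, h (u / d) * ArithmeticFunction.vonMangoldt d := by
        refine Finset.sum_le_sum fun u hu => Finset.sum_le_sum fun d hd => ?_
        refine mul_le_mul_of_nonneg_right ?_ ArithmeticFunction.vonMangoldt_nonneg
        rw [Finset.mem_Icc] at hu
        have hdu := Nat.dvd_of_mem_divisors hd
        have hu0 : u ≠ 0 := by omega
        have hd0 : d ≠ 0 := fun h0 => hu0 (by rw [h0] at hdu; exact zero_dvd_iff.mp hdu)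
        have hv0 : u / d ≠ 0 := by
          have := Nat.div_pos (Nat.le_of_dvd (by omega) hdu) (Nat.pos_of_ne_zero hd0)
          omega
        have := h_mul_le g hg0 hg1 d (u / d) hd0 hv0
        rwa [Nat.mul_div_cancel' hdu] at this
    _ = ∑ d ∈ Icc 1 U, ∑ u ∈ (Icc 1 U).filter (fun u => d ∣ u),
          h (u / d) * ArithmeticFunction.vonMangoldt d := by
        refine Finset.sum_comm' fun u d => ?_
        simp only [Finset.mem_Icc, Nat.mem_divisors, Finset.mem_filter]
        constructor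
        · rintro ⟨⟨h1, h2⟩, h3, h4⟩
          have := Nat.le_of_dvd (by omega) h3
          have hd : d ≠ 0 := fun h0 => h4 (by rw [h0] at h3; exact zero_dvd_iff.mp h3)
          exact ⟨⟨⟨h1, h2⟩, h3⟩, by omega, by omega⟩
        · rintro ⟨⟨⟨h1, h2⟩, h3⟩, h4, h5⟩
          exact ⟨⟨h1, h2⟩, h3, by omega⟩
    _ = ∑ d ∈ Icc 1 U, ∑ v ∈ Icc 1 (U / d), h v * ArithmeticFunction.vonMangoldt d := by
        refine Finset.sum_congr rfl fun d hd => ?_
        rw [Finset.mem_Icc] at hd
        have hd0 : 0 < d := by omega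
        refine Finset.sum_bij' (fun u _ => u / d) (fun v _ => d * v) ?_ ?_ ?_ ?_ ?_
        · intro u hu
          rw [Finset.mem_filter, Finset.mem_Icc] at hu
          rw [Finset.mem_Icc]
          have := Nat.div_pos (Nat.le_of_dvd (by omega) hu.2) hd0
          exact ⟨this, Nat.div_le_div_right hu.1.2⟩
        · intro v hv
          rw [Finset.mem_Icc] at hv
          rw [Finset.mem_filter, Finset.mem_Icc]
          refine ⟨⟨Nat.mul_pos hd0 (by omega), ?_⟩, Dvd.intro v rfl⟩
          calc d * v ≤ d * (U / d) := Nat.mul_le_mul_left d hv.2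
            _ ≤ U := Nat.mul_div_le U d
        · intro u hu
          rw [Finset.mem_filter] at hu
          exact Nat.mul_div_cancel' hu.2
        · intro v _
          exact Nat.mul_div_cancel_left v hd0
        · intro u _
          rfl
    _ = ∑ v ∈ Icc 1 U, ∑ d ∈ Icc 1 (U / v), h v * ArithmeticFunction.vonMangoldt d := by
        refine Finset.sum_comm' fun d v => ?_
        simp only [Finset.mem_Icc]
        have aux : ∀ a b : ℕ, (1 ≤ a ∧ a ≤ U) ∧ 1 ≤ b ∧ b ≤ U / a →
            (1 ≤ a ∧ a ≤ U / b) ∧ 1 ≤ b ∧ b ≤ U := by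
          rintro a b ⟨⟨h1, h2⟩, h3, h4⟩
          have h5 : b * a ≤ U := (Nat.le_div_iff_mul_le (by omega)).mp h4
          refine ⟨⟨h1, (Nat.le_div_iff_mul_le (by omega)).mpr (by rw [Nat.mul_comm]; exact h5)⟩,
            h3, ?_⟩
          exact h4.trans (Nat.div_le_self _ _)
        constructor
        · intro h0
          exact aux d v h0
        · intro h0
          have := aux v d ⟨h0.2, h0.1⟩
          exact ⟨this.2, this.1⟩
    _ ≤ ∑ v ∈ Icc 1 U, (Real.log 4 + 4) * U * (h v / (v : ℝ)) := by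
        refine Finset.sum_le_sum fun v hv => ?_
        rw [Finset.mem_Icc] at hv
        have hv0 : (0 : ℝ) < v := by exact_mod_cast hv.1
        rw [← Finset.mul_sum]
        have h1 := psi_bound (U / v)
        have h2 : ((U / v : ℕ) : ℝ) ≤ (U : ℝ) / v := Nat.cast_div_le
        have h3 : 0 ≤ Real.log 4 + 4 := by
          have := Real.log_nonneg (show (1 : ℝ) ≤ 4 by norm_num)
          linarith
        calc h v * ∑ d ∈ Icc 1 (U / v), ArithmeticFunction.vonMangoldt d
            ≤ h v * ((Real.log 4 + 4) * ((U : ℝ) / v)) :=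
              mul_le_mul_of_nonneg_left (h1.trans (mul_le_mul_of_nonneg_left h2 h3)) (hnn v)
          _ = (Real.log 4 + 4) * U * (h v / (v : ℝ)) := by ring
    _ = (Real.log 4 + 4) * U * ∑ u ∈ Icc 1 U, h u / (u : ℝ) := by
        rw [Finset.mul_sum]

/-- Hall-Tenenbaum type bound.  With `h u = ∏_{l ∣ u} g l` (so `0 ≤ h (d u) ≤ h u`):
`∑_{u ≤ U} h u log u = ∑_{u ≤ U} h u ∑_{d ∣ u} Λ d ≤ ∑_{v ≤ U} h v ψ(U / v) ≤
(log 4 + 4) U ∑_{v ≤ U} h v / v` (`Chebyshev.psi_le_const_mul_self`,
`ArithmeticFunction.vonMangoldt_sum`), and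
`∑_{u ≤ U} h u log (U / u) ≤ ∑ h u (U / u)`; add and use `sum_h_div_le`. -/
theorem hall_tenenbaum : ∃ C : ℝ, 0 < C ∧ ∀ g : ℕ → ℝ, (∀ l, 0 ≤ g l) → (∀ l, g l ≤ 1) →
    ∀ U : ℕ, 2 ≤ U →
      ∑ u ∈ Icc 1 U, ∏ l ∈ u.primeFactors, g l ≤
        C * U / Real.log U *
          ∏ l ∈ (Icc 1 U).filter Nat.Prime, (1 + g l / ((l : ℝ) - 1)) := by
  have hl4 : 0 ≤ Real.log 4 := Real.log_nonneg (by norm_num)
  refine ⟨Real.log 4 + 5, by linarith, fun g hg0 hg1 U hU => ?_⟩
  have hU0 : (0 : ℝ) < U := by exact_mod_cast (by omega : 0 < U)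
  have hlogU : 0 < Real.log U := Real.log_pos (by exact_mod_cast (by omega : 1 < U))
  have hS := sum_h_div_le g hg0 hg1 U
  have h1 := log_part g hg0 hg1 U
  have h2 : ∑ u ∈ Icc 1 U, (∏ l ∈ u.primeFactors, g l) * Real.log ((U : ℝ) / u) ≤
      U * ∑ u ∈ Icc 1 U, (∏ l ∈ u.primeFactors, g l) / (u : ℝ) := by
    rw [Finset.mul_sum]
    refine Finset.sum_le_sum fun u hu => ?_
    rw [Finset.mem_Icc] at hu
    have hu0 : (0 : ℝ) < u := by exact_mod_cast hu.1
    have h3 : Real.log ((U : ℝ) / u) ≤ (U : ℝ) / u := by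
      have := Real.log_le_sub_one_of_pos (div_pos hU0 hu0)
      linarith
    calc _ ≤ (∏ l ∈ u.primeFactors, g l) * ((U : ℝ) / u) :=
          mul_le_mul_of_nonneg_left h3 (h_nonneg g hg0 u)
      _ = _ := by ring
  have h3 : Real.log U * ∑ u ∈ Icc 1 U, ∏ l ∈ u.primeFactors, g l =
      ∑ u ∈ Icc 1 U, (∏ l ∈ u.primeFactors, g l) * Real.log u +
        ∑ u ∈ Icc 1 U, (∏ l ∈ u.primeFactors, g l) * Real.log ((U : ℝ) / u) := by
    rw [← Finset.sum_add_distrib, Finset.mul_sum]
    refine Finset.sum_congr rfl fun u hu => ?_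
    rw [Finset.mem_Icc] at hu
    have hu0 : (0 : ℝ) < u := by exact_mod_cast hu.1
    rw [Real.log_div hU0.ne' hu0.ne']
    ring
  set S := ∑ u ∈ Icc 1 U, (∏ l ∈ u.primeFactors, g l) / (u : ℝ) with hSdef
  set P := ∏ l ∈ (Icc 1 U).filter Nat.Prime, (1 + g l / ((l : ℝ) - 1)) with hP
  have h4 : Real.log U * ∑ u ∈ Icc 1 U, ∏ l ∈ u.primeFactors, g l ≤
      (Real.log 4 + 5) * U * P := by
    have h5 : (Real.log 4 + 5) * U * S ≤ (Real.log 4 + 5) * U * P :=
      mul_le_mul_of_nonneg_left hS (by positivity)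
    linarith
  rw [div_mul_eq_mul_div, le_div_iff₀ hlogU]
  linarith

end Pool.Agent.Lib.MP_1bd11d_co.SG
end

section

set_option autoImplicit false

open Finset
open scoped Classical

namespace Pool.Agent.Lib.MP_1bd11d_co.SG

private noncomputable def Sm (N : ℕ) : ℝ :=
  ∑ l ∈ (Ioc 0 N).filter Nat.Prime, Real.log l / (l : ℝ)

private noncomputable def Em (N : ℕ) : ℝ :=
  Sm N / Real.log N + Real.log (Real.log N) - Real.log (Real.log 2)
    + 6 * (1 / Real.log 2 - 1 / Real.log N) + 1 - 1 / (N : ℝ)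

private lemma Sm_le (N : ℕ) (hN : 1 ≤ N) : Sm N ≤ Real.log N + 6 := by
  have h := Pool.Agent.Lib.H62.mertens_prime_upper (N : ℝ) (by exact_mod_cast hN)
  rw [Nat.floor_natCast] at h
  unfold Sm
  convert h

private lemma filter_Ioc_succ (N : ℕ) : (Ioc 0 (N + 1)).filter Nat.Prime
    = if (N + 1).Prime then insert (N + 1) ((Ioc 0 N).filter Nat.Prime)
      else (Ioc 0 N).filter Nat.Prime := by
  ext x
  split_ifs with h
  · simp only [mem_filter, mem_Ioc, mem_insert]
    constructor
    · rintro ⟨⟨h1, h2⟩, h3⟩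
      rcases Nat.lt_or_ge N x with h4 | h4
      · left; omega
      · right; exact ⟨⟨h1, h4⟩, h3⟩
    · rintro (rfl | ⟨⟨h1, h2⟩, h3⟩)
      · exact ⟨⟨by omega, le_rfl⟩, h⟩
      · exact ⟨⟨h1, by omega⟩, h3⟩
  · simp only [mem_filter, mem_Ioc]
    constructor
    · rintro ⟨⟨h1, h2⟩, h3⟩
      rcases Nat.lt_or_ge N x with h4 | h4
      · have : x = N + 1 := by omega
        subst this
        exact absurd h3 h
      · exact ⟨⟨h1, h4⟩, h3⟩
    · rintro ⟨⟨h1, h2⟩, h3⟩
      exact ⟨⟨h1, by omega⟩, h3⟩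

private lemma Icc_eq_Ioc (N : ℕ) : Icc 1 N = Ioc 0 N := by
  ext x
  simp only [mem_Icc, mem_Ioc]
  omega

private lemma SS_exp (N : ℕ) (hN : 2 ≤ N) : SS N ≤ Real.exp (Em N) := by
  induction N, hN using Nat.le_induction with
  | base =>
    have h1 : (Icc 1 2).filter Nat.Prime = {2} := by
      ext x
      simp only [mem_filter, mem_Icc, mem_singleton]
      constructor
      · rintro ⟨⟨h1, h2⟩, h3⟩
        have := h3.two_le
        omega
      · rintro rfl
        exact ⟨⟨by omega, le_rfl⟩, Nat.prime_two⟩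
    have h2 : SS 2 = 2 := by
      rw [SS, h1, prod_singleton]
      norm_num
    have h3 : Sm 2 = Real.log 2 / 2 := by
      rw [Sm, ← Icc_eq_Ioc, h1, sum_singleton]
      norm_num
    have hl : 0 < Real.log 2 := Real.log_pos (by norm_num)
    have h4 : Em 2 = 1 := by
      rw [Em, h3]
      push_cast
      field_simp
      ring
    rw [h2, h4]
    have := Real.add_one_le_exp (1 : ℝ)
    linarith
  | succ N hN ih =>
    have hN0 : (0 : ℝ) < N := by
      have : 0 < N := by omega
      exact_mod_cast this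
    have hN2 : (2 : ℝ) ≤ N := by exact_mod_cast hN
    have ha : 0 < Real.log N := Real.log_pos (by linarith)
    have hab : Real.log N < Real.log ((N + 1 : ℕ) : ℝ) := by
      apply Real.log_lt_log hN0
      push_cast
      linarith
    have hb : 0 < Real.log ((N + 1 : ℕ) : ℝ) := ha.trans hab
    have hS := Sm_le N (by omega)
    set a := Real.log (N : ℝ) with hadef
    set b := Real.log ((N + 1 : ℕ) : ℝ) with hbdef
    have hD : 0 ≤ (6 - Sm N) * (1 / a - 1 / b) + (Real.log b - Real.log a) := by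
      have h1 : 0 ≤ 1 / a - 1 / b := by
        have := one_div_le_one_div_of_le ha hab.le
        linarith
      have h2 : -a * (1 / a - 1 / b) ≤ (6 - Sm N) * (1 / a - 1 / b) :=
        mul_le_mul_of_nonneg_right (by linarith) h1
      have h3 : Real.log (a / b) ≤ a / b - 1 := Real.log_le_sub_one_of_pos (div_pos ha hb)
      rw [Real.log_div ha.ne' hb.ne'] at h3
      have h4 : -a * (1 / a - 1 / b) = a / b - 1 := by
        field_simp
        ring
      rw [h4] at h2
      linarith
    have hinv : 1 / ((N + 1 : ℕ) : ℝ) ≤ 1 / (N : ℝ) := by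
      apply one_div_le_one_div_of_le hN0
      push_cast
      linarith
    by_cases hp : (N + 1).Prime
    · have hmem : N + 1 ∉ (Ioc 0 N).filter Nat.Prime := by
        simp
      have h1 : SS (N + 1) = (1 - 1 / ((N + 1 : ℕ) : ℝ))⁻¹ * SS N := by
        rw [SS, SS, Icc_eq_Ioc, Icc_eq_Ioc, filter_Ioc_succ, if_pos hp, prod_insert hmem]
      have h2 : Sm (N + 1) = b / ((N + 1 : ℕ) : ℝ) + Sm N := by
        rw [Sm, Sm, filter_Ioc_succ, if_pos hp, sum_insert hmem]
      have h3 : (1 - 1 / ((N + 1 : ℕ) : ℝ))⁻¹ = 1 / N + 1 := by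
        have h5 : (N : ℝ) + 1 ≠ 0 := by linarith
        have h6 : 1 - 1 / ((N + 1 : ℕ) : ℝ) = N / ((N : ℝ) + 1) := by
          push_cast
          rw [eq_div_iff h5, sub_mul, one_mul, div_mul_cancel₀ _ h5]
          ring
        rw [h6, inv_div, add_div, div_self hN0.ne']
        ring
      have h4 : Em (N + 1) = 1 / N + Em N
          + ((6 - Sm N) * (1 / a - 1 / b) + (Real.log b - Real.log a)) := by
        rw [Em, Em, h2, ← hadef, ← hbdef]
        have h5 : (b / ((N + 1 : ℕ) : ℝ) + Sm N) / b = 1 / ((N + 1 : ℕ) : ℝ) + Sm N / b := by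
          field_simp
        rw [h5]
        ring
      rw [h1, h3, h4, Real.exp_add, Real.exp_add]
      have h6 : 1 / (N : ℝ) + 1 ≤ Real.exp (1 / N) := Real.add_one_le_exp _
      have h7 : 1 ≤ Real.exp ((6 - Sm N) * (1 / a - 1 / b) + (Real.log b - Real.log a)) :=
        Real.one_le_exp hD
      have h8 : 0 ≤ SS N := (SS_pos N).le
      have h9 : 0 ≤ 1 / (N : ℝ) + 1 := by positivity
      calc (1 / (N : ℝ) + 1) * SS N ≤ Real.exp (1 / N) * Real.exp (Em N) :=
            mul_le_mul h6 ih h8 (Real.exp_pos _).le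
        _ = Real.exp (1 / N) * Real.exp (Em N) * 1 := by ring
        _ ≤ _ := by
            apply mul_le_mul_of_nonneg_left h7
            positivity
    · have h1 : SS (N + 1) = SS N := by
        rw [SS, SS, Icc_eq_Ioc, Icc_eq_Ioc, filter_Ioc_succ, if_neg hp]
      have h2 : Sm (N + 1) = Sm N := by
        rw [Sm, Sm, filter_Ioc_succ, if_neg hp]
      have h4 : Em (N + 1) = Em N + (1 / N - 1 / ((N + 1 : ℕ) : ℝ))
          + ((6 - Sm N) * (1 / a - 1 / b) + (Real.log b - Real.log a)) := by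
        rw [Em, Em, h2, ← hadef, ← hbdef]
        ring
      rw [h1]
      refine ih.trans (Real.exp_le_exp.2 ?_)
      rw [h4]
      linarith

/-- Mertens' upper bound.  Either partial summation from `H62.mertens_prime_upper`
(`∑_{l ≤ x} log l / l ≤ log x + 6`), which gives `∑_{l ≤ N} 1/l ≤ log log N + C`, or directly:
the weights `1/n` on the `N`-smooth numbers have total mass `S = SS N` and mean value of
`log n` equal to `∑_{l ≤ N} log l / (l - 1) ≤ log N + C`, so at least half of the mass is on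
`n ≤ exp (2 (log N + C))`, whence `S / 2 ≤ 1 + 2 (log N + C)`. -/
theorem SS_le : ∃ C : ℝ, 1 ≤ C ∧ ∀ N : ℕ, 2 ≤ N → SS N ≤ C * Real.log N := by
  have hl : 0 < Real.log 2 := Real.log_pos (by norm_num)
  have hl1 : Real.log 2 < 1 := by
    have := Real.log_two_lt_d9
    linarith
  have hll : Real.log (Real.log 2) < 0 := Real.log_neg hl hl1
  refine ⟨Real.exp (2 + 6 / Real.log 2 - Real.log (Real.log 2)), ?_, fun N hN => ?_⟩
  · apply Real.one_le_exp
    have : 0 ≤ 6 / Real.log 2 := by positivity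
    linarith
  · have hN2 : (2 : ℝ) ≤ N := by exact_mod_cast hN
    have ha : 0 < Real.log N := Real.log_pos (by linarith)
    refine (SS_exp N hN).trans ?_
    have h1 : Real.exp (2 + 6 / Real.log 2 - Real.log (Real.log 2)) * Real.log N
        = Real.exp (2 + 6 / Real.log 2 - Real.log (Real.log 2) + Real.log (Real.log N)) := by
      rw [Real.exp_add, Real.exp_log ha]
    rw [h1]
    apply Real.exp_le_exp.2
    have hS := Sm_le N (by omega)
    have h2 : Sm N / Real.log N ≤ 1 + 6 / Real.log N := by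
      rw [div_le_iff₀ ha]
      have : (1 + 6 / Real.log N) * Real.log N = Real.log N + 6 := by
        field_simp
      linarith
    have h3 : 0 ≤ 1 / (N : ℝ) := by positivity
    have h4 : 6 * (1 / Real.log 2 - 1 / Real.log N) = 6 / Real.log 2 - 6 / Real.log N := by ring
    rw [Em, h4]
    linarith

end Pool.Agent.Lib.MP_1bd11d_co.SG
end
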