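import Pool.Agent.Lib.MP_1bd11d_co.SG.Defs
import Pool.Agent.Lib.MP_1bd11d_co.SG.A3
import Pool.Agent.Lib.MP_1bd11d_co.SG.C1b

section

section

set_option autoImplicit false

open Finset
open scoped Classical

namespace Pool.Agent.Lib.MP_1bd11d_co.SG

/-- An integer which vanishes modulo `p` and is smaller than `p` is zero. -/
private theorem b1_zero {p : ℕ} [Fact p.Prime] (z : ℤ) (h : ((z : ℤ) : ZMod p) = 0)
    (hz : |z| < p) : z = 0 :=
  Int.eq_zero_of_abs_lt_dvd ((ZMod.intCast_zmod_eq_zero_iff_dvd z p).1 h) hz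

private theorem b1_st {p : ℕ} [Fact p.Prime] (st : ℕ → ZMod p) (m : ZMod p) (hm : m ≠ 0) (D : ℕ)
    (hst : (D : ZMod p) * st D = m) : st D ≠ 0 := by
  intro h
  rw [h, mul_zero] at hst
  exact hm hst.symm

/-- Equality of multiples of a nonzero step. -/
private theorem b1_inj {p : ℕ} [Fact p.Prime] {s : ZMod p} (hs : s ≠ 0) {j k : ℕ} (hj : j < p)
    (hk : k < p) (h : (j : ZMod p) * s = (k : ZMod p) * s) : j = k := by
  have h1 : (j : ZMod p) = k := mul_right_cancel₀ hs h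
  have h2 := (ZMod.natCast_eq_natCast_iff' j k p).1 h1
  rwa [Nat.mod_eq_of_lt hj, Nat.mod_eq_of_lt hk] at h2

private theorem b1_lt {p N H D j : ℕ} (hsize : 8 * N ^ 2 * H < p) (hDN : D < 2 * N)
    (hj : j < D * H) : j < p := by
  have h1 : D * H ≤ 8 * N ^ 2 * H := by
    refine Nat.mul_le_mul_right H ?_
    have : 1 ≤ N := by omega
    nlinarith
  omega

/-- Two common points of the progressions of `D` and `D'`: put `g = gcd D D'`, `D = g A`,
`D' = g A'`.  Subtracting the two equations gives `(j₁ - j₂) * st D = (k₁ - k₂) * st D'`; multiply by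
`g A A'` and use `D * st D = m = D' * st D'`: `(j₁ - j₂) A' m = (k₁ - k₂) A m`, so
`(j₁ - j₂) A' ≡ (k₁ - k₂) A` modulo `p`.  Both sides are `< 4 𝔇² H` in absolute value, hence they
are equal integers, and `A` divides `j₁ - j₂`. -/
theorem hit_modEq {p : ℕ} [Fact p.Prime] (N H : ℕ) (hsize : 8 * N ^ 2 * H < p)
    (base st : ℕ → ZMod p) (m : ZMod p) (hm : m ≠ 0) (D D' : ℕ) (hD : 0 < D) (hDN : D < 2 * N)
    (hD' : 0 < D') (hDN' : D' < 2 * N)
    (hst : (D : ZMod p) * st D = m) (hst' : (D' : ZMod p) * st D' = m)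
    (j₁ j₂ : ℕ) (h₁ : Hit H base st D D' j₁) (h₂ : Hit H base st D D' j₂) :
    j₁ ≡ j₂ [MOD D / Nat.gcd D D'] := by
  obtain ⟨hj₁, k₁, hk₁, e₁⟩ := h₁
  obtain ⟨hj₂, k₂, hk₂, e₂⟩ := h₂
  set g := Nat.gcd D D' with hg
  have hgpos : 0 < g := Nat.gcd_pos_of_pos_left _ hD
  obtain ⟨A, hA⟩ := Nat.gcd_dvd_left D D'
  obtain ⟨A', hA'⟩ := Nat.gcd_dvd_right D D'
  rw [← hg] at hA hA'
  have hAeq : D / g = A := by
    rw [hA]; exact Nat.mul_div_cancel_left _ hgpos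
  have hA'eq : D' / g = A' := by
    conv_lhs => rw [hA']
    exact Nat.mul_div_cancel_left _ hgpos
  have hcop : Nat.Coprime A A' := by
    rw [← hAeq, ← hA'eq]
    exact Nat.coprime_div_gcd_div_gcd hgpos
  rw [hAeq]
  have hAle : A ≤ D := by
    rw [hA]; exact Nat.le_mul_of_pos_left _ hgpos
  have hA'le : A' ≤ D' := by
    rw [hA']; exact Nat.le_mul_of_pos_left _ hgpos
  have hNpos : 1 ≤ N := by omega
  -- the key equation
  have e3 : ((j₁ : ZMod p) - j₂) * st D = ((k₁ : ZMod p) - k₂) * st D' := by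
    linear_combination e₁ - e₂
  have hmA : ((g : ZMod p) * A) * st D = m := by
    rw [← hst, hA]; push_cast; ring
  have hmA' : ((g : ZMod p) * A') * st D' = m := by
    rw [← hst']
    conv_rhs => rw [hA']
    have : st (g * A') = st D' := by rw [← hA']
    rw [this]
    push_cast
    ring
  have e4 : (((j₁ : ZMod p) - j₂) * A' - ((k₁ : ZMod p) - k₂) * A) * m = 0 := by
    have q1 : ((j₁ : ZMod p) - j₂) * A' * m = ((k₁ : ZMod p) - k₂) * A * m := by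
      calc ((j₁ : ZMod p) - j₂) * A' * m = ((j₁ : ZMod p) - j₂) * A' * (((g : ZMod p) * A) * st D) := by
            rw [hmA]
        _ = (g * A * A' : ZMod p) * (((j₁ : ZMod p) - j₂) * st D) := by ring
        _ = (g * A * A' : ZMod p) * (((k₁ : ZMod p) - k₂) * st D') := by rw [e3]
        _ = ((k₁ : ZMod p) - k₂) * A * (((g : ZMod p) * A') * st D') := by ring
        _ = ((k₁ : ZMod p) - k₂) * A * m := by rw [hmA']
    rw [sub_mul, q1, sub_self]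
  have e5 : ((j₁ : ZMod p) - j₂) * A' - ((k₁ : ZMod p) - k₂) * A = 0 :=
    (mul_eq_zero.1 e4).resolve_right hm
  have e6 : (((((j₁ : ℤ) - j₂) * A' - ((k₁ : ℤ) - k₂) * A : ℤ)) : ZMod p) = 0 := by
    push_cast
    exact e5
  have hb : ∀ {x y z D₁ D₂ : ℕ}, x < D₁ * H → y < D₁ * H → z ≤ D₂ → D₁ < 2 * N → D₂ < 2 * N →
      |((x : ℤ) - y) * z| ≤ 4 * N ^ 2 * H := by
    intro x y z D₁ D₂ hx hy hz h1 h2
    rw [abs_mul]
    have q1 : |(x : ℤ) - y| ≤ 2 * N * H := by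
      have q2 : D₁ * H ≤ 2 * N * H := Nat.mul_le_mul_right H h1.le
      have q3 : x ≤ 2 * N * H := by omega
      have q4 : y ≤ 2 * N * H := by omega
      have q5 : (x : ℤ) ≤ 2 * N * H := by exact_mod_cast q3
      have q6 : (y : ℤ) ≤ 2 * N * H := by exact_mod_cast q4
      rw [abs_le]
      constructor <;> omega
    have q7 : |(z : ℤ)| ≤ 2 * N := by
      rw [abs_of_nonneg (by positivity)]
      have : z ≤ 2 * N := by omega
      exact_mod_cast this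
    calc |(x : ℤ) - y| * |(z : ℤ)| ≤ (2 * N * H) * (2 * N) :=
          mul_le_mul q1 q7 (abs_nonneg _) (by positivity)
      _ = 4 * N ^ 2 * H := by ring
  have e7 : |((j₁ : ℤ) - j₂) * A' - ((k₁ : ℤ) - k₂) * A| < p := by
    have q1 := hb hj₁ hj₂ hA'le hDN hDN'
    have q2 := hb hk₁ hk₂ hAle hDN' hDN
    have q3 := abs_sub (((j₁ : ℤ) - j₂) * A') (((k₁ : ℤ) - k₂) * A)
    have q4 : ((8 * N ^ 2 * H : ℕ) : ℤ) < p := by exact_mod_cast hsize
    push_cast at q4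
    linarith
  have e8 := b1_zero _ e6 e7
  have e9 : ((j₂ : ℤ) - j₁) * A' = (A : ℤ) * (k₂ - k₁) := by linarith
  have e10 : (A : ℤ) ∣ ((j₂ : ℤ) - j₁) * A' := ⟨_, e9⟩
  have e11 : (A : ℤ) ∣ (j₂ : ℤ) - j₁ := by
    have hc : IsCoprime (A : ℤ) (A' : ℤ) := Nat.isCoprime_iff_coprime.2 hcop
    exact hc.dvd_of_dvd_mul_right e10
  exact (Nat.modEq_iff_dvd).2 e11

/-- The number of common points is at most `gcd D D' * H`: the index `j` determines `k` (because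
`st D' ≠ 0` and `k < D' * H < p`), and all `j < D * H` which occur lie in one residue class modulo
`D / gcd D D'`. -/
theorem hit_card {p : ℕ} [Fact p.Prime] (N H : ℕ) (hsize : 8 * N ^ 2 * H < p)
    (base st : ℕ → ZMod p) (m : ZMod p) (hm : m ≠ 0) (D D' : ℕ) (hD : 0 < D) (hDN : D < 2 * N)
    (hD' : 0 < D') (hDN' : D' < 2 * N)
    (hst : (D : ZMod p) * st D = m) (hst' : (D' : ZMod p) * st D' = m) :
    ((range (D * H) ×ˢ range (D' * H)).filter (fun q : ℕ × ℕ =>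
        base D + (q.1 : ZMod p) * st D = base D' + (q.2 : ZMod p) * st D')).card ≤
      Nat.gcd D D' * H := by
  set g := Nat.gcd D D' with hg
  have hgpos : 0 < g := Nat.gcd_pos_of_pos_left _ hD
  obtain ⟨A, hA⟩ := Nat.gcd_dvd_left D D'
  rw [← hg] at hA
  have hAeq : D / g = A := by
    rw [hA]; exact Nat.mul_div_cancel_left _ hgpos
  have hApos : 0 < A := by
    rcases Nat.eq_zero_or_pos A with h | h
    · rw [h, mul_zero] at hA; omega
    · exact h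
  have hst0 := b1_st st m hm D' hst'
  have hcard : (range (g * H)).card = g * H := card_range _
  rw [← hcard]
  refine card_le_card_of_injOn (fun q => q.1 / A) ?_ ?_
  · rintro ⟨j, k⟩ hq
    simp only [coe_filter, mem_product, mem_range, Set.mem_ofPred_eq] at hq
    simp only [coe_range, Set.mem_Iio]
    rw [Nat.div_lt_iff_lt_mul hApos]
    calc j < D * H := hq.1.1
      _ = g * H * A := by rw [hA]; ring
  · rintro ⟨j₁, k₁⟩ h1 ⟨j₂, k₂⟩ h2 h12
    simp only [coe_filter, mem_product, mem_range, Set.mem_ofPred_eq] at h1 h2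
    simp only at h12
    obtain ⟨⟨hj₁, hk₁⟩, e₁⟩ := h1
    obtain ⟨⟨hj₂, hk₂⟩, e₂⟩ := h2
    have hmod := hit_modEq N H hsize base st m hm D D' hD hDN hD' hDN' hst hst' j₁ j₂
      ⟨hj₁, k₁, hk₁, e₁⟩ ⟨hj₂, k₂, hk₂, e₂⟩
    rw [← hg, hAeq] at hmod
    have hjj : j₁ = j₂ := by
      have q1 := Nat.div_add_mod j₁ A
      have q2 := Nat.div_add_mod j₂ A
      have q3 : j₁ % A = j₂ % A := hmod
      rw [← q1, ← q2, h12, q3]
    subst hjj
    have e3 : (k₁ : ZMod p) * st D' = (k₂ : ZMod p) * st D' := by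
      linear_combination e₂ - e₁
    have hkk : k₁ = k₂ := b1_inj hst0 (b1_lt hsize hDN' hk₁) (b1_lt hsize hDN' hk₂) e3
    rw [hkk]

/-- A progression does not meet itself: the diagonal term. -/
theorem self_card {p : ℕ} [Fact p.Prime] (N H : ℕ) (hsize : 8 * N ^ 2 * H < p)
    (base st : ℕ → ZMod p) (m : ZMod p) (hm : m ≠ 0) (D : ℕ) (hD : 0 < D) (hDN : D < 2 * N)
    (hst : (D : ZMod p) * st D = m) :
    ((range (D * H) ×ˢ range (D * H)).filter (fun q : ℕ × ℕ =>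
        base D + (q.1 : ZMod p) * st D = base D + (q.2 : ZMod p) * st D)).card ≤ D * H := by
  have hst0 := b1_st st m hm D hst
  have hcard : (range (D * H)).card = D * H := card_range _
  conv_rhs => rw [← hcard]
  refine card_le_card_of_injOn (fun q => q.1) ?_ ?_
  · rintro ⟨j, k⟩ hq
    simp only [coe_filter, mem_product, mem_range, Set.mem_ofPred_eq] at hq
    simpa using hq.1.1
  · rintro ⟨j₁, k₁⟩ h1 ⟨j₂, k₂⟩ h2 h12
    simp only [coe_filter, mem_product, mem_range, Set.mem_ofPred_eq] at h1 h2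
    simp only at h12
    obtain ⟨⟨hj₁, hk₁⟩, e₁⟩ := h1
    obtain ⟨⟨hj₂, hk₂⟩, e₂⟩ := h2
    subst h12
    have e3 : (k₁ : ZMod p) * st D = (k₂ : ZMod p) * st D := by
      linear_combination e₂ - e₁
    have hkk : k₁ = k₂ := b1_inj hst0 (b1_lt hsize hDN hk₁) (b1_lt hsize hDN hk₂) e3
    rw [hkk]

end Pool.Agent.Lib.MP_1bd11d_co.SG
end

section

set_option autoImplicit false

open Finset
open scoped Classical

namespace Pool.Agent.Lib.MP_1bd11d_co.SG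

/-- final step: if `A ∣ A' * c` then `A / gcd(A, c) ∣ A'`. -/
private theorem aux_final (A A' : ℕ) (c : ℤ) (hA : 0 < A) (h : (A : ℤ) ∣ (A' : ℤ) * c) :
    A / Int.gcd (A : ℤ) c ∣ A' := by
  have h1 : A ∣ A' * c.natAbs := by
    have := Int.natAbs_dvd_natAbs.2 h
    rwa [Int.natAbs_mul, Int.natAbs_natCast, Int.natAbs_natCast] at this
  have hgcd : Int.gcd (A : ℤ) c = Nat.gcd A c.natAbs := by
    rw [Int.gcd_eq_natAbs, Int.natAbs_natCast]
  rw [hgcd]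
  have hpos : 0 < Nat.gcd A c.natAbs := Nat.gcd_pos_of_pos_left _ hA
  have hcop : Nat.Coprime (A / Nat.gcd A c.natAbs) (c.natAbs / Nat.gcd A c.natAbs) :=
    Nat.coprime_div_gcd_div_gcd hpos
  refine hcop.dvd_of_dvd_mul_right ?_
  obtain ⟨a, ha⟩ := Nat.gcd_dvd_left A c.natAbs
  obtain ⟨b, hb⟩ := Nat.gcd_dvd_right A c.natAbs
  have ha' : A / Nat.gcd A c.natAbs = a := Nat.div_eq_of_eq_mul_right hpos ha
  have hb' : c.natAbs / Nat.gcd A c.natAbs = b := Nat.div_eq_of_eq_mul_right hpos hb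
  rw [ha', hb']
  have h2 : Nat.gcd A c.natAbs * a ∣ Nat.gcd A c.natAbs * (A' * b) := by
    rw [← ha]
    have : Nat.gcd A c.natAbs * (A' * b) = A' * c.natAbs := by
      conv_rhs => rw [hb]
      ring
    rw [this]
    exact h1
  exact Nat.dvd_of_mul_dvd_mul_left hpos h2

/-- the identity `g A A₁ A₂ (base D₁ - base D₂) = m * N_D` -/
private theorem aux_ident {p : ℕ} [Fact p.Prime] (m x sD s1 s2 b1 b2 : ZMod p) (g A A₁ A₂ j₁ j₂ k₁ k₂ : ℕ)
    (hst : ((g * A : ℕ) : ZMod p) * sD = m) (hst₁ : ((g * A₁ : ℕ) : ZMod p) * s1 = m)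
    (hst₂ : ((g * A₂ : ℕ) : ZMod p) * s2 = m)
    (h1 : x + (j₁ : ZMod p) * sD = b1 + (k₁ : ZMod p) * s1)
    (h2 : x + (j₂ : ZMod p) * sD = b2 + (k₂ : ZMod p) * s2) :
    (g : ZMod p) * A * A₁ * A₂ * (b1 - b2) =
      m * ((((j₁ : ℤ) - j₂) * A₁ * A₂ - k₁ * A * A₂ + k₂ * A * A₁ : ℤ) : ZMod p) := by
  push_cast at *
  have e : b1 - b2 = (j₁ : ZMod p) * sD - (j₂ : ZMod p) * sD - (k₁ : ZMod p) * s1 + (k₂ : ZMod p) * s2 := by
    linear_combination h2 - h1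
  rw [e]
  linear_combination ((j₁ : ZMod p) - j₂) * A₁ * A₂ * hst - (k₁ : ZMod p) * A * A₂ * hst₁ +
    (k₂ : ZMod p) * A * A₁ * hst₂

private theorem aux_bound (N H g A A₁ A₂ j₁ j₂ k₁ k₂ : ℕ) (hg : 0 < g)
    (hA0 : 0 < A) (hA1 : 0 < A₁) (hA2 : 0 < A₂)
    (hA : g * A < 2 * N) (hA₁ : g * A₁ < 2 * N) (hA₂ : g * A₂ < 2 * N)
    (hj₁ : j₁ < g * A * H) (hj₂ : j₂ < g * A * H) (hk₁ : k₁ < g * A₁ * H) (hk₂ : k₂ < g * A₂ * H) :
    |(((j₁ : ℤ) - j₂) * A₁ * A₂ - k₁ * A * A₂ + k₂ * A * A₁ : ℤ)| ≤ 24 * (N : ℤ) ^ 3 * H := by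
  have bA : A ≤ 2 * N := le_trans (Nat.le_mul_of_pos_left _ hg) hA.le
  have bA1 : A₁ ≤ 2 * N := le_trans (Nat.le_mul_of_pos_left _ hg) hA₁.le
  have bA2 : A₂ ≤ 2 * N := le_trans (Nat.le_mul_of_pos_left _ hg) hA₂.le
  have bj1 : j₁ ≤ 2 * N * H := le_trans hj₁.le (Nat.mul_le_mul_right _ hA.le)
  have bj2 : j₂ ≤ 2 * N * H := le_trans hj₂.le (Nat.mul_le_mul_right _ hA.le)
  have bk1 : k₁ ≤ 2 * N * H := le_trans hk₁.le (Nat.mul_le_mul_right _ hA₁.le)
  have bk2 : k₂ ≤ 2 * N * H := le_trans hk₂.le (Nat.mul_le_mul_right _ hA₂.le)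
  have key : ∀ a b c : ℕ, a ≤ 2 * N * H → b ≤ 2 * N → c ≤ 2 * N →
      a * b * c ≤ 8 * N ^ 3 * H := by
    intro a b c ha hb hc
    calc a * b * c ≤ (2 * N * H) * (2 * N) * (2 * N) :=
          Nat.mul_le_mul (Nat.mul_le_mul ha hb) hc
      _ = 8 * N ^ 3 * H := by ring
  have t1 := key _ _ _ bj1 bA1 bA2
  have t2 := key _ _ _ bj2 bA1 bA2
  have t3 := key _ _ _ bk1 bA bA2
  have t4 := key _ _ _ bk2 bA bA1
  have t1' : (j₁ : ℤ) * A₁ * A₂ ≤ 8 * (N : ℤ) ^ 3 * H := by exact_mod_cast t1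
  have t2' : (j₂ : ℤ) * A₁ * A₂ ≤ 8 * (N : ℤ) ^ 3 * H := by exact_mod_cast t2
  have t3' : (k₁ : ℤ) * A * A₂ ≤ 8 * (N : ℤ) ^ 3 * H := by exact_mod_cast t3
  have t4' : (k₂ : ℤ) * A * A₁ ≤ 8 * (N : ℤ) ^ 3 * H := by exact_mod_cast t4
  have p1 : (0 : ℤ) ≤ (j₁ : ℤ) * A₁ * A₂ := by positivity
  have p2 : (0 : ℤ) ≤ (j₂ : ℤ) * A₁ * A₂ := by positivity
  have p3 : (0 : ℤ) ≤ (k₁ : ℤ) * A * A₂ := by positivity
  have p4 : (0 : ℤ) ≤ (k₂ : ℤ) * A * A₁ := by positivity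
  have p5 : (0 : ℤ) ≤ (N : ℤ) ^ 3 * H := by positivity
  rw [abs_le]
  constructor <;> nlinarith

/-- Two centres `D`, `E` for the same pair `D₁, D₂`.  All greatest common divisors are `g`:
`D = g A`, `E = g A'`, `D₁ = g A₁`, `D₂ = g A₂`, with `A`, `A'` prime to `A₁ A₂`.
From the hits `j₁, j₂` of `D` (with `k₁ < D₁ H`, `k₂ < D₂ H`) one gets
`base D₁ - base D₂ = m * ((j₁ - j₂) / D - k₁ / D₁ + k₂ / D₂)`, i.e.
`g A A₁ A₂ (base D₁ - base D₂) = m * N_D` with the integer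
`N_D = (j₁ - j₂) A₁ A₂ - k₁ A A₂ + k₂ A A₁`, `|N_D| < 24 N³ H`.  Similarly
`g A' A₁ A₂ (base D₁ - base D₂) = m * N_E`.  Hence `A' N_D ≡ A N_E` modulo `p`, and since both sides
are `< 48 N⁴ H` in absolute value, `A' N_D = A N_E`.  So `A ∣ A' N_D`; and `gcd(A, N_D) = gcd(A, j₁ - j₂)` because
`N_D ≡ (j₁ - j₂) A₁ A₂` modulo `A` and `A₁ A₂` is prime to `A`.  Therefore
`A / gcd(A, j₁ - j₂)` divides `A'`. -/
theorem center_dvd {p : ℕ} [Fact p.Prime] (N H : ℕ) (hsize : 96 * N ^ 4 * H < p)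
    (base st : ℕ → ZMod p) (m : ZMod p) (hm : m ≠ 0) (g D E D₁ D₂ : ℕ) (hg : 0 < g)
    (hD : 0 < D) (hDN : D < 2 * N) (hE : 0 < E) (hEN : E < 2 * N)
    (hD₁ : 0 < D₁) (hDN₁ : D₁ < 2 * N) (hD₂ : 0 < D₂) (hDN₂ : D₂ < 2 * N)
    (hst : (D : ZMod p) * st D = m) (hstE : (E : ZMod p) * st E = m)
    (hst₁ : (D₁ : ZMod p) * st D₁ = m) (hst₂ : (D₂ : ZMod p) * st D₂ = m)
    (hg1 : Nat.gcd D D₁ = g) (hg2 : Nat.gcd D D₂ = g)
    (hg3 : Nat.gcd E D₁ = g) (hg4 : Nat.gcd E D₂ = g)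
    (j₁ j₂ i₁ i₂ : ℕ) (h₁ : Hit H base st D D₁ j₁) (h₂ : Hit H base st D D₂ j₂)
    (h₃ : Hit H base st E D₁ i₁) (h₄ : Hit H base st E D₂ i₂) :
    (D / g) / Int.gcd ((D / g : ℕ) : ℤ) ((j₁ : ℤ) - j₂) ∣ E / g := by
  obtain ⟨A, hA⟩ : g ∣ D := hg1 ▸ Nat.gcd_dvd_left D D₁
  obtain ⟨A', hA'⟩ : g ∣ E := hg3 ▸ Nat.gcd_dvd_left E D₁
  obtain ⟨A₁, hA₁⟩ : g ∣ D₁ := hg1 ▸ Nat.gcd_dvd_right D D₁
  obtain ⟨A₂, hA₂⟩ : g ∣ D₂ := hg2 ▸ Nat.gcd_dvd_right D D₂
  have c1 : Nat.Coprime A A₁ := by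
    rw [hA, hA₁, Nat.gcd_mul_left] at hg1
    exact Nat.eq_of_mul_eq_mul_left hg (by rw [hg1, mul_one])
  have c2 : Nat.Coprime A A₂ := by
    rw [hA, hA₂, Nat.gcd_mul_left] at hg2
    exact Nat.eq_of_mul_eq_mul_left hg (by rw [hg2, mul_one])
  have hApos : 0 < A := Nat.pos_of_ne_zero (by rintro rfl; simp at hA; omega)
  have hA'pos : 0 < A' := Nat.pos_of_ne_zero (by rintro rfl; simp at hA'; omega)
  have hA1pos : 0 < A₁ := Nat.pos_of_ne_zero (by rintro rfl; simp at hA₁; omega)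
  have hA2pos : 0 < A₂ := Nat.pos_of_ne_zero (by rintro rfl; simp at hA₂; omega)
  have eA : D / g = A := by rw [hA]; exact Nat.mul_div_cancel_left _ hg
  have eA' : E / g = A' := by rw [hA']; exact Nat.mul_div_cancel_left _ hg
  rw [eA, eA']
  refine aux_final A A' _ hApos ?_
  obtain ⟨hj₁, k₁, hk₁, e₁⟩ := h₁
  obtain ⟨hj₂, k₂, hk₂, e₂⟩ := h₂
  obtain ⟨hi₁, l₁, hl₁, e₃⟩ := h₃
  obtain ⟨hi₂, l₂, hl₂, e₄⟩ := h₄
  -- rename
  generalize hsD : st D = sD at *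
  generalize hsE : st E = sE at *
  generalize hs1 : st D₁ = s1 at *
  generalize hs2 : st D₂ = s2 at *
  generalize hbD : base D = bD at *
  generalize hbE : base E = bE at *
  generalize hb1 : base D₁ = b1 at *
  generalize hb2 : base D₂ = b2 at *
  clear hsD hsE hs1 hs2 hbD hbE hb1 hb2 eA eA'
  subst hA hA' hA₁ hA₂
  have ID := aux_ident m bD sD s1 s2 b1 b2 g A A₁ A₂ j₁ j₂ k₁ k₂ hst hst₁ hst₂ e₁ e₂
  have IE := aux_ident m bE sE s1 s2 b1 b2 g A' A₁ A₂ i₁ i₂ l₁ l₂ hstE hst₁ hst₂ e₃ e₄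
  have BD := aux_bound N H g A A₁ A₂ j₁ j₂ k₁ k₂ hg hApos hA1pos hA2pos hDN hDN₁ hDN₂ hj₁ hj₂ hk₁ hk₂
  have BE := aux_bound N H g A' A₁ A₂ i₁ i₂ l₁ l₂ hg hA'pos hA1pos hA2pos hEN hDN₁ hDN₂ hi₁ hi₂ hl₁ hl₂
  set ND : ℤ := (((j₁ : ℤ) - j₂) * A₁ * A₂ - k₁ * A * A₂ + k₂ * A * A₁ : ℤ) with hND
  set NE : ℤ := (((i₁ : ℤ) - i₂) * A₁ * A₂ - l₁ * A' * A₂ + l₂ * A' * A₁ : ℤ) with hNE
  have hcong : (((A' : ℤ) * ND - A * NE : ℤ) : ZMod p) = 0 := by
    have : m * (((A' : ℤ) * ND - A * NE : ℤ) : ZMod p) = 0 := by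
      rw [Int.cast_sub, Int.cast_mul, Int.cast_mul]
      simp only [Int.cast_natCast]
      linear_combination (A : ZMod p) * IE - (A' : ZMod p) * ID
    exact (mul_eq_zero.1 this).resolve_left hm
  have hdvd : (p : ℤ) ∣ (A' : ℤ) * ND - A * NE := (ZMod.intCast_zmod_eq_zero_iff_dvd _ _).1 hcong
  have bA : (A : ℤ) < 2 * N := by
    have : A < 2 * N := lt_of_le_of_lt (Nat.le_mul_of_pos_left _ hg) hDN
    exact_mod_cast this
  have bA' : (A' : ℤ) < 2 * N := by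
    have : A' < 2 * N := lt_of_le_of_lt (Nat.le_mul_of_pos_left _ hg) hEN
    exact_mod_cast this
  have hbd : |(A' : ℤ) * ND - A * NE| < p := by
    have q1 : |(A' : ℤ) * ND| ≤ 48 * (N : ℤ) ^ 4 * H := by
      rw [abs_mul, Nat.abs_cast]
      calc (A' : ℤ) * |ND| ≤ (2 * N) * (24 * (N : ℤ) ^ 3 * H) :=
            mul_le_mul bA'.le BD (abs_nonneg _) (by positivity)
        _ = 48 * (N : ℤ) ^ 4 * H := by ring
    have q2 : |(A : ℤ) * NE| ≤ 48 * (N : ℤ) ^ 4 * H := by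
      rw [abs_mul, Nat.abs_cast]
      calc (A : ℤ) * |NE| ≤ (2 * N) * (24 * (N : ℤ) ^ 3 * H) :=
            mul_le_mul bA.le BE (abs_nonneg _) (by positivity)
        _ = 48 * (N : ℤ) ^ 4 * H := by ring
    have hs : (96 * (N : ℤ) ^ 4 * H) < p := by exact_mod_cast hsize
    calc |(A' : ℤ) * ND - A * NE| ≤ |(A' : ℤ) * ND| + |(A : ℤ) * NE| := abs_sub _ _
      _ ≤ 48 * (N : ℤ) ^ 4 * H + 48 * (N : ℤ) ^ 4 * H := add_le_add q1 q2
      _ = 96 * (N : ℤ) ^ 4 * H := by ring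
      _ < p := hs
  have heq : (A' : ℤ) * ND - A * NE = 0 := Int.eq_zero_of_abs_lt_dvd hdvd hbd
  have hd1 : (A : ℤ) ∣ (A' : ℤ) * ND := ⟨NE, by linarith⟩
  have hd2 : (A : ℤ) ∣ (A' : ℤ) * (((j₁ : ℤ) - j₂) * A₁ * A₂) := by
    have : (A' : ℤ) * (((j₁ : ℤ) - j₂) * A₁ * A₂) =
        (A' : ℤ) * ND + A * (A' * (k₁ * A₂ - k₂ * A₁)) := by
      rw [hND]; ring
    rw [this]
    exact dvd_add hd1 (dvd_mul_right _ _)
  have hcop : IsCoprime (A : ℤ) ((A₁ : ℤ) * A₂) := by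
    have := Nat.Coprime.mul_right c1 c2
    have h3 := Nat.isCoprime_iff_coprime.2 this
    push_cast at h3
    exact h3
  refine hcop.dvd_of_dvd_mul_right ?_
  have : (A' : ℤ) * ((j₁ : ℤ) - j₂) * ((A₁ : ℤ) * A₂) = (A' : ℤ) * (((j₁ : ℤ) - j₂) * A₁ * A₂) := by
    ring
  rw [this]
  exact hd2

end Pool.Agent.Lib.MP_1bd11d_co.SG
end

section

set_option autoImplicit false

open Finset
open scoped Classical

namespace Pool.Agent.Lib.MP_1bd11d_co.SG

/-- With `a_u` the size of the fibre over `u`, `M` the largest one (over `u`), `n = #s`: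
`n² - ∑ a_u² ≥ n² - M n = n (n - M) ≥ (n - M)²`. -/
theorem popular {α : Type*} (s : Finset α) (f : α → ℕ) :
    ∃ u : ℕ, (s.filter (fun a => f a ≠ u)).card ^ 2 ≤
      ((s ×ˢ s).filter (fun q => f q.1 ≠ f q.2)).card := by
  rcases s.eq_empty_or_nonempty with rfl | hs
  · exact ⟨0, by simp⟩
  obtain ⟨a0, _, hmax⟩ := s.exists_max_image (fun a => (s.filter (fun b => f b = f a)).card) hs
  refine ⟨f a0, ?_⟩
  have hsplit : ∀ u : ℕ, (s.filter (fun b => f b = u)).card + (s.filter (fun b => f b ≠ u)).card =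
      s.card := fun u => card_filter_add_card_filter_not (s := s) (fun b => f b = u)
  have h1 : ((s ×ˢ s).filter (fun q => f q.1 ≠ f q.2)).card =
      ∑ a ∈ s, (s.filter (fun b => f b ≠ f a)).card := by
    rw [card_filter, sum_product]
    refine sum_congr rfl fun a _ => ?_
    rw [card_filter]
    refine sum_congr rfl fun b _ => ?_
    by_cases h : f a = f b
    · simp [h]
    · simp [h, Ne.symm h]
  have h2 : ∀ a ∈ s, (s.filter (fun b => f b ≠ f a0)).card ≤ (s.filter (fun b => f b ≠ f a)).card := by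
    intro a ha
    have e1 := hsplit (f a)
    have e2 := hsplit (f a0)
    have e3 := hmax a ha
    omega
  rw [h1]
  calc (s.filter (fun b => f b ≠ f a0)).card ^ 2
      ≤ s.card * (s.filter (fun b => f b ≠ f a0)).card := by
        rw [sq]
        exact Nat.mul_le_mul_right _ (card_le_card (filter_subset _ _))
    _ = ∑ _a ∈ s, (s.filter (fun b => f b ≠ f a0)).card := by rw [sum_const, smul_eq_mul]
    _ ≤ _ := sum_le_sum h2

end Pool.Agent.Lib.MP_1bd11d_co.SG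
end

section

set_option autoImplicit false

open Finset
open scoped Classical

namespace Pool.Agent.Lib.MP_1bd11d_co.SG

/-- The weights: `u g D` is the popular class of `exc_sum`.  `Wt y u D j` says that `j` avoids,
for every proper divisor `g` of `D` such that the least prime factor `l` of `D / g` is `≤ y`,
the class `u g D` modulo `l`. -/
def Wt (y : ℕ) (u : ℕ → ℕ → ℕ) (D j : ℕ) : Prop :=
  ∀ g ∈ D.divisors, g < D → (D / g).minFac ≤ y → ¬ j ≡ u g D [MOD (D / g).minFac]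

/-- The least prime factor of `D / g` for a proper divisor `g` of `D` is a prime divisor
of `D`. -/
theorem minFac_quot {D g : ℕ} (hD : 0 < D) (hg : g ∈ D.divisors) (hlt : g < D) :
    (D / g).minFac.Prime ∧ (D / g).minFac ∣ D := by
  have hgd : g ∣ D := Nat.dvd_of_mem_divisors hg
  obtain ⟨c, hc⟩ := hgd
  have hgpos : 0 < g := by
    rcases Nat.eq_zero_or_pos g with h | h
    · subst h; simp at hc; omega
    · exact h
  have hdiv : D / g = c := by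
    rw [hc]; exact Nat.mul_div_cancel_left c hgpos
  have hc1 : c ≠ 1 := by
    intro h
    rw [h, mul_one] at hc
    omega
  rw [hdiv]
  refine ⟨Nat.minFac_prime hc1, (Nat.minFac_dvd c).trans ?_⟩
  rw [hc]; exact Dvd.intro_left g rfl

/-- Periodicity modulo `b` if `b` is divisible by every prime `l ≤ y` dividing `D`. -/
theorem Wt_per (y : ℕ) (u : ℕ → ℕ → ℕ) (D b : ℕ) (hD : 0 < D)
    (hb : ∀ l : ℕ, l.Prime → l ∣ D → l ≤ y → l ∣ b) (j : ℕ) :
    Wt y u D (j + b) ↔ Wt y u D j := by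
  have key : ∀ g ∈ D.divisors, g < D → (D / g).minFac ≤ y →
      ((j + b ≡ u g D [MOD (D / g).minFac]) ↔ (j ≡ u g D [MOD (D / g).minFac])) := by
    intro g hg hlt hy
    obtain ⟨hp, hd⟩ := minFac_quot hD hg hlt
    have hlb := hb _ hp hd hy
    have h0 : j + b ≡ j [MOD (D / g).minFac] := by
      have h1 : b ≡ 0 [MOD (D / g).minFac] := (Nat.modEq_zero_iff_dvd).2 hlb
      simpa using (Nat.ModEq.refl j).add h1
    exact ⟨fun h => h0.symm.trans h, fun h => h0.trans h⟩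
  constructor
  · intro h g hg hlt hy hj
    exact h g hg hlt hy ((key g hg hlt hy).2 hj)
  · intro h g hg hlt hy hj
    exact h g hg hlt hy ((key g hg hlt hy).1 hj)

/-- A residue class modulo a divisor `l` of `D` has at most `D / l` members below `D`. -/
theorem class_card {D l : ℕ} (hl : 0 < l) (hd : l ∣ D) (v : ℕ) :
    ((range D).filter (fun r => r ≡ v [MOD l])).card ≤ D / l := by
  have h1 : ((range D).filter (fun r => r ≡ v [MOD l])).card ≤ (range (D / l)).card := by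
    apply Finset.card_le_card_of_injOn (fun r => r / l)
    · intro r hr
      simp only [coe_filter, mem_range, Set.mem_setOf_eq] at hr
      simp only [coe_range, Set.mem_Iio]
      exact Nat.div_lt_div_of_lt_of_dvd hd hr.1
    · intro r hr r' hr' h
      simp only [coe_filter, mem_range, Set.mem_setOf_eq] at hr hr'
      have h2 : r % l = r' % l := hr.2.trans hr'.2.symm
      have h3 : r / l = r' / l := h
      rw [← Nat.div_add_mod r l, ← Nat.div_add_mod r' l, h2, h3]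
  rwa [card_range] at h1

/-- At most `D / l ≤ D / y₁` of the numbers `r < D` are lost for each divisor `g`. -/
theorem Wt_card (y y₁ : ℕ) (hy₁ : 0 < y₁) (u : ℕ → ℕ → ℕ) (D : ℕ) (hD : 0 < D)
    (hrough : Rough y₁ D) :
    (D : ℝ) * (1 - (D.divisors.card : ℝ) / y₁) ≤
      (((range D).filter (fun r => Wt y u D r)).card : ℝ) := by
  have hy : (0 : ℝ) < y₁ := by exact_mod_cast hy₁
  have hsplit : ((range D).filter (fun r => Wt y u D r)).card +
      ((range D).filter (fun r => ¬ Wt y u D r)).card = D := by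
    rw [Finset.card_filter_add_card_filter_not, card_range]
  have hsub : (range D).filter (fun r => ¬ Wt y u D r) ⊆
      (D.divisors.filter (fun g => g < D)).biUnion
        (fun g => (range D).filter (fun r => r ≡ u g D [MOD (D / g).minFac])) := by
    intro r hr
    rw [mem_filter] at hr
    obtain ⟨hr1, hr2⟩ := hr
    unfold Wt at hr2
    push Not at hr2
    obtain ⟨g, hg, hlt, _, hj⟩ := hr2
    rw [mem_biUnion]
    exact ⟨g, mem_filter.2 ⟨hg, hlt⟩, mem_filter.2 ⟨hr1, hj⟩⟩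
  have hbad : (((range D).filter (fun r => ¬ Wt y u D r)).card : ℝ) ≤
      (D.divisors.card : ℝ) * ((D : ℝ) / y₁) := by
    calc (((range D).filter (fun r => ¬ Wt y u D r)).card : ℝ)
        ≤ (((D.divisors.filter (fun g => g < D)).biUnion
        (fun g => (range D).filter (fun r => r ≡ u g D [MOD (D / g).minFac]))).card : ℝ) := by
          exact_mod_cast card_le_card hsub
      _ ≤ ∑ g ∈ D.divisors.filter (fun g => g < D),
          (((range D).filter (fun r => r ≡ u g D [MOD (D / g).minFac])).card : ℝ) := by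
          exact_mod_cast card_biUnion_le
      _ ≤ ∑ g ∈ D.divisors.filter (fun g => g < D), ((D : ℝ) / y₁) := by
          apply Finset.sum_le_sum
          intro g hg
          rw [mem_filter] at hg
          obtain ⟨hp, hd⟩ := minFac_quot hD hg.1 hg.2
          have h1 := class_card hp.pos hd (u g D)
          have h2 : y₁ < (D / g).minFac := hrough _ hp hd
          calc (((range D).filter (fun r => r ≡ u g D [MOD (D / g).minFac])).card : ℝ)
              ≤ ((D / (D / g).minFac : ℕ) : ℝ) := by exact_mod_cast h1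
            _ ≤ (D : ℝ) / ((D / g).minFac : ℝ) := Nat.cast_div_le
            _ ≤ (D : ℝ) / y₁ := by
                apply div_le_div_of_nonneg_left (Nat.cast_nonneg D) hy
                exact_mod_cast h2.le
      _ = ((D.divisors.filter (fun g => g < D)).card : ℝ) * ((D : ℝ) / y₁) := by
          rw [sum_const, nsmul_eq_mul]
      _ ≤ (D.divisors.card : ℝ) * ((D : ℝ) / y₁) := by
          apply mul_le_mul_of_nonneg_right _ (by positivity)
          exact_mod_cast card_filter_le _ _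
  have hs : (((range D).filter (fun r => Wt y u D r)).card : ℝ) +
      (((range D).filter (fun r => ¬ Wt y u D r)).card : ℝ) = D := by
    exact_mod_cast hsplit
  have he : (D : ℝ) * (1 - (D.divisors.card : ℝ) / y₁) =
      (D : ℝ) - (D.divisors.card : ℝ) * ((D : ℝ) / y₁) := by
    field_simp
  rw [he]
  linarith

end Pool.Agent.Lib.MP_1bd11d_co.SG
end

section

set_option autoImplicit false

open Finset
open scoped Classical

namespace Pool.Agent.Lib.MP_1bd11d_co.SG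

/-- The number of centres of a pair `D₁, D₂` is small.  If there is none we are done.  Otherwise
fix a centre `D₀` with hits `j₁ ≢ j₂` modulo `A = D₀ / g`; then `b = A / gcd(A, j₁ - j₂) > 1`
divides `A`, hence `D₀`, and so `b > y₁` (a prime factor of `b` is a prime factor of `D₀`).  By
`center_dvd` every centre `E` satisfies `b ∣ E / g`, i.e. `g b ∣ E`, `N ≤ E < 2 N`.  There are at
most `N / (g b) + 1` multiples of `g b` in `[N, 2 N)`, and `g b ≤ D₀ < 2 N`, so the number is at most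
`3 N / (g b) ≤ 3 N / (g y₁)`. -/
theorem centers_card {p : ℕ} [Fact p.Prime] (N H y₁ : ℕ) (hsize : 96 * N ^ 4 * H < p)
    (hy₁ : 0 < y₁) (𝒟 : Finset ℕ) (h𝒟 : ∀ D ∈ 𝒟, N ≤ D ∧ D < 2 * N)
    (hrough : ∀ D ∈ 𝒟, Rough y₁ D)
    (base st : ℕ → ZMod p) (m : ZMod p) (hm : m ≠ 0)
    (hst : ∀ D ∈ 𝒟, (D : ZMod p) * st D = m) (g D₁ D₂ : ℕ) (hg : 0 < g)
    (hD₁ : D₁ ∈ 𝒟) (hD₂ : D₂ ∈ 𝒟) :
    (((𝒟.filter (fun D => Nat.gcd D D₁ = g ∧ Nat.gcd D D₂ = g ∧
        ∃ j₁ j₂, Hit H base st D D₁ j₁ ∧ Hit H base st D D₂ j₂ ∧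
          ¬ j₁ ≡ j₂ [MOD D / g])).card : ℕ) : ℝ) ≤ 3 * N / (g * y₁) := by
  classical
  set F : Finset ℕ := 𝒟.filter (fun D => Nat.gcd D D₁ = g ∧ Nat.gcd D D₂ = g ∧
        ∃ j₁ j₂, Hit H base st D D₁ j₁ ∧ Hit H base st D D₂ j₂ ∧
          ¬ j₁ ≡ j₂ [MOD D / g]) with hF
  rcases F.eq_empty_or_nonempty with hFe | ⟨D₀, hD₀⟩
  · rw [hFe]
    simp only [Finset.card_empty, Nat.cast_zero]
    positivity
  have hmem : ∀ D, D ∈ F ↔ D ∈ 𝒟 ∧ (Nat.gcd D D₁ = g ∧ Nat.gcd D D₂ = g ∧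
        ∃ j₁ j₂, Hit H base st D D₁ j₁ ∧ Hit H base st D D₂ j₂ ∧
          ¬ j₁ ≡ j₂ [MOD D / g]) := by
    intro D
    rw [hF, Finset.mem_filter]
  obtain ⟨hD₀𝒟, hg1, hg2, j₁, j₂, h₁, h₂, hnc⟩ := (hmem D₀).1 hD₀
  obtain ⟨hND₀, hD₀N⟩ := h𝒟 D₀ hD₀𝒟
  have hN : 0 < N := by omega
  have hD₀pos : 0 < D₀ := by omega
  have hgD₀ : g ∣ D₀ := hg1 ▸ Nat.gcd_dvd_left D₀ D₁
  obtain ⟨A, hA⟩ := hgD₀
  have hAdiv : D₀ / g = A := by rw [hA, Nat.mul_div_cancel_left A hg]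
  have hApos : 0 < A := by
    rcases Nat.eq_zero_or_pos A with h | h
    · rw [h, Nat.mul_zero] at hA
      omega
    · exact h
  set d : ℕ := Int.gcd ((D₀ / g : ℕ) : ℤ) ((j₁ : ℤ) - j₂) with hd
  have hdA : d ∣ A := by
    have h := Int.gcd_dvd_natAbs_left ((D₀ / g : ℕ) : ℤ) ((j₁ : ℤ) - j₂)
    rw [hAdiv] at h
    rw [hd, hAdiv]
    simpa using h
  have hdpos : 0 < d := Nat.pos_of_dvd_of_pos hdA hApos
  obtain ⟨b, hb⟩ := hdA
  have hbdiv : A / d = b := by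
    conv_lhs => rw [hb]
    exact Nat.mul_div_cancel_left b hdpos
  have hbpos : 0 < b := by
    rcases Nat.eq_zero_or_pos b with h | h
    · rw [h, Nat.mul_zero] at hb
      omega
    · exact h
  have hb1 : b ≠ 1 := by
    intro hb1
    apply hnc
    rw [hAdiv]
    have hdA' : (d : ℤ) ∣ (j₁ : ℤ) - j₂ := by
      rw [hd]
      exact Int.gcd_dvd_right _ _
    have hAd : A = d := by rw [hb, hb1, Nat.mul_one]
    rw [← hAd] at hdA'
    have h3 : (A : ℤ) ∣ (j₂ : ℤ) - j₁ := by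
      have := (dvd_neg (α := ℤ)).2 hdA'
      rwa [neg_sub] at this
    exact (Nat.modEq_iff_dvd).2 h3
  have hbD₀ : b ∣ D₀ := by
    rw [hA, hb]
    exact Dvd.dvd.mul_left (Dvd.intro_left d rfl) g
  have hby : y₁ < b := by
    obtain ⟨l, hl, hlb⟩ := Nat.exists_prime_and_dvd hb1
    exact lt_of_lt_of_le (hrough D₀ hD₀𝒟 l hl (hlb.trans hbD₀)) (Nat.le_of_dvd hbpos hlb)
  set k : ℕ := g * b with hk
  have hkpos : 0 < k := Nat.mul_pos hg hbpos
  have hkD₀ : k ≤ D₀ := by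
    apply Nat.le_of_dvd hD₀pos
    rw [hA, hk, hb]
    exact Nat.mul_dvd_mul_left g (Dvd.intro_left d rfl)
  -- every centre is a multiple of `k`
  have hdvd : ∀ E ∈ F, k ∣ E := by
    intro E hE
    obtain ⟨hE𝒟, hg3, hg4, i₁, i₂, h₃, h₄, -⟩ := (hmem E).1 hE
    obtain ⟨hNE, hEN⟩ := h𝒟 E hE𝒟
    obtain ⟨hND₁, hD₁N⟩ := h𝒟 D₁ hD₁
    obtain ⟨hND₂, hD₂N⟩ := h𝒟 D₂ hD₂
    have h := center_dvd N H hsize base st m hm g D₀ E D₁ D₂ hg hD₀pos hD₀N (by omega) hEN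
      (by omega) hD₁N (by omega) hD₂N (hst D₀ hD₀𝒟) (hst E hE𝒟) (hst D₁ hD₁) (hst D₂ hD₂)
      hg1 hg2 hg3 hg4 j₁ j₂ i₁ i₂ h₁ h₂ h₃ h₄
    rw [← hd, hAdiv, hbdiv] at h
    have hgE : g ∣ E := hg3 ▸ Nat.gcd_dvd_left E D₁
    obtain ⟨E', hE'⟩ := hgE
    rw [hE', Nat.mul_div_cancel_left E' hg] at h
    rw [hE', hk]
    exact Nat.mul_dvd_mul_left g h
  -- count
  have hkR : (0 : ℝ) < k := by exact_mod_cast hkpos
  have hsub : F.card ≤ (Finset.Ico ⌈(N : ℝ) / k⌉₊ ⌈(2 * N : ℝ) / k⌉₊).card := by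
    apply Finset.card_le_card_of_injOn (fun E => E / k)
    · intro E hE
      obtain ⟨hE𝒟, -⟩ := (hmem E).1 hE
      obtain ⟨hNE, hEN⟩ := h𝒟 E hE𝒟
      obtain ⟨e, he⟩ := hdvd E hE
      have hek : E / k = e := by rw [he, Nat.mul_div_cancel_left e hkpos]
      have hER : (E : ℝ) = k * e := by exact_mod_cast he
      have hNER : (N : ℝ) ≤ E := by exact_mod_cast hNE
      have hENR : (E : ℝ) < 2 * N := by exact_mod_cast hEN
      simp only [Finset.coe_Ico, Set.mem_Ico, hek]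
      constructor
      · apply Nat.ceil_le.2
        rw [div_le_iff₀ hkR, mul_comm, ← hER]
        exact hNER
      · apply Nat.lt_ceil.2
        rw [lt_div_iff₀ hkR, mul_comm, ← hER]
        exact hENR
    · intro E hE E' hE' heq
      have h1 := hdvd E hE
      have h2 := hdvd E' hE'
      have h3 : E / k = E' / k := heq
      rw [← Nat.mul_div_cancel' h1, ← Nat.mul_div_cancel' h2, h3]
  have hle : ⌈(N : ℝ) / k⌉₊ ≤ ⌈(2 * N : ℝ) / k⌉₊ := by
    apply Nat.ceil_mono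
    apply div_le_div_of_nonneg_right _ hkR.le
    have : (0 : ℝ) ≤ N := Nat.cast_nonneg N
    linarith
  have hcard : (F.card : ℝ) ≤ N / k + 1 := by
    have h1 : (F.card : ℝ) ≤ ((⌈(2 * N : ℝ) / k⌉₊ - ⌈(N : ℝ) / k⌉₊ : ℕ) : ℝ) := by
      rw [Nat.card_Ico] at hsub
      exact_mod_cast hsub
    rw [Nat.cast_sub hle] at h1
    have h2 : (⌈(2 * N : ℝ) / k⌉₊ : ℝ) < (2 * N : ℝ) / k + 1 := by
      apply Nat.ceil_lt_add_one
      positivity
    have h3 : (N : ℝ) / k ≤ (⌈(N : ℝ) / k⌉₊ : ℝ) := Nat.le_ceil _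
    have h4 : (2 * N : ℝ) / k = N / k + N / k := by ring
    linarith
  have hNR : (0 : ℝ) < N := by exact_mod_cast hN
  have hone : (1 : ℝ) ≤ 2 * N / k := by
    rw [le_div_iff₀ hkR]
    have : (k : ℝ) ≤ 2 * N := by
      have : k ≤ 2 * N := by omega
      exact_mod_cast this
    linarith
  have h3 : (F.card : ℝ) ≤ 3 * N / k := by
    have h4 : (3 * N : ℝ) / k = N / k + 2 * N / k := by ring
    linarith
  refine h3.trans ?_
  have hgR : (0 : ℝ) < g := by exact_mod_cast hg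
  have hyR : (0 : ℝ) < y₁ := by exact_mod_cast hy₁
  apply div_le_div_of_nonneg_left (by positivity) (by positivity)
  rw [hk]
  push_cast
  apply mul_le_mul_of_nonneg_left _ hgR.le
  exact_mod_cast hby.le

end Pool.Agent.Lib.MP_1bd11d_co.SG
end

section

set_option autoImplicit false

open Finset
open scoped Classical

namespace Pool.Agent.Lib.MP_1bd11d_co.SG

/-- One half of (iii). -/
private theorem b6_side (N y : ℕ) (D D' : ℕ) (hD : N ≤ D ∧ D < 2 * N) (hD' : N ≤ D' ∧ D' < 2 * N)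
    (hne : D' ≠ D) (b r b' r' : ℕ) (hbr : b * r = D) (hbr' : b' * r' = D')
    (hb : ∀ l : ℕ, l.Prime → l ∣ b → l ≤ y) (hr' : Rough y r')
    (u : ℕ → ℕ → ℕ) (j : ℕ) (hW : Wt y u D j)
    (hmod : j ≡ u (Nat.gcd D D') D [MOD D / Nat.gcd D D']) : b ∣ b' := by
  have hDpos : 0 < D := by
    rcases Nat.eq_zero_or_pos D with h | h
    · omega
    · exact h
  set g := Nat.gcd D D' with hg
  have hgpos : 0 < g := Nat.gcd_pos_of_pos_left _ hDpos
  have hgD : g ∣ D := Nat.gcd_dvd_left D D'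
  have hgD' : g ∣ D' := Nat.gcd_dvd_right D D'
  have hgne : g ≠ D := by
    intro h
    rw [h] at hgD'
    obtain ⟨c, hc⟩ := hgD'
    rcases Nat.lt_or_ge c 2 with h2 | h2
    · interval_cases c
      · omega
      · exact hne (by rw [hc, mul_one])
    · have : D * 2 ≤ D * c := Nat.mul_le_mul_left D h2
      omega
  have hglt : g < D := lt_of_le_of_ne (Nat.le_of_dvd hDpos hgD) hgne
  have hA : g * (D / g) = D := Nat.mul_div_cancel' hgD
  have hA1 : D / g ≠ 1 := by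
    intro h
    rw [h, mul_one] at hA
    exact hgne hA
  have hy : y < (D / g).minFac := by
    by_contra hcon
    have h1 := hW g (Nat.mem_divisors.2 ⟨hgD, by omega⟩) hglt (not_lt.1 hcon)
    exact h1 (hmod.of_dvd (Nat.minFac_dvd _))
  have hcop : Nat.Coprime b (D / g) := by
    apply Nat.coprime_of_dvd
    intro l hl hlb hlA
    have h1 := hb l hl hlb
    have h2 := Nat.minFac_le_of_dvd hl.two_le hlA
    omega
  have hbg : b ∣ g := by
    apply hcop.dvd_of_dvd_mul_right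
    rw [hA, ← hbr]
    exact dvd_mul_right b r
  have hcop2 : Nat.Coprime b r' := by
    apply Nat.coprime_of_dvd
    intro l hl hlb hlr
    have h1 := hb l hl hlb
    have h2 := hr' l hl hlr
    omega
  have : b ∣ b' * r' := by
    rw [hbr']
    exact hbg.trans hgD'
  exact hcop2.dvd_of_dvd_mul_right this

/-- A pair `D ≠ D'` of `𝒟` contributes at most `gcd D D' * H` common points (`hit_card`), and
nothing at all unless one of the following holds (`g = gcd D D'`, `A = D / g`, `A' = D' / g`):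
(i) some hit `j` of `(D, D')` is not in the popular class `u g D` modulo `A`;
(ii) the same for `(D', D)`;
(iii) `A` and `A'` have no prime factor `≤ y`; then `bb D` (whose primes are `≤ y`) is prime to `A`, so
`bb D ∣ g ∣ D' = bb D' * rr D'` and `bb D ∣ bb D'` (the primes of `rr D'` are `> y`);
by symmetry `bb D = bb D'`.
(If a common point `(j, k)` satisfies `Wt .. D j` and `Wt .. D' k` and (i), (ii) fail, then
`j ≡ u g D` modulo `A`, so `A.minFac ≤ y` would contradict `Wt .. D j`; note `A ≠ 1` because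
`N ≤ D, D' < 2 N` and `D ≠ D'`; similarly for `A'`.) -/
theorem pair_bound {p : ℕ} [Fact p.Prime] (N H y : ℕ) (hsize : 96 * N ^ 4 * H < p)
    (hN : 0 < N) (𝒟 : Finset ℕ) (h𝒟 : ∀ D ∈ 𝒟, N ≤ D ∧ D < 2 * N)
    (bb rr : ℕ → ℕ) (hbr : ∀ D ∈ 𝒟, bb D * rr D = D)
    (hb : ∀ D ∈ 𝒟, ∀ l : ℕ, l.Prime → l ∣ bb D → l ≤ y) (hr : ∀ D ∈ 𝒟, Rough y (rr D))
    (base st : ℕ → ZMod p) (m : ZMod p) (hm : m ≠ 0)
    (hst : ∀ D ∈ 𝒟, (D : ZMod p) * st D = m) (u : ℕ → ℕ → ℕ) (D D' : ℕ)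
    (hD : D ∈ 𝒟) (hD' : D' ∈ 𝒟) (hne : D' ≠ D) :
    ((((range (D * H) ×ˢ range (D' * H)).filter (fun q : ℕ × ℕ =>
        Wt y u D q.1 ∧ Wt y u D' q.2 ∧
          base D + (q.1 : ZMod p) * st D = base D' + (q.2 : ZMod p) * st D')).card : ℕ) : ℝ) ≤
      (if ∃ j, Hit H base st D D' j ∧ ¬ j ≡ u (Nat.gcd D D') D [MOD D / Nat.gcd D D']
        then ((Nat.gcd D D' : ℕ) : ℝ) * H else 0) +
      (if ∃ j, Hit H base st D' D j ∧ ¬ j ≡ u (Nat.gcd D' D) D' [MOD D' / Nat.gcd D' D]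
        then ((Nat.gcd D' D : ℕ) : ℝ) * H else 0) +
      (if bb D' = bb D then ((Nat.gcd D D' : ℕ) : ℝ) * H else 0) := by
  have hsize' : 8 * N ^ 2 * H < p := by
    refine lt_of_le_of_lt (Nat.mul_le_mul_right H ?_) hsize
    have h1 : 1 ≤ N ^ 2 := Nat.one_le_pow _ _ hN
    nlinarith
  obtain ⟨a1, a2⟩ := h𝒟 D hD
  obtain ⟨b1, b2⟩ := h𝒟 D' hD'
  have hle : (((range (D * H) ×ˢ range (D' * H)).filter (fun q : ℕ × ℕ =>
        Wt y u D q.1 ∧ Wt y u D' q.2 ∧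
          base D + (q.1 : ZMod p) * st D = base D' + (q.2 : ZMod p) * st D')).card) ≤
        Nat.gcd D D' * H := by
    refine le_trans (card_le_card ?_) (hit_card N H hsize' base st m hm D D' (by omega) a2
      (by omega) b2 (hst D hD) (hst D' hD'))
    intro q hq
    simp only [mem_filter] at hq ⊢
    exact ⟨hq.1, hq.2.2.2⟩
  have hleR : ((((range (D * H) ×ˢ range (D' * H)).filter (fun q : ℕ × ℕ =>
        Wt y u D q.1 ∧ Wt y u D' q.2 ∧
          base D + (q.1 : ZMod p) * st D = base D' + (q.2 : ZMod p) * st D')).card : ℕ) : ℝ) ≤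
        ((Nat.gcd D D' : ℕ) : ℝ) * H := by
    exact_mod_cast hle
  have hgH : (0 : ℝ) ≤ ((Nat.gcd D D' : ℕ) : ℝ) * H := by positivity
  have hgH' : (0 : ℝ) ≤ ((Nat.gcd D' D : ℕ) : ℝ) * H := by positivity
  by_cases c1 : ∃ j, Hit H base st D D' j ∧ ¬ j ≡ u (Nat.gcd D D') D [MOD D / Nat.gcd D D']
  · rw [if_pos c1]
    have h2 : (0 : ℝ) ≤ (if ∃ j, Hit H base st D' D j ∧
        ¬ j ≡ u (Nat.gcd D' D) D' [MOD D' / Nat.gcd D' D]
        then ((Nat.gcd D' D : ℕ) : ℝ) * H else 0) := by split_ifs <;> simp_all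
    have h3 : (0 : ℝ) ≤ (if bb D' = bb D then ((Nat.gcd D D' : ℕ) : ℝ) * H else 0) := by
      split_ifs <;> simp_all
    linarith
  by_cases c2 : ∃ j, Hit H base st D' D j ∧ ¬ j ≡ u (Nat.gcd D' D) D' [MOD D' / Nat.gcd D' D]
  · rw [if_neg c1, if_pos c2]
    have h3 : (0 : ℝ) ≤ (if bb D' = bb D then ((Nat.gcd D D' : ℕ) : ℝ) * H else 0) := by
      split_ifs <;> simp_all
    rw [Nat.gcd_comm D' D]
    linarith
  rw [if_neg c1, if_neg c2]
  push Not at c1 c2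
  rcases Finset.eq_empty_or_nonempty ((range (D * H) ×ˢ range (D' * H)).filter
      (fun q : ℕ × ℕ => Wt y u D q.1 ∧ Wt y u D' q.2 ∧
          base D + (q.1 : ZMod p) * st D = base D' + (q.2 : ZMod p) * st D')) with he | ⟨q, hq⟩
  · rw [he]
    simp only [card_empty, Nat.cast_zero, add_zero, zero_add]
    split_ifs
    · exact hgH
    · exact le_rfl
  · simp only [mem_filter, mem_product, mem_range] at hq
    obtain ⟨⟨hj, hk⟩, w1, w2, heq⟩ := hq
    have m1 := c1 q.1 ⟨hj, q.2, hk, heq⟩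
    have m2 := c2 q.2 ⟨hk, q.1, hj, heq.symm⟩
    have d1 := b6_side N y D D' ⟨a1, a2⟩ ⟨b1, b2⟩ hne (bb D) (rr D) (bb D') (rr D') (hbr D hD)
      (hbr D' hD') (hb D hD) (hr D' hD') u q.1 w1 m1
    have d2 := b6_side N y D' D ⟨b1, b2⟩ ⟨a1, a2⟩ (Ne.symm hne) (bb D') (rr D') (bb D) (rr D)
      (hbr D' hD') (hbr D hD) (hb D' hD') (hr D hD) u q.2 w2 m2
    have : bb D' = bb D := Nat.dvd_antisymm d2 d1
    rw [if_pos this]
    linarith

end Pool.Agent.Lib.MP_1bd11d_co.SG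
end

section

set_option autoImplicit false
set_option maxHeartbeats 400000

open Finset
open scoped Classical

namespace Pool.Agent.Lib.MP_1bd11d_co.SG

/-- The number of multiples of `g` in `[N, 2 N)`. -/
private theorem b4_card (N g : ℕ) (hg : 0 < g) (𝒟 : Finset ℕ)
    (h𝒟 : ∀ D ∈ 𝒟, N ≤ D ∧ D < 2 * N) :
    (((𝒟.filter (fun D => g ∣ D)).card : ℕ) : ℝ) ≤ 3 * N / g := by
  have hgR : (0 : ℝ) < g := by exact_mod_cast hg
  rcases (𝒟.filter (fun D => g ∣ D)).eq_empty_or_nonempty with h | ⟨D, hD⟩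
  · rw [h]
    simp only [card_empty, Nat.cast_zero]
    positivity
  · obtain ⟨hD1, hD2⟩ := mem_filter.1 hD
    have hDN := h𝒟 D hD1
    have hN : 0 < N := by omega
    have hgD : g ≤ D := Nat.le_of_dvd (by omega) hD2
    have hcard : (𝒟.filter (fun D => g ∣ D)).card ≤ N / g + 1 := by
      have hinj : Set.InjOn (fun D => (D - N) / g) (𝒟.filter (fun D => g ∣ D) : Set ℕ) := by
        intro a ha b hb hab
        obtain ⟨ha1, x, hx⟩ := mem_filter.1 (mem_coe.1 ha)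
        obtain ⟨hb1, y, hy⟩ := mem_filter.1 (mem_coe.1 hb)
        have hab' : (a - N) / g = (b - N) / g := hab
        have ea := Nat.div_add_mod (a - N) g
        have eb := Nat.div_add_mod (b - N) g
        have la := Nat.mod_lt (a - N) hg
        have lb := Nat.mod_lt (b - N) hg
        have hNa := (h𝒟 a ha1).1
        have hNb := (h𝒟 b hb1).1
        rw [hab'] at ea
        rcases lt_trichotomy x y with h | h | h
        · exfalso
          have h1 : g * (x + 1) ≤ g * y := Nat.mul_le_mul_left g h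
          rw [Nat.mul_add, Nat.mul_one, ← hx, ← hy] at h1
          omega
        · rw [hx, hy, h]
        · exfalso
          have h1 : g * (y + 1) ≤ g * x := Nat.mul_le_mul_left g h
          rw [Nat.mul_add, Nat.mul_one, ← hx, ← hy] at h1
          omega
      have hmaps : ∀ a ∈ 𝒟.filter (fun D => g ∣ D), (fun D => (D - N) / g) a ∈
          range (N / g + 1) := by
        intro a ha
        obtain ⟨ha1, ha2⟩ := mem_filter.1 ha
        have h1 := h𝒟 a ha1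
        have h2 : (a - N) / g ≤ N / g := Nat.div_le_div_right (by omega)
        simp only [mem_range]
        omega
      have hcle := card_le_card_of_injOn _ hmaps hinj
      rwa [card_range] at hcle
    have h4 : ((N / g : ℕ) : ℝ) ≤ (N : ℝ) / g := Nat.cast_div_le
    have h5 : ((g : ℕ) : ℝ) ≤ 2 * N := by
      have : g ≤ 2 * N := by omega
      exact_mod_cast this
    have h6 : (1 : ℝ) ≤ 2 * N / g := by
      rw [le_div_iff₀ hgR]; linarith
    calc (((𝒟.filter (fun D => g ∣ D)).card : ℕ) : ℝ) ≤ ((N / g + 1 : ℕ) : ℝ) := by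
          exact_mod_cast hcard
      _ = ((N / g : ℕ) : ℝ) + 1 := by push_cast; ring
      _ ≤ (N : ℝ) / g + 2 * N / g := by linarith
      _ = 3 * N / g := by ring

/-- Cauchy-Schwarz and the final bound. -/
private theorem b4_final (N g y₁ : ℕ) (hN : 0 < N) (hg : 0 < g) (hy₁ : 0 < y₁)
    (𝒟 D' : Finset ℕ) (hsub : D' ⊆ 𝒟)
    (e P : ℕ → ℕ) (hzero : ∀ D ∈ 𝒟, D ∉ D' → e D = 0)
    (hsq : ∀ D ∈ 𝒟, e D ^ 2 ≤ P D)
    (hcardD' : ((D'.card : ℕ) : ℝ) ≤ 3 * N / g)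
    (hsum : ∑ D ∈ 𝒟, ((P D : ℕ) : ℝ) ≤ ((D'.card : ℕ) : ℝ) ^ 2 * (3 * N / (g * y₁))) :
    ∑ D ∈ 𝒟, ((e D : ℕ) : ℝ) ≤ 9 * ((N : ℝ) / g) ^ 2 / √(y₁ : ℝ) := by
  have hgR : (0 : ℝ) < g := by exact_mod_cast hg
  have hyR : (0 : ℝ) < y₁ := by exact_mod_cast hy₁
  have hNR : (0 : ℝ) < N := by exact_mod_cast hN
  have hred : ∑ D ∈ 𝒟, ((e D : ℕ) : ℝ) = ∑ D ∈ D', ((e D : ℕ) : ℝ) := by
    refine (sum_subset hsub fun D hD hnot => ?_).symm
    rw [hzero D hD hnot, Nat.cast_zero]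
  have hcs : (∑ D ∈ D', ((e D : ℕ) : ℝ)) ^ 2 ≤
      ((D'.card : ℕ) : ℝ) * ∑ D ∈ D', ((e D : ℕ) : ℝ) ^ 2 :=
    sq_sum_le_card_mul_sum_sq
  have hb : ∑ D ∈ D', ((e D : ℕ) : ℝ) ^ 2 ≤ ((D'.card : ℕ) : ℝ) ^ 2 * (3 * N / (g * y₁)) := by
    refine le_trans ?_ hsum
    calc ∑ D ∈ D', ((e D : ℕ) : ℝ) ^ 2 ≤ ∑ D ∈ 𝒟, ((e D : ℕ) : ℝ) ^ 2 :=
          sum_le_sum_of_subset_of_nonneg hsub (fun _ _ _ => by positivity)
      _ ≤ ∑ D ∈ 𝒟, ((P D : ℕ) : ℝ) := sum_le_sum fun D hD => by exact_mod_cast hsq D hD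
  have hfin : (∑ D ∈ D', ((e D : ℕ) : ℝ)) ^ 2 ≤ (9 * ((N : ℝ) / g) ^ 2) ^ 2 / y₁ := by
    refine le_trans hcs ?_
    have hK : (0 : ℝ) ≤ ((D'.card : ℕ) : ℝ) := by positivity
    calc ((D'.card : ℕ) : ℝ) * ∑ D ∈ D', ((e D : ℕ) : ℝ) ^ 2
        ≤ ((D'.card : ℕ) : ℝ) * (((D'.card : ℕ) : ℝ) ^ 2 * (3 * N / (g * y₁))) :=
          mul_le_mul_of_nonneg_left hb hK
      _ = ((D'.card : ℕ) : ℝ) ^ 3 * (3 * N / (g * y₁)) := by ring
      _ ≤ (3 * N / g) ^ 3 * (3 * N / (g * y₁)) := by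
          refine mul_le_mul_of_nonneg_right (pow_le_pow_left₀ hK hcardD' 3) (by positivity)
      _ = (9 * ((N : ℝ) / g) ^ 2) ^ 2 / y₁ := by
          field_simp
          ring
  rw [hred]
  have hS : (0 : ℝ) ≤ 9 * ((N : ℝ) / g) ^ 2 / √(y₁ : ℝ) := by positivity
  refine (pow_le_pow_iff_left₀ (by positivity) hS (by norm_num : (2:ℕ) ≠ 0)).1 ?_
  rw [div_pow, Real.sq_sqrt hyR.le]
  exact hfin

/-- For every `g` there are popular classes `u D` (modulo `D / g`) such that the number of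
exceptional pairs is small.  Let `𝒜 D = {D' ∈ 𝒟 : D' ≠ D, gcd(D, D') = g, some hit}`; by `hit_modEq`
the class modulo `D / g` of a hit depends only on `D'` (take `f D' = j % (D / g)` for a chosen hit
`j`).  `popular` gives `u D` with `Exc D ^ 2 ≤ #{(D₁, D₂) ∈ 𝒜 D × 𝒜 D : classes differ}`.  Sum over
`D` in `𝒟' = {D ∈ 𝒟 : g ∣ D}` (only those have a nonempty `𝒜 D`) and use `centers_card`:
`∑ Exc D ^ 2 ≤ (#𝒟')² * 3 N / (g y₁)`, `#𝒟' ≤ N / g + 1 ≤ 3 N / g` (if `𝒟'` is nonempty then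
`g < 2 N`), and Cauchy-Schwarz: `∑ Exc D ≤ √(#𝒟' * ∑ Exc D ^ 2) ≤ √((3 N / g)⁴ / y₁)
= 9 (N / g)² / √y₁`. -/
theorem exc_sum {p : ℕ} [Fact p.Prime] (N H y₁ : ℕ) (hsize : 96 * N ^ 4 * H < p)
    (hy₁ : 0 < y₁) (𝒟 : Finset ℕ) (h𝒟 : ∀ D ∈ 𝒟, N ≤ D ∧ D < 2 * N) (hN : 0 < N)
    (hrough : ∀ D ∈ 𝒟, Rough y₁ D)
    (base st : ℕ → ZMod p) (m : ZMod p) (hm : m ≠ 0)
    (hst : ∀ D ∈ 𝒟, (D : ZMod p) * st D = m) (g : ℕ) (hg : 0 < g) :
    ∃ u : ℕ → ℕ, ∑ D ∈ 𝒟, (((𝒟.filter (fun D' => D' ≠ D ∧ Nat.gcd D D' = g ∧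
        ∃ j, Hit H base st D D' j ∧ ¬ j ≡ u D [MOD D / g])).card : ℕ) : ℝ) ≤
      9 * ((N : ℝ) / g) ^ 2 / √(y₁ : ℝ) := by
  have hsize8 : 8 * N ^ 2 * H < p := by
    refine lt_of_le_of_lt ?_ hsize
    refine Nat.mul_le_mul_right H ?_
    calc 8 * N ^ 2 ≤ 96 * N ^ 2 := Nat.mul_le_mul_right _ (by norm_num)
      _ ≤ 96 * N ^ 4 := Nat.mul_le_mul_left _ (Nat.pow_le_pow_right hN (by norm_num))
  -- the chosen hit
  have hch : ∀ D D' : ℕ, ∃ j : ℕ, (∃ j, Hit H base st D D' j) → Hit H base st D D' j := by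
    intro D D'
    by_cases h : ∃ j, Hit H base st D D' j
    · obtain ⟨j, hj⟩ := h
      exact ⟨j, fun _ => hj⟩
    · exact ⟨0, fun h' => absurd h' h⟩
  choose c hc using hch
  have hpop : ∀ D : ℕ, ∃ u : ℕ, ((𝒟.filter (fun D' => D' ≠ D ∧ Nat.gcd D D' = g ∧
        ∃ j, Hit H base st D D' j)).filter (fun a => c D a % (D / g) ≠ u)).card ^ 2 ≤
      (((𝒟.filter (fun D' => D' ≠ D ∧ Nat.gcd D D' = g ∧ ∃ j, Hit H base st D D' j)) ×ˢ
        (𝒟.filter (fun D' => D' ≠ D ∧ Nat.gcd D D' = g ∧ ∃ j, Hit H base st D D' j))).filter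
        (fun q => c D q.1 % (D / g) ≠ c D q.2 % (D / g))).card :=
    fun D => popular _ (fun a => c D a % (D / g))
  choose u hu using hpop
  refine ⟨u, ?_⟩
  refine b4_final N g y₁ hN hg hy₁ 𝒟 (𝒟.filter (fun D => g ∣ D)) (filter_subset _ _)
    (fun D => (𝒟.filter (fun D' => D' ≠ D ∧ Nat.gcd D D' = g ∧
        ∃ j, Hit H base st D D' j ∧ ¬ j ≡ u D [MOD D / g])).card)
    (fun D => (((𝒟.filter (fun D => g ∣ D)) ×ˢ (𝒟.filter (fun D => g ∣ D))).filter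
      (fun q => Nat.gcd D q.1 = g ∧ Nat.gcd D q.2 = g ∧ ∃ j₁ j₂, Hit H base st D q.1 j₁ ∧
        Hit H base st D q.2 j₂ ∧ ¬ j₁ ≡ j₂ [MOD D / g])).card) ?_ ?_
    (b4_card N g hg 𝒟 h𝒟) ?_
  · intro D hD hnot
    rw [card_eq_zero, eq_empty_iff_forall_notMem]
    intro a ha
    obtain ⟨ha1, ha2, ha3, _⟩ := mem_filter.1 ha
    apply hnot
    refine mem_filter.2 ⟨hD, ?_⟩
    rw [← ha3]
    exact Nat.gcd_dvd_left _ _
  · intro D hD
    refine le_trans (Nat.pow_le_pow_left (card_le_card ?_) 2)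
      (le_trans (hu D) (card_le_card ?_))
    · intro a ha
      obtain ⟨ha1, ha2, ha3, j, hj, hju⟩ := mem_filter.1 ha
      refine mem_filter.2 ⟨mem_filter.2 ⟨ha1, ha2, ha3, j, hj⟩, ?_⟩
      intro hcon
      apply hju
      have h1 := hc D a ⟨j, hj⟩
      have h2 := hit_modEq N H hsize8 base st m hm D a (by have := (h𝒟 D hD).1; omega)
        (h𝒟 D hD).2 (by have := (h𝒟 a ha1).1; omega) (h𝒟 a ha1).2 (hst D hD) (hst a ha1) j (c D a)
        hj h1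
      rw [ha3] at h2
      refine h2.trans ?_
      rw [← hcon]
      exact (Nat.mod_modEq _ _).symm
    · intro q hq
      obtain ⟨hq1, hq2⟩ := mem_filter.1 hq
      obtain ⟨hqa, hqb⟩ := mem_product.1 hq1
      obtain ⟨a1, a2, a3, a4⟩ := mem_filter.1 hqa
      obtain ⟨b1, b2, b3, b4⟩ := mem_filter.1 hqb
      refine mem_filter.2 ⟨mem_product.2 ⟨mem_filter.2 ⟨a1, ?_⟩, mem_filter.2 ⟨b1, ?_⟩⟩, a3, b3,
        c D q.1, c D q.2, hc D q.1 a4, hc D q.2 b4, hq2⟩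
      · rw [← a3]; exact Nat.gcd_dvd_right _ _
      · rw [← b3]; exact Nat.gcd_dvd_right _ _
  · have h1 : ∑ D ∈ 𝒟, (((𝒟.filter (fun D => g ∣ D)) ×ˢ (𝒟.filter (fun D => g ∣ D))).filter
        (fun q => Nat.gcd D q.1 = g ∧ Nat.gcd D q.2 = g ∧ ∃ j₁ j₂, Hit H base st D q.1 j₁ ∧
        Hit H base st D q.2 j₂ ∧ ¬ j₁ ≡ j₂ [MOD D / g])).card =
        ∑ q ∈ (𝒟.filter (fun D => g ∣ D)) ×ˢ (𝒟.filter (fun D => g ∣ D)), (𝒟.filter (fun D =>
        Nat.gcd D q.1 = g ∧ Nat.gcd D q.2 = g ∧ ∃ j₁ j₂, Hit H base st D q.1 j₁ ∧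
        Hit H base st D q.2 j₂ ∧ ¬ j₁ ≡ j₂ [MOD D / g])).card := by
      simp_rw [card_filter (fun q : ℕ × ℕ => _), card_filter (fun D : ℕ => Nat.gcd D _ = g ∧ _)]
      exact sum_comm
    rw [← Nat.cast_sum, h1, Nat.cast_sum]
    calc _ ≤ ∑ _q ∈ (𝒟.filter (fun D => g ∣ D)) ×ˢ (𝒟.filter (fun D => g ∣ D)),
          (3 * (N : ℝ) / (g * y₁)) := by
          refine sum_le_sum fun q hq => ?_
          obtain ⟨hq1, hq2⟩ := mem_product.1 hq
          exact centers_card N H y₁ hsize hy₁ 𝒟 h𝒟 hrough base st m hm hst g q.1 q.2 hg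
            (mem_filter.1 hq1).1 (mem_filter.1 hq2).1
      _ = (((𝒟.filter (fun D => g ∣ D)).card : ℕ) : ℝ) ^ 2 * (3 * N / (g * y₁)) := by
          rw [sum_const, card_product, nsmul_eq_mul, Nat.cast_mul]
          ring

end Pool.Agent.Lib.MP_1bd11d_co.SG
end

section

set_option autoImplicit false

open Finset
open scoped Classical

namespace Pool.Agent.Lib.MP_1bd11d_co.SG

/-- The exceptional pairs, grouped by the value of the greatest common divisor. -/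
private theorem b7_exc {p : ℕ} [Fact p.Prime] (N H y₁ : ℕ) (𝒟 : Finset ℕ)
    (h𝒟 : ∀ D ∈ 𝒟, N ≤ D ∧ D < 2 * N) (hN : 0 < N)
    (base st : ℕ → ZMod p) (U : ℕ → ℕ → ℕ)
    (hU : ∀ g, 0 < g → ∑ D ∈ 𝒟, (((𝒟.filter (fun D' => D' ≠ D ∧ Nat.gcd D D' = g ∧
        ∃ j, Hit H base st D D' j ∧ ¬ j ≡ U g D [MOD D / g])).card : ℕ) : ℝ) ≤
      9 * ((N : ℝ) / g) ^ 2 / √(y₁ : ℝ)) :
    ∑ D ∈ 𝒟, ∑ D' ∈ 𝒟, (if D' ≠ D ∧ ∃ j, Hit H base st D D' j ∧
        ¬ j ≡ U (Nat.gcd D D') D [MOD D / Nat.gcd D D'] then ((Nat.gcd D D' : ℕ) : ℝ) else 0) ≤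
      9 * (N : ℝ) ^ 2 / √(y₁ : ℝ) * (1 + Real.log (2 * N)) := by
  have e1 : ∀ D ∈ 𝒟, ∀ D' ∈ 𝒟, (if D' ≠ D ∧ ∃ j, Hit H base st D D' j ∧
        ¬ j ≡ U (Nat.gcd D D') D [MOD D / Nat.gcd D D'] then ((Nat.gcd D D' : ℕ) : ℝ) else 0) =
      ∑ g ∈ Icc 1 (2 * N), if D' ≠ D ∧ Nat.gcd D D' = g ∧
        ∃ j, Hit H base st D D' j ∧ ¬ j ≡ U g D [MOD D / g] then (g : ℝ) else 0 := by
    intro D hD D' _
    obtain ⟨h1, h2⟩ := h𝒟 D hD
    have hDpos : 0 < D := by omega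
    have hgpos : 0 < Nat.gcd D D' := Nat.gcd_pos_of_pos_left _ hDpos
    have hgle : Nat.gcd D D' ≤ D := Nat.gcd_le_left _ hDpos
    rw [Finset.sum_eq_single (Nat.gcd D D')]
    · simp
    · intro g _ hg
      rw [if_neg]
      rintro ⟨_, h, _⟩
      exact hg h.symm
    · intro h
      exact absurd (Finset.mem_Icc.2 ⟨hgpos, by omega⟩) h
  rw [Finset.sum_congr rfl fun D hD => Finset.sum_congr rfl fun D' hD' => e1 D hD D' hD']
  have e2 : ∑ D ∈ 𝒟, ∑ D' ∈ 𝒟, ∑ g ∈ Icc 1 (2 * N), (if D' ≠ D ∧ Nat.gcd D D' = g ∧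
        ∃ j, Hit H base st D D' j ∧ ¬ j ≡ U g D [MOD D / g] then (g : ℝ) else 0) =
      ∑ g ∈ Icc 1 (2 * N), (g : ℝ) * ∑ D ∈ 𝒟,
        (((𝒟.filter (fun D' => D' ≠ D ∧ Nat.gcd D D' = g ∧
          ∃ j, Hit H base st D D' j ∧ ¬ j ≡ U g D [MOD D / g])).card : ℕ) : ℝ) := by
    rw [Finset.sum_congr rfl fun D _ => Finset.sum_comm, Finset.sum_comm]
    refine Finset.sum_congr rfl fun g _ => ?_
    rw [Finset.mul_sum]
    refine Finset.sum_congr rfl fun D _ => ?_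
    rw [← Finset.sum_filter, Finset.sum_const, nsmul_eq_mul, mul_comm]
  rw [e2]
  have e3 : ∀ g ∈ Icc 1 (2 * N), (g : ℝ) * ∑ D ∈ 𝒟,
        (((𝒟.filter (fun D' => D' ≠ D ∧ Nat.gcd D D' = g ∧
          ∃ j, Hit H base st D D' j ∧ ¬ j ≡ U g D [MOD D / g])).card : ℕ) : ℝ) ≤
      9 * (N : ℝ) ^ 2 / √(y₁ : ℝ) * (g : ℝ)⁻¹ := by
    intro g hg
    have hgpos : 0 < g := (Finset.mem_Icc.1 hg).1
    have hgR : (0 : ℝ) < g := by exact_mod_cast hgpos
    refine (mul_le_mul_of_nonneg_left (hU g hgpos) hgR.le).trans (le_of_eq ?_)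
    field_simp
  refine (Finset.sum_le_sum e3).trans ?_
  rw [← Finset.mul_sum]
  have e4 : ∑ g ∈ Icc 1 (2 * N), (g : ℝ)⁻¹ ≤ 1 + Real.log (2 * N) := by
    have h := harmonic_le_one_add_log (2 * N)
    rw [harmonic_eq_sum_Icc] at h
    push_cast at h
    exact h
  exact mul_le_mul_of_nonneg_left e4 (by positivity)

/-- The combinatorial part.  Take `u g` from `exc_sum` and `W = Wt y u`.  The diagonal terms are
bounded by `self_card`, the others by `pair_bound`; the first two kinds of terms are grouped by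
`g = gcd D D' < 2 N`: `∑_{g < 2N} g * 9 (N / g)² / √y₁ ≤ 9 N² / √y₁ * (1 + log (2 N))`. -/
theorem partII {p : ℕ} [Fact p.Prime] (N H y y₁ : ℕ) (hsize : 96 * N ^ 4 * H < p)
    (hy₁ : 0 < y₁) (hN : 0 < N) (𝒟 : Finset ℕ) (h𝒟 : ∀ D ∈ 𝒟, N ≤ D ∧ D < 2 * N)
    (hrough : ∀ D ∈ 𝒟, Rough y₁ D)
    (bb rr : ℕ → ℕ) (hbr : ∀ D ∈ 𝒟, bb D * rr D = D)
    (hb : ∀ D ∈ 𝒟, ∀ l : ℕ, l.Prime → l ∣ bb D → l ≤ y) (hr : ∀ D ∈ 𝒟, Rough y (rr D))
    (base st : ℕ → ZMod p) (m : ZMod p) (hm : m ≠ 0)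
    (hst : ∀ D ∈ 𝒟, (D : ZMod p) * st D = m) :
    ∃ W : ℕ → ℕ → Prop,
      (∀ D ∈ 𝒟, ∀ j, W D (j + bb D) ↔ W D j) ∧
      (∀ D ∈ 𝒟, (D : ℝ) * (1 - (D.divisors.card : ℝ) / y₁) ≤
        (((range D).filter (fun r => W D r)).card : ℝ)) ∧
      ∑ x, ‖G1 𝒟 H base st (fun D j => if W D j then 1 else 0) x‖ ^ 2 ≤
        H * (∑ D ∈ 𝒟, (D : ℝ) + 18 * (N : ℝ) ^ 2 / √(y₁ : ℝ) * (1 + Real.log (2 * N)) +
          ∑ D ∈ 𝒟, ∑ D' ∈ 𝒟.filter (fun D' => D' ≠ D ∧ bb D' = bb D),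
            ((Nat.gcd D D' : ℕ) : ℝ)) := by
  have hDpos : ∀ D ∈ 𝒟, 0 < D := fun D hD => by have := (h𝒟 D hD).1; omega
  have hex : ∀ g : ℕ, ∃ u : ℕ → ℕ, 0 < g → ∑ D ∈ 𝒟, (((𝒟.filter (fun D' => D' ≠ D ∧
        Nat.gcd D D' = g ∧ ∃ j, Hit H base st D D' j ∧ ¬ j ≡ u D [MOD D / g])).card : ℕ) : ℝ) ≤
      9 * ((N : ℝ) / g) ^ 2 / √(y₁ : ℝ) := by
    intro g
    by_cases hg : 0 < g
    · obtain ⟨u, hu⟩ := exc_sum N H y₁ hsize hy₁ 𝒟 h𝒟 hN hrough base st m hm hst g hg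
      exact ⟨u, fun _ => hu⟩
    · exact ⟨fun _ => 0, fun h => absurd h hg⟩
  choose U hU using hex
  refine ⟨Wt y U, ?_, ?_, ?_⟩
  · intro D hD j
    refine Wt_per y U D (bb D) (hDpos D hD) (fun l hl hlD hly => ?_) j
    rw [← hbr D hD] at hlD
    rcases (Nat.Prime.dvd_mul hl).1 hlD with h | h
    · exact h
    · exact absurd (hr D hD l hl h) (by omega)
  · intro D hD
    exact Wt_card y y₁ hy₁ U D (hDpos D hD) (hrough D hD)
  · rw [G1_norm_sq]
    set E : ℕ → ℕ → ℝ := fun D D' => if D' ≠ D ∧ ∃ j, Hit H base st D D' j ∧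
        ¬ j ≡ U (Nat.gcd D D') D [MOD D / Nat.gcd D D'] then ((Nat.gcd D D' : ℕ) : ℝ) else 0
      with hE
    have hsize2 : 8 * N ^ 2 * H < p := by
      refine lt_of_le_of_lt ?_ hsize
      refine Nat.mul_le_mul_right H ?_
      have h1 : N ^ 2 ≤ N ^ 4 := Nat.pow_le_pow_right hN (by norm_num)
      omega
    have hpt : ∀ D ∈ 𝒟, ∀ D' ∈ 𝒟,
        (((range (D * H) ×ˢ range (D' * H)).filter (fun q : ℕ × ℕ =>
          Wt y U D q.1 ∧ Wt y U D' q.2 ∧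
            base D + (q.1 : ZMod p) * st D = base D' + (q.2 : ZMod p) * st D')).card : ℝ) ≤
        (if D' = D then (D : ℝ) * H else 0) + (E D D' * H + E D' D * H) +
          (if D' ≠ D ∧ bb D' = bb D then ((Nat.gcd D D' : ℕ) : ℝ) * H else 0) := by
      intro D hD D' hD'
      by_cases hne : D' = D
      · subst hne
        have h1 := self_card N H hsize2 base st m hm D' (hDpos D' hD) (h𝒟 D' hD).2 (hst D' hD)
        have h2 : ((range (D' * H) ×ˢ range (D' * H)).filter (fun q : ℕ × ℕ =>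
          Wt y U D' q.1 ∧ Wt y U D' q.2 ∧
            base D' + (q.1 : ZMod p) * st D' = base D' + (q.2 : ZMod p) * st D')).card ≤
            D' * H := by
          refine le_trans (Finset.card_le_card ?_) h1
          intro q hq
          rw [Finset.mem_filter] at hq ⊢
          exact ⟨hq.1, hq.2.2.2⟩
        have h3 : (((range (D' * H) ×ˢ range (D' * H)).filter (fun q : ℕ × ℕ =>
          Wt y U D' q.1 ∧ Wt y U D' q.2 ∧
            base D' + (q.1 : ZMod p) * st D' = base D' + (q.2 : ZMod p) * st D')).card : ℝ) ≤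
            (D' : ℝ) * H := by exact_mod_cast h2
        simpa [hE] using h3
      · have h := pair_bound N H y hsize hN 𝒟 h𝒟 bb rr hbr hb hr base st m hm hst U D D' hD hD' hne
        have hne' : D ≠ D' := fun h => hne h.symm
        refine h.trans (le_of_eq ?_)
        simp only [hE, hne, hne', ne_eq, not_false_eq_true, true_and, if_false, zero_add, ite_mul,
          zero_mul]
    refine (Finset.sum_le_sum fun D hD => Finset.sum_le_sum fun D' hD' => hpt D hD D' hD').trans ?_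
    have hEs := b7_exc N H y₁ 𝒟 h𝒟 hN base st U hU
    have s1 : ∑ D ∈ 𝒟, ∑ D' ∈ 𝒟, (if D' = D then (D : ℝ) * H else 0) = H * ∑ D ∈ 𝒟, (D : ℝ) := by
      rw [Finset.mul_sum]
      refine Finset.sum_congr rfl fun D hD => ?_
      rw [Finset.sum_ite_eq' 𝒟 D, if_pos hD, mul_comm]
    have s2 : ∑ D ∈ 𝒟, ∑ D' ∈ 𝒟, E D D' * H = H * ∑ D ∈ 𝒟, ∑ D' ∈ 𝒟, E D D' := by
      rw [Finset.mul_sum]
      refine Finset.sum_congr rfl fun D _ => ?_
      rw [Finset.mul_sum]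
      exact Finset.sum_congr rfl fun D' _ => mul_comm _ _
    have s3 : ∑ D ∈ 𝒟, ∑ D' ∈ 𝒟, E D' D * H = H * ∑ D ∈ 𝒟, ∑ D' ∈ 𝒟, E D D' := by
      rw [Finset.sum_comm]
      exact s2
    have s4 : ∑ D ∈ 𝒟, ∑ D' ∈ 𝒟, (if D' ≠ D ∧ bb D' = bb D then ((Nat.gcd D D' : ℕ) : ℝ) * H
        else 0) = H * ∑ D ∈ 𝒟, ∑ D' ∈ 𝒟.filter (fun D' => D' ≠ D ∧ bb D' = bb D),
            ((Nat.gcd D D' : ℕ) : ℝ) := by
      rw [Finset.mul_sum]
      refine Finset.sum_congr rfl fun D _ => ?_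
      rw [Finset.mul_sum, Finset.sum_filter]
      refine Finset.sum_congr rfl fun D' _ => ?_
      split_ifs
      · exact mul_comm _ _
      · rfl
    have s5 : ∑ D ∈ 𝒟, ∑ D' ∈ 𝒟, ((if D' = D then (D : ℝ) * H else 0) +
          (E D D' * H + E D' D * H) +
          (if D' ≠ D ∧ bb D' = bb D then ((Nat.gcd D D' : ℕ) : ℝ) * H else 0)) =
        H * ∑ D ∈ 𝒟, (D : ℝ) + (H * ∑ D ∈ 𝒟, ∑ D' ∈ 𝒟, E D D' +
          H * ∑ D ∈ 𝒟, ∑ D' ∈ 𝒟, E D D') +
        H * ∑ D ∈ 𝒟, ∑ D' ∈ 𝒟.filter (fun D' => D' ≠ D ∧ bb D' = bb D),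
            ((Nat.gcd D D' : ℕ) : ℝ) := by
      rw [← s1, ← s4]
      nth_rewrite 1 [← s2]
      rw [← s3]
      simp only [Finset.sum_add_distrib]
    rw [s5]
    have hH : (0 : ℝ) ≤ H := Nat.cast_nonneg H
    have h6 := mul_le_mul_of_nonneg_left hEs hH
    have h7 : (H : ℝ) * (∑ D ∈ 𝒟, (D : ℝ) + 18 * (N : ℝ) ^ 2 / √(y₁ : ℝ) * (1 + Real.log (2 * N)) +
          ∑ D ∈ 𝒟, ∑ D' ∈ 𝒟.filter (fun D' => D' ≠ D ∧ bb D' = bb D),
            ((Nat.gcd D D' : ℕ) : ℝ)) =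
        H * ∑ D ∈ 𝒟, (D : ℝ) +
          (H * (9 * (N : ℝ) ^ 2 / √(y₁ : ℝ) * (1 + Real.log (2 * N))) +
          H * (9 * (N : ℝ) ^ 2 / √(y₁ : ℝ) * (1 + Real.log (2 * N)))) +
          H * ∑ D ∈ 𝒟, ∑ D' ∈ 𝒟.filter (fun D' => D' ≠ D ∧ bb D' = bb D),
            ((Nat.gcd D D' : ℕ) : ℝ) := by ring
    rw [h7]
    linarith

end Pool.Agent.Lib.MP_1bd11d_co.SG
end
end

section

set_option autoImplicit false

open Finset
open scoped Classical

namespace Pool.Agent.Lib.MP_1bd11d_co.SG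

/-- The primes in `(y, N]`. -/
theorem SS_quot (y N : ℕ) (h : y ≤ N) :
    ∏ l ∈ ((Icc 1 N).filter Nat.Prime).filter (fun l => y < l), (1 - 1 / (l : ℝ))⁻¹ =
      SS N / SS y := by
  rw [eq_div_iff (SS_pos y).ne']
  unfold SS
  rw [mul_comm]
  rw [← prod_filter_mul_prod_filter_not ((Icc 1 N).filter Nat.Prime) (fun l => y < l)]
  rw [mul_comm]
  congr 1
  apply prod_congr _ (fun _ _ => rfl)
  ext l
  simp only [mem_filter, mem_Icc]
  constructor
  · rintro ⟨⟨h1, h2⟩, h3⟩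
    exact ⟨⟨⟨h1, h2.trans h⟩, h3⟩, by omega⟩
  · rintro ⟨⟨⟨h1, h2⟩, h3⟩, h4⟩
    exact ⟨⟨h1, by omega⟩, h3⟩

/-- `sum_primes_in_le` with `P` the primes in `(y, N]`. -/
theorem rough_sum_le (y N : ℕ) (h : y ≤ N) :
    ∑ n ∈ (Icc 1 N).filter (fun n => Rough y n), 1 / (n : ℝ) ≤ SS N / SS y := by
  rw [← SS_quot y N h]
  refine le_trans (sum_le_sum_of_subset_of_nonneg ?_ (fun _ _ _ => by positivity))
    (sum_primes_in_le _ (fun l hl => (mem_filter.1 (mem_filter.1 hl).1).2) N)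
  intro n hn
  rw [mem_filter, mem_Icc] at hn ⊢
  refine ⟨hn.1, fun l hl hln => ?_⟩
  simp only [mem_filter, mem_Icc]
  exact ⟨⟨⟨hl.one_lt.le, (Nat.le_of_dvd (by omega) hln).trans hn.1.2⟩, hl⟩, hn.2 l hl hln⟩

/-- `sum_primes_in_le` with `P` the primes in `(y₁, y]`. -/
theorem mid_sum_le (y₁ y N : ℕ) (h : y₁ ≤ y) :
    ∑ n ∈ (Icc 1 N).filter (fun n => ∀ l : ℕ, l.Prime → l ∣ n → y₁ < l ∧ l ≤ y), 1 / (n : ℝ) ≤
      SS y / SS y₁ := by
  rw [← SS_quot y₁ y h]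
  refine le_trans (sum_le_sum_of_subset_of_nonneg ?_ (fun _ _ _ => by positivity))
    (sum_primes_in_le _ (fun l hl => (mem_filter.1 (mem_filter.1 hl).1).2) N)
  intro n hn
  rw [mem_filter, mem_Icc] at hn ⊢
  refine ⟨hn.1, fun l hl hln => ?_⟩
  simp only [mem_filter, mem_Icc]
  have := hn.2 l hl hln
  exact ⟨⟨⟨hl.one_lt.le, this.2⟩, hl⟩, this.1⟩

end Pool.Agent.Lib.MP_1bd11d_co.SG
end

section

section

set_option autoImplicit false

open Finset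
open scoped Classical

namespace Pool.Agent.Lib.MP_1bd11d_co.SG

private theorem prod_g_eq (y u : ℕ) (hu : u ≠ 0) :
    (∏ l ∈ u.primeFactors, (if l ≤ y then (0 : ℝ) else 1)) = if Rough y u then 1 else 0 := by
  by_cases h : Rough y u
  · rw [if_pos h]
    refine Finset.prod_eq_one ?_
    intro l hl
    have hp := Nat.prime_of_mem_primeFactors hl
    have hd := Nat.dvd_of_mem_primeFactors hl
    rw [if_neg (not_le.mpr (h l hp hd))]
  · rw [if_neg h]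
    unfold Rough at h
    push Not at h
    obtain ⟨l, hp, hd, hly⟩ := h
    refine Finset.prod_eq_zero (i := l) (Nat.mem_primeFactors.mpr ⟨hp, hd, hu⟩) ?_
    rw [if_pos hly]

private theorem prod_factor_eq (y U : ℕ) (h : y ≤ U) :
    (∏ l ∈ (Icc 1 U).filter Nat.Prime, (1 + (if l ≤ y then (0 : ℝ) else 1) / ((l : ℝ) - 1))) *
      SS y = SS U := by
  unfold SS
  have hsub : (Icc 1 y).filter Nat.Prime ⊆ (Icc 1 U).filter Nat.Prime := by
    intro l hl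
    simp only [Finset.mem_filter, Finset.mem_Icc] at hl ⊢
    exact ⟨⟨hl.1.1, le_trans hl.1.2 h⟩, hl.2⟩
  have hS : (∏ l ∈ (Icc 1 y).filter Nat.Prime, (1 - 1 / (l : ℝ))⁻¹) =
      ∏ l ∈ (Icc 1 U).filter Nat.Prime, (if l ≤ y then (1 - 1 / (l : ℝ))⁻¹ else 1) := by
    rw [← Finset.prod_subset hsub]
    · refine Finset.prod_congr rfl ?_
      intro l hl
      simp only [Finset.mem_filter, Finset.mem_Icc] at hl
      rw [if_pos hl.1.2]
    · intro l hl hnl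
      simp only [Finset.mem_filter, Finset.mem_Icc] at hl hnl
      rw [if_neg]
      intro hly
      exact hnl ⟨⟨hl.1.1, hly⟩, hl.2⟩
  rw [hS, ← Finset.prod_mul_distrib]
  refine Finset.prod_congr rfl ?_
  intro l hl
  simp only [Finset.mem_filter, Finset.mem_Icc] at hl
  have h2 : (2 : ℝ) ≤ l := by exact_mod_cast hl.2.two_le
  have h0 : (l : ℝ) ≠ 0 := by linarith
  have h1 : (l : ℝ) - 1 ≠ 0 := by linarith
  by_cases hly : l ≤ y
  · rw [if_pos hly, if_pos hly]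
    simp
  · rw [if_neg hly, if_neg hly]
    have h3 : (1 : ℝ) - 1 / (l : ℝ) = ((l : ℝ) - 1) / l := by
      field_simp
    rw [h3, inv_div]
    field_simp
    ring

/-- `hall_tenenbaum` with `g l = 0` for `l ≤ y`, `g l = 1` for `l > y`: the product is
`SS U / SS y`; `SS_le` and `log_le_SS`. -/
theorem rough_count : ∃ C : ℝ, 0 < C ∧ ∀ y U : ℕ, 2 ≤ y → y ≤ U →
    ((((Icc 1 U).filter (fun u => Rough y u)).card : ℕ) : ℝ) ≤ C * U / Real.log y := by
  obtain ⟨C₁, hC₁, hht⟩ := hall_tenenbaum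
  obtain ⟨C₂, hC₂, hSS⟩ := SS_le
  refine ⟨C₁ * C₂, mul_pos hC₁ (by linarith), ?_⟩
  intro y U hy hyU
  have hU2 : 2 ≤ U := le_trans hy hyU
  have hUpos : (0 : ℝ) < U := by
    have : (2 : ℝ) ≤ U := by exact_mod_cast hU2
    linarith
  have hlogU : 0 < Real.log U := Real.log_pos (by
    have : (2 : ℝ) ≤ U := by exact_mod_cast hU2
    linarith)
  have hlogy : 0 < Real.log y := Real.log_pos (by
    have : (2 : ℝ) ≤ y := by exact_mod_cast hy
    linarith)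
  have hmain := hht (fun l => if l ≤ y then (0 : ℝ) else 1)
    (by intro l; split_ifs <;> norm_num)
    (by intro l; split_ifs <;> norm_num) U hU2
  have hcard : ((((Icc 1 U).filter (fun u => Rough y u)).card : ℕ) : ℝ) =
      ∑ u ∈ Icc 1 U, ∏ l ∈ u.primeFactors, (if l ≤ y then (0 : ℝ) else 1) := by
    rw [Finset.card_filter]
    push_cast
    refine Finset.sum_congr rfl ?_
    intro u hu
    simp only [Finset.mem_Icc] at hu
    rw [prod_g_eq y u (by omega)]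
  have hprod := prod_factor_eq y U hyU
  have hSy : Real.log y ≤ SS y := by
    refine le_trans ?_ (log_le_SS y)
    refine Real.log_le_log (by positivity) (by linarith)
  have hSypos : 0 < SS y := lt_of_lt_of_le hlogy hSy
  have hSU := hSS U hU2
  set Pr := ∏ l ∈ (Icc 1 U).filter Nat.Prime,
    (1 + (if l ≤ y then (0 : ℝ) else 1) / ((l : ℝ) - 1)) with hPr
  have hPreq : Pr = SS U / SS y := by
    rw [eq_div_iff hSypos.ne']
    exact hprod
  have hPrle : Pr ≤ C₂ * Real.log U / Real.log y := by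
    rw [hPreq, div_le_div_iff₀ hSypos hlogy]
    have hnn : 0 ≤ C₂ * Real.log U := by
      have : 0 ≤ C₂ := by linarith
      positivity
    exact mul_le_mul hSU hSy hlogy.le hnn
  rw [hcard]
  refine le_trans hmain ?_
  calc C₁ * U / Real.log U * Pr
      ≤ C₁ * U / Real.log U * (C₂ * Real.log U / Real.log y) := by
        refine mul_le_mul_of_nonneg_left hPrle ?_
        positivity
    _ = C₁ * C₂ * U / Real.log y := by
        field_simp

end Pool.Agent.Lib.MP_1bd11d_co.SG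
end

section

set_option autoImplicit false

open Finset
open scoped Classical

namespace Pool.Agent.Lib.MP_1bd11d_co.SG

/-- The possible cofactors: rough numbers in `(y, 2 N / (b e)]`. -/
private noncomputable def Aset (N y : ℕ) (q : ℕ × ℕ) : Finset ℕ :=
  (Icc 1 (2 * N / (q.1 * q.2))).filter (fun u => Rough y u ∧ y < u)

private theorem rough_dvd {y m n : ℕ} (h : Rough y n) (hd : m ∣ n) : Rough y m :=
  fun l hl hlm => h l hl (hlm.trans hd)

private theorem rough_gt {y n : ℕ} (h : Rough y n) (hn : 1 < n) : y < n := by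
  obtain ⟨l, hl, hd⟩ := Nat.exists_prime_and_dvd (show n ≠ 1 by omega)
  exact lt_of_lt_of_le (h l hl hd) (Nat.le_of_dvd (by omega) hd)

/-- The cofactor is `> 1`. -/
private theorem cof_gt {N b r r' : ℕ} (h1 : N ≤ b * r) (h2 : b * r' < 2 * N) (hne : r ≠ r')
    (hr' : 0 < r') (hr : 0 < r) : 1 < r / Nat.gcd r r' := by
  have hg : 0 < Nat.gcd r r' := Nat.gcd_pos_of_pos_left _ hr
  have hge : 1 ≤ r / Nat.gcd r r' := Nat.div_pos (Nat.le_of_dvd hr (Nat.gcd_dvd_left _ _)) hg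
  rcases Nat.lt_or_ge 1 (r / Nat.gcd r r') with h | h
  · exact h
  · exfalso
    have e1 : r / Nat.gcd r r' = 1 := by omega
    have e2 : r = Nat.gcd r r' := by
      have := Nat.div_mul_cancel (Nat.gcd_dvd_left r r')
      rw [e1, one_mul] at this
      exact this.symm
    have hd : r ∣ r' := by
      have h3 := Nat.gcd_dvd_right r r'
      rw [← e2] at h3
      exact h3
    obtain ⟨c, hc⟩ := hd
    have hc2 : 2 ≤ c := by
      rcases Nat.lt_or_ge c 2 with h4 | h4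
      · exfalso
        interval_cases c
        · omega
        · exact hne (by omega)
      · exact h4
    have h5 : 2 * (b * r) ≤ b * r' := by
      rw [hc]
      calc 2 * (b * r) = b * (r * 2) := by ring
        _ ≤ b * (r * c) := Nat.mul_le_mul_left _ (Nat.mul_le_mul_left _ hc2)
    omega

private theorem energy_le_aux (N y₁ y : ℕ) (𝒟 : Finset ℕ) (bb rr : ℕ → ℕ) (hN : 0 < N)
    (hD : ∀ D ∈ 𝒟, N ≤ D ∧ D < 2 * N) (hbr : ∀ D ∈ 𝒟, bb D * rr D = D)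
    (hb : ∀ D ∈ 𝒟, ∀ l : ℕ, l.Prime → l ∣ bb D → y₁ < l ∧ l ≤ y)
    (hr : ∀ D ∈ 𝒟, Rough y (rr D)) :
    ∑ D ∈ 𝒟, ∑ D' ∈ 𝒟.filter (fun D' => D' ≠ D ∧ bb D' = bb D), ((Nat.gcd D D' : ℕ) : ℝ) ≤
      ∑ q ∈ ((Icc 1 (2 * N)).filter (fun n => ∀ l : ℕ, l.Prime → l ∣ n → y₁ < l ∧ l ≤ y)) ×ˢ
        ((Icc 1 (2 * N)).filter (fun n => Rough y n)),
        (((Aset N y q).card : ℕ) : ℝ) ^ 2 * ((q.1 : ℝ) * (q.2 : ℝ)) := by
  set Bs := (Icc 1 (2 * N)).filter (fun n => ∀ l : ℕ, l.Prime → l ∣ n → y₁ < l ∧ l ≤ y) with hBs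
  set Rs := (Icc 1 (2 * N)).filter (fun n => Rough y n) with hRs
  have hpos : ∀ D ∈ 𝒟, 0 < bb D ∧ 0 < rr D := by
    intro D hDD
    have h1 := hbr D hDD
    have h2 := (hD D hDD).1
    constructor
    · rcases Nat.eq_zero_or_pos (bb D) with h | h
      · rw [h, zero_mul] at h1
        omega
      · exact h
    · rcases Nat.eq_zero_or_pos (rr D) with h | h
      · rw [h, mul_zero] at h1
        omega
      · exact h
  rw [sum_sigma' 𝒟 (fun D => 𝒟.filter (fun D' => D' ≠ D ∧ bb D' = bb D))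
    (fun D D' => ((Nat.gcd D D' : ℕ) : ℝ))] 
  set T : Finset (Σ _ : ℕ × ℕ, ℕ × ℕ) :=
    (Bs ×ˢ Rs).sigma (fun q => Aset N y q ×ˢ Aset N y q) with hT
  have hTs : ∑ q ∈ Bs ×ˢ Rs, (((Aset N y q).card : ℕ) : ℝ) ^ 2 * ((q.1 : ℝ) * (q.2 : ℝ)) =
      ∑ x ∈ T, ((x.1.1 : ℝ) * (x.1.2 : ℝ)) := by
    rw [hT, sum_sigma]
    refine sum_congr rfl fun q _ => ?_
    show _ = ∑ _s ∈ Aset N y q ×ˢ Aset N y q, ((q.1 : ℝ) * (q.2 : ℝ))
    rw [sum_const, card_product, nsmul_eq_mul]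
    push_cast
    ring
  rw [hTs]
  set S : Finset (Σ _ : ℕ, ℕ) := 𝒟.sigma (fun D => 𝒟.filter (fun D' => D' ≠ D ∧ bb D' = bb D))
    with hS
  have hSm : ∀ p ∈ S, p.1 ∈ 𝒟 ∧ p.2 ∈ 𝒟 ∧ p.2 ≠ p.1 ∧ bb p.2 = bb p.1 := by
    intro p hp
    rw [hS, mem_sigma, mem_filter] at hp
    exact ⟨hp.1, hp.2.1, hp.2.2.1, hp.2.2.2⟩
  set φ : (Σ _ : ℕ, ℕ) → (Σ _ : ℕ × ℕ, ℕ × ℕ) := fun p =>
    ⟨(bb p.1, Nat.gcd (rr p.1) (rr p.2)), (rr p.1 / Nat.gcd (rr p.1) (rr p.2),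
      rr p.2 / Nat.gcd (rr p.1) (rr p.2))⟩ with hφ
  have hrec : ∀ p ∈ S, p.1 = (φ p).1.1 * ((φ p).1.2 * (φ p).2.1) ∧
      p.2 = (φ p).1.1 * ((φ p).1.2 * (φ p).2.2) := by
    intro p hp
    obtain ⟨h1, h2, _, h4⟩ := hSm p hp
    constructor
    · show p.1 = bb p.1 * (Nat.gcd (rr p.1) (rr p.2) * (rr p.1 / Nat.gcd (rr p.1) (rr p.2)))
      rw [Nat.mul_div_cancel' (Nat.gcd_dvd_left _ _), hbr p.1 h1]
    · show p.2 = bb p.1 * (Nat.gcd (rr p.1) (rr p.2) * (rr p.2 / Nat.gcd (rr p.1) (rr p.2)))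
      rw [Nat.mul_div_cancel' (Nat.gcd_dvd_right _ _), ← h4, hbr p.2 h2]
  have hinj : Set.InjOn φ (S : Set (Σ _ : ℕ, ℕ)) := by
    intro p hp p' hp' h
    have a1 := hrec p hp
    have a2 := hrec p' hp'
    rw [h] at a1
    have e1 : p.1 = p'.1 := a1.1.trans a2.1.symm
    have e2 : p.2 = p'.2 := a1.2.trans a2.2.symm
    cases p
    cases p'
    simp only at e1 e2
    rw [e1, e2]
  have hval : ∀ p ∈ S, ((Nat.gcd p.1 p.2 : ℕ) : ℝ) = ((φ p).1.1 : ℝ) * ((φ p).1.2 : ℝ) := by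
    intro p hp
    obtain ⟨h1, h2, _, h4⟩ := hSm p hp
    have e : Nat.gcd p.1 p.2 = bb p.1 * Nat.gcd (rr p.1) (rr p.2) := by
      calc Nat.gcd p.1 p.2 = Nat.gcd (bb p.1 * rr p.1) (bb p.2 * rr p.2) := by
            rw [hbr p.1 h1, hbr p.2 h2]
        _ = Nat.gcd (bb p.1 * rr p.1) (bb p.1 * rr p.2) := by rw [h4]
        _ = _ := Nat.gcd_mul_left _ _ _
    rw [e]
    push_cast
    rfl
  have hmap : S.image φ ⊆ T := by
    intro x hx
    rw [mem_image] at hx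
    obtain ⟨p, hp, rfl⟩ := hx
    obtain ⟨h1, h2, h3, h4⟩ := hSm p hp
    have p1 := hpos p.1 h1
    have p2 := hpos p.2 h2
    have b1 := hbr p.1 h1
    have b2 := hbr p.2 h2
    rw [h4] at b2
    have d1 := hD p.1 h1
    have d2 := hD p.2 h2
    have hne : rr p.1 ≠ rr p.2 := by
      intro h
      rw [h, b2] at b1
      exact h3 b1
    have hg : 0 < Nat.gcd (rr p.1) (rr p.2) := Nat.gcd_pos_of_pos_left _ p1.2
    have c1 : 1 < rr p.1 / Nat.gcd (rr p.1) (rr p.2) :=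
      cof_gt (N := N) (b := bb p.1) (by omega) (by omega) hne p2.2 p1.2
    have c2 : 1 < rr p.2 / Nat.gcd (rr p.1) (rr p.2) := by
      rw [Nat.gcd_comm]
      exact cof_gt (N := N) (b := bb p.1) (by omega) (by omega) hne.symm p1.2 p2.2
    have r1 := hr p.1 h1
    have r2 := hr p.2 h2
    have rc1 : Rough y (rr p.1 / Nat.gcd (rr p.1) (rr p.2)) :=
      rough_dvd r1 (Nat.div_dvd_of_dvd (Nat.gcd_dvd_left _ _))
    have rc2 : Rough y (rr p.2 / Nat.gcd (rr p.1) (rr p.2)) :=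
      rough_dvd r2 (Nat.div_dvd_of_dvd (Nat.gcd_dvd_right _ _))
    have hbe : 0 < bb p.1 * Nat.gcd (rr p.1) (rr p.2) := Nat.mul_pos p1.1 hg
    have u1 : rr p.1 / Nat.gcd (rr p.1) (rr p.2) ≤
        2 * N / (bb p.1 * Nat.gcd (rr p.1) (rr p.2)) := by
      rw [Nat.le_div_iff_mul_le hbe]
      have := (hrec p hp).1
      have e : rr p.1 / Nat.gcd (rr p.1) (rr p.2) * (bb p.1 * Nat.gcd (rr p.1) (rr p.2)) =
          bb p.1 * (Nat.gcd (rr p.1) (rr p.2) * (rr p.1 / Nat.gcd (rr p.1) (rr p.2))) := by ring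
      rw [e, Nat.mul_div_cancel' (Nat.gcd_dvd_left _ _)]
      omega
    have u2 : rr p.2 / Nat.gcd (rr p.1) (rr p.2) ≤
        2 * N / (bb p.1 * Nat.gcd (rr p.1) (rr p.2)) := by
      rw [Nat.le_div_iff_mul_le hbe]
      have e : rr p.2 / Nat.gcd (rr p.1) (rr p.2) * (bb p.1 * Nat.gcd (rr p.1) (rr p.2)) =
          bb p.1 * (Nat.gcd (rr p.1) (rr p.2) * (rr p.2 / Nat.gcd (rr p.1) (rr p.2))) := by ring
      rw [e, Nat.mul_div_cancel' (Nat.gcd_dvd_right _ _)]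
      omega
    have hb2 : bb p.1 ≤ 2 * N := by
      have := Nat.le_mul_of_pos_right (bb p.1) p1.2
      omega
    have hg2 : Nat.gcd (rr p.1) (rr p.2) ≤ 2 * N := by
      have e1 := Nat.le_of_dvd p1.2 (Nat.gcd_dvd_left (rr p.1) (rr p.2))
      have e2 := Nat.le_mul_of_pos_left (rr p.1) p1.1
      omega
    rw [hT, mem_sigma, mem_product, mem_product]
    refine ⟨⟨?_, ?_⟩, ?_, ?_⟩
    · rw [hBs, mem_filter, mem_Icc]
      exact ⟨⟨p1.1, hb2⟩, hb p.1 h1⟩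
    · rw [hRs, mem_filter, mem_Icc]
      exact ⟨⟨hg, hg2⟩, rough_dvd r1 (Nat.gcd_dvd_left _ _)⟩
    · rw [Aset, mem_filter, mem_Icc]
      exact ⟨⟨c1.le, u1⟩, rc1, rough_gt rc1 c1⟩
    · rw [Aset, mem_filter, mem_Icc]
      exact ⟨⟨c2.le, u2⟩, rc2, rough_gt rc2 c2⟩
  calc ∑ p ∈ S, ((Nat.gcd p.1 p.2 : ℕ) : ℝ)
      = ∑ p ∈ S, ((φ p).1.1 : ℝ) * ((φ p).1.2 : ℝ) := sum_congr rfl hval
    _ = ∑ x ∈ S.image φ, (x.1.1 : ℝ) * (x.1.2 : ℝ) := by
        rw [sum_image hinj]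
    _ ≤ ∑ x ∈ T, (x.1.1 : ℝ) * (x.1.2 : ℝ) :=
        sum_le_sum_of_subset_of_nonneg hmap fun x _ _ => by positivity

/-- The energy of the pairs with the same smooth part.  Write `D = b r`, `D' = b r'`,
`e = gcd r r'`, `r = e a`, `r' = e a'`; then `gcd D D' = b e`, and `a, a'` are rough,
`a, a' ≤ 2 N / (b e)`, and both are `> 1` (if `a = 1` then `r ∣ r'`, so `r' ≥ 2 r`, but
`N / b ≤ r, r' < 2 N / b`), hence `> y`.  So the sum is at most
`∑_b ∑_e b e (#{1 < a ≤ 2 N / (b e), a rough})² ≤ ∑_b ∑_e b e (C (2 N / (b e)) / log y)²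
= 4 C² N² / (log y)² * (∑_b 1 / b) (∑_e 1 / e)`
(`rough_count`; the number of `a` is zero if `2 N / (b e) ≤ y`), with `b` running over numbers all
of whose primes are in `(y₁, y]` (`mid_sum_le`) and `e ≤ 2 N` rough (`rough_sum_le`; if `2 N < y`
the whole sum is empty). -/
theorem same_smooth_energy : ∃ C : ℝ, 0 < C ∧ ∀ (N y₁ y : ℕ) (𝒟 : Finset ℕ) (bb rr : ℕ → ℕ),
    0 < N → 2 ≤ y → y₁ ≤ y → (∀ D ∈ 𝒟, N ≤ D ∧ D < 2 * N) → (∀ D ∈ 𝒟, bb D * rr D = D) →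
    (∀ D ∈ 𝒟, ∀ l : ℕ, l.Prime → l ∣ bb D → y₁ < l ∧ l ≤ y) → (∀ D ∈ 𝒟, Rough y (rr D)) →
    ∑ D ∈ 𝒟, ∑ D' ∈ 𝒟.filter (fun D' => D' ≠ D ∧ bb D' = bb D), ((Nat.gcd D D' : ℕ) : ℝ) ≤
      C * (N : ℝ) ^ 2 * SS (2 * N) / (SS y₁ * (Real.log y) ^ 2) := by
  obtain ⟨C, hC0, hC⟩ := rough_count
  refine ⟨4 * C ^ 2, by positivity, ?_⟩
  intro N y₁ y 𝒟 bb rr hN hy hy1 hD hbr hb hr
  have hyr : (2 : ℝ) ≤ y := by exact_mod_cast hy
  have hL : 0 < Real.log y := Real.log_pos (by linarith)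
  have s1 := SS_pos y₁
  have s2 := SS_pos y
  have s3 := SS_pos (2 * N)
  refine (energy_le_aux N y₁ y 𝒟 bb rr hN hD hbr hb hr).trans ?_
  have hNr : (0 : ℝ) < N := by exact_mod_cast hN
  have hcard : ∀ q : ℕ × ℕ, 1 ≤ q.1 → 1 ≤ q.2 → (((Aset N y q).card : ℕ) : ℝ) ≤
      C * (2 * N / ((q.1 : ℝ) * q.2)) / Real.log y := by
    intro q h1 h2
    have q1 : (0 : ℝ) < q.1 := by exact_mod_cast h1
    have q2 : (0 : ℝ) < q.2 := by exact_mod_cast h2
    rcases Nat.lt_or_ge (2 * N / (q.1 * q.2)) y with h | h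
    · have : Aset N y q = ∅ := by
        rw [Aset, filter_eq_empty_iff]
        intro u hu
        rw [mem_Icc] at hu
        omega
      rw [this]
      simp only [card_empty, Nat.cast_zero]
      positivity
    · have h3 : (Aset N y q).card ≤
          ((Icc 1 (2 * N / (q.1 * q.2))).filter (fun u => Rough y u)).card := by
        refine card_le_card fun u hu => ?_
        rw [Aset, mem_filter] at hu
        rw [mem_filter]
        exact ⟨hu.1, hu.2.1⟩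
      have h4 := hC y (2 * N / (q.1 * q.2)) hy h
      have h5 : ((2 * N / (q.1 * q.2) : ℕ) : ℝ) ≤ 2 * N / ((q.1 : ℝ) * q.2) := by
        have := Nat.cast_div_le (α := ℝ) (m := 2 * N) (n := q.1 * q.2)
        push_cast at this
        exact this
      calc (((Aset N y q).card : ℕ) : ℝ)
          ≤ (((Icc 1 (2 * N / (q.1 * q.2))).filter (fun u => Rough y u)).card : ℝ) := by
            exact_mod_cast h3
        _ ≤ C * ((2 * N / (q.1 * q.2) : ℕ) : ℝ) / Real.log y := h4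
        _ ≤ C * (2 * N / ((q.1 : ℝ) * q.2)) / Real.log y :=
            div_le_div_of_nonneg_right (mul_le_mul_of_nonneg_left h5 hC0.le) hL.le
  rcases Nat.lt_or_ge (2 * N) y with hbig | hbig
  · refine le_trans (le_of_eq (sum_eq_zero fun q hq => ?_)) (by positivity)
    rw [mem_product, mem_filter, mem_filter, mem_Icc, mem_Icc] at hq
    have : Aset N y q = ∅ := by
      rw [Aset, filter_eq_empty_iff]
      intro u hu
      rw [mem_Icc] at hu
      have := Nat.div_le_self (2 * N) (q.1 * q.2)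
      omega
    rw [this]
    simp
  · have hterm : ∀ q ∈ ((Icc 1 (2 * N)).filter
        (fun n => ∀ l : ℕ, l.Prime → l ∣ n → y₁ < l ∧ l ≤ y)) ×ˢ
        ((Icc 1 (2 * N)).filter (fun n => Rough y n)),
        (((Aset N y q).card : ℕ) : ℝ) ^ 2 * ((q.1 : ℝ) * (q.2 : ℝ)) ≤
          4 * C ^ 2 * (N : ℝ) ^ 2 / (Real.log y) ^ 2 * (1 / (q.1 : ℝ) * (1 / (q.2 : ℝ))) := by
      intro q hq
      rw [mem_product, mem_filter, mem_filter, mem_Icc, mem_Icc] at hq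
      have h1 : 1 ≤ q.1 := hq.1.1.1
      have h2 : 1 ≤ q.2 := hq.2.1.1
      have q1 : (0 : ℝ) < q.1 := by exact_mod_cast h1
      have q2 : (0 : ℝ) < q.2 := by exact_mod_cast h2
      have h3 := pow_le_pow_left₀ (Nat.cast_nonneg _) (hcard q h1 h2) 2
      calc (((Aset N y q).card : ℕ) : ℝ) ^ 2 * ((q.1 : ℝ) * (q.2 : ℝ))
          ≤ (C * (2 * N / ((q.1 : ℝ) * q.2)) / Real.log y) ^ 2 * ((q.1 : ℝ) * (q.2 : ℝ)) :=
            mul_le_mul_of_nonneg_right h3 (by positivity)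
        _ = _ := by
            field_simp
            ring
    refine (sum_le_sum hterm).trans ?_
    rw [← mul_sum, sum_product' _ _ (fun a b : ℕ => 1 / (a : ℝ) * (1 / (b : ℝ))), ← sum_mul_sum]
    have m1 := mid_sum_le y₁ y (2 * N) hy1
    have m2 := rough_sum_le y (2 * N) hbig
    have m3 : (∑ n ∈ (Icc 1 (2 * N)).filter (fun n => ∀ l : ℕ, l.Prime → l ∣ n → y₁ < l ∧ l ≤ y),
        1 / (n : ℝ)) * (∑ n ∈ (Icc 1 (2 * N)).filter (fun n => Rough y n), 1 / (n : ℝ)) ≤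
        (SS y / SS y₁) * (SS (2 * N) / SS y) :=
      mul_le_mul m1 m2 (sum_nonneg fun n _ => by positivity) (by positivity)
    refine (mul_le_mul_of_nonneg_left m3 (by positivity)).trans (le_of_eq ?_)
    field_simp

end Pool.Agent.Lib.MP_1bd11d_co.SG
end
end
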