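import Mathlib

/-!
# Dilates of dense sets modulo a prime: gaps below `√p`

Definitions for the theorem: for every large prime `p` and every `A ⊆ ZMod p` with
`|A| ≥ p ^ (9/10)` there is `n ≠ 0` such that `n A` has no gap of length
`≥ (p / √|A|) / (log p) ^ (1/50)`.

Proof in the file `Paper.md` of this folder.
-/

set_option autoImplicit false

open Finset
open scoped Classical

namespace Pool.Agent.Lib.MP_1bd11d_co.SG

noncomputable section

/-- The standard additive character `x ↦ exp (2 π i x / p)` of `ZMod p`. -/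
def ep {p : ℕ} [NeZero p] (x : ZMod p) : ℂ := ZMod.stdAddChar x

/-- Fourier transform on `ZMod p`. -/
def ft {p : ℕ} [NeZero p] (g : ZMod p → ℂ) (ξ : ZMod p) : ℂ :=
  ∑ x, g x * ep (-(ξ * x))

/-- The Dirichlet kernel. -/
def KH {p : ℕ} [NeZero p] (H : ℕ) (η : ZMod p) : ℂ :=
  ∑ i ∈ range H, ep (-(η * (i : ZMod p)))

/-- The test function: for every `D ∈ 𝒟` the points `base D + j * st D`, `j < D * H`, with weight
`w D j`. -/
def G1 {p : ℕ} [NeZero p] (𝒟 : Finset ℕ) (H : ℕ) (base st : ℕ → ZMod p) (w : ℕ → ℕ → ℝ)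
    (x : ZMod p) : ℂ :=
  ∑ D ∈ 𝒟, ∑ j ∈ range (D * H),
    if base D + (j : ZMod p) * st D = x then ((w D j : ℝ) : ℂ) else 0

/-- The balanced indicator function of `S`. -/
def bal {p : ℕ} [NeZero p] (S : Finset (ZMod p)) (x : ZMod p) : ℂ :=
  (if x ∈ S then 1 else 0) - ((S.card : ℝ) / (p : ℝ) : ℝ)

/-- `j < D * H` is (the index of) a point of the progression of `D` which lies on the progression
of `D'`. -/
def Hit {p : ℕ} (H : ℕ) (base st : ℕ → ZMod p) (D D' j : ℕ) : Prop :=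
  j < D * H ∧ ∃ j' < D' * H,
    base D + (j : ZMod p) * st D = base D' + (j' : ZMod p) * st D'

/-- All prime factors of `n` are `> y`. -/
def Rough (y n : ℕ) : Prop := ∀ l : ℕ, l.Prime → l ∣ n → y < l

/-- The Euler product `∏_{l ≤ N} (1 - 1/l)⁻¹`. -/
def SS (N : ℕ) : ℝ := ∏ l ∈ (Icc 1 N).filter Nat.Prime, (1 - 1 / (l : ℝ))⁻¹

/-- The number of primes of the finite set `P` which divide `n`. -/
def om (P : Finset ℕ) (n : ℕ) : ℕ := (P.filter (fun l => l ∣ n)).card

/-- The denominators used in the proof. -/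
def Good (T D : ℕ) : Prop :=
  (∃ b r : ℕ, D = b * r ∧ b ≤ 2 ^ T ∧ Rough (T ^ 10) b ∧ Rough (2 ^ T) r ∧ Squarefree r) ∧
    2 * D.divisors.card ≤ T ^ 10

end

end Pool.Agent.Lib.MP_1bd11d_co.SG
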