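import Pool.Agent.Lib.MP_1bd11d_co.SG.A3
import Pool.Agent.Lib.H62.MertensPrime
import Pool.Agent.Lib.MP_1bd11d_co.SG.Defs
import Pool.Agent.Lib.MP_1bd11d_co.SG.C1b

section

set_option autoImplicit false

open Finset
open scoped Classical

namespace Pool.Agent.Lib.MP_1bd11d_co.SG

/-- Splitting off the prime factors `≤ y`. -/
theorem c2b_split (y n : ℕ) (hn : n ≠ 0) :
    ∃ s r : ℕ, s * r = n ∧ (∀ l : ℕ, l.Prime → l ∣ s → l ≤ y) ∧ Rough y r := by
  classical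
  refine ⟨∏ p ∈ n.primeFactors.filter (fun p => p ≤ y), p ^ n.factorization p,
    ∏ p ∈ n.primeFactors.filter (fun p => ¬ p ≤ y), p ^ n.factorization p, ?_, ?_, ?_⟩
  · rw [Finset.prod_filter_mul_prod_filter_not]
    have h := Nat.prod_factorization_pow_eq_self hn
    rwa [Finsupp.prod, Nat.support_factorization] at h
  · intro l hl hd
    obtain ⟨p, hp, hlp⟩ := (hl.prime.dvd_finsetProd_iff _).1 hd
    rw [Finset.mem_filter] at hp
    have h1 : l ∣ p := hl.dvd_of_dvd_pow hlp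
    have h2 : l = p := (Nat.prime_dvd_prime_iff_eq hl (Nat.prime_of_mem_primeFactors hp.1)).1 h1
    rw [h2]; exact hp.2
  · intro l hl hd
    obtain ⟨p, hp, hlp⟩ := (hl.prime.dvd_finsetProd_iff _).1 hd
    rw [Finset.mem_filter] at hp
    have h1 : l ∣ p := hl.dvd_of_dvd_pow hlp
    have h2 : l = p := (Nat.prime_dvd_prime_iff_eq hl (Nat.prime_of_mem_primeFactors hp.1)).1 h1
    rw [h2]; exact not_le.1 hp.2

/-- Sums over a set of products. -/
theorem c2b_sum_le (A S R : Finset ℕ) (m : ℕ → ℕ → ℕ)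
    (h : ∀ n ∈ A, ∃ s ∈ S, ∃ r ∈ R, m s r = n) :
    ∑ n ∈ A, 1 / (n : ℝ) ≤ ∑ s ∈ S, ∑ r ∈ R, 1 / ((m s r : ℕ) : ℝ) := by
  classical
  rw [← Finset.sum_product' S R (fun s r => 1 / ((m s r : ℕ) : ℝ))]
  choose! f hf g hg hfg using h
  have hinj : Set.InjOn (fun n => (f n, g n)) (A : Set ℕ) := by
    intro a ha b hb hab
    simp only [Prod.mk.injEq] at hab
    rw [← hfg a ha, ← hfg b hb, hab.1, hab.2]
  have h1 : ∑ n ∈ A, 1 / (n : ℝ) =
      ∑ x ∈ A.image (fun n => (f n, g n)), 1 / ((m x.1 x.2 : ℕ) : ℝ) := by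
    rw [Finset.sum_image hinj]
    refine Finset.sum_congr rfl fun n hn => ?_
    simp only
    rw [hfg n hn]
  rw [h1]
  refine Finset.sum_le_sum_of_subset_of_nonneg ?_ ?_
  · intro x hx
    rw [Finset.mem_image] at hx
    obtain ⟨n, hn, rfl⟩ := hx
    exact Finset.mem_product.2 ⟨hf n hn, hg n hn⟩
  · intro x _ _
    positivity

theorem c2b_sq_sum (N : ℕ) : ∑ k ∈ Icc 1 N, 1 / ((k : ℝ) ^ 2) ≤ 2 - 1 / (N : ℝ) := by
  induction N with
  | zero => simp
  | succ n ih =>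
    rw [Finset.sum_Icc_succ_top (by omega)]
    rcases Nat.eq_zero_or_pos n with h0 | h0
    · subst h0
      norm_num
    · have hn : (0 : ℝ) < n := by exact_mod_cast h0
      have h1 : 1 / (((n + 1 : ℕ) : ℝ) ^ 2) ≤ 1 / (n : ℝ) - 1 / ((n + 1 : ℕ) : ℝ) := by
        push_cast
        rw [div_sub_div _ _ (by positivity) (by positivity), div_le_div_iff₀ (by positivity)
          (by positivity)]
        nlinarith
      linarith

/-- Every `n ≤ N` is the product of a number with all prime factors `≤ y` and a rough number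
`≤ N`; so `∑_{n ≤ N} 1/n ≤ SS y * ∑_{r ≤ N rough} 1/r`. -/
theorem rough_sum_ge (y N : ℕ) :
    Real.log (N + 1) / SS y ≤ ∑ n ∈ (Icc 1 N).filter (fun n => Rough y n), 1 / (n : ℝ) := by
  classical
  rw [div_le_iff₀ (SS_pos y)]
  have h0 : Real.log (N + 1) ≤ ∑ n ∈ Icc 1 N, 1 / (n : ℝ) := by
    have h := log_add_one_le_harmonic N
    rw [harmonic_eq_sum_Icc] at h
    push_cast at h
    simpa [one_div] using h
  set P : Finset ℕ := (Icc 1 y).filter Nat.Prime with hP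
  have h1 := c2b_sum_le (Icc 1 N)
    ((Icc 1 N).filter (fun n => ∀ l : ℕ, l.Prime → l ∣ n → l ∈ P))
    ((Icc 1 N).filter (fun n => Rough y n)) (fun s r => s * r) (by
      intro n hn
      rw [Finset.mem_Icc] at hn
      obtain ⟨s, r, hsr, hs, hr⟩ := c2b_split y n (by omega)
      have hs0 : s ≠ 0 := by rintro rfl; omega
      have hr0 : r ≠ 0 := by rintro rfl; omega
      have hsn : s ≤ n := Nat.le_of_dvd (by omega) ⟨r, hsr.symm⟩
      have hrn : r ≤ n := Nat.le_of_dvd (by omega) ⟨s, by rw [mul_comm]; exact hsr.symm⟩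
      refine ⟨s, ?_, r, ?_, hsr⟩
      · rw [Finset.mem_filter, Finset.mem_Icc]
        refine ⟨⟨by omega, by omega⟩, fun l hl hd => ?_⟩
        rw [hP, Finset.mem_filter, Finset.mem_Icc]
        exact ⟨⟨hl.one_lt.le, hs l hl hd⟩, hl⟩
      · rw [Finset.mem_filter, Finset.mem_Icc]
        exact ⟨⟨by omega, by omega⟩, hr⟩)
  have h2 : ∑ s ∈ (Icc 1 N).filter (fun n => ∀ l : ℕ, l.Prime → l ∣ n → l ∈ P),
      ∑ r ∈ (Icc 1 N).filter (fun n => Rough y n), 1 / ((s * r : ℕ) : ℝ) =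
      (∑ s ∈ (Icc 1 N).filter (fun n => ∀ l : ℕ, l.Prime → l ∣ n → l ∈ P), 1 / (s : ℝ)) *
      ∑ r ∈ (Icc 1 N).filter (fun n => Rough y n), 1 / (r : ℝ) := by
    rw [Finset.sum_mul_sum]
    refine Finset.sum_congr rfl fun s _ => Finset.sum_congr rfl fun r _ => ?_
    push_cast
    rw [one_div_mul_one_div]
  have h3 := sum_primes_in_le P (fun l hl => (Finset.mem_filter.1 hl).2) N
  have h4 : (0 : ℝ) ≤ ∑ r ∈ (Icc 1 N).filter (fun n => Rough y n), 1 / (r : ℝ) :=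
    Finset.sum_nonneg fun r _ => by positivity
  have h5 : ∏ l ∈ P, (1 - 1 / (l : ℝ))⁻¹ = SS y := rfl
  rw [h5] at h3
  calc Real.log (N + 1) ≤ ∑ n ∈ Icc 1 N, 1 / (n : ℝ) := h0
    _ ≤ _ := h1
    _ = _ := h2
    _ ≤ SS y * ∑ r ∈ (Icc 1 N).filter (fun n => Rough y n), 1 / (r : ℝ) :=
      mul_le_mul_of_nonneg_right h3 h4
    _ = _ := mul_comm _ _

/-- Every rough `n ≤ N` is `r * k ^ 2` with `r` squarefree (`Nat.sq_mul_squarefree`), both rough;
`∑ 1 / k ^ 2 ≤ 2`. -/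
theorem rough_sqf_sum_ge (y N : ℕ) :
    Real.log (N + 1) / (2 * SS y) ≤
      ∑ n ∈ (Icc 1 N).filter (fun n => Rough y n ∧ Squarefree n), 1 / (n : ℝ) := by
  classical
  have hS := SS_pos y
  have h0 := rough_sum_ge y N
  have h1 := c2b_sum_le ((Icc 1 N).filter (fun n => Rough y n)) (Icc 1 N)
    ((Icc 1 N).filter (fun n => Rough y n ∧ Squarefree n)) (fun k r => k ^ 2 * r) (by
      intro n hn
      rw [Finset.mem_filter, Finset.mem_Icc] at hn
      obtain ⟨a, b, hab, ha⟩ := Nat.sq_mul_squarefree n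
      have hb0 : b ≠ 0 := by rintro rfl; simp at hab; omega
      have ha0 : a ≠ 0 := by rintro rfl; simp at hab; omega
      have han : a ≤ n := Nat.le_of_dvd (by omega) ⟨b ^ 2, by rw [mul_comm]; exact hab.symm⟩
      have hbn : b ≤ n := by
        refine Nat.le_of_dvd (by omega) ⟨b * a, ?_⟩
        rw [← hab]; ring
      refine ⟨b, Finset.mem_Icc.2 ⟨by omega, by omega⟩, a, ?_, hab⟩
      rw [Finset.mem_filter, Finset.mem_Icc]
      refine ⟨⟨by omega, by omega⟩, fun l hl hd => hn.2 l hl ?_, ha⟩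
      rw [← hab]
      exact dvd_mul_of_dvd_right hd _)
  have h2 : ∑ k ∈ Icc 1 N, ∑ r ∈ (Icc 1 N).filter (fun n => Rough y n ∧ Squarefree n),
      1 / ((k ^ 2 * r : ℕ) : ℝ) =
      (∑ k ∈ Icc 1 N, 1 / ((k : ℝ) ^ 2)) *
      ∑ r ∈ (Icc 1 N).filter (fun n => Rough y n ∧ Squarefree n), 1 / (r : ℝ) := by
    rw [Finset.sum_mul_sum]
    refine Finset.sum_congr rfl fun s _ => Finset.sum_congr rfl fun r _ => ?_
    push_cast
    rw [one_div_mul_one_div]
  have h3 : ∑ k ∈ Icc 1 N, 1 / ((k : ℝ) ^ 2) ≤ 2 := by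
    have := c2b_sq_sum N
    have h : (0 : ℝ) ≤ 1 / (N : ℝ) := by positivity
    linarith
  have h4 : (0 : ℝ) ≤ ∑ r ∈ (Icc 1 N).filter (fun n => Rough y n ∧ Squarefree n),
      1 / (r : ℝ) := Finset.sum_nonneg fun r _ => by positivity
  have h5 : Real.log (N + 1) / SS y ≤
      2 * ∑ r ∈ (Icc 1 N).filter (fun n => Rough y n ∧ Squarefree n), 1 / (r : ℝ) := by
    calc Real.log (N + 1) / SS y ≤ _ := h0
      _ ≤ _ := h1
      _ = _ := h2
      _ ≤ _ := mul_le_mul_of_nonneg_right h3 h4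
  have h6 : Real.log (N + 1) / (2 * SS y) = (Real.log (N + 1) / SS y) / 2 := by
    field_simp
  rw [h6]
  linarith

end Pool.Agent.Lib.MP_1bd11d_co.SG
end

section

set_option autoImplicit false

open Finset
open scoped Classical

namespace Pool.Agent.Lib.MP_1bd11d_co.SG

/-- Short sums of `log l / l`: `∑_{x ≤ l ≤ z} log l / l ≤ log (z / x) + C` for `0 < x ≤ z`
(`x` may be less than `1`).  From `H62.mertens` (`|∑_{d ≤ x} Λ(d) / d - log x| ≤ 6`) and
`l prime → Λ(l) = log l`. -/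
theorem short_mertens : ∃ C : ℝ, 0 < C ∧ ∀ (x z : ℝ), 0 < x → x ≤ z →
    ∑ l ∈ (Icc 1 ⌊z⌋₊).filter (fun l : ℕ => l.Prime ∧ x ≤ (l : ℝ)), Real.log l / (l : ℝ) ≤
      Real.log (z / x) + C := by
  refine ⟨13, by norm_num, fun x z hx hxz => ?_⟩
  have hz : 0 < z := lt_of_lt_of_le hx hxz
  have hlog : Real.log (z / x) = Real.log z - Real.log x := Real.log_div hz.ne' hx.ne'
  have hlog0 : 0 ≤ Real.log (z / x) := Real.log_nonneg (by rw [le_div_iff₀ hx]; linarith)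
  rcases lt_or_ge z 1 with hz1 | hz1
  · have h0 : ⌊z⌋₊ = 0 := Nat.floor_eq_zero.mpr hz1
    rw [h0]
    simp only [Finset.Icc_eq_empty (by norm_num : ¬ (1:ℕ) ≤ 0),
      Finset.filter_empty, Finset.sum_empty]
    linarith
  · have hmz := H62.mertens z hz1
    have hL : ∀ n : ℕ, (0 : ℝ) ≤ ArithmeticFunction.vonMangoldt n / n :=
      fun n => div_nonneg ArithmeticFunction.vonMangoldt_nonneg (Nat.cast_nonneg n)
    have hconv : ∑ l ∈ (Icc 1 ⌊z⌋₊).filter (fun l : ℕ => l.Prime ∧ x ≤ (l : ℝ)),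
        Real.log l / (l : ℝ) =
        ∑ l ∈ (Icc 1 ⌊z⌋₊).filter (fun l : ℕ => l.Prime ∧ x ≤ (l : ℝ)),
          ArithmeticFunction.vonMangoldt l / (l : ℝ) := by
      refine Finset.sum_congr rfl (fun l hl => ?_)
      rw [ArithmeticFunction.vonMangoldt_apply_prime (Finset.mem_filter.mp hl).2.1]
    rw [hconv]
    rcases le_or_gt x 1 with hx1 | hx1
    · have hle : ∑ l ∈ (Icc 1 ⌊z⌋₊).filter (fun l : ℕ => l.Prime ∧ x ≤ (l : ℝ)),
          ArithmeticFunction.vonMangoldt l / (l : ℝ) ≤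
          ∑ l ∈ Ioc 0 ⌊z⌋₊, ArithmeticFunction.vonMangoldt l / (l : ℝ) := by
        apply Finset.sum_le_sum_of_subset_of_nonneg
        · intro l hl
          simp only [Finset.mem_filter, Finset.mem_Icc] at hl
          simp only [Finset.mem_Ioc]
          omega
        · intro i _ _
          exact hL i
      have hx0 : Real.log x ≤ 0 := Real.log_nonpos hx.le hx1
      have := (abs_le.mp hmz).2
      linarith
    · have hmx := H62.mertens x hx1.le
      have hfl : ⌊x⌋₊ ≤ ⌊z⌋₊ := Nat.floor_le_floor hxz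
      have hf1 : 1 ≤ ⌊x⌋₊ := (Nat.one_le_floor_iff x).mpr hx1.le
      have hle : ∑ l ∈ (Icc 1 ⌊z⌋₊).filter (fun l : ℕ => l.Prime ∧ x ≤ (l : ℝ)),
          ArithmeticFunction.vonMangoldt l / (l : ℝ) ≤
          ∑ l ∈ Icc ⌊x⌋₊ ⌊z⌋₊, ArithmeticFunction.vonMangoldt l / (l : ℝ) := by
        apply Finset.sum_le_sum_of_subset_of_nonneg
        · intro l hl
          simp only [Finset.mem_filter, Finset.mem_Icc] at hl
          simp only [Finset.mem_Icc]
          refine ⟨?_, hl.1.2⟩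
          have h1 : (⌊x⌋₊ : ℝ) ≤ l := le_trans (Nat.floor_le hx.le) hl.2.2
          exact_mod_cast h1
        · intro i _ _
          exact hL i
      have hsplit : ∑ l ∈ Ioc 0 ⌊z⌋₊, ArithmeticFunction.vonMangoldt l / (l : ℝ) =
          ∑ l ∈ Ioc 0 ⌊x⌋₊, ArithmeticFunction.vonMangoldt l / (l : ℝ) +
          ∑ l ∈ Ioc ⌊x⌋₊ ⌊z⌋₊, ArithmeticFunction.vonMangoldt l / (l : ℝ) := by
        rw [← Finset.sum_union (Finset.disjoint_left.mpr (by
          intro a ha hb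
          simp only [Finset.mem_Ioc] at ha hb
          omega))]
        congr 1
        ext a
        simp only [Finset.mem_union, Finset.mem_Ioc]
        omega
      have hins : Icc ⌊x⌋₊ ⌊z⌋₊ = insert ⌊x⌋₊ (Ioc ⌊x⌋₊ ⌊z⌋₊) := by
        ext a
        simp only [Finset.mem_insert, Finset.mem_Ioc, Finset.mem_Icc]
        omega
      rw [hins, Finset.sum_insert (by simp)] at hle
      have hterm : ArithmeticFunction.vonMangoldt ⌊x⌋₊ / ((⌊x⌋₊ : ℕ) : ℝ) ≤ 1 := by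
        have hp : (0 : ℝ) < ((⌊x⌋₊ : ℕ) : ℝ) := by exact_mod_cast hf1
        rw [div_le_one hp]
        refine le_trans ArithmeticFunction.vonMangoldt_le_log ?_
        have := Real.log_le_sub_one_of_pos hp
        linarith
      have h1 := (abs_le.mp hmz).2
      have h2 := (abs_le.mp hmx).1
      linarith

end Pool.Agent.Lib.MP_1bd11d_co.SG
end

section

set_option autoImplicit false

open Finset
open scoped Classical

namespace Pool.Agent.Lib.MP_1bd11d_co.SG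

private theorem exp_le_aux {x : ℝ} (h0 : 0 ≤ x) (h1 : x ≤ 1) : Real.exp x ≤ 1 + 2 * x := by
  have h := Real.exp_bound' (x := x) h0 h1 (n := 1) (by norm_num)
  norm_num at h
  linarith

/-- `a l = (2/3) exp (1/(3 l)) ≤ 1` for `l ≥ 2`. -/
private theorem a_le_one {l : ℕ} (hl : 2 ≤ l) : 2 / 3 * Real.exp (1 / (3 * (l : ℝ))) ≤ 1 := by
  have hl2 : (2 : ℝ) ≤ l := by exact_mod_cast hl
  have h1 : 1 / (3 * (l : ℝ)) ≤ 1 / 6 := by
    apply one_div_le_one_div_of_le (by norm_num); linarith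
  have h2 := exp_le_aux (x := 1 / (3 * (l : ℝ))) (by positivity) (by linarith)
  linarith

private theorem a_le {l : ℕ} (hl : 2 ≤ l) :
    2 / 3 * Real.exp (1 / (3 * (l : ℝ))) / l ≤ (2 / 3) * (1 / (l : ℝ)) + 1 / (l : ℝ) ^ 2 := by
  have hl2 : (2 : ℝ) ≤ l := by exact_mod_cast hl
  have hl0 : (0 : ℝ) < l := by linarith
  have h1 : 1 / (3 * (l : ℝ)) ≤ 1 / 6 := by
    apply one_div_le_one_div_of_le (by norm_num); linarith
  have h2 := exp_le_aux (x := 1 / (3 * (l : ℝ))) (by positivity) (by linarith)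
  have h3 : 2 / 3 * Real.exp (1 / (3 * (l : ℝ))) ≤ 2 / 3 + 1 / (l : ℝ) := by
    have h5 : 2 / 3 * (1 + 2 * (1 / (3 * (l : ℝ)))) = 2 / 3 + (4 / 9) * (1 / (l : ℝ)) := by
      field_simp; ring
    have h6 : (0 : ℝ) ≤ 1 / (l : ℝ) := by positivity
    linarith
  calc 2 / 3 * Real.exp (1 / (3 * (l : ℝ))) / l ≤ (2 / 3 + 1 / (l : ℝ)) / l := by
        exact div_le_div_of_nonneg_right h3 hl0.le
    _ = (2 / 3) * (1 / (l : ℝ)) + 1 / (l : ℝ) ^ 2 := by
        field_simp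

private theorem sum_sq_le' (n : ℕ) (hn : 1 ≤ n) :
    ∑ l ∈ Icc 1 n, 1 / (l : ℝ) ^ 2 ≤ 2 - 1 / (n : ℝ) := by
  induction n, hn using Nat.le_induction with
  | base => norm_num
  | succ n hn ih =>
    rw [Finset.sum_Icc_succ_top (by omega)]
    have hn1 : (1 : ℝ) ≤ n := by exact_mod_cast hn
    have h1 : 1 / ((n + 1 : ℕ) : ℝ) ^ 2 ≤ 1 / (n : ℝ) - 1 / ((n + 1 : ℕ) : ℝ) := by
      push_cast
      rw [div_sub_div _ _ (by linarith) (by linarith), div_le_div_iff₀ (by positivity) (by positivity)]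
      nlinarith
    linarith

private theorem sum_sq_le (N : ℕ) : ∑ l ∈ Icc 1 N, 1 / (l : ℝ) ^ 2 ≤ 2 := by
  rcases Nat.eq_zero_or_pos N with h | h
  · subst h; norm_num
  · have h1 := sum_sq_le' N h
    have h2 : (0 : ℝ) ≤ 1 / (N : ℝ) := by positivity
    linarith

/-- The logarithmic sum over the squarefree rough numbers. -/
private theorem sum_sqfree_le (y N : ℕ) :
    ∑ s ∈ (Icc 1 N).filter (fun r => Rough y r ∧ Squarefree r),
      (∏ l ∈ s.primeFactors, (2 / 3 * Real.exp (1 / (3 * (l : ℝ))))) / (s : ℝ) ≤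
      Real.exp 2 * Real.exp ((2 / 3) *
        ∑ l ∈ (Icc 1 N).filter (fun l => l.Prime ∧ y < l), 1 / (l : ℝ)) := by
  obtain ⟨Pr, hPr⟩ : ∃ Pr : Finset ℕ, Pr = (Icc 1 N).filter (fun l => l.Prime ∧ y < l) := ⟨_, rfl⟩
  obtain ⟨F, hF⟩ : ∃ F : ℕ → ℝ, F = fun l : ℕ => 2 / 3 * Real.exp (1 / (3 * (l : ℝ))) / (l : ℝ) :=
    ⟨_, rfl⟩
  have hF0 : ∀ l, 0 ≤ F l := by intro l; rw [hF]; positivity
  have h1 : ∀ s ∈ (Icc 1 N).filter (fun r => Rough y r ∧ Squarefree r),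
      (∏ l ∈ s.primeFactors, (2 / 3 * Real.exp (1 / (3 * (l : ℝ))))) / (s : ℝ) =
        ∏ l ∈ s.primeFactors, F l := by
    intro s hs
    rw [Finset.mem_filter] at hs
    rw [hF, Finset.prod_div_distrib]
    congr 1
    have := Nat.prod_primeFactors_of_squarefree hs.2.2
    calc (s : ℝ) = ((∏ l ∈ s.primeFactors, l : ℕ) : ℝ) := by rw [this]
      _ = ∏ l ∈ s.primeFactors, (l : ℝ) := by push_cast; rfl
  rw [Finset.sum_congr rfl h1]
  have hinj : Set.InjOn (fun s : ℕ => s.primeFactors)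
      ((Icc 1 N).filter (fun r => Rough y r ∧ Squarefree r) : Finset ℕ) := by
    intro s hs t ht hst
    rw [Finset.mem_coe, Finset.mem_filter] at hs ht
    rw [← Nat.prod_primeFactors_of_squarefree hs.2.2, ← Nat.prod_primeFactors_of_squarefree ht.2.2]
    dsimp only at hst
    rw [hst]
  have h2 : ∑ s ∈ (Icc 1 N).filter (fun r => Rough y r ∧ Squarefree r),
      ∏ l ∈ s.primeFactors, F l =
      ∑ T ∈ ((Icc 1 N).filter (fun r => Rough y r ∧ Squarefree r)).image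
        (fun s : ℕ => s.primeFactors), ∏ l ∈ T, F l := by
    rw [Finset.sum_image hinj]
  rw [h2]
  have h3 : ((Icc 1 N).filter (fun r => Rough y r ∧ Squarefree r)).image
      (fun s : ℕ => s.primeFactors) ⊆ Pr.powerset := by
    intro T hT
    rw [Finset.mem_image] at hT
    obtain ⟨s, hs, rfl⟩ := hT
    rw [Finset.mem_filter, Finset.mem_Icc] at hs
    rw [Finset.mem_powerset, hPr]
    intro l hl
    rw [Nat.mem_primeFactors] at hl
    rw [Finset.mem_filter, Finset.mem_Icc]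
    exact ⟨⟨hl.1.one_lt.le, (Nat.le_of_dvd hs.1.1 hl.2.1).trans hs.1.2⟩, hl.1, hs.2.1 l hl.1 hl.2.1⟩
  calc ∑ T ∈ ((Icc 1 N).filter (fun r => Rough y r ∧ Squarefree r)).image
        (fun s : ℕ => s.primeFactors), ∏ l ∈ T, F l
      ≤ ∑ T ∈ Pr.powerset, ∏ l ∈ T, F l := by
        apply Finset.sum_le_sum_of_subset_of_nonneg h3
        intro T _ _
        exact Finset.prod_nonneg (fun l _ => hF0 l)
    _ = ∏ l ∈ Pr, (1 + F l) := by
        rw [Finset.prod_one_add]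
    _ ≤ ∏ l ∈ Pr, Real.exp (F l) := by
        apply Finset.prod_le_prod
        · intro l _
          have := hF0 l
          linarith
        · intro l _
          have := Real.add_one_le_exp (F l)
          linarith
    _ = Real.exp (∑ l ∈ Pr, F l) := by rw [Real.exp_sum]
    _ ≤ Real.exp (2 + (2 / 3) * ∑ l ∈ Pr, 1 / (l : ℝ)) := by
        apply Real.exp_le_exp.mpr
        have h4 : ∑ l ∈ Pr, F l ≤ ∑ l ∈ Pr, ((2 / 3) * (1 / (l : ℝ)) + 1 / (l : ℝ) ^ 2) := by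
          apply Finset.sum_le_sum
          intro l hl
          rw [hPr, Finset.mem_filter] at hl
          rw [hF]
          exact a_le hl.2.1.two_le
        have h5 : ∑ l ∈ Pr, 1 / (l : ℝ) ^ 2 ≤ ∑ l ∈ Icc 1 N, 1 / (l : ℝ) ^ 2 := by
          apply Finset.sum_le_sum_of_subset_of_nonneg
          · rw [hPr]; exact Finset.filter_subset _ _
          · intro l _ _; positivity
        have h6 := sum_sq_le N
        rw [Finset.sum_add_distrib, ← Finset.mul_sum] at h4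
        linarith
    _ = Real.exp 2 * Real.exp ((2 / 3) *
        ∑ l ∈ (Icc 1 N).filter (fun l => l.Prime ∧ y < l), 1 / (l : ℝ)) := by
        rw [Real.exp_add, hPr]

/-- Rough squarefree numbers in a window.  Let `a l = (2/3) exp (1 / (3 l)) ≤ 1`,
`a(r) = ∏_{l ∣ r} a l`, `V` the left side.  Since `log r = ∑_{l ∣ r} log l ≥ log N₁`,
`log N₁ * V ≤ ∑_r (a(r) / r) ∑_{l ∣ r} log l ≤
∑_{s ≤ N₂ rough squarefree} (a(s) / s) ∑_{N₁ / s ≤ l ≤ N₂ / s} log l / l ≤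
(log (N₂ / N₁) + C) ∏_{y < l ≤ N₂} (1 + a l / l)` (`short_mertens`), and
`∑_l a l / l ≤ (2/3) ∑ 1 / l + ∑ 1 / l²`. -/
theorem window_sum : ∃ C : ℝ, 0 < C ∧ ∀ y N₁ N₂ : ℕ, 2 ≤ N₁ → N₁ ≤ N₂ →
    ∑ r ∈ (Icc N₁ N₂).filter (fun r => Rough y r ∧ Squarefree r),
      (∏ l ∈ r.primeFactors, (2 / 3 * Real.exp (1 / (3 * (l : ℝ))))) / (r : ℝ) ≤
      C * (Real.log ((N₂ : ℝ) / N₁) + 1) / Real.log N₁ *
        Real.exp ((2 / 3) * ∑ l ∈ (Icc 1 N₂).filter (fun l => l.Prime ∧ y < l), 1 / (l : ℝ)) := by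
  obtain ⟨C0, hC0, hM⟩ := short_mertens
  refine ⟨(C0 + 1) * Real.exp 2, by positivity, ?_⟩
  intro y N₁ N₂ hN1 hN
  have hN1' : (1 : ℝ) < N₁ := by exact_mod_cast hN1
  have hN1p : (0 : ℝ) < N₁ := by linarith
  have hN' : (N₁ : ℝ) ≤ N₂ := by exact_mod_cast hN
  have hlog1 : 0 < Real.log N₁ := Real.log_pos hN1'
  have hlogq : 0 ≤ Real.log ((N₂ : ℝ) / N₁) := Real.log_nonneg (by rw [le_div_iff₀ hN1p]; linarith)
  obtain ⟨a, ha⟩ : ∃ a : ℕ → ℝ, a = fun n : ℕ => ∏ l ∈ n.primeFactors,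
    (2 / 3 * Real.exp (1 / (3 * (l : ℝ)))) := ⟨_, rfl⟩
  have ha0 : ∀ n, 0 ≤ a n := by
    intro n; rw [ha]; exact Finset.prod_nonneg (fun l _ => by positivity)
  have hadef : ∀ n : ℕ, ∏ l ∈ n.primeFactors, (2 / 3 * Real.exp (1 / (3 * (l : ℝ)))) = a n := by
    intro n; rw [ha]
  simp only [hadef]
  obtain ⟨R, hR⟩ : ∃ R : Finset ℕ, R = (Icc N₁ N₂).filter (fun r => Rough y r ∧ Squarefree r) :=
    ⟨_, rfl⟩
  obtain ⟨S, hS⟩ : ∃ S : Finset ℕ, S = (Icc 1 N₂).filter (fun r => Rough y r ∧ Squarefree r) :=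
    ⟨_, rfl⟩
  have hSsum := sum_sqfree_le y N₂
  simp only [hadef] at hSsum
  rw [← hS] at hSsum
  rw [← hR]
  obtain ⟨E, hE⟩ : ∃ E : ℝ, E = Real.exp ((2 / 3) *
    ∑ l ∈ (Icc 1 N₂).filter (fun l => l.Prime ∧ y < l), 1 / (l : ℝ)) := ⟨_, rfl⟩
  rw [← hE] at hSsum ⊢
  have hE0 : 0 < E := by rw [hE]; exact Real.exp_pos _
  -- members of R
  have hRmem : ∀ r ∈ R, N₁ ≤ r ∧ r ≤ N₂ ∧ Rough y r ∧ Squarefree r := by
    intro r hr
    rw [hR, Finset.mem_filter, Finset.mem_Icc] at hr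
    exact ⟨hr.1.1, hr.1.2, hr.2.1, hr.2.2⟩
  obtain ⟨L, hL⟩ : ∃ L : ℕ → Finset ℕ, L = fun s : ℕ => (Icc 1 ⌊(N₂ : ℝ) / s⌋₊).filter
    (fun l : ℕ => l.Prime ∧ (N₁ : ℝ) / s ≤ (l : ℝ)) := ⟨_, rfl⟩
  -- the main inequality
  have hmain : Real.log N₁ * ∑ r ∈ R, a r / (r : ℝ) ≤
      ∑ s ∈ S, a s / (s : ℝ) * ∑ l ∈ L s, Real.log l / (l : ℝ) := by
    have e1 : Real.log N₁ * ∑ r ∈ R, a r / (r : ℝ) ≤
        ∑ r ∈ R, ∑ l ∈ r.primeFactors, a (r / l) / ((r / l : ℕ) : ℝ) * (Real.log l / (l : ℝ)) := by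
      rw [Finset.mul_sum]
      apply Finset.sum_le_sum
      intro r hr
      obtain ⟨h1, h2, h3, h4⟩ := hRmem r hr
      have hr0 : r ≠ 0 := by omega
      have hrpos : (0 : ℝ) < r := by exact_mod_cast Nat.pos_of_ne_zero hr0
      have hlogr : Real.log r = ∑ l ∈ r.primeFactors, Real.log l := by
        rw [← Real.log_prod]
        · congr 1
          calc (r : ℝ) = ((∏ l ∈ r.primeFactors, l : ℕ) : ℝ) := by
                rw [Nat.prod_primeFactors_of_squarefree h4]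
            _ = ∏ l ∈ r.primeFactors, (l : ℝ) := by push_cast; rfl
        · intro l hl
          rw [Nat.mem_primeFactors] at hl
          have := hl.1.pos
          positivity
      have hlogle : Real.log N₁ ≤ Real.log r :=
        Real.log_le_log hN1p (by exact_mod_cast h1)
      calc Real.log N₁ * (a r / (r : ℝ)) ≤ Real.log r * (a r / (r : ℝ)) := by
            apply mul_le_mul_of_nonneg_right hlogle
            exact div_nonneg (ha0 r) hrpos.le
        _ = ∑ l ∈ r.primeFactors, a r / (r : ℝ) * Real.log l := by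
            rw [hlogr, mul_comm, Finset.mul_sum]
        _ ≤ ∑ l ∈ r.primeFactors, a (r / l) / ((r / l : ℕ) : ℝ) * (Real.log l / (l : ℝ)) := by
            apply Finset.sum_le_sum
            intro l hl
            rw [Nat.mem_primeFactors] at hl
            obtain ⟨s, rfl⟩ := hl.2.1
            have hlp := hl.1.pos
            have hlr : (0 : ℝ) < l := by exact_mod_cast hlp
            have hs0 : s ≠ 0 := by rintro rfl; simp at hr0
            have hsr : (0 : ℝ) < s := by exact_mod_cast Nat.pos_of_ne_zero hs0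
            rw [Nat.mul_div_cancel_left s hlp]
            have hcop : Nat.Coprime l s := Nat.coprime_of_squarefree_mul h4
            have hal : a (l * s) ≤ a s := by
              rw [ha]
              dsimp only
              rw [hcop.primeFactors_mul, Finset.prod_union hcop.disjoint_primeFactors,
                hl.1.primeFactors, Finset.prod_singleton]
              have h5 := a_le_one hl.1.two_le
              have h6 : 0 ≤ ∏ x ∈ s.primeFactors, (2 / 3 * Real.exp (1 / (3 * (x : ℝ)))) :=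
                Finset.prod_nonneg (fun x _ => by positivity)
              nlinarith
            have hll : 0 ≤ Real.log l := Real.log_natCast_nonneg l
            push_cast
            calc a (l * s) / ((l : ℝ) * s) * Real.log l ≤ a s / ((l : ℝ) * s) * Real.log l := by
                  apply mul_le_mul_of_nonneg_right _ hll
                  exact div_le_div_of_nonneg_right hal (by positivity)
              _ = a s / (s : ℝ) * (Real.log l / (l : ℝ)) := by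
                  field_simp
    refine e1.trans ?_
    have e2 : ∑ s ∈ S, a s / (s : ℝ) * ∑ l ∈ L s, Real.log l / (l : ℝ) =
        ∑ x ∈ S.sigma L, a x.1 / (x.1 : ℝ) * (Real.log x.2 / (x.2 : ℝ)) := by
      rw [Finset.sum_sigma]
      apply Finset.sum_congr rfl
      intro s _
      rw [Finset.mul_sum]
    rw [e2, Finset.sum_sigma' R (fun r => r.primeFactors)
      (fun r l => a (r / l) / ((r / l : ℕ) : ℝ) * (Real.log l / (l : ℝ)))]
    obtain ⟨φ, hφ⟩ : ∃ φ : (Σ _ : ℕ, ℕ) → (Σ _ : ℕ, ℕ), φ = fun x => ⟨x.1 / x.2, x.2⟩ := ⟨_, rfl⟩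
    have hmem : ∀ x ∈ R.sigma (fun r => r.primeFactors), x.2.Prime ∧ x.2 ∣ x.1 ∧ x.1 ≠ 0 ∧ x.1 ∈ R := by
      intro x hx
      rw [Finset.mem_sigma, Nat.mem_primeFactors] at hx
      exact ⟨hx.2.1, hx.2.2.1, hx.2.2.2, hx.1⟩
    have hinj : Set.InjOn φ (R.sigma (fun r => r.primeFactors) : Finset (Σ _ : ℕ, ℕ)) := by
      rintro ⟨r, l⟩ hx ⟨r', l'⟩ hx' h
      have h1 := hmem _ hx
      have h2 := hmem _ hx'
      rw [hφ] at h
      simp only [Sigma.mk.injEq, heq_eq_eq] at h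
      obtain ⟨h3, h4⟩ := h
      subst h4
      obtain ⟨s, hs⟩ := h1.2.1
      obtain ⟨s', hs'⟩ := h2.2.1
      dsimp only at hs hs' h3
      have hlp := h1.1.pos
      dsimp only at hlp
      rw [hs, hs', Nat.mul_div_cancel_left s hlp, Nat.mul_div_cancel_left s' hlp] at h3
      rw [hs, hs', h3]
    have hcongr : ∑ x ∈ R.sigma (fun r => r.primeFactors),
        a (x.1 / x.2) / ((x.1 / x.2 : ℕ) : ℝ) * (Real.log x.2 / (x.2 : ℝ)) =
        ∑ z ∈ (R.sigma (fun r => r.primeFactors)).image φ,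
          a z.1 / (z.1 : ℝ) * (Real.log z.2 / (z.2 : ℝ)) := by
      rw [Finset.sum_image hinj, hφ]
    rw [hcongr]
    apply Finset.sum_le_sum_of_subset_of_nonneg
    · intro z hz
      rw [Finset.mem_image] at hz
      obtain ⟨⟨r, l⟩, hx, rfl⟩ := hz
      obtain ⟨h1, h2, h3, h4⟩ := hmem _ hx
      dsimp only at h1 h2 h3 h4
      obtain ⟨s, rfl⟩ := h2
      obtain ⟨h5, h6, h7, h8⟩ := hRmem _ h4
      have hs0 : s ≠ 0 := by rintro rfl; simp at h3
      have hsr : (0 : ℝ) < s := by exact_mod_cast Nat.pos_of_ne_zero hs0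
      rw [hφ]
      simp only [Nat.mul_div_cancel_left s h1.pos]
      rw [Finset.mem_sigma]
      refine ⟨?_, ?_⟩
      · rw [hS, Finset.mem_filter, Finset.mem_Icc]
        refine ⟨⟨Nat.pos_of_ne_zero hs0, ?_⟩, ?_, ?_⟩
        · exact (Nat.le_mul_of_pos_left s h1.pos).trans h6
        · intro p hp hps
          exact h7 p hp (Dvd.dvd.mul_left hps l)
        · exact h8.of_mul_right
      · rw [hL]
        simp only
        rw [Finset.mem_filter, Finset.mem_Icc]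
        refine ⟨⟨h1.one_lt.le, ?_⟩, h1, ?_⟩
        · apply Nat.le_floor
          rw [le_div_iff₀ hsr]
          exact_mod_cast h6
        · rw [div_le_iff₀ hsr]
          exact_mod_cast h5
    · intro z _ _
      have h9 : 0 ≤ Real.log (z.2 : ℝ) := Real.log_natCast_nonneg z.2
      have h10 := ha0 z.1
      positivity
  have hbound : ∑ s ∈ S, a s / (s : ℝ) * ∑ l ∈ L s, Real.log l / (l : ℝ) ≤
      (Real.log ((N₂ : ℝ) / N₁) + C0) * (Real.exp 2 * E) := by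
    calc ∑ s ∈ S, a s / (s : ℝ) * ∑ l ∈ L s, Real.log l / (l : ℝ)
        ≤ ∑ s ∈ S, a s / (s : ℝ) * (Real.log ((N₂ : ℝ) / N₁) + C0) := by
          apply Finset.sum_le_sum
          intro s hs
          rw [hS, Finset.mem_filter, Finset.mem_Icc] at hs
          have hs0 : (0 : ℝ) < s := by exact_mod_cast hs.1.1
          apply mul_le_mul_of_nonneg_left _ (div_nonneg (ha0 s) hs0.le)
          have h := hM ((N₁ : ℝ) / s) ((N₂ : ℝ) / s) (by positivity)
            (div_le_div_of_nonneg_right hN' hs0.le)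
          rw [div_div_div_cancel_right₀ hs0.ne'] at h
          rw [hL]
          exact h
      _ = (Real.log ((N₂ : ℝ) / N₁) + C0) * ∑ s ∈ S, a s / (s : ℝ) := by
          rw [← Finset.sum_mul, mul_comm]
      _ ≤ (Real.log ((N₂ : ℝ) / N₁) + C0) * (Real.exp 2 * E) := by
          apply mul_le_mul_of_nonneg_left hSsum
          linarith
  have hfinal : ∑ r ∈ R, a r / (r : ℝ) ≤
      (Real.log ((N₂ : ℝ) / N₁) + C0) * (Real.exp 2 * E) / Real.log N₁ := by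
    rw [le_div_iff₀ hlog1, mul_comm]
    exact hmain.trans hbound
  refine hfinal.trans ?_
  rw [div_mul_eq_mul_div]
  apply div_le_div_of_nonneg_right _ hlog1.le
  have h11 : Real.log ((N₂ : ℝ) / N₁) + C0 ≤ (C0 + 1) * (Real.log ((N₂ : ℝ) / N₁) + 1) := by
    nlinarith
  calc (Real.log ((N₂ : ℝ) / N₁) + C0) * (Real.exp 2 * E)
      ≤ (C0 + 1) * (Real.log ((N₂ : ℝ) / N₁) + 1) * (Real.exp 2 * E) := by
        apply mul_le_mul_of_nonneg_right h11; positivity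
    _ = (C0 + 1) * Real.exp 2 * (Real.log ((N₂ : ℝ) / N₁) + 1) * E := by ring

end Pool.Agent.Lib.MP_1bd11d_co.SG
end

section

set_option autoImplicit false

open Finset
open scoped Classical

namespace Pool.Agent.Lib.MP_1bd11d_co.SG

/-- The primes in `(2 ^ T, 2 ^ (T² + 1)]`. -/
def PT (T : ℕ) : Finset ℕ := (Icc 1 (2 ^ (T ^ 2 + 1))).filter (fun l => l.Prime ∧ 2 ^ T < l)

private lemma inv_le_exp {x : ℝ} (h0 : 0 ≤ x) (h1 : x ≤ 1 / 2) :
    (1 - x)⁻¹ ≤ Real.exp (x + x ^ 2) := by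
  have hx : 0 < 1 - x := by linarith
  rw [inv_le_iff_one_le_mul₀ hx]
  have hy : 0 ≤ x + x ^ 2 := by positivity
  have h2 := Real.quadratic_le_exp_of_nonneg hy
  have h3 : 1 ≤ (1 + (x + x ^ 2) + (x + x ^ 2) ^ 2 / 2) * (1 - x) := by
    have h4 : (1 + (x + x ^ 2) + (x + x ^ 2) ^ 2 / 2) * (1 - x) =
        1 + x ^ 2 / 2 * (1 - x - x ^ 2 - x ^ 3) := by ring
    rw [h4]
    have h5 : x ^ 2 ≤ 1 / 4 := by nlinarith
    have h6 : x ^ 3 ≤ 1 / 8 := by
      have : x ^ 3 = x * x ^ 2 := by ring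
      rw [this]
      nlinarith
    have h7 : 0 ≤ x ^ 2 / 2 * (1 - x - x ^ 2 - x ^ 3) := by
      apply mul_nonneg (by positivity)
      linarith
    linarith
  calc (1 : ℝ) ≤ (1 + (x + x ^ 2) + (x + x ^ 2) ^ 2 / 2) * (1 - x) := h3
    _ ≤ Real.exp (x + x ^ 2) * (1 - x) := mul_le_mul_of_nonneg_right h2 hx.le

private lemma exp_le_inv {x : ℝ} (h1 : x < 1) : Real.exp x ≤ (1 - x)⁻¹ := by
  have hx : 0 < 1 - x := by linarith
  rw [le_inv_comm₀ (Real.exp_pos _) hx, ← Real.exp_neg]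
  have := Real.add_one_le_exp (-x)
  linarith

private lemma PT_mem {T l : ℕ} (h : l ∈ PT T) : l.Prime ∧ 2 ^ T < l ∧ l ≤ 2 ^ (T ^ 2 + 1) := by
  unfold PT at h
  rw [mem_filter, mem_Icc] at h
  exact ⟨h.2.1, h.2.2, h.1.2⟩

private lemma SS_split (T : ℕ) :
    SS (2 ^ (T ^ 2 + 1)) = SS (2 ^ T) * ∏ l ∈ PT T, (1 - 1 / (l : ℝ))⁻¹ := by
  have hT : 2 ^ T ≤ 2 ^ (T ^ 2 + 1) := by
    apply Nat.pow_le_pow_right (by norm_num)
    nlinarith [Nat.zero_le T, sq_nonneg ((T : ℤ) - 1)]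
  unfold SS PT
  rw [← prod_union]
  · apply prod_congr _ (fun _ _ => rfl)
    ext l
    simp only [mem_filter, mem_union, mem_Icc]
    constructor
    · rintro ⟨⟨h1, h2⟩, h3⟩
      by_cases h4 : l ≤ 2 ^ T
      · exact Or.inl ⟨⟨h1, h4⟩, h3⟩
      · exact Or.inr ⟨⟨h1, h2⟩, h3, by omega⟩
    · rintro (⟨⟨h1, h2⟩, h3⟩ | ⟨⟨h1, h2⟩, h3, h4⟩)
      · exact ⟨⟨h1, le_trans h2 hT⟩, h3⟩
      · exact ⟨⟨h1, h2⟩, h3⟩
  · rw [disjoint_left]
    intro l h1 h2
    simp only [mem_filter, mem_Icc] at h1 h2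
    omega

/-- `∏_{l ∈ PT} (1 - 1/l)⁻¹ = SS (2 ^ (T² + 1)) / SS (2 ^ T)` is between constant multiples of `T`
(`log_le_SS`, `SS_le`), and `x ≤ -log (1 - x) ≤ x + x²` for `0 ≤ x ≤ 1/2`. -/
theorem PT_bounds : ∃ c C : ℝ, 0 < c ∧ 0 < C ∧ ∀ T : ℕ, 2 ≤ T →
    c * T ≤ Real.exp (∑ l ∈ PT T, 1 / (l : ℝ)) ∧ Real.exp (∑ l ∈ PT T, 1 / (l : ℝ)) ≤ C * T := by
  obtain ⟨C, hC1, hC⟩ := SS_le
  have hC0 : 0 < C := by linarith
  refine ⟨1 / (C * Real.exp 1), 2 * C, by positivity, by positivity, ?_⟩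
  intro T hT
  have hTr : (2 : ℝ) ≤ T := by exact_mod_cast hT
  have hlog2 : 0 < Real.log 2 := Real.log_pos (by norm_num)
  have hN1 : 2 ≤ 2 ^ T := by
    calc 2 = 2 ^ 1 := by norm_num
      _ ≤ 2 ^ T := Nat.pow_le_pow_right (by norm_num) (by omega)
  have hN2 : 2 ≤ 2 ^ (T ^ 2 + 1) := by
    calc 2 = 2 ^ 1 := by norm_num
      _ ≤ 2 ^ (T ^ 2 + 1) := Nat.pow_le_pow_right (by norm_num) (by omega)
  have l1 : Real.log ((2 ^ T : ℕ) : ℝ) = T * Real.log 2 := by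
    push_cast
    rw [Real.log_pow]
  have l2 : Real.log ((2 ^ (T ^ 2 + 1) : ℕ) : ℝ) = ((T : ℝ) ^ 2 + 1) * Real.log 2 := by
    push_cast
    rw [Real.log_pow]
    push_cast
    ring
  set Q : ℝ := ∏ l ∈ PT T, (1 - 1 / (l : ℝ))⁻¹ with hQ
  have hsplit := SS_split T
  rw [← hQ] at hsplit
  have s1 := hC _ hN1
  have s2 := hC _ hN2
  have t1 : Real.log ((2 ^ T : ℕ) : ℝ) ≤ SS (2 ^ T) :=
    (Real.log_le_log (by positivity) (by linarith)).trans (log_le_SS (2 ^ T))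
  have t2 : Real.log ((2 ^ (T ^ 2 + 1) : ℕ) : ℝ) ≤ SS (2 ^ (T ^ 2 + 1)) :=
    (Real.log_le_log (by positivity) (by linarith)).trans (log_le_SS (2 ^ (T ^ 2 + 1)))
  rw [l1] at s1 t1
  rw [l2] at s2 t2
  have hx : ∀ l ∈ PT T, 0 ≤ 1 / (l : ℝ) ∧ 1 / (l : ℝ) ≤ 1 / 2 := by
    intro l hl
    have h2 : (2 : ℝ) ≤ l := by exact_mod_cast (PT_mem hl).1.two_le
    exact ⟨by positivity, one_div_le_one_div_of_le (by norm_num) h2⟩
  have hQpos : 0 < Q := by
    apply prod_pos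
    intro l hl
    have := hx l hl
    apply inv_pos.2
    linarith
  have hexp : Real.exp (∑ l ∈ PT T, 1 / (l : ℝ)) ≤ Q := by
    rw [Real.exp_sum]
    apply prod_le_prod (fun _ _ => (Real.exp_pos _).le)
    intro l hl
    exact exp_le_inv (by linarith [(hx l hl).2])
  have hsq : ∑ l ∈ PT T, (1 / (l : ℝ)) ^ 2 ≤ 1 := by
    calc ∑ l ∈ PT T, (1 / (l : ℝ)) ^ 2 ≤ ∑ l ∈ Ioc (1 : ℕ) (2 ^ (T ^ 2 + 1)), (1 / (l : ℝ)) ^ 2 := by
          apply sum_le_sum_of_subset_of_nonneg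
          · intro l hl
            have h := PT_mem hl
            rw [mem_Ioc]
            exact ⟨h.1.one_lt, h.2.2⟩
          · intro _ _ _
            positivity
      _ = ∑ l ∈ Ioc (1 : ℕ) (2 ^ (T ^ 2 + 1)), ((l : ℝ) ^ 2)⁻¹ := by
          apply sum_congr rfl
          intro l _
          rw [one_div, inv_pow]
      _ ≤ ((1 : ℕ) : ℝ)⁻¹ - ((2 ^ (T ^ 2 + 1) : ℕ) : ℝ)⁻¹ :=
          sum_Ioc_inv_sq_le_sub one_ne_zero (le_trans (by norm_num) hN2)
      _ ≤ 1 := by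
          have : 0 ≤ ((2 ^ (T ^ 2 + 1) : ℕ) : ℝ)⁻¹ := by positivity
          simp only [Nat.cast_one, inv_one]
          linarith
  have hQle : Q ≤ Real.exp (∑ l ∈ PT T, 1 / (l : ℝ)) * Real.exp 1 := by
    calc Q ≤ ∏ l ∈ PT T, Real.exp (1 / (l : ℝ) + (1 / (l : ℝ)) ^ 2) := by
          apply prod_le_prod
          · intro l hl
            have := hx l hl
            apply (inv_pos.2 _).le
            linarith
          · intro l hl
            exact inv_le_exp (hx l hl).1 (hx l hl).2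
      _ = Real.exp (∑ l ∈ PT T, 1 / (l : ℝ)) * Real.exp (∑ l ∈ PT T, (1 / (l : ℝ)) ^ 2) := by
          rw [← Real.exp_sum, sum_add_distrib, Real.exp_add]
      _ ≤ _ := by
          apply mul_le_mul_of_nonneg_left _ (Real.exp_pos _).le
          exact Real.exp_le_exp.2 hsq
  constructor
  · have h1 : (T : ℝ) ≤ C * Q := by
      have h2 : ((T : ℝ) ^ 2 + 1) * Real.log 2 ≤ C * (T * Real.log 2) * Q := by
        calc ((T : ℝ) ^ 2 + 1) * Real.log 2 ≤ SS (2 ^ T) * Q := by rw [← hsplit]; exact t2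
          _ ≤ C * (T * Real.log 2) * Q := mul_le_mul_of_nonneg_right s1 hQpos.le
      have h3 : (T : ℝ) * (T * Real.log 2) ≤ (C * Q) * (T * Real.log 2) := by nlinarith
      exact le_of_mul_le_mul_right h3 (by positivity)
    rw [div_mul_eq_mul_div, one_mul, div_le_iff₀ (by positivity)]
    calc (T : ℝ) ≤ C * Q := h1
      _ ≤ C * (Real.exp (∑ l ∈ PT T, 1 / (l : ℝ)) * Real.exp 1) :=
          mul_le_mul_of_nonneg_left hQle hC0.le
      _ = Real.exp (∑ l ∈ PT T, 1 / (l : ℝ)) * (C * Real.exp 1) := by ring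
  · refine le_trans hexp ?_
    have h2 : T * Real.log 2 * Q ≤ C * (((T : ℝ) ^ 2 + 1) * Real.log 2) := by
      calc T * Real.log 2 * Q ≤ SS (2 ^ T) * Q := mul_le_mul_of_nonneg_right t1 hQpos.le
        _ = SS (2 ^ (T ^ 2 + 1)) := hsplit.symm
        _ ≤ _ := s2
    have h3 : Q * (T * Real.log 2) ≤ (2 * C * T) * (T * Real.log 2) := by
      have h4 : C * (((T : ℝ) ^ 2 + 1) * Real.log 2) ≤ (2 * C * T) * (T * Real.log 2) := by
        have h5 : (T : ℝ) ^ 2 + 1 ≤ 2 * T * T := by nlinarith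
        have h6 : 0 < C * Real.log 2 := by positivity
        nlinarith
      linarith
    exact le_of_mul_le_mul_right h3 (by positivity)

end Pool.Agent.Lib.MP_1bd11d_co.SG
end

section

set_option autoImplicit false

open Finset
open scoped Classical

namespace Pool.Agent.Lib.MP_1bd11d_co.SG

/-- The numbers `b r` of `Good` (without the condition on the number of divisors). -/
def Good' (T D : ℕ) : Prop :=
  ∃ b r : ℕ, D = b * r ∧ b ≤ 2 ^ T ∧ Rough (T ^ 10) b ∧ Rough (2 ^ T) r ∧ Squarefree r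

private theorem mul_inj_rough {Y b r b' r' : ℕ} (hb0 : 0 < b) (hb : b ≤ Y) (hb' : b' ≤ Y)
    (hb0' : 0 < b') (hr : Rough Y r) (hr' : Rough Y r') (h : b * r = b' * r') :
    b = b' ∧ r = r' := by
  have cop : ∀ {c q : ℕ}, 0 < c → c ≤ Y → Rough Y q → Nat.Coprime c q := by
    intro c q hc0 hc hq
    rw [Nat.coprime_iff_gcd_eq_one]
    by_contra hne
    obtain ⟨l, hl, hd⟩ := Nat.exists_prime_and_dvd hne
    have h1 : l ≤ c := Nat.le_of_dvd hc0 (hd.trans (Nat.gcd_dvd_left _ _))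
    have h2 := hq l hl (hd.trans (Nat.gcd_dvd_right _ _))
    omega
  have d1 : b ∣ b' := (cop hb0 hb hr').dvd_of_dvd_mul_right (h ▸ Dvd.intro r rfl)
  have d2 : b' ∣ b := (cop hb0' hb' hr).dvd_of_dvd_mul_right (h.symm ▸ Dvd.intro r' rfl)
  have e := Nat.dvd_antisymm d1 d2
  subst e
  exact ⟨rfl, Nat.eq_of_mul_eq_mul_left hb0 h⟩

/-- `∑_{D ≤ 2 ^ (T²), Good'} 1 / D ≥ (∑_{b ≤ 2 ^ T} 1 / b) (∑_{r ≤ 2 ^ (T² - T)} 1 / r)`: the map
`(b, r) ↦ b r` is injective (primes of `b` are `≤ 2 ^ T`, those of `r` are `> 2 ^ T`).  By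
`rough_sum_ge`, `rough_sqf_sum_ge` this is at least
`(log 2 ^ T / SS (T ^ 10)) * (log 2 ^ (T² - T)) / (2 SS (2 ^ T))`, and
`SS (2 ^ T) ≤ C log 2 ^ T`. -/
theorem good_sum_ge : ∃ c : ℝ, 0 < c ∧ ∃ T₀ : ℕ, ∀ T : ℕ, T₀ ≤ T →
    c * (T : ℝ) ^ 2 / SS (T ^ 10) ≤
      ∑ D ∈ (Icc 1 (2 ^ (T ^ 2))).filter (fun D => Good' T D), 1 / (D : ℝ) := by
  obtain ⟨C, hC1, hC⟩ := SS_le
  have hl2 : 0 < Real.log 2 := Real.log_pos (by norm_num)
  refine ⟨Real.log 2 / (4 * C), by positivity, 2, fun T hT => ?_⟩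
  set B := (Icc 1 (2 ^ T)).filter (fun n => Rough (T ^ 10) n) with hB
  set R := (Icc 1 (2 ^ (T ^ 2 - T))).filter (fun n => Rough (2 ^ T) n ∧ Squarefree n) with hR
  have hBm : ∀ b ∈ B, 1 ≤ b ∧ b ≤ 2 ^ T ∧ Rough (T ^ 10) b := by
    intro b hb
    rw [hB, mem_filter, mem_Icc] at hb
    exact ⟨hb.1.1, hb.1.2, hb.2⟩
  have hRm : ∀ r ∈ R, 1 ≤ r ∧ r ≤ 2 ^ (T ^ 2 - T) ∧ Rough (2 ^ T) r ∧ Squarefree r := by
    intro r hr
    rw [hR, mem_filter, mem_Icc] at hr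
    exact ⟨hr.1.1, hr.1.2, hr.2.1, hr.2.2⟩
  have hT2 : T ≤ T ^ 2 := by nlinarith
  have hsub : (B ×ˢ R).image (fun q => q.1 * q.2) ⊆
      (Icc 1 (2 ^ (T ^ 2))).filter (fun D => Good' T D) := by
    intro D hD
    rw [mem_image] at hD
    obtain ⟨q, hq, rfl⟩ := hD
    rw [mem_product] at hq
    have h1 := hBm q.1 hq.1
    have h2 := hRm q.2 hq.2
    rw [mem_filter, mem_Icc]
    refine ⟨⟨Nat.mul_pos h1.1 h2.1, ?_⟩, q.1, q.2, rfl, h1.2.1, h1.2.2, h2.2.2.1, h2.2.2.2⟩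
    calc q.1 * q.2 ≤ 2 ^ T * 2 ^ (T ^ 2 - T) := Nat.mul_le_mul h1.2.1 h2.2.1
      _ = 2 ^ (T ^ 2) := by rw [← pow_add, Nat.add_sub_cancel' hT2]
  have hinj : Set.InjOn (fun q : ℕ × ℕ => q.1 * q.2) ((B ×ˢ R : Finset (ℕ × ℕ)) : Set (ℕ × ℕ)) := by
    intro q hq q' hq' h
    rw [mem_coe, mem_product] at hq hq'
    have h1 := hBm q.1 hq.1
    have h2 := hRm q.2 hq.2
    have h1' := hBm q'.1 hq'.1
    have h2' := hRm q'.2 hq'.2
    have := mul_inj_rough h1.1 h1.2.1 h1'.2.1 h1'.1 h2.2.2.1 h2'.2.2.1 h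
    exact Prod.ext this.1 this.2
  have e1 : ∑ D ∈ ((B ×ˢ R).image (fun q : ℕ × ℕ => q.1 * q.2) : Finset ℕ), 1 / (D : ℝ) =
      (∑ b ∈ B, 1 / (b : ℝ)) * ∑ r ∈ R, 1 / (r : ℝ) := by
    rw [sum_image hinj, sum_mul_sum, ← sum_product']
    refine sum_congr rfl fun q _ => ?_
    push_cast
    rw [one_div_mul_one_div]
  have hle : ∑ D ∈ ((B ×ˢ R).image (fun q : ℕ × ℕ => q.1 * q.2) : Finset ℕ), 1 / (D : ℝ) ≤
      ∑ D ∈ (Icc 1 (2 ^ (T ^ 2))).filter (fun D => Good' T D), 1 / (D : ℝ) :=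
    sum_le_sum_of_subset_of_nonneg hsub fun D _ _ => by positivity
  refine le_trans ?_ hle
  rw [e1]
  have hTr : (2 : ℝ) ≤ T := by exact_mod_cast hT
  have s1 := SS_pos (T ^ 10)
  have s2 := SS_pos (2 ^ T)
  have hB1 : (T : ℝ) * Real.log 2 / SS (T ^ 10) ≤ ∑ b ∈ B, 1 / (b : ℝ) := by
    refine le_trans ?_ (rough_sum_ge (T ^ 10) (2 ^ T))
    refine div_le_div_of_nonneg_right ?_ s1.le
    rw [← Real.log_pow]
    refine Real.log_le_log (by positivity) ?_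
    push_cast
    linarith
  have hR1 : ((T : ℝ) ^ 2 - T) * Real.log 2 / (2 * SS (2 ^ T)) ≤ ∑ r ∈ R, 1 / (r : ℝ) := by
    refine le_trans ?_ (rough_sqf_sum_ge (2 ^ T) (2 ^ (T ^ 2 - T)))
    refine div_le_div_of_nonneg_right ?_ (by positivity)
    have h1 : ((T : ℝ) ^ 2 - T) = ((T ^ 2 - T : ℕ) : ℝ) := by
      rw [Nat.cast_sub hT2]
      push_cast
      ring
    rw [h1, ← Real.log_pow]
    refine Real.log_le_log (by positivity) ?_
    push_cast
    linarith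
  have hS2 : SS (2 ^ T) ≤ C * ((T : ℝ) * Real.log 2) := by
    have h1 := hC (2 ^ T) (by
      calc 2 = 2 ^ 1 := by norm_num
        _ ≤ 2 ^ T := Nat.pow_le_pow_right (by norm_num) (by omega))
    push_cast at h1
    rwa [Real.log_pow] at h1
  have hC0 : 0 < C := by linarith
  have hT0 : (0 : ℝ) < T := by linarith
  have hR2 : ((T : ℝ) - 1) / (2 * C) ≤ ∑ r ∈ R, 1 / (r : ℝ) := by
    refine le_trans ?_ hR1
    rw [div_le_div_iff₀ (by positivity) (by positivity)]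
    have h2 : ((T : ℝ) - 1) * (2 * SS (2 ^ T)) ≤ ((T : ℝ) - 1) * (2 * (C * ((T : ℝ) * Real.log 2))) :=
      mul_le_mul_of_nonneg_left (by linarith) (by linarith)
    nlinarith [h2]
  calc Real.log 2 / (4 * C) * (T : ℝ) ^ 2 / SS (T ^ 10)
      = (T : ℝ) * Real.log 2 / SS (T ^ 10) * ((T : ℝ) / (4 * C)) := by
        field_simp
    _ ≤ (T : ℝ) * Real.log 2 / SS (T ^ 10) * (((T : ℝ) - 1) / (2 * C)) := by
        refine mul_le_mul_of_nonneg_left ?_ (by positivity)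
        rw [div_le_div_iff₀ (by positivity) (by positivity)]
        nlinarith
    _ ≤ (∑ b ∈ B, 1 / (b : ℝ)) * ∑ r ∈ R, 1 / (r : ℝ) :=
        mul_le_mul hB1 hR2 (div_nonneg (by linarith) (by positivity))
          (sum_nonneg fun b _ => by positivity)

end Pool.Agent.Lib.MP_1bd11d_co.SG
end

section

set_option autoImplicit false

open Finset
open scoped Classical

namespace Pool.Agent.Lib.MP_1bd11d_co.SG

/-- `hall_tenenbaum` with `g l = 2/3` for `l ∈ P` and `g l = 1` otherwise: the product is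
`SS U * ∏_{l ∈ P} (1 - 1 / (3 l))`, and `SS U ≤ C log U`. -/
theorem om_lower : ∃ C : ℝ, 0 < C ∧ ∀ P : Finset ℕ, (∀ l ∈ P, l.Prime) → ∀ U : ℕ, 2 ≤ U →
    (∀ l ∈ P, l ≤ U) →
    ∑ u ∈ Icc 1 U, (2 / 3 : ℝ) ^ om P u ≤ C * U * Real.exp (-(1 / 3) * ∑ l ∈ P, 1 / (l : ℝ)) := by
  obtain ⟨C0, hC0, hHT⟩ := hall_tenenbaum
  obtain ⟨C1, hC1, hSS⟩ := SS_le
  refine ⟨C0 * C1, by positivity, ?_⟩
  intro P hP U hU hPU
  have hU1 : (1 : ℝ) < U := by exact_mod_cast hU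
  have hlogU : 0 < Real.log U := Real.log_pos hU1
  obtain ⟨g, hg⟩ : ∃ g : ℕ → ℝ, g = fun l => if l ∈ P then 2 / 3 else 1 := ⟨_, rfl⟩
  have h1 : ∀ u ∈ Icc 1 U, (2 / 3 : ℝ) ^ om P u = ∏ l ∈ u.primeFactors, g l := by
    intro u hu
    rw [Finset.mem_Icc] at hu
    have hu0 : u ≠ 0 := by omega
    have h2 : ∏ l ∈ u.primeFactors, g l = (2 / 3 : ℝ) ^ (u.primeFactors.filter (· ∈ P)).card := by
      rw [hg, Finset.prod_ite, Finset.prod_const, Finset.prod_const_one, mul_one]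
    rw [h2]
    congr 1
    unfold om
    congr 1
    ext l
    simp only [Finset.mem_filter, Nat.mem_primeFactors]
    constructor
    · rintro ⟨hl, hd⟩
      exact ⟨⟨hP l hl, hd, hu0⟩, hl⟩
    · rintro ⟨⟨_, hd, _⟩, hl⟩
      exact ⟨hl, hd⟩
  rw [Finset.sum_congr rfl h1]
  have hg0 : ∀ l, 0 ≤ g l := by
    intro l; rw [hg]; dsimp only; split_ifs <;> norm_num
  have hg1 : ∀ l, g l ≤ 1 := by
    intro l; rw [hg]; dsimp only; split_ifs <;> norm_num
  refine (hHT g hg0 hg1 U hU).trans ?_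
  have hprod : ∏ l ∈ (Icc 1 U).filter Nat.Prime, (1 + g l / ((l : ℝ) - 1)) ≤
      SS U * Real.exp (-(1 / 3) * ∑ l ∈ P, 1 / (l : ℝ)) := by
    have e1 : ∏ l ∈ (Icc 1 U).filter Nat.Prime, (1 + g l / ((l : ℝ) - 1)) =
        SS U * ∏ l ∈ (Icc 1 U).filter Nat.Prime, (if l ∈ P then 1 - 1 / (3 * (l : ℝ)) else 1) := by
      unfold SS
      rw [← Finset.prod_mul_distrib]
      apply Finset.prod_congr rfl
      intro l hl
      rw [Finset.mem_filter] at hl
      have hl2 : (2 : ℝ) ≤ l := by exact_mod_cast hl.2.two_le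
      have hl1 : (l : ℝ) - 1 ≠ 0 := by
        have : (0 : ℝ) < (l : ℝ) - 1 := by linarith
        exact this.ne'
      have hl0 : (l : ℝ) ≠ 0 := by
        have : (0 : ℝ) < (l : ℝ) := by linarith
        exact this.ne'
      have hinv : (1 - 1 / (l : ℝ))⁻¹ = l / ((l : ℝ) - 1) := by
        rw [show (1 - 1 / (l : ℝ)) = ((l : ℝ) - 1) / l by field_simp, inv_div]
      rw [hinv, hg]
      by_cases hlP : l ∈ P
      · simp only [hlP, if_true]
        field_simp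
        ring
      · simp only [hlP, if_false]
        field_simp
        ring
    have e2 : ∏ l ∈ (Icc 1 U).filter Nat.Prime, (if l ∈ P then 1 - 1 / (3 * (l : ℝ)) else 1) =
        ∏ l ∈ P, (1 - 1 / (3 * (l : ℝ))) := by
      rw [← Finset.prod_filter]
      congr 1
      ext l
      simp only [Finset.mem_filter, Finset.mem_Icc]
      constructor
      · rintro ⟨_, hl⟩; exact hl
      · intro hl
        exact ⟨⟨⟨(hP l hl).one_lt.le, hPU l hl⟩, hP l hl⟩, hl⟩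
    have e3 : ∏ l ∈ P, (1 - 1 / (3 * (l : ℝ))) ≤ Real.exp (-(1 / 3) * ∑ l ∈ P, 1 / (l : ℝ)) := by
      rw [Finset.mul_sum, Real.exp_sum]
      apply Finset.prod_le_prod
      · intro l hl
        have hl2 : (2 : ℝ) ≤ l := by exact_mod_cast (hP l hl).two_le
        rw [sub_nonneg, div_le_one (by linarith)]
        linarith
      · intro l hl
        have hl2 : (2 : ℝ) ≤ l := by exact_mod_cast (hP l hl).two_le
        have h3 := Real.add_one_le_exp (-(1 / 3) * (1 / (l : ℝ)))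
        have h4 : 1 - 1 / (3 * (l : ℝ)) = -(1 / 3) * (1 / (l : ℝ)) + 1 := by
          field_simp
          ring
        rw [h4]; exact h3
    rw [e1, e2]
    exact mul_le_mul_of_nonneg_left e3 (SS_pos U).le
  have hE := Real.exp_pos (-(1 / 3) * ∑ l ∈ P, 1 / (l : ℝ))
  have hU0 : (0 : ℝ) < U := by linarith
  calc C0 * U / Real.log U * ∏ l ∈ (Icc 1 U).filter Nat.Prime, (1 + g l / ((l : ℝ) - 1))
      ≤ C0 * U / Real.log U * (SS U * Real.exp (-(1 / 3) * ∑ l ∈ P, 1 / (l : ℝ))) := by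
        apply mul_le_mul_of_nonneg_left hprod; positivity
    _ ≤ C0 * U / Real.log U * (C1 * Real.log U * Real.exp (-(1 / 3) * ∑ l ∈ P, 1 / (l : ℝ))) := by
        apply mul_le_mul_of_nonneg_left _ (by positivity)
        exact mul_le_mul_of_nonneg_right (hSS U hU) hE.le
    _ = C0 * C1 * U * Real.exp (-(1 / 3) * ∑ l ∈ P, 1 / (l : ℝ)) := by
        field_simp

end Pool.Agent.Lib.MP_1bd11d_co.SG
end

section

set_option autoImplicit false

open Finset
open scoped Classical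

namespace Pool.Agent.Lib.MP_1bd11d_co.SG

/-- `∑_{D ≤ M} τ(D) / D ≤ (∑_{d ≤ M} 1 / d)² ≤ (1 + log M)²`. -/
theorem sum_tau_div_le (M : ℕ) (hM : 1 ≤ M) :
    ∑ D ∈ Icc 1 M, (D.divisors.card : ℝ) / D ≤ (1 + Real.log M) ^ 2 := by
  have h1 : ∑ D ∈ Icc 1 M, (D.divisors.card : ℝ) / D =
      ∑ x ∈ (Icc 1 M).sigma (fun D => D.divisors), (1 : ℝ) / x.1 := by
    rw [Finset.sum_sigma]
    refine Finset.sum_congr rfl fun D _ => ?_
    show (D.divisors.card : ℝ) / D = ∑ _s ∈ D.divisors, (1 : ℝ) / D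
    rw [Finset.sum_const, nsmul_eq_mul, mul_one_div]
  obtain ⟨f, hf⟩ : ∃ f : (_ : ℕ) × ℕ → ℕ × ℕ, ∀ x, f x = (x.2, x.1 / x.2) := ⟨_, fun _ => rfl⟩
  have hmem : ∀ x ∈ (Icc 1 M).sigma (fun D => D.divisors),
      1 ≤ x.2 ∧ x.2 * (x.1 / x.2) = x.1 ∧ 1 ≤ x.1 / x.2 ∧ x.2 ≤ M ∧ x.1 / x.2 ≤ M := by
    intro x hx
    obtain ⟨hD, hd⟩ := Finset.mem_sigma.1 hx
    obtain ⟨h2, h3⟩ := Finset.mem_Icc.1 hD
    have h4 : x.2 ∣ x.1 := Nat.dvd_of_mem_divisors hd
    have h5 : 1 ≤ x.2 := Nat.pos_of_dvd_of_pos h4 h2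
    refine ⟨h5, Nat.mul_div_cancel' h4, Nat.div_pos (Nat.le_of_dvd h2 h4) h5,
      (Nat.le_of_dvd h2 h4).trans h3, (Nat.div_le_self _ _).trans h3⟩
  have hinj : Set.InjOn f ((Icc 1 M).sigma (fun D => D.divisors) : Finset ((_ : ℕ) × ℕ)) := by
    intro x hx y hy hxy
    rw [hf, hf, Prod.mk.injEq] at hxy
    obtain ⟨e1, e2⟩ := hxy
    have hx' := (hmem x hx).2.1
    have hy' := (hmem y hy).2.1
    have e3 : x.1 = y.1 := by rw [← hx', ← hy', e2, e1]
    rcases x with ⟨x1, x2⟩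
    rcases y with ⟨y1, y2⟩
    simp only at e1 e3
    subst e1
    subst e3
    rfl
  have h2 : ∑ x ∈ (Icc 1 M).sigma (fun D => D.divisors), (1 : ℝ) / x.1 =
      ∑ z ∈ ((Icc 1 M).sigma (fun D => D.divisors)).image f, (1 : ℝ) / z.1 * (1 / z.2) := by
    rw [Finset.sum_image hinj]
    refine Finset.sum_congr rfl fun x hx => ?_
    rw [hf]
    have h3 := (hmem x hx).2.1
    have h4 : (x.1 : ℝ) = (x.2 : ℝ) * ((x.1 / x.2 : ℕ) : ℝ) := by
      rw [← Nat.cast_mul, h3]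
    simp only
    rw [div_mul_div_comm, one_mul, ← h4]
  have h3 : ∑ z ∈ ((Icc 1 M).sigma (fun D => D.divisors)).image f, (1 : ℝ) / z.1 * (1 / z.2) ≤
      ∑ z ∈ Icc 1 M ×ˢ Icc 1 M, (1 : ℝ) / z.1 * (1 / z.2) := by
    refine Finset.sum_le_sum_of_subset_of_nonneg ?_ fun z _ _ => by positivity
    intro z hz
    obtain ⟨x, hx, rfl⟩ := Finset.mem_image.1 hz
    obtain ⟨g1, _, g3, g4, g5⟩ := hmem x hx
    rw [hf, Finset.mem_product, Finset.mem_Icc, Finset.mem_Icc]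
    exact ⟨⟨g1, g4⟩, g3, g5⟩
  have h4 : ∑ z ∈ Icc 1 M ×ˢ Icc 1 M, (1 : ℝ) / z.1 * (1 / z.2) =
      (∑ d ∈ Icc 1 M, (1 : ℝ) / d) ^ 2 := by
    rw [Finset.sum_product, sq, Finset.sum_mul_sum]
  have h5 : ∑ d ∈ Icc 1 M, (1 : ℝ) / d ≤ 1 + Real.log M := by
    have h6 := harmonic_le_one_add_log M
    rw [harmonic_eq_sum_Icc] at h6
    push_cast at h6
    simpa only [one_div] using h6
  have h6 : (0 : ℝ) ≤ ∑ d ∈ Icc 1 M, (1 : ℝ) / d := Finset.sum_nonneg fun d _ => by positivity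
  rw [h1, h2]
  exact (h3.trans_eq h4).trans (pow_le_pow_left₀ h6 h5 2)

end Pool.Agent.Lib.MP_1bd11d_co.SG
end
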