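import Pool.Agent.Lib.MP_1bd11d_co.SG.A7
import Pool.Agent.Lib.MP_1bd11d_co.SG.C4

set_option autoImplicit false

open Finset
open scoped Classical

namespace Pool.Agent.Lib.MP_1bd11d_co.SG

/-- `B` has a gap of length `L`. -/
def HasGap {p : ℕ} (B : Finset (ZMod p)) (L : ℕ) : Prop :=
  ∃ x : ZMod p, ∀ i : ℕ, i < L → x + (i : ZMod p) ∉ B

/-- The dilation `n A`. -/
def dilate {p : ℕ} (n : ZMod p) (A : Finset (ZMod p)) : Finset (ZMod p) :=
  A.image (fun x => n * x)

theorem HasGap.mono {p : ℕ} {B : Finset (ZMod p)} {L L' : ℕ} (h : HasGap B L) (hL : L' ≤ L) :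
    HasGap B L' := by
  obtain ⟨x, hx⟩ := h
  exact ⟨x, fun i hi => hx i (lt_of_lt_of_le hi hL)⟩

/-- If all dilates of `A` have a gap of length `L`, then the complement contains a progression of
length `L` with every nonzero difference. -/
theorem exists_base {p : ℕ} [Fact p.Prime] (A : Finset (ZMod p)) (L : ℕ)
    (h : ∀ n : ZMod p, n ≠ 0 → HasGap (dilate n A) L) (d : ZMod p) (hd : d ≠ 0) :
    ∃ x : ZMod p, ∀ j < L, x + (j : ZMod p) * d ∈ Aᶜ := by
  obtain ⟨x, hx⟩ := h d⁻¹ (inv_ne_zero hd)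
  refine ⟨d * x, fun j hj => ?_⟩
  rw [mem_compl]
  intro hmem
  apply hx j hj
  unfold dilate
  refine mem_image.2 ⟨d * x + (j : ZMod p) * d, hmem, ?_⟩
  field_simp

/-- The set of denominators. -/
noncomputable def DD (T i : ℕ) : Finset ℕ := (Ico (2 ^ i) (2 ^ (i + 1))).filter (fun D => Good T D)

/-- The smooth part, chosen from `Good`. -/
noncomputable def bbf (T D : ℕ) : ℕ := if h : Good T D then h.1.choose else 1

/-- The rough part, chosen from `Good`. -/
noncomputable def rrf (T D : ℕ) : ℕ := if h : Good T D then h.1.choose_spec.choose else 1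

theorem bbf_spec (T D : ℕ) (h : Good T D) :
    D = bbf T D * rrf T D ∧ bbf T D ≤ 2 ^ T ∧ Rough (T ^ 10) (bbf T D) ∧ Rough (2 ^ T) (rrf T D) ∧
      Squarefree (rrf T D) := by
  unfold bbf rrf
  rw [dif_pos h, dif_pos h]
  exact h.1.choose_spec.choose_spec

/-- The deterministic inequality behind the theorem. -/
theorem core {p : ℕ} [Fact p.Prime] (A : Finset (ZMod p)) (L : ℕ)
    (h : ∀ n : ZMod p, n ≠ 0 → HasGap (dilate n A) L) (T i : ℕ) (hT : 2 ≤ T)
    (hT10 : T ^ 10 ≤ 2 ^ T) (hL : 8 * 2 ^ i ≤ L) (hsize : 24 * (2 ^ i) ^ 3 * L < p)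
    (B : ℝ) (hB0 : 0 ≤ B)
    (hB : ∀ X : ℕ, p ≤ L * X →
      ((((Icc 1 X).filter (fun n => ∃ r : ℕ, Rough (2 ^ T) r ∧ Squarefree r ∧
        2 ^ i ≤ r * 2 ^ T ∧ r < 2 ^ (i + 1) ∧ r ∣ n)).card : ℕ) : ℝ) ≤ B * X)
    (E₁ : ℝ)
    (hE₁ : ∑ D ∈ DD T i, ∑ D' ∈ (DD T i).filter (fun D' => D' ≠ D ∧ bbf T D' = bbf T D),
        ((Nat.gcd D D' : ℕ) : ℝ) ≤ E₁) :
    ((A.card : ℝ) / p) * ((L : ℝ) / (8 * 2 ^ i)) * ((∑ D ∈ DD T i, (D : ℝ)) / 2) ≤
      √(20 * p * B * (∑ D ∈ DD T i, (D : ℝ) +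
          18 * ((2 : ℝ) ^ i) ^ 2 / (T : ℝ) ^ 5 * (1 + Real.log (2 * 2 ^ i)) + E₁) *
          ((A.card : ℝ) / p)) +
        (∑ D ∈ DD T i, (D : ℝ)) * √(8 * 2 ^ i * p / L) := by
  have hp0 : 0 < p := (Fact.out : p.Prime).pos
  have hpR : (0 : ℝ) < p := by exact_mod_cast hp0
  set N : ℕ := 2 ^ i with hNdef
  have hN : 0 < N := by positivity
  have hNR : ((N : ℕ) : ℝ) = 2 ^ i := by rw [hNdef]; push_cast; rfl
  set H : ℕ := L / (4 * N) with hHdef
  have hH4 : 4 * N * H ≤ L := by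
    rw [hHdef]; exact Nat.mul_div_le L (4 * N)
  have hLlt : L < 4 * N * (H + 1) := by
    rw [hHdef]
    have := Nat.lt_mul_div_succ L (show 0 < 4 * N by positivity)
    simpa using this
  have hH0 : 0 < H := by
    rw [hHdef]
    apply Nat.div_pos _ (by positivity)
    omega
  have hHL : (L : ℝ) / (8 * 2 ^ i) ≤ H := by
    rw [div_le_iff₀ (by positivity)]
    have h1 : L ≤ 8 * N * H := by
      have : 4 * N * (H + 1) ≤ 8 * N * H := by nlinarith
      omega
    have h2 : (L : ℝ) ≤ 8 * N * H := by exact_mod_cast h1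
    rw [hNR] at h2
    nlinarith
  have hsize' : 96 * N ^ 4 * H < p := by
    calc 96 * N ^ 4 * H = 24 * N ^ 3 * (4 * N * H) := by ring
      _ ≤ 24 * N ^ 3 * L := by gcongr
      _ < p := hsize
  have h2H : 2 * H ≤ p := by
    have h1 : 1 ≤ N ^ 4 := Nat.one_le_pow _ _ hN
    nlinarith
  have hDD : ∀ D ∈ DD T i, N ≤ D ∧ D < 2 * N := by
    intro D hD
    unfold DD at hD
    rw [mem_filter, mem_Ico] at hD
    refine ⟨hD.1.1, ?_⟩
    have := hD.1.2
    rw [pow_succ] at this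
    omega
  have hgood : ∀ D ∈ DD T i, Good T D := by
    intro D hD
    unfold DD at hD
    exact (mem_filter.1 hD).2
  have hy1 : 0 < T ^ 10 := by positivity
  have hbr : ∀ D ∈ DD T i, bbf T D * rrf T D = D := fun D hD =>
    (bbf_spec T D (hgood D hD)).1.symm
  have hDpos : ∀ D ∈ DD T i, 0 < D := fun D hD => lt_of_lt_of_le hN (hDD D hD).1
  have hbpos : ∀ D ∈ DD T i, 0 < bbf T D := by
    intro D hD
    rcases Nat.eq_zero_or_pos (bbf T D) with h0 | h0
    · have := hbr D hD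
      rw [h0, zero_mul] at this
      have := hDpos D hD
      omega
    · exact h0
  have hrough : ∀ D ∈ DD T i, Rough (T ^ 10) D := by
    intro D hD l hl hlD
    have hs := bbf_spec T D (hgood D hD)
    rw [hs.1] at hlD
    rcases (Nat.Prime.dvd_mul hl).1 hlD with h1 | h1
    · exact hs.2.2.1 l hl h1
    · exact lt_of_le_of_lt hT10 (hs.2.2.2.1 l hl h1)
  have hbs : ∀ D ∈ DD T i, ∀ l : ℕ, l.Prime → l ∣ bbf T D → l ≤ 2 ^ T := by
    intro D hD l hl hlD
    exact (Nat.le_of_dvd (hbpos D hD) hlD).trans (bbf_spec T D (hgood D hD)).2.1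
  have hrr : ∀ D ∈ DD T i, Rough (2 ^ T) (rrf T D) := fun D hD =>
    (bbf_spec T D (hgood D hD)).2.2.2.1
  have hDp : ∀ D ∈ DD T i, D < p := by
    intro D hD
    have h1 := (hDD D hD).2
    have h2 : N ≤ N ^ 4 := Nat.le_self_pow (by norm_num) N
    nlinarith
  have hDne : ∀ D ∈ DD T i, (D : ZMod p) ≠ 0 := by
    intro D hD h0
    rw [ZMod.natCast_eq_zero_iff] at h0
    exact absurd (Nat.le_of_dvd (hDpos D hD) h0) (not_le.2 (hDp D hD))
  -- base points
  choose bs hbs' using exists_base A L h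
  set base : ZMod p → ℕ → ZMod p := fun m D =>
    if hd : m / (D : ZMod p) ≠ 0 then bs (m / (D : ZMod p)) hd else 0 with hbase
  have hS : ∀ m : ZMod p, m ≠ 0 → ∀ D ∈ DD T i, ∀ j < 2 * H * D,
      base m D + (j : ZMod p) * (m / (D : ZMod p)) ∈ Aᶜ := by
    intro m hm D hD j hj
    have hd : m / (D : ZMod p) ≠ 0 := div_ne_zero hm (hDne D hD)
    rw [hbase]
    simp only [dif_pos hd]
    apply hbs'
    refine lt_of_lt_of_le hj ?_
    have h1 := (hDD D hD).2
    calc 2 * H * D ≤ 2 * H * (2 * N) := by gcongr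
      _ = 4 * N * H := by ring
      _ ≤ L := hH4
  -- weights
  have hII : ∀ m : ZMod p, m ≠ 0 → ∃ W : ℕ → ℕ → Prop,
      (∀ D ∈ DD T i, ∀ j, W D (j + bbf T D) ↔ W D j) ∧
      (∀ D ∈ DD T i, (D : ℝ) * (1 - (D.divisors.card : ℝ) / ((T ^ 10 : ℕ) : ℝ)) ≤
        (((range D).filter (fun r => W D r)).card : ℝ)) ∧
      ∑ x, ‖G1 (DD T i) H (base m) (fun D => m / (D : ZMod p))
          (fun D j => if W D j then 1 else 0) x‖ ^ 2 ≤
        H * (∑ D ∈ DD T i, (D : ℝ) +
          18 * (N : ℝ) ^ 2 / √((T ^ 10 : ℕ) : ℝ) * (1 + Real.log (2 * N)) +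
          ∑ D ∈ DD T i, ∑ D' ∈ (DD T i).filter (fun D' => D' ≠ D ∧ bbf T D' = bbf T D),
            ((Nat.gcd D D' : ℕ) : ℝ)) := by
    intro m hm
    exact partII N H (2 ^ T) (T ^ 10) hsize' hy1 hN (DD T i) hDD hrough (bbf T) (rrf T) hbr hbs hrr
      (base m) (fun D => m / (D : ZMod p)) m hm (fun D hD => by
        field_simp [hDne D hD])
  choose W hW1 hW2 hW3 using hII
  set w : ZMod p → ℕ → ℕ → ℝ := fun m D j =>
    if hm : m ≠ 0 then (if W m hm D j then 1 else 0) else 0 with hw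
  have hw_eq : ∀ m (hm : m ≠ 0), w m = fun D j => if W m hm D j then 1 else 0 := by
    intro m hm
    rw [hw]
    funext D j
    simp only [dif_pos hm]
  have hsqrt : √((T ^ 10 : ℕ) : ℝ) = (T : ℝ) ^ 5 := by
    rw [Nat.cast_pow, show (T : ℝ) ^ 10 = ((T : ℝ) ^ 5) ^ 2 by ring]
    exact Real.sqrt_sq (by positivity)
  set E : ℝ := ∑ D ∈ DD T i, (D : ℝ) +
    18 * ((2 : ℝ) ^ i) ^ 2 / (T : ℝ) ^ 5 * (1 + Real.log (2 * 2 ^ i)) + E₁ with hE
  have hE1nn : 0 ≤ E₁ := by
    refine le_trans ?_ hE₁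
    apply sum_nonneg
    intro D _
    apply sum_nonneg
    intro D' _
    positivity
  have hEnn : 0 ≤ E := by
    rw [hE]
    have h1 : (0 : ℝ) ≤ Real.log (2 * 2 ^ i) := by
      apply Real.log_nonneg
      have : (1 : ℝ) ≤ 2 ^ i := one_le_pow₀ (by norm_num)
      linarith
    have h2 : (0 : ℝ) ≤ ∑ D ∈ DD T i, (D : ℝ) := sum_nonneg fun D _ => by positivity
    positivity
  have hI := partI (p := p) (Aᶜ) H hH0 h2H (DD T i) (bbf T) hDpos hDp
    (fun D hD => ⟨rrf T D, (hbr D hD).symm⟩) base w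
    (by
      intro m D j
      rw [hw]
      simp only
      split_ifs <;> norm_num)
    (by
      intro m D j
      rw [hw]
      simp only
      split_ifs <;> norm_num)
    (by
      intro m hm D hD j
      rw [hw_eq m hm]
      simp only [hW1 m hm D hD j])
    hS B E ((∑ D ∈ DD T i, (D : ℝ)) / 2) hB0 hEnn
    (by
      intro m hm
      rw [hw_eq m hm]
      refine (hW3 m hm).trans ?_
      rw [hE, hsqrt, hNR]
      gcongr)
    (by
      intro m hm
      rw [hw_eq m hm]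
      rw [sum_div]
      apply sum_le_sum
      intro D hD
      have h1 := hW2 m hm D hD
      have h2 : ∑ r ∈ range D, (if W m hm D r then (1 : ℝ) else 0) =
          (((range D).filter (fun r => W m hm D r)).card : ℝ) := by
        rw [sum_boole]
      rw [h2]
      refine le_trans ?_ h1
      have h3 : 2 * D.divisors.card ≤ T ^ 10 := (hgood D hD).2
      have h4 : (2 : ℝ) * D.divisors.card ≤ ((T ^ 10 : ℕ) : ℝ) := by exact_mod_cast h3
      have h5 : (0 : ℝ) < ((T ^ 10 : ℕ) : ℝ) := by exact_mod_cast hy1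
      have h6 : (D.divisors.card : ℝ) / ((T ^ 10 : ℕ) : ℝ) ≤ 1 / 2 := by
        rw [div_le_iff₀ h5]; linarith
      have h7 : (0 : ℝ) ≤ D := by positivity
      nlinarith)
    (by
      intro X hX
      refine le_trans ?_ (hB X ?_)
      · have : ((Icc 1 X).filter (fun n => ∃ D ∈ DD T i, (D / bbf T D) ∣ n)) ⊆
            ((Icc 1 X).filter (fun n => ∃ r : ℕ, Rough (2 ^ T) r ∧ Squarefree r ∧
        N ≤ r * 2 ^ T ∧ r < 2 ^ (i + 1) ∧ r ∣ n)) := by
          intro n hn
          rw [mem_filter] at hn ⊢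
          refine ⟨hn.1, ?_⟩
          obtain ⟨D, hD, hdvd⟩ := hn.2
          have hs := bbf_spec T D (hgood D hD)
          have hq : D / bbf T D = rrf T D :=
            Nat.div_eq_of_eq_mul_right (hbpos D hD) hs.1
          rw [hq] at hdvd
          refine ⟨rrf T D, hs.2.2.2.1, hs.2.2.2.2, ?_, ?_, hdvd⟩
          · have h1 := (hDD D hD).1
            rw [hs.1] at h1
            calc N ≤ bbf T D * rrf T D := h1
              _ ≤ 2 ^ T * rrf T D := Nat.mul_le_mul_right _ hs.2.1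
              _ = rrf T D * 2 ^ T := mul_comm _ _
          · have h1 := (hDD D hD).2
            rw [pow_succ]
            have h2 : rrf T D ≤ D :=
              le_of_le_of_eq (Nat.le_mul_of_pos_left _ (hbpos D hD)) hs.1.symm
            omega
        exact_mod_cast card_le_card this
      · refine hX.trans ?_
        apply Nat.mul_le_mul_right
        have : 2 * H ≤ 4 * N * H := by nlinarith
        omega)
  have hcard : (1 : ℝ) - ((Aᶜ.card : ℕ) : ℝ) / p = (A.card : ℝ) / p := by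
    rw [card_compl, ZMod.card]
    have hle : A.card ≤ p := by
      have := card_le_univ A
      rwa [ZMod.card] at this
    rw [Nat.cast_sub hle]
    field_simp
    ring
  rw [hcard] at hI
  have hW0 : (0 : ℝ) ≤ ∑ D ∈ DD T i, (D : ℝ) := sum_nonneg fun D _ => by positivity
  calc ((A.card : ℝ) / p) * ((L : ℝ) / (8 * 2 ^ i)) * ((∑ D ∈ DD T i, (D : ℝ)) / 2)
      ≤ ((A.card : ℝ) / p) * H * ((∑ D ∈ DD T i, (D : ℝ)) / 2) := by gcongr
    _ ≤ √(20 * p * B * E * ((A.card : ℝ) / p)) +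
        (∑ D ∈ DD T i, (D : ℝ)) * √((p : ℝ) / H) := hI
    _ ≤ _ := by
        have hHpos : (0 : ℝ) < H := by exact_mod_cast hH0
        have hLpos : (0 : ℝ) < L := by
          have : 0 < L := by
            have : 0 < 8 * N := by positivity
            omega
          exact_mod_cast this
        have hfin : (p : ℝ) / H ≤ 8 * 2 ^ i * p / L := by
          rw [div_le_div_iff₀ hHpos hLpos]
          have h8 := hHL
          rw [div_le_iff₀ (by positivity)] at h8
          nlinarith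
        have hs := Real.sqrt_le_sqrt hfin
        have h9 := mul_le_mul_of_nonneg_left hs hW0
        linarith

end Pool.Agent.Lib.MP_1bd11d_co.SG
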