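import Pool.Agent.Lib.MP_1bd11d_co.SG.Defs
import Pool.Agent.Lib.MP_1bd11d_co.SG.C5c
import Pool.Agent.Lib.MP_1bd11d_co.SG.C4
import Pool.Agent.Lib.MP_1bd11d_co.SG.Core

section

set_option autoImplicit false

open Finset
open scoped Classical

namespace Pool.Agent.Lib.MP_1bd11d_co.SG

private theorem c6a_expand (P : Finset ℕ) (n : ℕ) :
    (3 / 2 : ℝ) ^ om P n = ∑ S ∈ P.powerset, ∏ l ∈ S, (if l ∣ n then (1 / 2 : ℝ) else 0) := by
  rw [← Finset.prod_one_add]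
  unfold om
  rw [← Finset.prod_const, Finset.prod_filter]
  refine prod_congr rfl fun l _ => ?_
  by_cases h : l ∣ n
  · rw [if_pos h, if_pos h]; norm_num
  · rw [if_neg h, if_neg h]; norm_num

private theorem c6a_count (S : Finset ℕ) (hS : ∀ l ∈ S, l.Prime) (X : ℕ) :
    ∑ n ∈ Icc 1 X, ∏ l ∈ S, (if l ∣ n then (1 / 2 : ℝ) else 0) ≤
      X * ∏ l ∈ S, (1 / 2) * (1 / (l : ℝ)) := by
  have hpos : 0 < ∏ l ∈ S, l := Finset.prod_pos fun l hl => (hS l hl).pos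
  have h1 : ∀ n : ℕ, ∏ l ∈ S, (if l ∣ n then (1 / 2 : ℝ) else 0) ≤
      if (∏ l ∈ S, l) ∣ n then (1 / 2 : ℝ) ^ S.card else 0 := by
    intro n
    by_cases h : ∀ l ∈ S, l ∣ n
    · have h2 : (∏ l ∈ S, l) ∣ n := Finset.prod_primes_dvd n (fun l hl => (hS l hl).prime) h
      rw [if_pos h2, ← Finset.prod_const]
      refine le_of_eq (prod_congr rfl fun l hl => ?_)
      rw [if_pos (h l hl)]
    · push Not at h
      obtain ⟨l, hl, hln⟩ := h
      rw [Finset.prod_eq_zero hl (if_neg hln)]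
      split_ifs <;> positivity
  have h2 : ((Icc 1 X).filter (fun n => (∏ l ∈ S, l) ∣ n)).card = X / ∏ l ∈ S, l := by
    have := Nat.Ioc_filter_dvd_card_eq_div X (∏ l ∈ S, l)
    rw [← this]
    rfl
  calc ∑ n ∈ Icc 1 X, ∏ l ∈ S, (if l ∣ n then (1 / 2 : ℝ) else 0)
      ≤ ∑ n ∈ Icc 1 X, if (∏ l ∈ S, l) ∣ n then (1 / 2 : ℝ) ^ S.card else 0 :=
        sum_le_sum fun n _ => h1 n
    _ = ((X / ∏ l ∈ S, l : ℕ) : ℝ) * (1 / 2 : ℝ) ^ S.card := by
        rw [← sum_filter, sum_const, nsmul_eq_mul, h2]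
    _ ≤ ((X : ℝ) / ((∏ l ∈ S, l : ℕ) : ℝ)) * (1 / 2 : ℝ) ^ S.card :=
        mul_le_mul_of_nonneg_right Nat.cast_div_le (by positivity)
    _ = X * ∏ l ∈ S, (1 / 2) * (1 / (l : ℝ)) := by
        rw [Finset.prod_mul_distrib, Finset.prod_const]
        push_cast
        rw [Finset.prod_div_distrib, Finset.prod_const_one]
        ring

/-- `(3/2) ^ om P n = ∑_{d ∣ ∏ P, d ∣ n} (1/2) ^ ω(d)` (sum over subsets of `P`), and
`#{n ≤ X : d ∣ n} ≤ X / d`; so the sum is at most `X ∏_{l ∈ P} (1 + 1 / (2 l))`. -/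
theorem om_upper (P : Finset ℕ) (hP : ∀ l ∈ P, l.Prime) (X : ℕ) :
    ∑ n ∈ Icc 1 X, (3 / 2 : ℝ) ^ om P n ≤ X * Real.exp ((1 / 2) * ∑ l ∈ P, 1 / (l : ℝ)) := by
  calc ∑ n ∈ Icc 1 X, (3 / 2 : ℝ) ^ om P n
      = ∑ S ∈ P.powerset, ∑ n ∈ Icc 1 X, ∏ l ∈ S, (if l ∣ n then (1 / 2 : ℝ) else 0) := by
        rw [sum_comm]
        exact sum_congr rfl fun n _ => c6a_expand P n
    _ ≤ ∑ S ∈ P.powerset, (X : ℝ) * ∏ l ∈ S, (1 / 2) * (1 / (l : ℝ)) :=
        sum_le_sum fun S hS => c6a_count S (fun l hl => hP l (mem_powerset.mp hS hl)) X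
    _ = X * ∏ l ∈ P, (1 + (1 / 2) * (1 / (l : ℝ))) := by
        rw [← mul_sum, Finset.prod_one_add]
    _ ≤ X * ∏ l ∈ P, Real.exp ((1 / 2) * (1 / (l : ℝ))) := by
        refine mul_le_mul_of_nonneg_left ?_ (Nat.cast_nonneg X)
        refine Finset.prod_le_prod (fun l _ => by positivity) fun l _ => ?_
        rw [add_comm]
        exact Real.add_one_le_exp _
    _ = X * Real.exp ((1 / 2) * ∑ l ∈ P, 1 / (l : ℝ)) := by
        rw [← Real.exp_sum, ← mul_sum]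

end Pool.Agent.Lib.MP_1bd11d_co.SG
end

section

set_option autoImplicit false

open Finset
open scoped Classical

namespace Pool.Agent.Lib.MP_1bd11d_co.SG

private theorem c5b_pow_le (T : ℕ) (hT : 59 ≤ T) : T ^ 10 ≤ 2 ^ T := by
  induction T, hT using Nat.le_induction with
  | base => norm_num
  | succ n hn ih =>
    have h1 : (15 * (n + 1)) ^ 10 ≤ (16 * n) ^ 10 := Nat.pow_le_pow_left (by omega) 10
    rw [mul_pow, mul_pow] at h1
    have h2 : 16 ^ 10 ≤ 2 * 15 ^ 10 := by norm_num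
    have h3 : 15 ^ 10 * (n + 1) ^ 10 ≤ 15 ^ 10 * (2 * n ^ 10) := by
      calc 15 ^ 10 * (n + 1) ^ 10 ≤ 16 ^ 10 * n ^ 10 := h1
        _ ≤ 2 * 15 ^ 10 * n ^ 10 := Nat.mul_le_mul_right _ h2
        _ = 15 ^ 10 * (2 * n ^ 10) := by ring
    have h4 : (n + 1) ^ 10 ≤ 2 * n ^ 10 := Nat.le_of_mul_le_mul_left h3 (by positivity)
    calc (n + 1) ^ 10 ≤ 2 * n ^ 10 := h4
      _ ≤ 2 * 2 ^ n := Nat.mul_le_mul_left _ ih
      _ = 2 ^ (n + 1) := by ring

/-- `∑_{D ≤ 2 ^ k, Good'} 1 / D ≤ (∑_b 1 / b) (∑_{r ≤ 2 ^ k} 1 / r) ≤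
(SS (2 ^ T) / SS (T ^ 10)) (SS (2 ^ k) / SS (2 ^ T)) = SS (2 ^ k) / SS (T ^ 10)` for `k ≥ T`. -/
theorem good_sum_le : ∃ C : ℝ, 0 < C ∧ ∃ T₀ : ℕ, ∀ T : ℕ, T₀ ≤ T → ∀ k : ℕ, T ≤ k →
    ∑ D ∈ (Icc 1 (2 ^ k)).filter (fun D => Good' T D), 1 / (D : ℝ) ≤
      C * k / SS (T ^ 10) := by
  obtain ⟨C, hC1, hC⟩ := SS_le
  have hl2 : 0 < Real.log 2 := Real.log_pos (by norm_num)
  have hC0 : 0 < C := by linarith
  refine ⟨C * Real.log 2, by positivity, 59, fun T hT k hk => ?_⟩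
  set B := (Icc 1 (2 ^ T)).filter (fun n => Rough (T ^ 10) n) with hB
  set R := (Icc 1 (2 ^ k)).filter (fun n => Rough (2 ^ T) n) with hR
  have hsub : (Icc 1 (2 ^ k)).filter (fun D => Good' T D) ⊆
      (B ×ˢ R).image (fun q => q.1 * q.2) := by
    intro D hD
    rw [mem_filter, mem_Icc] at hD
    obtain ⟨⟨h1, h2⟩, b, r, rfl, hb, hb', hr, -⟩ := hD
    have hb0 : 1 ≤ b := Nat.pos_of_ne_zero (by rintro rfl; simp at h1)
    have hr0 : 1 ≤ r := Nat.pos_of_ne_zero (by rintro rfl; simp at h1)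
    have hrk : r ≤ 2 ^ k := le_trans (Nat.le_mul_of_pos_left r hb0) h2
    rw [mem_image]
    refine ⟨(b, r), ?_, rfl⟩
    rw [mem_product, hB, hR, mem_filter, mem_filter, mem_Icc, mem_Icc]
    exact ⟨⟨⟨hb0, hb⟩, hb'⟩, ⟨hr0, hrk⟩, hr⟩
  have e1 : (∑ b ∈ B, 1 / (b : ℝ)) * ∑ r ∈ R, 1 / (r : ℝ) =
      ∑ q ∈ B ×ˢ R, 1 / ((q.1 * q.2 : ℕ) : ℝ) := by
    rw [sum_mul_sum, ← sum_product']
    refine sum_congr rfl fun q _ => ?_
    push_cast
    rw [one_div_mul_one_div]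
  have e2 : ∑ D ∈ ((B ×ˢ R).image (fun q : ℕ × ℕ => q.1 * q.2) : Finset ℕ), 1 / (D : ℝ) ≤
      ∑ q ∈ B ×ˢ R, 1 / ((q.1 * q.2 : ℕ) : ℝ) := by
    have h := Finset.sum_fiberwise_of_maps_to (s := B ×ˢ R)
      (t := (B ×ˢ R).image (fun q : ℕ × ℕ => q.1 * q.2)) (g := fun q : ℕ × ℕ => q.1 * q.2)
      (fun q hq => mem_image_of_mem _ hq) (fun q : ℕ × ℕ => 1 / ((q.1 * q.2 : ℕ) : ℝ))
    rw [← h]
    refine sum_le_sum fun D hD => ?_
    rw [mem_image] at hD
    obtain ⟨q, hq, rfl⟩ := hD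
    refine (single_le_sum (f := fun q : ℕ × ℕ => 1 / ((q.1 * q.2 : ℕ) : ℝ)) (fun i _ => by positivity)
      (mem_filter.mpr ⟨hq, rfl⟩))
  have s1 := SS_pos (T ^ 10)
  have s2 := SS_pos (2 ^ T)
  have hB1 : ∑ b ∈ B, 1 / (b : ℝ) ≤ SS (2 ^ T) / SS (T ^ 10) :=
    rough_sum_le (T ^ 10) (2 ^ T) (c5b_pow_le T hT)
  have hR1 : ∑ r ∈ R, 1 / (r : ℝ) ≤ SS (2 ^ k) / SS (2 ^ T) :=
    rough_sum_le (2 ^ T) (2 ^ k) (Nat.pow_le_pow_right (by norm_num) hk)
  have hS : SS (2 ^ k) ≤ C * ((k : ℝ) * Real.log 2) := by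
    have h1 := hC (2 ^ k) (by
      calc 2 = 2 ^ 1 := by norm_num
        _ ≤ 2 ^ k := Nat.pow_le_pow_right (by norm_num) (by omega))
    push_cast at h1
    rwa [Real.log_pow] at h1
  calc ∑ D ∈ (Icc 1 (2 ^ k)).filter (fun D => Good' T D), 1 / (D : ℝ)
      ≤ ∑ D ∈ ((B ×ˢ R).image (fun q : ℕ × ℕ => q.1 * q.2) : Finset ℕ), 1 / (D : ℝ) :=
        sum_le_sum_of_subset_of_nonneg hsub fun D _ _ => by positivity
    _ ≤ (∑ b ∈ B, 1 / (b : ℝ)) * ∑ r ∈ R, 1 / (r : ℝ) := by rw [e1]; exact e2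
    _ ≤ SS (2 ^ T) / SS (T ^ 10) * (SS (2 ^ k) / SS (2 ^ T)) :=
        mul_le_mul hB1 hR1 (sum_nonneg fun b _ => by positivity) (by positivity)
    _ = SS (2 ^ k) / SS (T ^ 10) := by field_simp
    _ ≤ C * ((k : ℝ) * Real.log 2) / SS (T ^ 10) := div_le_div_of_nonneg_right hS s1.le
    _ = C * Real.log 2 * k / SS (T ^ 10) := by ring

end Pool.Agent.Lib.MP_1bd11d_co.SG
end

section

set_option autoImplicit false

open Finset
open scoped Classical

namespace Pool.Agent.Lib.MP_1bd11d_co.SG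

/-- Multiples of a squarefree `r` all of whose primes are in `P`: `n = r u`,
`om P n = #(primes of r) + om (P \ primes of r) u`; apply `om_lower` to `P \ r.primeFactors` and
`U = X / r`. -/
theorem om_lower_mult : ∃ C : ℝ, 0 < C ∧ ∀ P : Finset ℕ, (∀ l ∈ P, l.Prime) → ∀ r X : ℕ,
    Squarefree r → 0 < r → (∀ l : ℕ, l.Prime → l ∣ r → l ∈ P) → 2 * r ≤ X →
    (∀ l ∈ P, l ≤ X / r) →
    ∑ n ∈ (Icc 1 X).filter (fun n => r ∣ n), (2 / 3 : ℝ) ^ om P n ≤
      C * X * Real.exp (-(1 / 3) * ∑ l ∈ P, 1 / (l : ℝ)) *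
        ((∏ l ∈ r.primeFactors, (2 / 3 * Real.exp (1 / (3 * (l : ℝ))))) / (r : ℝ)) := by
  obtain ⟨C, hC, hom⟩ := om_lower
  refine ⟨C, hC, ?_⟩
  intro P hP r X hsq hr hrP hX hPX
  have hr0 : (0 : ℝ) < r := by exact_mod_cast hr
  have hsub : r.primeFactors ⊆ P := by
    intro l hl
    rw [Nat.mem_primeFactors] at hl
    exact hrP l hl.1 hl.2.1
  have hsum : ∑ n ∈ (Icc 1 X).filter (fun n => r ∣ n), (2 / 3 : ℝ) ^ om P n =
      ∑ u ∈ Icc 1 (X / r), (2 / 3 : ℝ) ^ om P (r * u) := by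
    symm
    apply Finset.sum_nbij (fun u => r * u)
    · intro u hu
      rw [Finset.mem_Icc] at hu
      rw [Finset.mem_filter, Finset.mem_Icc]
      refine ⟨⟨Nat.mul_pos hr hu.1, ?_⟩, Dvd.intro _ rfl⟩
      exact (Nat.mul_le_mul_left r hu.2).trans (Nat.mul_div_le X r)
    · intro u _ v _ huv
      exact Nat.eq_of_mul_eq_mul_left hr huv
    · intro n hn
      rw [Finset.mem_coe, Finset.mem_filter, Finset.mem_Icc] at hn
      obtain ⟨⟨h1, h2⟩, u, rfl⟩ := hn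
      refine ⟨u, ?_, rfl⟩
      rw [Finset.mem_coe, Finset.mem_Icc]
      refine ⟨Nat.pos_of_ne_zero (by rintro rfl; simp at h1), ?_⟩
      rw [Nat.le_div_iff_mul_le hr, mul_comm]
      exact h2
    · intro u _
      rfl
  have hsplit : ∀ u : ℕ, om P (r * u) = r.primeFactors.card + om (P \ r.primeFactors) u := by
    intro u
    unfold om
    rw [← Finset.card_union_of_disjoint]
    · congr 1
      ext l
      simp only [Finset.mem_filter, Finset.mem_union, Finset.mem_sdiff, Nat.mem_primeFactors]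
      constructor
      · rintro ⟨hl, hd⟩
        by_cases hlr : l ∣ r
        · exact Or.inl ⟨hP l hl, hlr, hr.ne'⟩
        · right
          refine ⟨⟨hl, fun h => hlr h.2.1⟩, ?_⟩
          rcases (hP l hl).dvd_mul.mp hd with h | h
          · exact absurd h hlr
          · exact h
      · rintro (⟨hl, hd, _⟩ | ⟨⟨hl, _⟩, hd⟩)
        · exact ⟨hrP l hl hd, Dvd.dvd.mul_right hd u⟩
        · exact ⟨hl, Dvd.dvd.mul_left hd r⟩
    · rw [Finset.disjoint_left]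
      intro l hl hl2
      rw [Finset.mem_filter, Finset.mem_sdiff] at hl2
      exact hl2.1.2 hl
  have hU : 2 ≤ X / r := by
    rw [Nat.le_div_iff_mul_le hr]; exact hX
  have h1 := hom (P \ r.primeFactors) (fun l hl => hP l (Finset.mem_sdiff.mp hl).1) (X / r) hU
    (fun l hl => hPX l (Finset.mem_sdiff.mp hl).1)
  have hfl : (((X / r : ℕ)) : ℝ) ≤ X / r := Nat.cast_div_le
  have hexp : Real.exp (-(1 / 3) * ∑ l ∈ P \ r.primeFactors, 1 / (l : ℝ)) =
      Real.exp (-(1 / 3) * ∑ l ∈ P, 1 / (l : ℝ)) *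
        ∏ l ∈ r.primeFactors, Real.exp (1 / (3 * (l : ℝ))) := by
    rw [← Real.exp_sum, ← Real.exp_add]
    congr 1
    have h2 := Finset.sum_sdiff (f := fun l : ℕ => 1 / (l : ℝ)) hsub
    have h3 : ∑ l ∈ r.primeFactors, 1 / (3 * (l : ℝ)) =
        (1 / 3) * ∑ l ∈ r.primeFactors, 1 / (l : ℝ) := by
      rw [Finset.mul_sum]
      apply Finset.sum_congr rfl
      intro l _
      rw [one_div_mul_one_div]
    rw [h3, ← h2]
    ring
  have hprod : ∏ l ∈ r.primeFactors, (2 / 3 * Real.exp (1 / (3 * (l : ℝ)))) =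
      (2 / 3 : ℝ) ^ r.primeFactors.card * ∏ l ∈ r.primeFactors, Real.exp (1 / (3 * (l : ℝ))) := by
    rw [Finset.prod_mul_distrib, Finset.prod_const]
  rw [hsum]
  have hE := Real.exp_pos (-(1 / 3) * ∑ l ∈ P \ r.primeFactors, 1 / (l : ℝ))
  calc ∑ u ∈ Icc 1 (X / r), (2 / 3 : ℝ) ^ om P (r * u)
      = (2 / 3 : ℝ) ^ r.primeFactors.card *
          ∑ u ∈ Icc 1 (X / r), (2 / 3 : ℝ) ^ om (P \ r.primeFactors) u := by
        rw [Finset.mul_sum]
        apply Finset.sum_congr rfl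
        intro u _
        rw [hsplit u, pow_add]
    _ ≤ (2 / 3 : ℝ) ^ r.primeFactors.card * (C * ((X / r : ℕ) : ℝ) *
          Real.exp (-(1 / 3) * ∑ l ∈ P \ r.primeFactors, 1 / (l : ℝ))) := by
        apply mul_le_mul_of_nonneg_left h1; positivity
    _ ≤ (2 / 3 : ℝ) ^ r.primeFactors.card * (C * ((X : ℝ) / r) *
          Real.exp (-(1 / 3) * ∑ l ∈ P \ r.primeFactors, 1 / (l : ℝ))) := by
        apply mul_le_mul_of_nonneg_left _ (by positivity)
        apply mul_le_mul_of_nonneg_right _ hE.le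
        exact mul_le_mul_of_nonneg_left hfl hC.le
    _ = C * X * Real.exp (-(1 / 3) * ∑ l ∈ P, 1 / (l : ℝ)) *
        ((∏ l ∈ r.primeFactors, (2 / 3 * Real.exp (1 / (3 * (l : ℝ))))) / (r : ℝ)) := by
        rw [hexp, hprod]
        ring

end Pool.Agent.Lib.MP_1bd11d_co.SG
end

section

set_option autoImplicit false

open Finset
open scoped Classical

namespace Pool.Agent.Lib.MP_1bd11d_co.SG

theorem cs_split (T k : ℕ) (hT : 1 ≤ T) :
    ∑ D ∈ (Icc 1 (2 ^ (T ^ 2))).filter (fun D => Good' T D), 1 / (D : ℝ) ≤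
      ∑ D ∈ (Icc 1 (2 ^ k)).filter (fun D => Good' T D), 1 / (D : ℝ) +
      ∑ D ∈ (Ioc (2 ^ k) (2 ^ (T ^ 2))).filter (fun D => Good T D), 1 / (D : ℝ) +
      ∑ D ∈ Icc 1 (2 ^ (T ^ 2) : ℕ), (2 / (T : ℝ) ^ 10) * ((D.divisors.card : ℝ) / D) := by
  have hf : ∀ D : ℕ, (0 : ℝ) ≤ 1 / (D : ℝ) := fun D => by positivity
  have e1 : ∑ D ∈ (Icc 1 (2 ^ (T ^ 2))).filter (fun D => D ≤ 2 ^ k ∧ Good' T D), 1 / (D : ℝ) ≤
      ∑ D ∈ (Icc 1 (2 ^ k)).filter (fun D => Good' T D), 1 / (D : ℝ) := by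
    apply Finset.sum_le_sum_of_subset_of_nonneg
    · intro D hD
      simp only [mem_filter, mem_Icc] at hD ⊢
      exact ⟨⟨hD.1.1, hD.2.1⟩, hD.2.2⟩
    · intro D _ _; exact hf D
  have e2 : ∑ D ∈ (Icc 1 (2 ^ (T ^ 2))).filter (fun D => 2 ^ k < D ∧ Good T D), 1 / (D : ℝ) ≤
      ∑ D ∈ (Ioc (2 ^ k) (2 ^ (T ^ 2))).filter (fun D => Good T D), 1 / (D : ℝ) := by
    apply Finset.sum_le_sum_of_subset_of_nonneg
    · intro D hD
      simp only [mem_filter, mem_Icc, mem_Ioc] at hD ⊢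
      exact ⟨⟨hD.2.1, hD.1.2⟩, hD.2.2⟩
    · intro D _ _; exact hf D
  refine le_trans ?_ (add_le_add (add_le_add e1 e2) le_rfl)
  rw [Finset.sum_filter, Finset.sum_filter, Finset.sum_filter, ← Finset.sum_add_distrib,
    ← Finset.sum_add_distrib]
  apply Finset.sum_le_sum
  intro D hD
  have hT0 : (0 : ℝ) < T := by exact_mod_cast hT
  have hD1 : 1 ≤ D := (mem_Icc.1 hD).1
  have hD0 : (0 : ℝ) < D := by exact_mod_cast hD1
  have h3 : (0 : ℝ) ≤ (2 / (T : ℝ) ^ 10) * ((D.divisors.card : ℝ) / D) := by positivity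
  by_cases hG : Good' T D
  · rw [if_pos hG]
    by_cases hk : D ≤ 2 ^ k
    · rw [if_pos ⟨hk, hG⟩, if_neg (fun h => absurd h.1 (not_lt.2 hk))]
      linarith
    · rw [if_neg (fun h => hk h.1)]
      by_cases hτ : 2 * D.divisors.card ≤ T ^ 10
      · rw [if_pos ⟨not_le.1 hk, hG, hτ⟩]
        linarith
      · rw [if_neg (fun h => hτ h.2.2)]
        have h4 : (T : ℝ) ^ 10 < 2 * (D.divisors.card : ℝ) := by
          have := not_le.1 hτ
          exact_mod_cast this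
        have h5 : 1 / (D : ℝ) ≤ (2 / (T : ℝ) ^ 10) * ((D.divisors.card : ℝ) / D) := by
          rw [div_mul_div_comm, div_le_div_iff₀ hD0 (by positivity)]
          nlinarith [mul_pos hD0 (sub_pos.2 h4)]
        linarith
  · rw [if_neg hG]
    have h1 : (0 : ℝ) ≤ (if D ≤ 2 ^ k ∧ Good' T D then 1 / (D : ℝ) else 0) := by
      split_ifs
      · exact hf D
      · exact le_rfl
    have h2 : (0 : ℝ) ≤ (if 2 ^ k < D ∧ Good T D then 1 / (D : ℝ) else 0) := by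
      split_ifs
      · exact hf D
      · exact le_rfl
    linarith

theorem cs_pigeon (T k : ℕ) (x : ℝ) (hx : 0 ≤ x)
    (h : ∀ i : ℕ, k ≤ i → i ≤ T ^ 2 →
      ((((Ico (2 ^ i) (2 ^ (i + 1))).filter (fun D => Good T D)).card : ℕ) : ℝ) ≤
        x * (2 : ℝ) ^ i) :
    ∑ D ∈ (Ioc (2 ^ k) (2 ^ (T ^ 2))).filter (fun D => Good T D), 1 / (D : ℝ) ≤
      ((T : ℝ) ^ 2 + 1) * x := by
  have hmaps : ∀ D ∈ (Ioc (2 ^ k) (2 ^ (T ^ 2))).filter (fun D => Good T D),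
      Nat.log 2 D ∈ Icc k (T ^ 2) := by
    intro D hD
    simp only [mem_filter, mem_Ioc] at hD
    rw [mem_Icc]
    constructor
    · apply Nat.le_log_of_pow_le (by norm_num) hD.1.1.le
    · have h1 : Nat.log 2 D ≤ Nat.log 2 (2 ^ (T ^ 2)) := Nat.log_mono_right hD.1.2
      rwa [Nat.log_pow (by norm_num)] at h1
  rw [← Finset.sum_fiberwise_of_maps_to hmaps]
  have h1 : ∀ i ∈ Icc k (T ^ 2),
      ∑ D ∈ ((Ioc (2 ^ k) (2 ^ (T ^ 2))).filter (fun D => Good T D)).filter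
        (fun D => Nat.log 2 D = i), 1 / (D : ℝ) ≤ x := by
    intro i hi
    rw [mem_Icc] at hi
    have h2 : ∑ D ∈ ((Ioc (2 ^ k) (2 ^ (T ^ 2))).filter (fun D => Good T D)).filter
        (fun D => Nat.log 2 D = i), 1 / (D : ℝ) ≤
        ∑ D ∈ (Ico (2 ^ i) (2 ^ (i + 1))).filter (fun D => Good T D), 1 / ((2 : ℝ) ^ i) := by
      refine le_trans (Finset.sum_le_sum_of_subset_of_nonneg
        (t := (Ico (2 ^ i) (2 ^ (i + 1))).filter (fun D => Good T D)) ?_ ?_) ?_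
      · intro D hD
        simp only [mem_filter, mem_Ioc, mem_Ico] at hD ⊢
        obtain ⟨⟨⟨h3, h4⟩, h5⟩, h6⟩ := hD
        have hD0 : D ≠ 0 := by
          have : 0 < 2 ^ k := by positivity
          omega
        refine ⟨⟨?_, ?_⟩, h5⟩
        · rw [← h6]; exact Nat.pow_log_le_self 2 hD0
        · rw [← h6]; exact Nat.lt_pow_succ_log_self (by norm_num) D
      · intro D _ _; positivity
      · apply Finset.sum_le_sum
        intro D hD
        simp only [mem_filter, mem_Ico] at hD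
        have h3 : ((2 : ℝ) ^ i) ≤ D := by exact_mod_cast hD.1.1
        exact one_div_le_one_div_of_le (by positivity) h3
    refine le_trans h2 ?_
    rw [Finset.sum_const, nsmul_eq_mul, mul_one_div, div_le_iff₀ (by positivity)]
    exact h i hi.1 hi.2
  refine le_trans (Finset.sum_le_sum h1) ?_
  rw [Finset.sum_const, nsmul_eq_mul]
  apply mul_le_mul_of_nonneg_right _ hx
  rw [Nat.card_Icc]
  have : T ^ 2 + 1 - k ≤ T ^ 2 + 1 := Nat.sub_le _ _
  exact_mod_cast this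

/-- Choice of the scale.  With the constants `c` of `good_sum_ge` and `C` of `good_sum_le` take
`η = c / (2 C)` (or smaller) and `k = ⌊η T²⌋`: the good' numbers in `(2 ^ k, 2 ^ (T²)]` have
`∑ 1 / D ≥ (c / 2) T² / SS (T ^ 10)`.  Those with `2 τ(D) > T ^ 10` have
`∑ 1 / D ≤ (2 / T ^ 10) (1 + log 2 ^ (T²))²`, negligible (`SS (T ^ 10) ≤ C log (T ^ 10)`).  By the
pigeonhole principle over the dyadic intervals `[2 ^ i, 2 ^ (i + 1))`, `k ≤ i ≤ T²`, some `i` has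
`∑_{D ∈ [2 ^ i, 2 ^ (i+1)), Good} 1 / D ≥ c' / SS (T ^ 10) ≥ c'' / log T`. -/
theorem choose_scale : ∃ c η : ℝ, 0 < c ∧ 0 < η ∧ ∃ T₀ : ℕ, ∀ T : ℕ, T₀ ≤ T → ∃ i : ℕ,
    η * (T : ℝ) ^ 2 ≤ i ∧ i ≤ T ^ 2 ∧
      c * (2 : ℝ) ^ i / Real.log T ≤
        ((((Ico (2 ^ i) (2 ^ (i + 1))).filter (fun D => Good T D)).card : ℕ) : ℝ) := by
  obtain ⟨c1, hc1, T1, h1⟩ := good_sum_ge
  obtain ⟨C2, hC2, T2, h2⟩ := good_sum_le
  obtain ⟨C3, hC3, h3⟩ := SS_le
  have hC30 : 0 < C3 := by linarith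
  obtain ⟨η0, hη0⟩ : ∃ η0 : ℝ, η0 = min (c1 / (4 * C2)) (1 / 2) := ⟨_, rfl⟩
  have hη0pos : 0 < η0 := by
    rw [hη0]; exact lt_min (by positivity) (by norm_num)
  have hη0a : η0 ≤ c1 / (4 * C2) := by rw [hη0]; exact min_le_left _ _
  have hη0b : η0 ≤ 1 / 2 := by rw [hη0]; exact min_le_right _ _
  have hη0c : C2 * η0 ≤ c1 / 4 := by
    have := (le_div_iff₀ (by positivity : (0 : ℝ) < 4 * C2)).1 hη0a
    linarith
  refine ⟨c1 / (40 * C3), η0 / 2, by positivity, by positivity,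
    max (max T1 T2) (max (⌈8 / η0⌉₊ + 2) (⌈320 * C3 / c1⌉₊ + 2)), ?_⟩
  intro T hT
  have hTT1 : T1 ≤ T := le_trans (le_trans (le_max_left _ _) (le_max_left _ _)) hT
  have hTT2 : T2 ≤ T := le_trans (le_trans (le_max_right _ _) (le_max_left _ _)) hT
  have hTa : ⌈8 / η0⌉₊ + 2 ≤ T := le_trans (le_trans (le_max_left _ _) (le_max_right _ _)) hT
  have hTb : ⌈320 * C3 / c1⌉₊ + 2 ≤ T :=
    le_trans (le_trans (le_max_right _ _) (le_max_right _ _)) hT
  have hT2 : 2 ≤ T := by omega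
  have hT2r : (2 : ℝ) ≤ T := by exact_mod_cast hT2
  have hTη : 8 / η0 ≤ T := by
    refine le_trans (Nat.le_ceil _) ?_
    exact_mod_cast (by omega : ⌈8 / η0⌉₊ ≤ T)
  have hTc : 320 * C3 / c1 ≤ T := by
    refine le_trans (Nat.le_ceil _) ?_
    exact_mod_cast (by omega : ⌈320 * C3 / c1⌉₊ ≤ T)
  have hηT : 8 ≤ η0 * T := by
    have := (div_le_iff₀ hη0pos).1 hTη
    linarith
  have hcT : 320 * C3 ≤ c1 * T := by
    have := (div_le_iff₀ hc1).1 hTc
    linarith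
  have hηT2 : 8 * (T : ℝ) ≤ η0 * (T : ℝ) ^ 2 := by nlinarith
  obtain ⟨k, hk⟩ : ∃ k : ℕ, k = ⌊η0 * (T : ℝ) ^ 2⌋₊ := ⟨_, rfl⟩
  have hk1 : (k : ℝ) ≤ η0 * (T : ℝ) ^ 2 := by
    rw [hk]; exact Nat.floor_le (by positivity)
  have hk2 : η0 * (T : ℝ) ^ 2 < k + 1 := by
    rw [hk]; exact Nat.lt_floor_add_one _
  have hTk : T ≤ k := by
    have : (T : ℝ) < (k : ℝ) + 1 := by linarith
    have h' : T < k + 1 := by exact_mod_cast this
    omega
  have hkη : η0 / 2 * (T : ℝ) ^ 2 ≤ k := by linarith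
  have hlogT : 0 < Real.log T := Real.log_pos (by linarith)
  have hlogT2 : Real.log T ≤ T := by
    have := Real.log_le_sub_one_of_pos (show (0 : ℝ) < T by linarith)
    linarith
  obtain ⟨S, hS⟩ : ∃ S : ℝ, S = SS (T ^ 10) := ⟨_, rfl⟩
  have hSpos : 0 < S := by rw [hS]; exact SS_pos _
  have hSle : S ≤ 10 * C3 * Real.log T := by
    rw [hS]
    have h4 : 2 ≤ T ^ 10 := le_trans hT2 (Nat.le_self_pow (by norm_num) T)
    have h5 := h3 (T ^ 10) h4
    rw [Nat.cast_pow, Real.log_pow] at h5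
    push_cast at h5
    linarith
  by_contra hcon
  push Not at hcon
  have hp := cs_pigeon T k (c1 / (40 * C3) / Real.log T) (by positivity) (by
    intro i hi1 hi2
    have h4 := hcon i (by
      have : (k : ℝ) ≤ i := by exact_mod_cast hi1
      linarith) hi2
    refine le_trans h4.le (le_of_eq ?_)
    ring)
  have hA := h1 T hTT1
  have hB := h2 T hTT2 k hTk
  have hsplit := cs_split T k (by omega)
  have hτ := sum_tau_div_le (2 ^ (T ^ 2)) Nat.one_le_two_pow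
  rw [← Finset.mul_sum] at hsplit
  rw [← hS] at hA hB
  have hlog : Real.log ((2 ^ (T ^ 2) : ℕ) : ℝ) ≤ (T : ℝ) ^ 2 := by
    rw [Nat.cast_pow, Real.log_pow]
    push_cast
    have : Real.log 2 ≤ 1 := by
      have := Real.log_two_lt_d9
      linarith
    have hT20 : (0 : ℝ) ≤ (T : ℝ) ^ 2 := by positivity
    nlinarith
  have hlog0 : 0 ≤ Real.log ((2 ^ (T ^ 2) : ℕ) : ℝ) := Real.log_natCast_nonneg _
  have hTpos : (0 : ℝ) < T := by linarith
  have hτ2 : ∑ D ∈ Icc 1 (2 ^ (T ^ 2) : ℕ), (D.divisors.card : ℝ) / D ≤ 4 * (T : ℝ) ^ 4 := by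
    refine le_trans hτ ?_
    have h5 : 1 + Real.log ((2 ^ (T ^ 2) : ℕ) : ℝ) ≤ 2 * (T : ℝ) ^ 2 := by nlinarith
    calc (1 + Real.log ((2 ^ (T ^ 2) : ℕ) : ℝ)) ^ 2 ≤ (2 * (T : ℝ) ^ 2) ^ 2 := by
          apply pow_le_pow_left₀ (by linarith) h5
      _ = 4 * (T : ℝ) ^ 4 := by ring
  have hτ3 : 2 / (T : ℝ) ^ 10 * ∑ D ∈ Icc 1 (2 ^ (T ^ 2) : ℕ), (D.divisors.card : ℝ) / D ≤
      8 / (T : ℝ) ^ 6 := by
    calc 2 / (T : ℝ) ^ 10 * ∑ D ∈ Icc 1 (2 ^ (T ^ 2) : ℕ), (D.divisors.card : ℝ) / D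
        ≤ 2 / (T : ℝ) ^ 10 * (4 * (T : ℝ) ^ 4) := by
          apply mul_le_mul_of_nonneg_left hτ2 (by positivity)
      _ = 8 / (T : ℝ) ^ 6 := by field_simp; norm_num
  -- lower bounds in terms of `T ^ 2 / log T`
  have hmain : (3 / 4) * c1 * (T : ℝ) ^ 2 / S ≤ c1 * (T : ℝ) ^ 2 / S - C2 * k / S := by
    rw [← sub_div]
    apply div_le_div_of_nonneg_right _ hSpos.le
    have : C2 * (k : ℝ) ≤ C2 * (η0 * (T : ℝ) ^ 2) := mul_le_mul_of_nonneg_left hk1 hC2.le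
    have h7 : C2 * η0 * (T : ℝ) ^ 2 ≤ c1 / 4 * (T : ℝ) ^ 2 :=
      mul_le_mul_of_nonneg_right hη0c (by positivity)
    nlinarith
  have hS2 : (3 / 4) * c1 * (T : ℝ) ^ 2 / (10 * C3 * Real.log T) ≤
      (3 / 4) * c1 * (T : ℝ) ^ 2 / S :=
    div_le_div_of_nonneg_left (by positivity) hSpos hSle
  have hx : c1 / (40 * C3) / Real.log T = c1 / (40 * C3 * Real.log T) := by
    rw [div_div]
  obtain ⟨X, hX⟩ : ∃ X : ℝ, X = c1 / (40 * C3 * Real.log T) := ⟨_, rfl⟩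
  have hXpos : 0 < X := by rw [hX]; positivity
  have hS3 : (3 / 4) * c1 * (T : ℝ) ^ 2 / (10 * C3 * Real.log T) = 3 * (T : ℝ) ^ 2 * X := by
    rw [hX]; field_simp; norm_num
  rw [hx, ← hX] at hp
  -- the error
  have herr : 8 / (T : ℝ) ^ 6 ≤ X * (T : ℝ) ^ 2 / 2 := by
    have h8 : (1 : ℝ) / T * (c1 / (40 * C3)) ≤ X := by
      rw [hX]
      rw [div_mul_div_comm, one_mul]
      apply div_le_div_of_nonneg_left hc1.le (by positivity)
      have : 40 * C3 * Real.log T ≤ 40 * C3 * T := mul_le_mul_of_nonneg_left hlogT2 (by positivity)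
      linarith
    have h9 : (8 : ℝ) / T ≤ c1 / (40 * C3) := by
      rw [div_le_div_iff₀ hTpos (by positivity)]
      linarith
    have h10 : (8 : ℝ) / T ^ 2 ≤ X := by
      refine le_trans ?_ h8
      calc (8 : ℝ) / T ^ 2 = 1 / T * (8 / T) := by field_simp
        _ ≤ 1 / T * (c1 / (40 * C3)) := mul_le_mul_of_nonneg_left h9 (by positivity)
    have h11 : (8 : ℝ) / (T : ℝ) ^ 6 ≤ 8 / (T : ℝ) ^ 2 * ((T : ℝ) ^ 2 / 2) := by
      rw [show (8 : ℝ) / (T : ℝ) ^ 2 * ((T : ℝ) ^ 2 / 2) = 4 by field_simp; norm_num]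
      rw [div_le_iff₀ (by positivity)]
      have : (2 : ℝ) ^ 6 ≤ (T : ℝ) ^ 6 := pow_le_pow_left₀ (by norm_num) hT2r 6
      nlinarith
    calc 8 / (T : ℝ) ^ 6 ≤ 8 / (T : ℝ) ^ 2 * ((T : ℝ) ^ 2 / 2) := h11
      _ ≤ X * ((T : ℝ) ^ 2 / 2) := mul_le_mul_of_nonneg_right h10 (by positivity)
      _ = X * (T : ℝ) ^ 2 / 2 := by ring
  have hT4 : (4 : ℝ) ≤ (T : ℝ) ^ 2 := by nlinarith
  have hfin : 3 * (T : ℝ) ^ 2 * X ≤ ((T : ℝ) ^ 2 + 1) * X + X * (T : ℝ) ^ 2 / 2 := by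
    linarith
  nlinarith [mul_pos hXpos (show (0 : ℝ) < (T : ℝ) ^ 2 by positivity)]

end Pool.Agent.Lib.MP_1bd11d_co.SG
end

section

set_option autoImplicit false

open Finset
open scoped Classical

namespace Pool.Agent.Lib.MP_1bd11d_co.SG

/-- The first part: the integers with many prime factors in `PT T`. -/
theorem wd_first (T X : ℕ) (S : Finset ℕ) (hS : S ⊆ Icc 1 X) (L : ℝ)
    (hL : L = ∑ l ∈ PT T, 1 / (l : ℝ)) :
    (((S.filter (fun n => Real.exp ((7 / 12) * L) ≤ (3 / 2 : ℝ) ^ om (PT T) n)).card : ℕ) : ℝ) ≤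
      Real.exp (-(1 / 12) * L) * X := by
  have hP : ∀ l ∈ PT T, l.Prime := by
    intro l hl
    simp only [PT, mem_filter] at hl
    exact hl.2.1
  have h1 := om_upper (PT T) hP X
  rw [← hL] at h1
  have h2 : (((S.filter (fun n => Real.exp ((7 / 12) * L) ≤ (3 / 2 : ℝ) ^ om (PT T) n)).card : ℕ) : ℝ)
      * Real.exp ((7 / 12) * L) ≤ ∑ n ∈ Icc 1 X, (3 / 2 : ℝ) ^ om (PT T) n := by
    calc _ = ∑ n ∈ S.filter (fun n => Real.exp ((7 / 12) * L) ≤ (3 / 2 : ℝ) ^ om (PT T) n),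
          Real.exp ((7 / 12) * L) := by rw [sum_const, nsmul_eq_mul]
      _ ≤ ∑ n ∈ S.filter (fun n => Real.exp ((7 / 12) * L) ≤ (3 / 2 : ℝ) ^ om (PT T) n),
          (3 / 2 : ℝ) ^ om (PT T) n := by
        apply sum_le_sum
        intro n hn
        exact (mem_filter.mp hn).2
      _ ≤ _ := by
        apply sum_le_sum_of_subset_of_nonneg
        · intro n hn
          exact hS (mem_filter.mp hn).1
        · intro n _ _
          positivity
  have h3 := h2.trans h1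
  have h4 : Real.exp ((7 / 12) * L) * Real.exp (-(1 / 12) * L) = Real.exp ((1 / 2) * L) := by
    rw [← Real.exp_add]
    congr 1
    ring
  have h5 : 0 < Real.exp ((7 / 12) * L) := Real.exp_pos _
  rw [← h4] at h3
  have h6 : (((S.filter (fun n => Real.exp ((7 / 12) * L) ≤ (3 / 2 : ℝ) ^ om (PT T) n)).card : ℕ) : ℝ)
      * Real.exp ((7 / 12) * L) ≤ (Real.exp (-(1 / 12) * L) * X) * Real.exp ((7 / 12) * L) := by
    calc _ ≤ _ := h3
      _ = _ := by ring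
  exact le_of_mul_le_mul_right h6 h5

/-- The sum over a union is at most the sum of the sums. -/
theorem wd_sum_biUnion_le (W : Finset ℕ) (A : ℕ → Finset ℕ) (f : ℕ → ℝ) (hf : ∀ n, 0 ≤ f n) :
    ∑ n ∈ W.biUnion A, f n ≤ ∑ r ∈ W, ∑ n ∈ A r, f n := by
  induction W using Finset.induction_on with
  | empty => simp
  | insert a s ha ih =>
    rw [biUnion_insert, sum_insert ha]
    have h1 : ∑ n ∈ A a ∪ s.biUnion A, f n + ∑ n ∈ A a ∩ s.biUnion A, f n =
        ∑ n ∈ A a, f n + ∑ n ∈ s.biUnion A, f n := sum_union_inter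
    have h2 : 0 ≤ ∑ n ∈ A a ∩ s.biUnion A, f n := sum_nonneg (fun n _ => hf n)
    linarith

/-- The second part: the integers with few prime factors in `PT T`. -/
theorem wd_second : ∃ C : ℝ, 0 < C ∧ ∀ T i X : ℕ, 1 ≤ T → T + 1 ≤ i → i ≤ T ^ 2 →
    2 ^ (10 * T ^ 2) ≤ X → ∀ L : ℝ, L = ∑ l ∈ PT T, 1 / (l : ℝ) →
    ∀ S : Finset ℕ, S ⊆ (Icc 1 X).filter (fun n => ∃ r : ℕ, Rough (2 ^ T) r ∧ Squarefree r ∧
        2 ^ i ≤ r * 2 ^ T ∧ r < 2 ^ (i + 1) ∧ r ∣ n) →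
    (((S.filter (fun n => ¬ Real.exp ((7 / 12) * L) ≤ (3 / 2 : ℝ) ^ om (PT T) n)).card : ℕ) : ℝ) ≤
      C * X * Real.exp ((11 / 12) * L) * ((T + 2) / ((i - T : ℕ) * Real.log 2)) := by
  obtain ⟨C₁, hC₁, h1⟩ := om_lower_mult
  obtain ⟨C₂, hC₂, h2⟩ := window_sum
  refine ⟨C₁ * C₂, by positivity, ?_⟩
  intro T i X hT hi hi2 hX L hL S hS
  have hP : ∀ l ∈ PT T, l.Prime := by
    intro l hl
    simp only [PT, mem_filter] at hl
    exact hl.2.1
  set W : Finset ℕ := (Icc (2 ^ (i - T)) (2 ^ (i + 1))).filter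
    (fun r => Rough (2 ^ T) r ∧ Squarefree r) with hW
  set B : Finset ℕ := S.filter (fun n => ¬ Real.exp ((7 / 12) * L) ≤ (3 / 2 : ℝ) ^ om (PT T) n)
    with hB
  have hL2 : (1 : ℝ) ≤ 1 := le_refl _
  have hTi : i - T + T = i := by omega
  have hT2 : 1 ≤ T ^ 2 := Nat.one_le_pow _ _ hT
  -- members of `W`
  have hWr : ∀ r ∈ W, ∑ n ∈ (Icc 1 X).filter (fun n => r ∣ n), (2 / 3 : ℝ) ^ om (PT T) n ≤
      C₁ * X * Real.exp (-(1 / 3) * L) *
        ((∏ l ∈ r.primeFactors, (2 / 3 * Real.exp (1 / (3 * (l : ℝ))))) / (r : ℝ)) := by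
    intro r hr
    rw [hW, mem_filter, mem_Icc] at hr
    obtain ⟨⟨hr1, hr2⟩, hr3, hr4⟩ := hr
    have hr0 : 0 < r := Nat.pos_of_ne_zero hr4.ne_zero
    have hr5 : r ≤ 2 ^ (T ^ 2 + 1) := hr2.trans (Nat.pow_le_pow_right (by norm_num) (by omega))
    have hkey : 2 ^ (T ^ 2 + 1) * 2 ^ (T ^ 2 + 1) ≤ X := by
      rw [← pow_add]
      refine (Nat.pow_le_pow_right (by norm_num) ?_).trans hX
      omega
    rw [hL]
    apply h1 (PT T) hP r X hr4 hr0
    · intro l hl hlr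
      simp only [PT, mem_filter, mem_Icc]
      exact ⟨⟨hl.one_lt.le, (Nat.le_of_dvd hr0 hlr).trans hr5⟩, hl, hr3 l hl hlr⟩
    · have h2le : 2 ≤ 2 ^ (T ^ 2 + 1) := by
        calc 2 = 2 ^ 1 := by norm_num
          _ ≤ _ := Nat.pow_le_pow_right (by norm_num) (by omega)
      calc 2 * r ≤ 2 ^ (T ^ 2 + 1) * 2 ^ (T ^ 2 + 1) := Nat.mul_le_mul h2le hr5
        _ ≤ X := hkey
    · intro l hl
      simp only [PT, mem_filter, mem_Icc] at hl
      rw [Nat.le_div_iff_mul_le hr0]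
      calc l * r ≤ 2 ^ (T ^ 2 + 1) * 2 ^ (T ^ 2 + 1) := Nat.mul_le_mul hl.1.2 hr5
        _ ≤ X := hkey
  -- the sum over `B`
  have hB1 : ∑ n ∈ B, (2 / 3 : ℝ) ^ om (PT T) n ≤
      ∑ r ∈ W, ∑ n ∈ (Icc 1 X).filter (fun n => r ∣ n), (2 / 3 : ℝ) ^ om (PT T) n := by
    calc ∑ n ∈ B, (2 / 3 : ℝ) ^ om (PT T) n
        ≤ ∑ n ∈ W.biUnion (fun r => (Icc 1 X).filter (fun n => r ∣ n)),
          (2 / 3 : ℝ) ^ om (PT T) n := by
          apply sum_le_sum_of_subset_of_nonneg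
          · intro n hn
            rw [hB, mem_filter] at hn
            have hn1 := hS hn.1
            rw [mem_filter] at hn1
            obtain ⟨hn2, r, hr1, hr2, hr3, hr4, hr5⟩ := hn1
            rw [mem_biUnion]
            refine ⟨r, ?_, ?_⟩
            · rw [hW, mem_filter, mem_Icc]
              refine ⟨⟨?_, hr4.le⟩, hr1, hr2⟩
              have : 2 ^ (i - T) * 2 ^ T ≤ r * 2 ^ T := by
                rw [← pow_add, hTi]
                exact hr3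
              exact Nat.le_of_mul_le_mul_right this (by positivity)
            · rw [mem_filter]
              exact ⟨hn2, hr5⟩
          · intro n _ _
            positivity
      _ ≤ _ := by
          apply wd_sum_biUnion_le
          intro n
          positivity
  have hB2 : ∑ n ∈ B, (2 / 3 : ℝ) ^ om (PT T) n ≤ C₁ * X * Real.exp (-(1 / 3) * L) *
      ∑ r ∈ W, ((∏ l ∈ r.primeFactors, (2 / 3 * Real.exp (1 / (3 * (l : ℝ))))) / (r : ℝ)) := by
    refine hB1.trans ?_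
    rw [mul_sum]
    exact sum_le_sum hWr
  -- the window sum
  have hN1 : 2 ≤ 2 ^ (i - T) := by
    calc 2 = 2 ^ 1 := by norm_num
      _ ≤ 2 ^ (i - T) := Nat.pow_le_pow_right (by norm_num) (by omega)
  have hN2 : 2 ^ (i - T) ≤ 2 ^ (i + 1) := Nat.pow_le_pow_right (by norm_num) (by omega)
  have h3 := h2 (2 ^ T) (2 ^ (i - T)) (2 ^ (i + 1)) hN1 hN2
  rw [← hW] at h3
  have hlog2 : 0 < Real.log 2 := Real.log_pos (by norm_num)
  have hlog2' : Real.log 2 ≤ 1 := by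
    have := Real.log_two_lt_d9
    linarith
  have hratio : Real.log (((2 ^ (i + 1) : ℕ) : ℝ) / ((2 ^ (i - T) : ℕ) : ℝ)) =
      ((T : ℝ) + 1) * Real.log 2 := by
    have : ((2 ^ (i + 1) : ℕ) : ℝ) / ((2 ^ (i - T) : ℕ) : ℝ) = (2 : ℝ) ^ (T + 1) := by
      push_cast
      rw [div_eq_iff (by positivity), ← pow_add]
      congr 1
      omega
    rw [this, Real.log_pow]
    push_cast
    ring
  have hlogN1 : Real.log ((2 ^ (i - T) : ℕ) : ℝ) = ((i - T : ℕ) : ℝ) * Real.log 2 := by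
    push_cast
    rw [Real.log_pow]
  rw [hratio, hlogN1] at h3
  have hTR : (1 : ℝ) ≤ T := by exact_mod_cast hT
  have hiT : (0 : ℝ) < ((i - T : ℕ) : ℝ) := by
    have : 0 < i - T := by omega
    exact_mod_cast this
  have hLmono : ∑ l ∈ (Icc 1 (2 ^ (i + 1))).filter (fun l : ℕ => l.Prime ∧ 2 ^ T < l), 1 / (l : ℝ)
      ≤ L := by
    rw [hL]
    apply sum_le_sum_of_subset_of_nonneg
    · intro l hl
      simp only [PT, mem_filter, mem_Icc] at hl ⊢
      refine ⟨⟨hl.1.1, hl.1.2.trans ?_⟩, hl.2⟩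
      exact Nat.pow_le_pow_right (by norm_num) (by omega)
    · intro l _ _
      positivity
  have h4 : ∑ r ∈ W, ((∏ l ∈ r.primeFactors, (2 / 3 * Real.exp (1 / (3 * (l : ℝ))))) / (r : ℝ)) ≤
      C₂ * ((T + 2) / (((i - T : ℕ) : ℝ) * Real.log 2)) * Real.exp ((2 / 3) * L) := by
    refine h3.trans ?_
    have e1 : C₂ * (((T : ℝ) + 1) * Real.log 2 + 1) / (((i - T : ℕ) : ℝ) * Real.log 2) ≤
        C₂ * ((T + 2) / (((i - T : ℕ) : ℝ) * Real.log 2)) := by
      rw [mul_div_assoc]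
      apply mul_le_mul_of_nonneg_left _ hC₂.le
      apply div_le_div_of_nonneg_right _ (by positivity)
      nlinarith
    have e2 : Real.exp ((2 / 3) * ∑ l ∈ (Icc 1 (2 ^ (i + 1))).filter
        (fun l : ℕ => l.Prime ∧ 2 ^ T < l), 1 / (l : ℝ)) ≤ Real.exp ((2 / 3) * L) := by
      apply Real.exp_le_exp.mpr
      linarith
    exact mul_le_mul e1 e2 (Real.exp_pos _).le (by positivity)
  -- lower bound for the sum over `B`
  have h5 : ((B.card : ℕ) : ℝ) * Real.exp (-((7 / 12) * L)) ≤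
      ∑ n ∈ B, (2 / 3 : ℝ) ^ om (PT T) n := by
    calc _ = ∑ n ∈ B, Real.exp (-((7 / 12) * L)) := by rw [sum_const, nsmul_eq_mul]
      _ ≤ _ := by
        apply sum_le_sum
        intro n hn
        rw [hB, mem_filter, not_le] at hn
        have e3 : (2 / 3 : ℝ) ^ om (PT T) n = ((3 / 2 : ℝ) ^ om (PT T) n)⁻¹ := by
          rw [← inv_pow]
          norm_num
        rw [e3, Real.exp_neg]
        exact inv_anti₀ (by positivity) hn.2.le
  have h6 : ((B.card : ℕ) : ℝ) * Real.exp (-((7 / 12) * L)) ≤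
      C₁ * X * Real.exp (-(1 / 3) * L) *
      (C₂ * ((T + 2) / (((i - T : ℕ) : ℝ) * Real.log 2)) * Real.exp ((2 / 3) * L)) :=
    h5.trans (hB2.trans (mul_le_mul_of_nonneg_left h4 (by positivity)))
  have h7 : 0 < Real.exp (-((7 / 12) * L)) := Real.exp_pos _
  have h8 : Real.exp (-(1 / 3) * L) * Real.exp ((2 / 3) * L) =
      Real.exp ((11 / 12) * L) * Real.exp (-((7 / 12) * L)) := by
    rw [← Real.exp_add, ← Real.exp_add]
    congr 1
    ring
  have h9 : ((B.card : ℕ) : ℝ) * Real.exp (-((7 / 12) * L)) ≤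
      (C₁ * C₂ * X * Real.exp ((11 / 12) * L) *
        ((T + 2) / (((i - T : ℕ) : ℝ) * Real.log 2))) * Real.exp (-((7 / 12) * L)) := by
    calc _ ≤ _ := h6
      _ = C₁ * C₂ * X * ((T + 2) / (((i - T : ℕ) : ℝ) * Real.log 2)) *
          (Real.exp (-(1 / 3) * L) * Real.exp ((2 / 3) * L)) := by ring
      _ = _ := by rw [h8]; ring
  exact le_of_mul_le_mul_right h9 h7

/-- Few integers have a rough divisor in the window.  `P = PT T`, `L = ∑_{l ∈ P} 1 / l`. -/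
theorem window_divisors (η : ℝ) (hη : 0 < η) : ∃ C : ℝ, 0 < C ∧ ∃ T₀ : ℕ, ∀ T : ℕ, T₀ ≤ T →
    ∀ i : ℕ, η * (T : ℝ) ^ 2 ≤ i → i ≤ T ^ 2 → ∀ X : ℕ, 2 ^ (10 * T ^ 2) ≤ X →
    ((((Icc 1 X).filter (fun n => ∃ r : ℕ, Rough (2 ^ T) r ∧ Squarefree r ∧
        2 ^ i ≤ r * 2 ^ T ∧ r < 2 ^ (i + 1) ∧ r ∣ n)).card : ℕ) : ℝ) ≤
      C * (T : ℝ) ^ (-(1 / 12) : ℝ) * X := by
  obtain ⟨C₁, hC₁, h1⟩ := wd_second
  obtain ⟨c, C, hc, hC, hPT⟩ := PT_bounds
  refine ⟨c ^ (-(1 / 12) : ℝ) + C₁ * C ^ (11 / 12 : ℝ) * (12 / η), by positivity,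
    max 2 ⌈4 / η⌉₊, ?_⟩
  intro T hT i hi hi2 X hX
  have hT2 : 2 ≤ T := le_trans (le_max_left _ _) hT
  have hTR : (2 : ℝ) ≤ T := by exact_mod_cast hT2
  have hT0 : (0 : ℝ) < T := by linarith
  have hTη : 4 ≤ η * T := by
    have h : 4 / η ≤ (T : ℝ) :=
      (Nat.le_ceil _).trans (by exact_mod_cast le_trans (le_max_right _ _) hT)
    rw [div_le_iff₀ hη] at h
    linarith
  have hi3 : 4 * (T : ℝ) ≤ i := by
    refine le_trans ?_ hi
    nlinarith
  have hi4 : 4 * T ≤ i := by exact_mod_cast hi3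
  obtain ⟨g1, g2⟩ := hPT T hT2
  set L : ℝ := ∑ l ∈ PT T, 1 / (l : ℝ) with hL
  set S := (Icc 1 X).filter (fun n => ∃ r : ℕ, Rough (2 ^ T) r ∧ Squarefree r ∧
        2 ^ i ≤ r * 2 ^ T ∧ r < 2 ^ (i + 1) ∧ r ∣ n) with hS
  have hfirst := wd_first T X S (filter_subset _ _) L hL
  have hsecond := h1 T i X (by omega) (by omega) hi2 hX L hL S (le_refl _)
  have hcard : ((S.card : ℕ) : ℝ) =
      (((S.filter (fun n => Real.exp ((7 / 12) * L) ≤ (3 / 2 : ℝ) ^ om (PT T) n)).card : ℕ) : ℝ) +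
      (((S.filter (fun n => ¬ Real.exp ((7 / 12) * L) ≤ (3 / 2 : ℝ) ^ om (PT T) n)).card : ℕ) : ℝ)
      := by
    rw [← Nat.cast_add, card_filter_add_card_filter_not]
  have hX0 : (0 : ℝ) ≤ X := Nat.cast_nonneg _
  have e1 : Real.exp (-(1 / 12) * L) ≤ c ^ (-(1 / 12) : ℝ) * (T : ℝ) ^ (-(1 / 12) : ℝ) := by
    rw [← Real.mul_rpow hc.le hT0.le]
    calc Real.exp (-(1 / 12) * L) = (Real.exp L) ^ (-(1 / 12) : ℝ) := by
          rw [← Real.exp_mul]; congr 1; ring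
      _ ≤ (c * T) ^ (-(1 / 12) : ℝ) :=
          Real.rpow_le_rpow_of_nonpos (by positivity) g1 (by norm_num)
  have e2 : Real.exp ((11 / 12) * L) ≤ C ^ (11 / 12 : ℝ) * (T : ℝ) ^ (11 / 12 : ℝ) := by
    rw [← Real.mul_rpow hC.le hT0.le]
    calc Real.exp ((11 / 12) * L) = (Real.exp L) ^ (11 / 12 : ℝ) := by
          rw [← Real.exp_mul]; congr 1; ring
      _ ≤ (C * T) ^ (11 / 12 : ℝ) :=
          Real.rpow_le_rpow (Real.exp_pos _).le g2 (by norm_num)
  have e3 : ((T : ℝ) + 2) / (((i - T : ℕ) : ℝ) * Real.log 2) ≤ (12 / η) * (1 / T) := by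
    have hlog2 : (1 / 2 : ℝ) ≤ Real.log 2 := by
      have := Real.log_two_gt_d9
      linarith
    have hsub : ((i - T : ℕ) : ℝ) = (i : ℝ) - T := by
      rw [Nat.cast_sub (by omega)]
    have hge : η * (T : ℝ) ^ 2 / 2 ≤ (i : ℝ) - T := by nlinarith
    have hpos : 0 < η * (T : ℝ) ^ 2 / 2 := by positivity
    rw [hsub]
    calc ((T : ℝ) + 2) / (((i : ℝ) - T) * Real.log 2)
        ≤ (3 * T) / ((η * (T : ℝ) ^ 2 / 2) * (1 / 2)) := by
          have hpos' : 0 ≤ (i : ℝ) - T := by linarith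
          apply div_le_div₀ (by positivity) (by linarith) (by positivity)
          exact mul_le_mul hge hlog2 (by norm_num) hpos'
      _ = (12 / η) * (1 / T) := by
          field_simp
          ring
  have e4 : (T : ℝ) ^ (11 / 12 : ℝ) * (1 / T) = (T : ℝ) ^ (-(1 / 12) : ℝ) := by
    rw [one_div, ← Real.rpow_neg_one, ← Real.rpow_add hT0]
    norm_num
  rw [hcard]
  calc _ ≤ Real.exp (-(1 / 12) * L) * X +
        C₁ * X * Real.exp ((11 / 12) * L) * ((T + 2) / ((i - T : ℕ) * Real.log 2)) :=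
        add_le_add hfirst hsecond
    _ ≤ (c ^ (-(1 / 12) : ℝ) * (T : ℝ) ^ (-(1 / 12) : ℝ)) * X +
        C₁ * X * (C ^ (11 / 12 : ℝ) * (T : ℝ) ^ (11 / 12 : ℝ)) * ((12 / η) * (1 / T)) := by
        gcongr
    _ = (c ^ (-(1 / 12) : ℝ) * (T : ℝ) ^ (-(1 / 12) : ℝ)) * X +
        C₁ * X * C ^ (11 / 12 : ℝ) * (12 / η) * ((T : ℝ) ^ (11 / 12 : ℝ) * (1 / T)) := by ring
    _ = _ := by rw [e4]; ring

end Pool.Agent.Lib.MP_1bd11d_co.SG
end

section

set_option autoImplicit false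

open Finset Filter
open scoped Classical Topology

namespace Pool.Agent.Lib.MP_1bd11d_co.SG

/-! ### Asymptotic facts in `x = log p` -/

theorem ev_T (T₀ : ℕ) : ∀ᶠ x : ℝ in atTop, T₀ ≤ ⌊√(x / 100)⌋₊ := by
  have h1 : Tendsto (fun x : ℝ => √(x / 100)) atTop atTop :=
    Real.tendsto_sqrt_atTop.comp (tendsto_id.atTop_div_const (by norm_num))
  filter_upwards [h1.eventually_ge_atTop (T₀ : ℝ)] with x hx
  exact Nat.le_floor hx

theorem ev_T' : ∀ᶠ x : ℝ in atTop, √x / 20 ≤ (⌊√(x / 100)⌋₊ : ℝ) := by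
  filter_upwards [eventually_ge_atTop (400 : ℝ)] with x hx
  have h1 : √(x / 100) = √x / 10 := by
    rw [Real.sqrt_div' x (by norm_num)]
    congr 1
    rw [show (100 : ℝ) = 10 ^ 2 by norm_num]
    exact Real.sqrt_sq (by norm_num)
  have h2 : (20 : ℝ) ≤ √x := by
    rw [show (20 : ℝ) = √(20 ^ 2) by rw [Real.sqrt_sq (by norm_num)]]
    apply Real.sqrt_le_sqrt
    linarith
  have h3 := Nat.lt_floor_add_one (√(x / 100))
  rw [h1] at h3 ⊢
  linarith

theorem ev_log (K : ℝ) : ∀ᶠ x : ℝ in atTop, K * Real.log x < x ^ (1 / 600 : ℝ) := by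
  have h := isLittleO_log_rpow_atTop (show (0 : ℝ) < 1 / 600 by norm_num)
  have h2 := h.def (show (0 : ℝ) < 1 / (|K| + 1) by positivity)
  filter_upwards [h2, eventually_ge_atTop (1 : ℝ)] with x hx hx1
  have hlog : 0 ≤ Real.log x := Real.log_nonneg hx1
  have hpow : 0 < x ^ (1 / 600 : ℝ) := Real.rpow_pos_of_pos (by linarith) _
  rw [Real.norm_of_nonneg hlog, Real.norm_of_nonneg hpow.le] at hx
  have h3 : (|K| + 1) * Real.log x ≤ x ^ (1 / 600 : ℝ) := by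
    rw [div_mul_eq_mul_div, one_mul, le_div_iff₀ (by positivity)] at hx
    linarith
  rcases hlog.eq_or_lt with h0 | h0
  · rw [← h0]; simpa using hpow
  · have : K * Real.log x < (|K| + 1) * Real.log x := by
      apply mul_lt_mul_of_pos_right _ h0
      have := le_abs_self K
      linarith
    linarith

theorem ev_exp (a b : ℝ) (ha : 0 < a) (K : ℝ) : ∀ᶠ x : ℝ in atTop, K * x ^ b < Real.exp (a * x) := by
  have h := isLittleO_rpow_exp_pos_mul_atTop b ha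
  have h2 := h.def (show (0 : ℝ) < 1 / (|K| + 1) by positivity)
  filter_upwards [h2, eventually_gt_atTop (0 : ℝ)] with x hx hx1
  have hpow : 0 < x ^ b := Real.rpow_pos_of_pos hx1 _
  rw [Real.norm_of_nonneg hpow.le, Real.norm_of_nonneg (Real.exp_pos _).le] at hx
  have h3 : (|K| + 1) * x ^ b ≤ Real.exp (a * x) := by
    rw [div_mul_eq_mul_div, one_mul, le_div_iff₀ (by positivity)] at hx
    linarith
  have : K * x ^ b < (|K| + 1) * x ^ b := by
    apply mul_lt_mul_of_pos_right _ hpow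
    have := le_abs_self K
    linarith
  linarith

theorem ev_pow : ∀ᶠ T : ℕ in atTop, T ^ 10 ≤ 2 ^ T := by
  have h := isLittleO_pow_const_const_pow_of_one_lt (R := ℝ) 10 (show (1 : ℝ) < 2 by norm_num)
  have h2 := h.def (show (0 : ℝ) < 1 by norm_num)
  filter_upwards [h2] with T hT
  rw [one_mul, Real.norm_of_nonneg (by positivity), Real.norm_of_nonneg (by positivity)] at hT
  exact_mod_cast hT

/-! ### The energy is at most a constant times `W₀` -/

/-- The energy is at most a constant times the total mass. -/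
theorem energy_le : ∃ K : ℝ, 1 ≤ K ∧ ∃ T₀ : ℕ, ∀ T : ℕ, T₀ ≤ T → ∀ i : ℕ, i ≤ T ^ 2 → ∀ c : ℝ,
    0 < c → c * (2 : ℝ) ^ i / Real.log T ≤ ((DD T i).card : ℝ) →
    ∃ E₁ : ℝ,
      (∑ D ∈ DD T i, ∑ D' ∈ (DD T i).filter (fun D' => D' ≠ D ∧ bbf T D' = bbf T D),
        ((Nat.gcd D D' : ℕ) : ℝ) ≤ E₁) ∧
      c * ((2 : ℝ) ^ i) ^ 2 / Real.log T ≤ ∑ D ∈ DD T i, (D : ℝ) ∧
      (∑ D ∈ DD T i, (D : ℝ) +
          18 * ((2 : ℝ) ^ i) ^ 2 / (T : ℝ) ^ 5 * (1 + Real.log (2 * 2 ^ i)) + E₁) ≤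
        (1 + K / c) * ∑ D ∈ DD T i, (D : ℝ) := by
  obtain ⟨C₄, hC₄, h4⟩ := same_smooth_energy
  obtain ⟨C₁, hC₁, h1⟩ := SS_le
  obtain ⟨T₁, hT₁⟩ := eventually_atTop.1 ev_pow
  refine ⟨54 + C₄ * C₁, by nlinarith, max T₁ 3, fun T hT i hi c hc hcard => ?_⟩
  have hT3 : 3 ≤ T := le_trans (le_max_right _ _) hT
  have hT10 : T ^ 10 ≤ 2 ^ T := hT₁ T (le_trans (le_max_left _ _) hT)
  have hTR : (3 : ℝ) ≤ T := by exact_mod_cast hT3
  have hlogT : 0 < Real.log T := Real.log_pos (by linarith)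
  have hlog2 : 0 < Real.log 2 := Real.log_pos (by norm_num)
  have hDD : ∀ D ∈ DD T i, 2 ^ i ≤ D ∧ D < 2 * 2 ^ i := by
    intro D hD
    unfold DD at hD
    rw [mem_filter, mem_Ico] at hD
    refine ⟨hD.1.1, ?_⟩
    have := hD.1.2
    rw [pow_succ] at this
    omega
  have hgood : ∀ D ∈ DD T i, Good T D := by
    intro D hD
    unfold DD at hD
    exact (mem_filter.1 hD).2
  set N : ℕ := 2 ^ i with hN
  have hNpos : 0 < N := by positivity
  have hNR : (N : ℝ) = 2 ^ i := by rw [hN]; push_cast; rfl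
  have hE := h4 N (T ^ 10) (2 ^ T) (DD T i) (bbf T) (rrf T) hNpos
    (by
      calc 2 = 2 ^ 1 := by norm_num
        _ ≤ 2 ^ T := Nat.pow_le_pow_right (by norm_num) (by omega)) hT10 hDD
    (fun D hD => (bbf_spec T D (hgood D hD)).1.symm)
    (by
      intro D hD l hl hlD
      have hs := bbf_spec T D (hgood D hD)
      have hbpos : 0 < bbf T D := by
        rcases Nat.eq_zero_or_pos (bbf T D) with h0 | h0
        · have h00 := hs.1
          rw [h0, zero_mul] at h00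
          have := (hDD D hD).1
          omega
        · exact h0
      exact ⟨hs.2.2.1 l hl hlD, (Nat.le_of_dvd hbpos hlD).trans hs.2.1⟩)
    (fun D hD => (bbf_spec T D (hgood D hD)).2.2.2.1)
  refine ⟨_, hE, ?_, ?_⟩
  · -- lower bound of the mass
    have h2 : ((DD T i).card : ℝ) * (2 : ℝ) ^ i ≤ ∑ D ∈ DD T i, (D : ℝ) := by
      rw [← nsmul_eq_mul]
      apply card_nsmul_le_sum
      intro D hD
      have := (hDD D hD).1
      rw [← hNR]
      exact_mod_cast this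
    refine le_trans ?_ h2
    have h3 := mul_le_mul_of_nonneg_right hcard (show (0 : ℝ) ≤ 2 ^ i by positivity)
    refine le_trans (le_of_eq ?_) h3
    ring
  · have hmass : c * ((2 : ℝ) ^ i) ^ 2 / Real.log T ≤ ∑ D ∈ DD T i, (D : ℝ) := by
      have h2 : ((DD T i).card : ℝ) * (2 : ℝ) ^ i ≤ ∑ D ∈ DD T i, (D : ℝ) := by
        rw [← nsmul_eq_mul]
        apply card_nsmul_le_sum
        intro D hD
        have := (hDD D hD).1
        rw [← hNR]
        exact_mod_cast this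
      refine le_trans ?_ h2
      have h3 := mul_le_mul_of_nonneg_right hcard (show (0 : ℝ) ≤ 2 ^ i by positivity)
      refine le_trans (le_of_eq ?_) h3
      ring
    -- `1 + log (2 N) ≤ 3 T²`
    have hlogN : 1 + Real.log (2 * 2 ^ i) ≤ 3 * (T : ℝ) ^ 2 := by
      rw [Real.log_mul (by norm_num) (by positivity), Real.log_pow]
      have hi' : (i : ℝ) ≤ (T : ℝ) ^ 2 := by exact_mod_cast hi
      have hl2 : Real.log 2 ≤ 1 := by
        have := Real.log_two_lt_d9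
        linarith
      nlinarith
    have hlogN' : Real.log (2 * 2 ^ i) ≤ 2 * (T : ℝ) ^ 2 * Real.log 2 := by
      rw [Real.log_mul (by norm_num) (by positivity), Real.log_pow]
      have hi' : (i : ℝ) ≤ (T : ℝ) ^ 2 := by exact_mod_cast hi
      have h1i : 1 + (i : ℝ) ≤ 2 * (T : ℝ) ^ 2 := by nlinarith
      nlinarith [mul_le_mul_of_nonneg_right h1i hlog2.le]
    have hlogTle : Real.log T ≤ T := (Real.log_le_sub_one_of_pos (by linarith)).trans (by linarith)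
    have hsec : 18 * ((2 : ℝ) ^ i) ^ 2 / (T : ℝ) ^ 5 * (1 + Real.log (2 * 2 ^ i)) ≤
        54 * (((2 : ℝ) ^ i) ^ 2 / Real.log T) := by
      calc 18 * ((2 : ℝ) ^ i) ^ 2 / (T : ℝ) ^ 5 * (1 + Real.log (2 * 2 ^ i))
          ≤ 18 * ((2 : ℝ) ^ i) ^ 2 / (T : ℝ) ^ 5 * (3 * (T : ℝ) ^ 2) := by gcongr
        _ = 54 * (((2 : ℝ) ^ i) ^ 2 / (T : ℝ) ^ 3) := by
            field_simp
            ring
        _ ≤ 54 * (((2 : ℝ) ^ i) ^ 2 / Real.log T) := by
            gcongr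
            refine hlogTle.trans ?_
            nlinarith [sq_nonneg ((T : ℝ) - 1)]
    have hthird : C₄ * (N : ℝ) ^ 2 * SS (2 * N) /
        (SS (T ^ 10) * Real.log ((2 ^ T : ℕ) : ℝ) ^ 2) ≤
        C₄ * C₁ * (((2 : ℝ) ^ i) ^ 2 / Real.log T) := by
      have h5 : SS (2 * N) ≤ C₁ * (2 * (T : ℝ) ^ 2 * Real.log 2) := by
        refine (h1 (2 * N) (by omega)).trans ?_
        have : Real.log ((2 * N : ℕ) : ℝ) = Real.log (2 * 2 ^ i) := by
          push_cast; rw [hNR]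
        rw [this]
        gcongr
      have h6 : 10 * Real.log T ≤ SS (T ^ 10) := by
        refine le_trans ?_ (log_le_SS (T ^ 10))
        have : 10 * Real.log T = Real.log (((T ^ 10 : ℕ)) : ℝ) := by
          push_cast; rw [Real.log_pow]; norm_num
        rw [this]
        apply Real.log_le_log
        · positivity
        · linarith
      have h7 : Real.log ((2 ^ T : ℕ) : ℝ) = T * Real.log 2 := by
        push_cast; rw [Real.log_pow]
      rw [h7, hNR]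
      have hpos : 0 < SS (T ^ 10) := lt_of_lt_of_le (by positivity) h6
      calc C₄ * ((2 : ℝ) ^ i) ^ 2 * SS (2 * N) / (SS (T ^ 10) * (T * Real.log 2) ^ 2)
          ≤ C₄ * ((2 : ℝ) ^ i) ^ 2 * (C₁ * (2 * (T : ℝ) ^ 2 * Real.log 2)) /
            ((10 * Real.log T) * (T * Real.log 2) ^ 2) := by gcongr
        _ = C₄ * C₁ * (((2 : ℝ) ^ i) ^ 2 / Real.log T) * (2 / (10 * Real.log 2)) := by
            field_simp
        _ ≤ C₄ * C₁ * (((2 : ℝ) ^ i) ^ 2 / Real.log T) * 1 := by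
            have hl : (2 : ℝ) / (10 * Real.log 2) ≤ 1 := by
              rw [div_le_one (by positivity)]
              have := Real.log_two_gt_d9
              linarith
            gcongr
        _ = _ := by ring
    have hkey : ((2 : ℝ) ^ i) ^ 2 / Real.log T ≤ (1 / c) * ∑ D ∈ DD T i, (D : ℝ) := by
      rw [div_mul_eq_mul_div, one_mul, le_div_iff₀ hc]
      refine le_trans (le_of_eq ?_) hmass
      ring
    have hK : 0 ≤ 54 + C₄ * C₁ := by positivity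
    calc _ ≤ ∑ D ∈ DD T i, (D : ℝ) + 54 * (((2 : ℝ) ^ i) ^ 2 / Real.log T) +
          C₄ * C₁ * (((2 : ℝ) ^ i) ^ 2 / Real.log T) := by gcongr
      _ = ∑ D ∈ DD T i, (D : ℝ) + (54 + C₄ * C₁) * (((2 : ℝ) ^ i) ^ 2 / Real.log T) := by ring
      _ ≤ ∑ D ∈ DD T i, (D : ℝ) + (54 + C₄ * C₁) * ((1 / c) * ∑ D ∈ DD T i, (D : ℝ)) := by
          gcongr
      _ = _ := by ring

end Pool.Agent.Lib.MP_1bd11d_co.SG
end

section

set_option autoImplicit false

open Finset Filter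
open scoped Classical Topology

namespace Pool.Agent.Lib.MP_1bd11d_co.SG

/-- The numerical contradiction. -/
theorem numeric {p a s y L N W B E K₁ c lT : ℝ} (hp : 0 < p) (hs : 0 < s) (hsa : a = s ^ 2)
    (hy : 0 < y) (hN : 1 ≤ N) (hlT : 0 < lT) (hc : 0 < c) (hW : c * N ^ 2 / lT ≤ W)
    (hB : 0 ≤ B) (hE : E ≤ K₁ * W) (hL : p / s / y ≤ L)
    (h1 : 20480 * B * K₁ * y ^ 2 * lT < c) (h2 : 8192 * N ^ 3 * y ^ 3 < s)
    (hcore : (a / p) * (L / (8 * N)) * (W / 2) ≤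
      √(20 * p * B * E * (a / p)) + W * √(8 * N * p / L)) : False := by
  have hN0 : 0 < N := by linarith
  have hW0 : 0 < W := lt_of_lt_of_le (by positivity) hW
  have hL0 : 0 < L := lt_of_lt_of_le (by positivity) hL
  have hM : s * W / (16 * N * y) ≤ (a / p) * (L / (8 * N)) * (W / 2) := by
    calc s * W / (16 * N * y) = (a / p) * ((p / s / y) / (8 * N)) * (W / 2) := by
          rw [hsa]; field_simp; ring
      _ ≤ _ := by
          rw [hsa]
          gcongr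
  have hA : √(20 * p * B * E * (a / p)) < s * W / (32 * N * y) := by
    rw [Real.sqrt_lt' (by positivity)]
    have e1 : 20 * p * B * E * (a / p) = 20 * B * E * s ^ 2 := by
      rw [hsa]; field_simp
    rw [e1]
    have e2 : 20 * B * E * s ^ 2 ≤ 20 * B * (K₁ * W) * s ^ 2 := by gcongr
    refine lt_of_le_of_lt e2 ?_
    have e3 : 20480 * B * K₁ * y ^ 2 * N ^ 2 < W := by
      refine lt_of_lt_of_le ?_ hW
      rw [lt_div_iff₀ hlT]
      calc 20480 * B * K₁ * y ^ 2 * N ^ 2 * lT = (20480 * B * K₁ * y ^ 2 * lT) * N ^ 2 := by ring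
        _ < c * N ^ 2 := by gcongr
    rw [div_pow, lt_div_iff₀ (by positivity)]
    calc 20 * B * (K₁ * W) * s ^ 2 * (32 * N * y) ^ 2
        = (20480 * B * K₁ * y ^ 2 * N ^ 2) * (s ^ 2 * W) := by ring
      _ < W * (s ^ 2 * W) := by gcongr
      _ = (s * W) ^ 2 := by ring
  have hBB : √(8 * N * p / L) < s / (32 * N * y) := by
    rw [Real.sqrt_lt' (by positivity)]
    have e1 : p / L ≤ s * y := by
      rw [div_le_iff₀ hL0]
      have : p = (s * y) * (p / s / y) := by field_simp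
      calc p = (s * y) * (p / s / y) := this
        _ ≤ s * y * L := by gcongr
    have e2 : 8 * N * p / L ≤ 8 * N * (s * y) := by
      calc 8 * N * p / L = 8 * N * (p / L) := by ring
        _ ≤ _ := by gcongr
    refine lt_of_le_of_lt e2 ?_
    rw [div_pow, lt_div_iff₀ (by positivity)]
    calc 8 * N * (s * y) * (32 * N * y) ^ 2 = (8192 * N ^ 3 * y ^ 3) * s := by ring
      _ < s * s := by gcongr
      _ = s ^ 2 := by ring
  have hC : W * √(8 * N * p / L) < s * W / (32 * N * y) := by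
    calc W * √(8 * N * p / L) < W * (s / (32 * N * y)) := by gcongr
      _ = _ := by ring
  have hsum : s * W / (32 * N * y) + s * W / (32 * N * y) = s * W / (16 * N * y) := by
    field_simp; ring
  linarith

/-- The theorem in terms of `x = log |A|`. -/
theorem main_x : ∃ x₀ : ℝ, ∀ p : ℕ, p.Prime → ∀ A : Finset (ZMod p), 0 < A.card →
    x₀ ≤ Real.log A.card → ∃ n : ZMod p, n ≠ 0 ∧ ∀ L : ℕ,
      (p : ℝ) / √(A.card) / (Real.log A.card) ^ (1 / 50 : ℝ) ≤ L → ¬ HasGap (dilate n A) L := by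
  obtain ⟨c, η, hc, hη, T₁, hT₁⟩ := choose_scale
  obtain ⟨C₈, hC₈, T₂, hT₂⟩ := window_divisors η hη
  obtain ⟨K, hK1, T₃, hT₃⟩ := energy_le
  obtain ⟨T₄, hT₄⟩ := eventually_atTop.1 ev_pow
  set K₁ : ℝ := 1 + K / c with hK₁
  have hK₁pos : 0 < K₁ := by positivity
  set T₀ : ℕ := max (max T₁ T₂) (max (max T₃ T₄) 3) with hT₀
  have hev := (((ev_T T₀).and ev_T').and
    ((ev_log (20480 * (C₈ * 20) * K₁ / c)).and
      (ev_exp (42 / 100) (3 / 50) (by norm_num) 8192))).and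
    ((ev_exp (49 / 100) (1 / 50) (by norm_num) 8).and (eventually_ge_atTop (1 : ℝ)))
  obtain ⟨x₀, hx₀⟩ := eventually_atTop.1 hev
  refine ⟨x₀, fun p hp A hA hpx => ?_⟩
  obtain ⟨⟨⟨e1, e2⟩, e3, e4⟩, e5, e8⟩ := hx₀ (Real.log A.card) hpx
  have : Fact p.Prime := ⟨hp⟩
  have hpR : (0 : ℝ) < p := by exact_mod_cast hp.pos
  have hA0 : (0 : ℝ) < A.card := by exact_mod_cast hA
  set x : ℝ := Real.log A.card with hx
  set T : ℕ := ⌊√(x / 100)⌋₊ with hT
  have hax : (A.card : ℝ) = Real.exp x := by rw [hx, Real.exp_log hA0]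
  have hx0 : 0 < x := by linarith
  clear_value T x
  have hTT : T₁ ≤ T ∧ T₂ ≤ T ∧ T₃ ≤ T ∧ T₄ ≤ T ∧ 3 ≤ T := by
    refine ⟨?_, ?_, ?_, ?_, ?_⟩ <;> omega
  obtain ⟨t1, t2, t3, t4, t5⟩ := hTT
  obtain ⟨i, hi1, hi2, hi3⟩ := hT₁ T t1
  have hTR : (3 : ℝ) ≤ T := by exact_mod_cast t5
  have hlogT : 0 < Real.log T := Real.log_pos (by linarith)
  have hT10 : T ^ 10 ≤ 2 ^ T := hT₄ T t4
  -- `T ^ 2 ≤ x / 100`
  have hTsq : (T : ℝ) ^ 2 ≤ x / 100 := by
    have h : (T : ℝ) ≤ √(x / 100) := by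
      rw [hT]
      exact Nat.floor_le (Real.sqrt_nonneg _)
    calc (T : ℝ) ^ 2 ≤ (√(x / 100)) ^ 2 := by gcongr
      _ = x / 100 := Real.sq_sqrt (by positivity)
  have h2exp : ∀ k : ℕ, (2 : ℝ) ^ k ≤ Real.exp k := by
    intro k
    have h2 : (2 : ℝ) ≤ Real.exp 1 := by
      have := Real.add_one_le_exp (1 : ℝ)
      linarith
    calc (2 : ℝ) ^ k ≤ (Real.exp 1) ^ k := by gcongr
      _ = Real.exp k := by rw [← Real.exp_nat_mul, mul_one]
  have hNle : (2 : ℝ) ^ i ≤ Real.exp (x / 100) := by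
    calc (2 : ℝ) ^ i ≤ (2 : ℝ) ^ (T ^ 2) := by gcongr; norm_num
      _ ≤ Real.exp ((T ^ 2 : ℕ) : ℝ) := h2exp _
      _ ≤ Real.exp (x / 100) := by
          apply Real.exp_le_exp.2
          push_cast
          exact hTsq
  have hN1 : (1 : ℝ) ≤ 2 ^ i := one_le_pow₀ (by norm_num)
  -- sizes of `A`
  have hAp : (A.card : ℝ) ≤ p := by
    have h := card_le_univ A
    rw [ZMod.card] at h
    exact_mod_cast h
  set s : ℝ := √(A.card) with hs
  have hs0 : 0 < s := Real.sqrt_pos.2 hA0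
  have hss : (A.card : ℝ) = s ^ 2 := (Real.sq_sqrt hA0.le).symm
  clear_value s
  have hsx : s = Real.exp (x / 2) := by
    have h1 : s ^ 2 = (Real.exp (x / 2)) ^ 2 := by
      rw [← hss, hax, ← Real.exp_nat_mul]
      congr 1
      push_cast
      ring
    exact (sq_eq_sq₀ hs0.le (Real.exp_pos _).le).1 h1
  have hs1 : 1 ≤ s := by
    rw [hsx]
    exact Real.one_le_exp (by positivity)
  have hsp : s ^ 2 ≤ p := hss ▸ hAp
  have hsp' : s ≤ p / s := by
    rw [le_div_iff₀ hs0]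
    nlinarith
  set y : ℝ := x ^ (1 / 50 : ℝ) with hy
  have hy1 : 1 ≤ y := Real.one_le_rpow e8 (by norm_num)
  have hy0 : 0 < y := by linarith
  clear_value y
  set Lr : ℝ := (p : ℝ) / s / y with hLr
  have hLr0 : 0 < Lr := div_pos (div_pos hpR hs0) hy0
  clear_value Lr
  set L : ℕ := ⌈Lr⌉₊ with hL
  have hL1 : Lr ≤ L := Nat.le_ceil _
  have hL0 : (0 : ℝ) < L := lt_of_lt_of_le hLr0 hL1
  have hL2 : (L : ℝ) ≤ Lr + 1 := (Nat.ceil_lt_add_one hLr0.le).le
  have hLr_le : Lr ≤ p / s := by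
    rw [hLr]
    exact div_le_self (by positivity) hy1
  have hLle : (L : ℝ) ≤ 2 * (p / s) := by linarith
  have hLr_ge : s / y ≤ Lr := by
    rw [hLr]
    gcongr
  -- the big exponential inequality
  have hbig : (8192 : ℝ) ≤ Real.exp (42 / 100 * x) := by
    refine le_trans ?_ e4.le
    have : (1 : ℝ) ≤ x ^ (3 / 50 : ℝ) := Real.one_le_rpow e8 (by norm_num)
    linarith
  by_contra hcon
  push Not at hcon
  have hgap : ∀ n : ZMod p, n ≠ 0 → HasGap (dilate n A) L := by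
    intro n hn
    obtain ⟨L', hL', hgap'⟩ := hcon n hn
    exact hgap'.mono (Nat.ceil_le.2 hL')
  -- hypotheses of `core`
  have h8N : 8 * 2 ^ i ≤ L := by
    have h : (8 : ℝ) * 2 ^ i ≤ L := by
      calc (8 : ℝ) * 2 ^ i ≤ 8 * Real.exp (x / 100) := by gcongr
        _ ≤ s / y := by
            rw [le_div_iff₀ hy0, hsx]
            calc 8 * Real.exp (x / 100) * y = (8 * y) * Real.exp (x / 100) := by ring
              _ ≤ Real.exp (49 / 100 * x) * Real.exp (x / 100) := by gcongr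
              _ = Real.exp (x / 2) := by rw [← Real.exp_add]; congr 1; ring
        _ ≤ _ := hLr_ge.trans hL1
    exact_mod_cast h
  have hsize : 24 * (2 ^ i) ^ 3 * L < p := by
    have h : (24 : ℝ) * (2 ^ i) ^ 3 * L < p := by
      calc (24 : ℝ) * (2 ^ i) ^ 3 * L
          ≤ 24 * (Real.exp (x / 100)) ^ 3 * (2 * (p / s)) := by gcongr
        _ = (48 * Real.exp (3 / 100 * x) / s) * p := by
            rw [← Real.exp_nat_mul]
            have : Real.exp (3 / 100 * x) = Real.exp ((3 : ℕ) * (x / 100)) := by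
              congr 1; push_cast; ring
            rw [this]; field_simp; ring
        _ < 1 * p := by
            apply mul_lt_mul_of_pos_right _ hpR
            rw [div_lt_one hs0, hsx]
            calc 48 * Real.exp (3 / 100 * x) < 8192 * Real.exp (3 / 100 * x) := by
                  have := Real.exp_pos (3 / 100 * x)
                  linarith
              _ ≤ Real.exp (42 / 100 * x) * Real.exp (3 / 100 * x) := by gcongr
              _ = Real.exp (45 / 100 * x) := by rw [← Real.exp_add]; congr 1; ring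
              _ ≤ Real.exp (x / 2) := by
                  apply Real.exp_le_exp.2
                  linarith
        _ = p := one_mul _
    exact_mod_cast h
  have hB : ∀ X : ℕ, p ≤ L * X →
      ((((Icc 1 X).filter (fun n => ∃ r : ℕ, Rough (2 ^ T) r ∧ Squarefree r ∧
        2 ^ i ≤ r * 2 ^ T ∧ r < 2 ^ (i + 1) ∧ r ∣ n)).card : ℕ) : ℝ) ≤
      (C₈ * (T : ℝ) ^ (-(1 / 12) : ℝ)) * X := by
    intro X hX
    apply hT₂ T t2 i hi1 hi2 X
    have h : ((2 : ℝ) ^ (10 * T ^ 2)) ≤ X := by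
      have hXR : (p : ℝ) ≤ L * X := by exact_mod_cast hX
      have h1 : s / 2 ≤ X := by
        have h2 : (p : ℝ) ≤ (2 * (p / s)) * X := by
          refine hXR.trans ?_
          gcongr
        have h3 : (2 * ((p : ℝ) / s)) * X = p * (2 * X / s) := by field_simp
        rw [h3] at h2
        have h4 : 1 ≤ 2 * (X : ℝ) / s := by
          by_contra hlt
          push Not at hlt
          nlinarith
        rw [le_div_iff₀ hs0] at h4
        linarith
      refine le_trans ?_ h1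
      rw [le_div_iff₀ (by norm_num), hsx]
      calc (2 : ℝ) ^ (10 * T ^ 2) * 2
          ≤ Real.exp ((10 * T ^ 2 : ℕ) : ℝ) * 2 := by
            gcongr
            exact h2exp _
        _ ≤ Real.exp (x / 10) * 2 := by
            gcongr
            push_cast
            linarith
        _ ≤ Real.exp (x / 10) * Real.exp (4 / 10 * x) := by
            gcongr
            have h4 : (8192 : ℝ) ≤ Real.exp (42 / 100 * x) := hbig
            by_contra hlt
            push Not at hlt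
            have h5 : Real.exp (42 / 100 * x) ≤ Real.exp (4 / 10 * x) ^ 2 := by
              rw [← Real.exp_nat_mul]
              apply Real.exp_le_exp.2
              push_cast
              linarith
            have h6 : Real.exp (4 / 10 * x) ^ 2 ≤ 2 ^ 2 := by
              gcongr
            linarith
        _ = Real.exp (x / 2) := by rw [← Real.exp_add]; congr 1; ring
    exact_mod_cast h
  obtain ⟨E₁, hE₁, hmass, hEle⟩ := hT₃ T t3 i hi2 c hc hi3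
  have hcore := core A L hgap T i (by omega) hT10 h8N hsize
    (C₈ * (T : ℝ) ^ (-(1 / 12) : ℝ)) (by positivity) hB E₁ hE₁
  refine numeric (N := 2 ^ i) (lT := Real.log T) (y := y) (c := c) (K₁ := K₁) hpR hs0 hss hy0 hN1
    hlogT hc hmass (B := C₈ * (T : ℝ) ^ (-(1 / 12) : ℝ)) (by positivity) hEle (hLr ▸ hL1) ?_ ?_ hcore
  · -- first numerical inequality
    have hTpow : (T : ℝ) ^ (-(1 / 12) : ℝ) ≤ 20 * x ^ (-(1 / 24) : ℝ) := by
      have hsx : 0 < √x := Real.sqrt_pos.2 hx0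
      calc (T : ℝ) ^ (-(1 / 12) : ℝ) ≤ (√x / 20) ^ (-(1 / 12) : ℝ) := by
            apply Real.rpow_le_rpow_of_nonpos (by positivity) e2 (by norm_num)
        _ = x ^ (-(1 / 24) : ℝ) * (20 : ℝ) ^ (1 / 12 : ℝ) := by
            rw [Real.div_rpow hsx.le (by norm_num), Real.sqrt_eq_rpow, ← Real.rpow_mul hx0.le,
              Real.rpow_neg (by norm_num : (0 : ℝ) ≤ 20), div_inv_eq_mul]
            norm_num
        _ ≤ x ^ (-(1 / 24) : ℝ) * 20 := by
            gcongr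
            calc (20 : ℝ) ^ (1 / 12 : ℝ) ≤ (20 : ℝ) ^ (1 : ℝ) := by
                  apply Real.rpow_le_rpow_of_exponent_le (by norm_num) (by norm_num)
              _ = 20 := Real.rpow_one _
        _ = _ := by ring
    have hlogTx : Real.log T ≤ Real.log x := by
      apply Real.log_le_log (by positivity)
      nlinarith
    have hyy : y ^ 2 = x ^ (1 / 25 : ℝ) := by
      rw [hy, ← Real.rpow_natCast, ← Real.rpow_mul hx0.le]
      norm_num
    have hxpow : x ^ (1 / 600 : ℝ) * (x ^ (-(1 / 24) : ℝ) * x ^ (1 / 25 : ℝ)) = 1 := by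
      rw [← Real.rpow_add hx0, ← Real.rpow_add hx0]
      norm_num
    have hlogx : 0 ≤ Real.log x := Real.log_nonneg e8
    have hxp1 : 0 < x ^ (-(1 / 24) : ℝ) * x ^ (1 / 25 : ℝ) := by positivity
    calc 20480 * (C₈ * (T : ℝ) ^ (-(1 / 12) : ℝ)) * K₁ * y ^ 2 * Real.log T
        ≤ 20480 * (C₈ * (20 * x ^ (-(1 / 24) : ℝ))) * K₁ * y ^ 2 * Real.log x := by gcongr
      _ = c * ((20480 * (C₈ * 20) * K₁ / c) * Real.log x) *
            (x ^ (-(1 / 24) : ℝ) * x ^ (1 / 25 : ℝ)) := by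
          rw [hyy]; field_simp
      _ < c * x ^ (1 / 600 : ℝ) * (x ^ (-(1 / 24) : ℝ) * x ^ (1 / 25 : ℝ)) := by gcongr
      _ = c := by rw [mul_assoc, hxpow, mul_one]
  · -- second numerical inequality
    have hyyy : y ^ 3 = x ^ (3 / 50 : ℝ) := by
      rw [hy, ← Real.rpow_natCast, ← Real.rpow_mul hx0.le]
      norm_num
    calc 8192 * ((2 : ℝ) ^ i) ^ 3 * y ^ 3
        ≤ 8192 * (Real.exp (x / 100)) ^ 3 * y ^ 3 := by gcongr
      _ = (8192 * x ^ (3 / 50 : ℝ)) * Real.exp (3 / 100 * x) := by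
          rw [hyyy, ← Real.exp_nat_mul]
          have : Real.exp ((3 : ℕ) * (x / 100)) = Real.exp (3 / 100 * x) := by
            congr 1; push_cast; ring
          rw [this]; ring
      _ < Real.exp (42 / 100 * x) * Real.exp (3 / 100 * x) := by gcongr
      _ = Real.exp (45 / 100 * x) := by rw [← Real.exp_add]; congr 1; ring
      _ ≤ s := by
          rw [hsx]
          apply Real.exp_le_exp.2
          linarith

/-- **Theorem.**  There is `a₀` such that for every prime `p` and every `A ⊆ ZMod p` with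
`|A| ≥ a₀` some dilate `n A`, `n ≠ 0`, has no gap of length
`≥ (p / √|A|) / (log |A|) ^ (1 / 50)`. -/
theorem main : ∃ a₀ : ℕ, ∀ p : ℕ, p.Prime → ∀ A : Finset (ZMod p), a₀ ≤ A.card →
    ∃ n : ZMod p, n ≠ 0 ∧ ∀ L : ℕ,
      (p : ℝ) / √(A.card) / (Real.log A.card) ^ (1 / 50 : ℝ) ≤ L → ¬ HasGap (dilate n A) L := by
  obtain ⟨x₀, hx₀⟩ := main_x
  obtain ⟨a₁, ha₁⟩ := eventually_atTop.1
    ((Real.tendsto_log_atTop.comp tendsto_natCast_atTop_atTop).eventually_ge_atTop x₀)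
  refine ⟨max a₁ 1, fun p hp A hA => hx₀ p hp A ?_ ?_⟩
  · have := le_trans (le_max_right a₁ 1) hA
    omega
  · exact ha₁ A.card (le_trans (le_max_left a₁ 1) hA)

/-- The case of sets of size `⌊p / 2⌋`. -/
theorem main_half : ∃ p₀ : ℕ, ∀ p : ℕ, p₀ ≤ p → p.Prime → ∀ A : Finset (ZMod p),
    A.card = p / 2 → ∃ n : ZMod p, n ≠ 0 ∧ ∀ L : ℕ,
      √p / (Real.log p) ^ (1 / 60 : ℝ) ≤ L → ¬ HasGap (dilate n A) L := by
  obtain ⟨a₀, ha₀⟩ := main
  have hlim : Tendsto (fun p : ℕ => (Real.log (p : ℝ)) ^ (1 / 300 : ℝ)) atTop atTop :=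
    (tendsto_rpow_atTop (by norm_num)).comp
      (Real.tendsto_log_atTop.comp tendsto_natCast_atTop_atTop)
  obtain ⟨p₁, hp₁⟩ := eventually_atTop.1 (hlim.eventually_ge_atTop 4)
  refine ⟨max p₁ (max (2 * a₀) 9), fun p hp hpp A hA => ?_⟩
  have h1 : p₁ ≤ p := le_trans (le_max_left _ _) hp
  have h2 : 2 * a₀ ≤ p := le_trans (le_trans (le_max_left _ _) (le_max_right _ _)) hp
  have h3 : 9 ≤ p := le_trans (le_trans (le_max_right _ _) (le_max_right _ _)) hp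
  obtain ⟨n, hn, h⟩ := ha₀ p hpp A (by omega)
  refine ⟨n, hn, fun L hL => h L (le_trans ?_ hL)⟩
  have h4 := hp₁ p h1
  have hpR : (9 : ℝ) ≤ p := by exact_mod_cast h3
  have hp0 : (0 : ℝ) < p := by linarith
  have hlogp : 0 < Real.log p := Real.log_pos (by linarith)
  have hA3 : (p : ℝ) / 3 ≤ A.card := by
    have h5 : p ≤ 3 * A.card := by omega
    have h6 : (p : ℝ) ≤ 3 * A.card := by exact_mod_cast h5
    linarith
  have hA0 : (0 : ℝ) < A.card := by linarith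
  have hlogA : Real.log p / 2 ≤ Real.log A.card := by
    have h7 : (p : ℝ) ≤ (A.card : ℝ) ^ 2 := by nlinarith
    have h8 := Real.log_le_log hp0 h7
    rw [Real.log_pow] at h8
    push_cast at h8
    linarith
  have hsq : √(p : ℝ) / 2 ≤ √(A.card) := by
    apply Real.le_sqrt_of_sq_le
    rw [div_pow, Real.sq_sqrt hp0.le]
    linarith
  have hsp : 0 < √(p : ℝ) := Real.sqrt_pos.2 hp0
  have hsa : 0 < √(A.card : ℝ) := Real.sqrt_pos.2 hA0
  have e1 : (p : ℝ) / √(A.card) ≤ 2 * √p := by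
    rw [div_le_iff₀ hsa]
    have : (p : ℝ) = √p * √p := (Real.mul_self_sqrt hp0.le).symm
    nlinarith
  have e2 : (Real.log p) ^ (1 / 50 : ℝ) / 2 ≤ (Real.log A.card) ^ (1 / 50 : ℝ) := by
    calc (Real.log p) ^ (1 / 50 : ℝ) / 2 ≤ (Real.log p) ^ (1 / 50 : ℝ) / 2 ^ (1 / 50 : ℝ) := by
          gcongr
          calc (2 : ℝ) ^ (1 / 50 : ℝ) ≤ (2 : ℝ) ^ (1 : ℝ) := by
                apply Real.rpow_le_rpow_of_exponent_le (by norm_num) (by norm_num)
            _ = 2 := Real.rpow_one _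
      _ = (Real.log p / 2) ^ (1 / 50 : ℝ) := (Real.div_rpow hlogp.le (by norm_num) _).symm
      _ ≤ _ := by gcongr
  have e3 : (Real.log p) ^ (1 / 50 : ℝ) =
      (Real.log p) ^ (1 / 300 : ℝ) * (Real.log p) ^ (1 / 60 : ℝ) := by
    rw [← Real.rpow_add hlogp]
    norm_num
  have hpos : 0 < (Real.log p) ^ (1 / 60 : ℝ) := Real.rpow_pos_of_pos hlogp _
  calc (p : ℝ) / √(A.card) / (Real.log A.card) ^ (1 / 50 : ℝ)
      ≤ (2 * √p) / ((Real.log p) ^ (1 / 50 : ℝ) / 2) := by gcongr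
    _ = √p * (4 / (Real.log p) ^ (1 / 50 : ℝ)) := by
        field_simp
        ring
    _ ≤ √p * (1 / (Real.log p) ^ (1 / 60 : ℝ)) := by
        gcongr ?_ * ?_
        rw [div_le_div_iff₀ (by positivity) hpos, e3]
        nlinarith
    _ = _ := by ring

end Pool.Agent.Lib.MP_1bd11d_co.SG
end
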